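import Pool.Agent.X289.Iso

/-! Several isobaric representations over `ℚ` at once. -/

set_option autoImplicit false

namespace Pool.Agent.X289.Iso

open NumberField IsDedekindDomain Filter Topology Complex
open Pool.Agent.W189.TP (DS)
open Pool.Agent.TH861.GL3 (PL qq two_le_qq qq_pos one_lt_qq)
open Pool.Agent.TH949.LT
open Pool.Agent.TH949.UL
open Pool.Agent.Y725.UG

theorem den_e (e m : ℕ) : ∃ CD : ℝ, Den (fun s => (DQ s ^ e) ^ m) CD := by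
  obtain ⟨CD, h⟩ := den_DQ_pow (e * m)
  refine ⟨CD, ?_⟩
  simpa only [pow_mul] using h

/-- the logarithm of `L^S(s, P × P~) / ζ^S(s)^e` -/
noncomputable def logEQ {S : Finset Nat.Primes} {n : ℕ} (e : ℕ) (α : UP S → Fin n → ℂ) (s : ℂ) : ℂ :=
  ∑' x : UP S × ℕ, (((‖∑ i, α x.1 i ^ (x.2 + 1)‖ ^ 2 - e) / ((x.2 : ℝ) + 1) : ℝ) : ℂ) *
    (((x.1.1 : ℕ) : ℂ) ^ (-s)) ^ (x.2 + 1)

/-- what is used of the representation -/
structure IsoQ {S : Finset Nat.Primes} {n m N : ℕ} (e : ℕ) (α : UP S → Fin n → ℂ) (β : Nat.Primes → Fin m → ℂ)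
    (T : Finset (Nat.Primes × Fin m)) (κ : Fin N → ℂ) (Q : ℝ) : Prop where
  bound : ∀ p i, ‖α p i‖ < ((p.1 : ℕ) : ℝ) ^ (1 / 2 : ℝ)
  ramified : ∀ p ∈ S, ∀ i, ‖β p i‖ < ((p : ℕ) : ℝ)
  removed : ∀ x ∈ T, x.1 ∈ S ∧ ‖β x.1 x.2‖ = 1
  nonneg : ∀ p ∈ S, ∀ k : ℕ, ∃ c : ℝ, 0 ≤ c ∧
    ∑ i, Set.indicator {i | (p, i) ∉ T} (fun i => β p i ^ (k + 1)) i = (c : ℂ)
  one_le : 1 ≤ Q
  conj : Multiset.map (fun j => (starRingEnd ℂ) (κ j)) Finset.univ.val = Multiset.map κ Finset.univ.val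
  re : ∀ j, -1 < (κ j).re
  zero : ∃ j, κ j = 0
  continuation : ∃ (G Ξ : ℂ → ℂ) (ω : ℂ), Differentiable ℂ G ∧ Differentiable ℂ Ξ ∧ ‖ω‖ = 1 ∧
    (∀ s : ℂ, 1 < s.re → G s * ∏ p ∈ S, ∏ i, (1 - β p i * ((p : ℕ) : ℂ) ^ (-s)) =
      ((s - 1) * riemannZeta s) ^ e * Complex.exp (logEQ e α s)) ∧
    (∀ a b : ℝ, ∃ C A : ℝ, ∀ s : ℂ, a ≤ s.re → s.re ≤ b → ‖G s‖ ≤ C * (1 + |s.im|) ^ A) ∧
    (∀ s : ℂ, 1 < s.re → Ξ s = s ^ e * G s * ((Q : ℂ) ^ s * Gammaℝ s ^ e * ∏ j, Gammaℝ (s + κ j))) ∧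
    ∀ s : ℂ, Ξ (1 - s) = ω * Ξ s

theorem rat_iso (n m r N f : ℕ) {ε : ℝ} (hε : 0 < ε) :
    ∃ A : ℝ, 0 < A ∧ ∀ (S : Finset Nat.Primes) (α : Fin m → UP S → Fin n → ℂ)
      (β : Fin m → Nat.Primes → Fin r → ℂ)
      (T : Fin m → Finset (Nat.Primes × Fin r)) (κ : Fin m → Fin N → ℂ) (Q : Fin m → ℝ), 0 < m →
      (∀ i, IsoQ (f + 1) (α i) (β i) (T i) (κ i) (Q i)) →
      ∃ (p : UP S) (k : ℕ), 1 ≤ k ∧
        ((p.1 : ℕ) : ℝ) ^ k ≤
          A * (∏ i, (Q i ^ 2 * (∏ j, (1 + ‖κ i j‖)) * ∏ x ∈ T i, ((x.1 : ℕ) : ℝ))) ^ (1 + ε) ∧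
        ∑ i, ‖∑ j, α i p j ^ k‖ ^ 2 < m * ((f + 1 : ℕ) : ℝ) := by
  classical
  obtain ⟨CD, hCD⟩ := den_e (f + 1) m
  obtain ⟨A, hA0, hA⟩ := gln_iso ℚ n m r N f hCD hε
  refine ⟨A, hA0, fun S α β T κ Q hm h => ?_⟩
  choose G Ξ ω hG hΞ hω hE hgr hΞe hfe using fun i => (h i).continuation
  choose F hF hFG using fun i =>
    gdataE (f + 1) (h i).one_le (hω i) (h i).conj (h i).re (hG i) (hΞ i) (hgr i) (hΞe i) (hfe i)
  set S' : Finset (HeightOneSpectrum (𝓞 ℚ)) := S.map ee.symm.toEmbedding with hS'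
  have hmem : ∀ v, v ∈ S' ↔ ee v ∈ S := by
    intro v
    rw [hS', Finset.mem_map_equiv, Equiv.symm_symm]
  set T' : Fin m → Finset (HeightOneSpectrum (𝓞 ℚ) × Fin r) := fun l =>
    (T l).map (Equiv.prodCongr ee.symm (Equiv.refl (Fin r))).toEmbedding with hT'
  have hTm : ∀ l v i, (v, i) ∈ T' l ↔ (ee v, i) ∈ T l := by
    intro l v i
    rw [hT', Finset.mem_map_equiv]
    rfl
  set α' : Fin m → PL S' → Fin n → ℂ := fun l v => α l ⟨ee v.1, fun h => v.2 ((hmem v.1).2 h)⟩ with hα'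
  set β' : Fin m → HeightOneSpectrum (𝓞 ℚ) → Fin r → ℂ := fun l v i => β l (ee v) i with hβ'
  have hloc : ∀ l, LocT (α' l) (β' l) (T' l) := by
    intro l
    refine ⟨fun v i => ?_, fun v hv i => ?_, fun x hx => ?_, fun v hv k => ?_⟩
    · rw [qq_eq]
      exact (h l).bound _ i
    · rw [qq_eq]
      exact (h l).ramified _ ((hmem v).1 hv) i
    · obtain ⟨v, i⟩ := x
      have h1 := (h l).removed _ ((hTm l v i).1 hx)
      exact ⟨(hmem v).2 h1.1, h1.2⟩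
    · obtain ⟨c, hc, hc2⟩ := (h l).nonneg _ ((hmem v).1 hv) k
      refine ⟨c, hc, ?_⟩
      rw [← hc2]
      refine Finset.sum_congr rfl fun i _ => ?_
      by_cases hi : (v, i) ∈ T' l
      · rw [if_pos hi, Set.indicator_of_notMem (by simpa using (hTm l v i).1 hi)]
      · rw [if_neg hi, Set.indicator_of_mem (by
          have := fun hh => hi ((hTm l v i).2 hh)
          simpa using this)]
  have hlog : ∀ l s, logE (f + 1) (α' l) s = logEQ (f + 1) (α l) s := by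
    intro l s
    unfold logE logEQ
    set e2 : PL S' ≃ UP S := ee.subtypeEquiv (fun v => not_congr (hmem v)) with he2
    rw [← (Equiv.prodCongr e2 (Equiv.refl ℕ)).tsum_eq]
    refine tsum_congr fun x => ?_
    have h1 : (qq x.1.1 : ℕ) = (((e2 x.1).1 : Nat.Primes) : ℕ) := qq_eq x.1.1
    rw [h1]
    rfl
  have hprod : ∀ l, ∀ s : ℂ, ∏ v ∈ S', ∏ i, (1 - β' l v i * ((qq v : ℕ) : ℂ) ^ (-s)) =
      ∏ p ∈ S, ∏ i, (1 - β l p i * ((p : ℕ) : ℂ) ^ (-s)) := by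
    intro l s
    rw [hS', Finset.prod_map]
    refine Finset.prod_congr rfl fun p _ => Finset.prod_congr rfl fun i _ => ?_
    have h1 : ee (ee.symm p) = p := ee.apply_symm_apply p
    have h2 : β' l (ee.symm.toEmbedding p) i = β l p i := by
      rw [hβ']
      simp [h1]
    have h3 : qq (ee.symm.toEmbedding p) = (p : ℕ) := by
      rw [qq_eq]
      simp [h1]
    rw [h2, h3]
  have hT'q : ∀ l, ∏ x ∈ T' l, (qq x.1 : ℝ) = ∏ x ∈ T l, ((x.1 : ℕ) : ℝ) := by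
    intro l
    rw [hT', Finset.prod_map]
    refine Finset.prod_congr rfl fun x _ => ?_
    rw [qq_eq]
    simp
  obtain ⟨v, k, hk, hle, hlt⟩ := hA S' α' β' T' κ Q F hloc hF ⟨⟨0, hm⟩, (h ⟨0, hm⟩).zero⟩ (fun l s hs => by
    have hs1 : 1 < s.re := by linarith
    have hne : s ≠ 1 := fun h0 => by rw [h0] at hs1; simp at hs1
    rw [hprod, hFG l s hs1, hlog, DQ_eq' (by linarith) hne]
    have h1 := hE l s hs1
    have h2 : (s * (s - 1) * (Gammaℝ s * riemannZeta s)) ^ (f + 1) =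
        s ^ (f + 1) * Gammaℝ s ^ (f + 1) * ((s - 1) * riemannZeta s) ^ (f + 1) := by
      rw [← mul_pow, ← mul_pow]
      congr 1
      ring
    rw [h2]
    linear_combination (s ^ (f + 1) * Gammaℝ s ^ (f + 1)) * h1)
  refine ⟨⟨ee v.1, fun h => v.2 ((hmem v.1).2 h)⟩, k, hk, ?_, hlt⟩
  rw [qq_eq] at hle
  simp only [hT'q] at hle
  exact hle

/-! ## Traces -/

/-- a family of numbers as a vector -/
noncomputable def vec {ι : Type} [Fintype ι] (b : ι → ℂ) : Fin (Fintype.card ι) → ℂ :=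
  fun j => b ((Fintype.equivFin ι).symm j)

theorem sum_vec {ι : Type} [Fintype ι] (b : ι → ℂ) (k : ℕ) : ∑ j, vec b j ^ k = ∑ i, b i ^ k :=
  Equiv.sum_comp (Fintype.equivFin ι).symm fun i => b i ^ k

/-- the parameters of `1 ⊞ 3 Ad` -/
noncomputable def b10 (a : Fin 2 → ℂ) : Unit ⊕ (Fin 3 × Fin 3) → ℂ :=
  Sum.elim (fun _ => 1) fun x => adj a x.2

/-- the parameters of `1 ⊞ 3 Ad ⊞ 5 A⁴` -/
noncomputable def b35 (a : Fin 2 → ℂ) : Unit ⊕ (Fin 3 × Fin 3) ⊕ (Fin 5 × Fin 5) → ℂ :=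
  Sum.elim (fun _ => 1) (Sum.elim (fun x => adj a x.2) fun x => four a x.2)

theorem sum_b10 (a : Fin 2 → ℂ) (k : ℕ) : ∑ i, b10 a i ^ k = 1 + 3 * ∑ i, adj a i ^ k := by
  rw [Fintype.sum_sum_type, Fintype.sum_prod_type]
  simp [b10]

theorem sum_b35 (a : Fin 2 → ℂ) (k : ℕ) :
    ∑ i, b35 a i ^ k = 1 + 3 * ∑ i, adj a i ^ k + 5 * ∑ i, four a i ^ k := by
  rw [Fintype.sum_sum_type, Fintype.sum_sum_type, Fintype.sum_prod_type, Fintype.sum_prod_type]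
  simp [b35]
  ring

theorem nontemp {a : Fin 2 → ℂ} (h0 : ∀ i, a i ≠ 0)
    (hu : ∃ τ : Equiv.Perm (Fin 2), ∀ i, a (τ i) = ((starRingEnd ℂ) (a i))⁻¹) {i : Fin 2} (hi : ‖a i‖ ≠ 1) (k : ℕ) :
    ∃ x y : ℝ, 3 ≤ x ∧ 5 ≤ y ∧ ∑ i, adj a i ^ k = (x : ℂ) ∧ ∑ i, four a i ^ k = (y : ℂ) := by
  obtain ⟨h1, h2⟩ := other hu h0 hi
  have h4 : 0 < ‖a 0‖ := norm_pos_iff.2 (h0 0)
  have h5 : a 0 / a 1 = ((‖a 0‖ ^ 2 : ℝ) : ℂ) := by
    rw [h2, div_inv_eq_mul, Complex.mul_conj, Complex.normSq_eq_norm_sq]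
  have h6 : a 1 / a 0 = (((‖a 0‖ ^ 2)⁻¹ : ℝ) : ℂ) := by
    rw [Complex.ofReal_inv, ← h5, inv_div]
  set y : ℝ := (‖a 0‖ ^ 2) ^ k with hy
  have h8 : 0 < y := by positivity
  have h9 : (a 0 / a 1) ^ k = (y : ℂ) := by
    rw [h5, hy]
    push_cast
    rfl
  have h10 : (a 1 / a 0) ^ k = ((y⁻¹ : ℝ) : ℂ) := by
    rw [h6, hy]
    push_cast
    rw [inv_pow]
  have h11 := two_le_add_inv h8
  have h12 : y * y⁻¹ = 1 := mul_inv_cancel₀ h8.ne'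
  have h13 : 0 < y⁻¹ := inv_pos.2 h8
  refine ⟨y + 1 + y⁻¹, y ^ 2 + y + 1 + y⁻¹ + (y⁻¹) ^ 2, by linarith, by nlinarith [sq_nonneg (y - y⁻¹)], ?_, ?_⟩
  · have e0 : adj a 0 = a 0 / a 1 := rfl
    have e1 : adj a 1 = 1 := rfl
    have e2 : adj a 2 = a 1 / a 0 := rfl
    rw [Fin.sum_univ_three, e0, e1, e2, one_pow, h9, h10]
    push_cast
    ring
  · have e0 : four a 0 = (a 0 / a 1) ^ 2 := rfl
    have e1 : four a 1 = a 0 / a 1 := rfl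
    have e2 : four a 2 = 1 := rfl
    have e3 : four a 3 = a 1 / a 0 := rfl
    have e4 : four a 4 = (a 1 / a 0) ^ 2 := rfl
    rw [Fin.sum_univ_five, e0, e1, e2, e3, e4, one_pow, pow_right_comm, pow_right_comm (a 1 / a 0), h9, h10]
    push_cast
    ring

/-- counting -/
theorem few {m : ℕ} {P : Fin m → Prop} {f : Fin m → ℂ} {e : ℝ} (he : 0 < e) (hP : ∀ i, P i → e ≤ ‖f i‖)
    (hs : ∑ i, ‖f i‖ ^ 2 < m * e) : (Nat.card {i // P i} : ℝ) * e < m := by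
  classical
  have h1 : (Nat.card {i // P i} : ℝ) * e ^ 2 ≤ ∑ i, ‖f i‖ ^ 2 := by
    rw [Nat.card_eq_fintype_card, Fintype.card_subtype]
    calc ((Finset.univ.filter P).card : ℝ) * e ^ 2 = ∑ i ∈ Finset.univ.filter P, e ^ 2 := by
          rw [Finset.sum_const, nsmul_eq_mul]
      _ ≤ ∑ i ∈ Finset.univ.filter P, ‖f i‖ ^ 2 := by
          refine Finset.sum_le_sum fun i hi => ?_
          exact pow_le_pow_left₀ he.le (hP i (Finset.mem_filter.1 hi).2) 2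
      _ ≤ _ := Finset.sum_le_univ_sum_of_nonneg fun i => sq_nonneg _
  have h2 : ((Nat.card {i // P i} : ℝ) * e) * e < m * e := by
    calc _ = (Nat.card {i // P i} : ℝ) * e ^ 2 := by ring
      _ < _ := lt_of_le_of_lt h1 hs
  exact lt_of_mul_lt_mul_right h2 he.le

end Pool.Agent.X289.Iso
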