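import Mathlib

set_option autoImplicit false

/-! Satake parameters of unitary representations of `GL(2)`. -/

namespace Pool.Agent.X289.Sat

open scoped ComplexConjugate

/-- The Satake parameters of a unitary representation: a permutation of the parameters agrees with
`z ↦ 1 / conj z`. -/
def Unitary (a : Fin 2 → ℂ) : Prop :=
  (∀ i, a i ≠ 0) ∧ ∃ τ : Equiv.Perm (Fin 2), ∀ i, a (τ i) = (conj (a i))⁻¹

/-- The representation with the parameters `a` is tempered. -/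
def Tempered (a : Fin 2 → ℂ) : Prop := ∀ i, ‖a i‖ = 1

/-- The traces of `1`, `Ad` and `A⁴` for parameters with the quotient `t`. -/
noncomputable def ad (t : ℂ) : Fin 3 → ℂ := ![1, t + 1 + t⁻¹, t ^ 2 + t + 1 + t⁻¹ + t⁻¹ ^ 2]

/-- The traces of `Sym^j`, `j ≤ 4`, for the parameters `z` and `1 / z`. -/
noncomputable def sym (z : ℂ) : Fin 5 → ℂ :=
  ![1, z + z⁻¹, z ^ 2 + 1 + z⁻¹ ^ 2, z ^ 3 + z + z⁻¹ + z⁻¹ ^ 3, z ^ 4 + z ^ 2 + 1 + z⁻¹ ^ 2 + z⁻¹ ^ 4]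

/-- the trace of `Ad π_v` -/
noncomputable def trAd (a : Fin 2 → ℂ) : ℝ := (a 0 / a 1 + 1 + (a 0 / a 1)⁻¹).re

/-- the trace `λ(v)` for the parameters `a, 1/a` -/
noncomputable def lam (a : ℂ) : ℝ := (a + a⁻¹).re

/-- the facts on a unitary parameter -/
theorem facts {a : Fin 2 → ℂ} (h : Unitary a) :
    (a 0 / a 1 ≠ 0) ∧ ((trAd a : ℝ) : ℂ) = a 0 / a 1 + 1 + (a 0 / a 1)⁻¹ ∧
      trAd a = ‖a 0 + a 1‖ ^ 2 - 1 ∧ (¬ Tempered a → 3 < trAd a) := by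
  obtain ⟨h0, τ, hτ⟩ := h
  have ht : a 0 / a 1 ≠ 0 := div_ne_zero (h0 0) (h0 1)
  have two : ∀ x : Fin 2, x = 0 ∨ x = 1 := by decide
  refine ⟨ht, ?_⟩
  by_cases h1 : τ 0 = 0
  · have h2 : τ 1 = 1 := by
      have : τ 1 ≠ τ 0 := fun h => absurd (τ.injective h) (by decide)
      rw [h1] at this
      omega
    have hn : ∀ i, τ i = i → ‖a i‖ = 1 := by
      intro i hi
      have h3 := hτ i
      rw [hi] at h3
      have h4 := congrArg norm h3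
      rw [norm_inv, Complex.norm_conj] at h4
      have h5 : ‖a i‖ ≠ 0 := norm_ne_zero_iff.2 (h0 i)
      have h6 : ‖a i‖ * ‖a i‖ = 1 := by
        rw [← mul_inv_cancel₀ h5]
        exact congrArg (‖a i‖ * ·) h4
      nlinarith [norm_nonneg (a i)]
    have h3 := hn 0 h1
    have h4 := hn 1 h2
    have c0 : (a 0)⁻¹ = conj (a 0) := by
      rw [Complex.inv_def, Complex.normSq_eq_norm_sq, h3]
      simp
    have c1 : (a 1)⁻¹ = conj (a 1) := by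
      rw [Complex.inv_def, Complex.normSq_eq_norm_sq, h4]
      simp
    have h5 : a 0 / a 1 + 1 + (a 0 / a 1)⁻¹ = ((‖a 0 + a 1‖ ^ 2 - 1 : ℝ) : ℂ) := by
      have h6 : ((‖a 0 + a 1‖ ^ 2 : ℝ) : ℂ) = (a 0 + a 1) * conj (a 0 + a 1) := by
        rw [Complex.mul_conj, Complex.normSq_eq_norm_sq]
      rw [Complex.ofReal_sub, h6, map_add, ← c0, ← c1, Complex.ofReal_one]
      have e0 := h0 0
      have e1 := h0 1
      field_simp
      ring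
    have h7 : trAd a = ‖a 0 + a 1‖ ^ 2 - 1 := by
      unfold trAd
      rw [h5, Complex.ofReal_re]
    refine ⟨by rw [h7, h5], h7, fun h8 => absurd (fun i => ?_) h8⟩
    rcases two i with rfl | rfl
    · exact h3
    · exact h4
  · have h2 : τ 0 = 1 := by omega
    have h3 := hτ 0
    rw [h2] at h3
    have h4 : a 0 / a 1 = ((‖a 0‖ ^ 2 : ℝ) : ℂ) := by
      rw [h3, div_inv_eq_mul, Complex.mul_conj, Complex.normSq_eq_norm_sq]
    have h5 : 0 < ‖a 0‖ := norm_pos_iff.2 (h0 0)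
    have h6 : 0 < ‖a 0‖ ^ 2 := by positivity
    have h60 : 0 < (‖a 0‖ ^ 2)⁻¹ := inv_pos.2 h6
    have h7 : a 0 / a 1 + 1 + (a 0 / a 1)⁻¹ = ((‖a 0‖ ^ 2 + 1 + (‖a 0‖ ^ 2)⁻¹ : ℝ) : ℂ) := by
      rw [h4]
      push_cast
      ring
    have h8 : trAd a = ‖a 0‖ ^ 2 + 1 + (‖a 0‖ ^ 2)⁻¹ := by
      unfold trAd
      rw [h7, Complex.ofReal_re]
    have h9 : ‖a 0 + a 1‖ ^ 2 = ‖a 0‖ ^ 2 + 2 + (‖a 0‖ ^ 2)⁻¹ := by
      have e1 : a 1 = a 0 * (((‖a 0‖ ^ 2)⁻¹ : ℝ) : ℂ) := by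
        have e2 : a 0 * conj (a 0) = ((‖a 0‖ ^ 2 : ℝ) : ℂ) := by
          rw [Complex.mul_conj, Complex.normSq_eq_norm_sq]
        have e3 : conj (a 0) ≠ 0 := (map_ne_zero _).2 (h0 0)
        rw [h3, Complex.ofReal_inv, ← e2, mul_inv, ← mul_assoc, mul_inv_cancel₀ (h0 0), one_mul]
      have e4 : a 0 + a 1 = a 0 * ((1 + (‖a 0‖ ^ 2)⁻¹ : ℝ) : ℂ) := by
        rw [e1]
        push_cast
        ring
      rw [e4, norm_mul, Complex.norm_real, Real.norm_of_nonneg (by positivity)]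
      field_simp
      ring
    refine ⟨by rw [h8, h7], by rw [h8, h9]; ring, fun h10 => ?_⟩
    have h11 : ‖a 0‖ ^ 2 ≠ 1 := by
      intro h12
      refine h10 fun i => ?_
      have h13 : ‖a 0‖ = 1 := by nlinarith [norm_nonneg (a 0)]
      rcases two i with rfl | rfl
      · exact h13
      · rw [h3, norm_inv, Complex.norm_conj, h13, inv_one]
    have h12 : 0 < (‖a 0‖ ^ 2 - 1) ^ 2 := by
      have := sub_ne_zero.2 h11
      positivity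
    have h13 : ‖a 0‖ ^ 2 + (‖a 0‖ ^ 2)⁻¹ - 2 = (‖a 0‖ ^ 2 - 1) ^ 2 * (‖a 0‖ ^ 2)⁻¹ := by
      field_simp
      ring
    have h14 : 0 < (‖a 0‖ ^ 2 - 1) ^ 2 * (‖a 0‖ ^ 2)⁻¹ := mul_pos h12 (inv_pos.2 h6)
    rw [h8]
    linarith

theorem unitary_pow {a : Fin 2 → ℂ} (h : Unitary a) (k : ℕ) : Unitary fun i => a i ^ k := by
  obtain ⟨h0, τ, hτ⟩ := h
  refine ⟨fun i => pow_ne_zero _ (h0 i), τ, fun i => ?_⟩
  show a (τ i) ^ k = (conj (a i ^ k))⁻¹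
  rw [hτ i, inv_pow, map_pow]

theorem lam_facts {z : ℂ} (h : z ≠ 0 ∧ (conj z = z ∨ conj z = z⁻¹)) (k : ℕ) :
    z ^ k ≠ 0 ∧ ((lam (z ^ k) : ℝ) : ℂ) = z ^ k + (z ^ k)⁻¹ := by
  obtain ⟨h0, h1⟩ := h
  refine ⟨pow_ne_zero _ h0, Complex.conj_eq_iff_re.1 ?_⟩
  rcases h1 with h1 | h1
  · rw [map_add, map_inv₀, map_pow, h1]
  · rw [map_add, map_inv₀, map_pow, h1, inv_pow, inv_inv, add_comm]


/-- the polynomials in the trace of `Ad` -/
noncomputable def adR (x : ℝ) : Fin 3 → ℝ := ![1, x, x ^ 2 - x - 1]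

/-- the polynomials `U_j` -/
noncomputable def symR (x : ℝ) : Fin 5 → ℝ := ![1, x, x ^ 2 - 1, x ^ 3 - 2 * x, x ^ 4 - 3 * x ^ 2 + 1]

theorem adR_eq {a : Fin 2 → ℂ} (h : Unitary a) (k : ℕ) (i : Fin 3) :
    ((adR (trAd fun l => a l ^ k) i : ℝ) : ℂ) = ad ((a 0 / a 1) ^ k) i := by
  obtain ⟨f1, f2, -, -⟩ := facts (unitary_pow h k)
  rw [← div_pow] at f1 f2
  set t := (a 0 / a 1) ^ k with ht
  set x := trAd fun l => a l ^ k with hx
  have three : ∀ x : Fin 3, x = 0 ∨ x = 1 ∨ x = 2 := by decide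
  rcases three i with rfl | rfl | rfl
  · simp [adR, ad]
  · exact f2
  · have e1 : adR x 2 = x ^ 2 - x - 1 := rfl
    have e2 : ad t 2 = t ^ 2 + t + 1 + t⁻¹ + t⁻¹ ^ 2 := rfl
    rw [e1, e2]
    push_cast
    rw [f2]
    field_simp
    ring

theorem symR_eq {z : ℂ} (h : z ≠ 0 ∧ (conj z = z ∨ conj z = z⁻¹)) (k : ℕ) (i : Fin 5) :
    ((symR (lam (z ^ k)) i : ℝ) : ℂ) = sym (z ^ k) i := by
  obtain ⟨f1, f2⟩ := lam_facts h k
  set t := z ^ k with ht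
  set x := lam t with hx
  have five : ∀ x : Fin 5, x = 0 ∨ x = 1 ∨ x = 2 ∨ x = 3 ∨ x = 4 := by decide
  rcases five i with rfl | rfl | rfl | rfl | rfl
  · simp [symR, sym]
  · exact f2
  · have e1 : symR x 2 = x ^ 2 - 1 := rfl
    have e2 : sym t 2 = t ^ 2 + 1 + t⁻¹ ^ 2 := rfl
    rw [e1, e2]
    push_cast
    rw [f2]
    field_simp
    ring
  · have e1 : symR x 3 = x ^ 3 - 2 * x := rfl
    have e2 : sym t 3 = t ^ 3 + t + t⁻¹ + t⁻¹ ^ 3 := rfl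
    rw [e1, e2]
    push_cast
    rw [f2]
    field_simp
    ring
  · have e1 : symR x 4 = x ^ 4 - 3 * x ^ 2 + 1 := rfl
    have e2 : sym t 4 = t ^ 4 + t ^ 2 + 1 + t⁻¹ ^ 2 + t⁻¹ ^ 4 := rfl
    rw [e1, e2]
    push_cast
    rw [f2]
    field_simp
    ring

end Pool.Agent.X289.Sat
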