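import Pool.Agent.X289.Main

set_option autoImplicit false
set_option linter.unusedSectionVars false

/-!
# Euler products with local parameters of absolute value one and real sums
-/

namespace Pool.Agent.X289.Al

open Complex Filter Topology ComplexConjugate NumberField IsDedekindDomain MeasureTheory
  Pool.Agent.W540.BE Pool.Agent.TH553.RS Pool.Agent.TH553.ST Pool.Agent.H341R2
open Pool.Agent.X289.SymM Pool.Agent.X289.TaubR

variable {F : Type} [Field F] [NumberField F] {κ : Type} [Fintype κ]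
  (α : HeightOneSpectrum (𝓞 F) → κ → ℂ) {t : HeightOneSpectrum (𝓞 F) → ℝ}

/-- the Euler product -/
noncomputable def LA (s : ℂ) : ℂ :=
  ∏' w, (∏ k, (1 - α w k * ((nm F w : ℕ) : ℂ) ^ (-s)))⁻¹

/-- a continuation -/
def IsCA (τ : ℝ) (Λ : ℂ → ℂ) : Prop :=
  MeromorphicAt Λ (1 + τ * I) ∧ ∀ᶠ s in 𝓝 ((1 : ℂ) + τ * I), (1 : ℝ) < s.re → Λ s = LA α s

variable {α}

theorem LA_fin (s : ℂ) : LA α s = LA (fun w (j : Fin (Fintype.card κ)) =>
    α w ((Fintype.equivFin κ).symm j)) s := by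
  unfold LA
  refine tprod_congr fun w => ?_
  congr 1
  exact (Fintype.prod_equiv (Fintype.equivFin κ).symm _ _ fun j => rfl).symm

theorem abs_t (hα : ∀ w k, ‖α w k‖ = 1) (ht : ∀ w, ∑ k, α w k = (t w : ℂ))
    (w : HeightOneSpectrum (𝓞 F)) : |t w| ≤ Fintype.card κ := by
  have h1 : ‖∑ k, α w k‖ ≤ Fintype.card κ := by
    refine (norm_sum_le _ _).trans ?_
    simp [hα]
  rw [ht, Complex.norm_real] at h1
  exact h1

theorem size_LA (hα : ∀ w k, ‖α w k‖ = 1) (ht : ∀ w, ∑ k, α w k = (t w : ℂ)) (τ : ℝ) :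
    (∀ᶠ ε : ℝ in 𝓝[>] 0, LA α (1 + τ * I + ε) ≠ 0) ∧
    Tendsto (fun ε : ℝ => qt (nm F) (fun w => t w * cw F τ w) ε -
      Real.log ‖LA α (1 + τ * I + ε)‖ / Real.log (1 / ε)) (𝓝[>] 0) (𝓝 0) := by
  set β : HeightOneSpectrum (𝓞 F) → Fin (Fintype.card κ) → ℂ := fun w j =>
    α w ((Fintype.equivFin κ).symm j) with hβ
  have hβ1 : ∀ w j, ‖β w j‖ = 1 := fun w j => hα w _
  have hβ2 : ∀ w, ∑ j, β w j = (t w : ℂ) := by
    intro w
    rw [← ht]
    exact Fintype.sum_equiv (Fintype.equivFin κ).symm _ _ fun j => rfl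
  set B : HeightOneSpectrum (𝓞 F) → Polynomial ℂ := fun w =>
    ∏ j, (1 - Polynomial.C (β w j) * Polynomial.X) with hB
  have hBe : ∀ w z, (B w).eval z = ∏ j, (1 - β w j * z) := by
    intro w z
    rw [hB]
    simp [Polynomial.eval_prod]
  have h := size_unit (sysF F) β
    (Filter.Eventually.of_forall fun w j => hβ1 w j)
    (t := fun w => (t w : ℂ)) (C := (Fintype.card κ : ℝ)) (fun w => by
      rw [Complex.norm_real]
      exact abs_t hα ht w)
    (Filter.Eventually.of_forall hβ2) τ B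
    (Filter.Eventually.of_forall hBe)
    (fun w => by
      rw [hBe, Finset.prod_ne_zero_iff]
      intro j _ h4
      have h5 : ‖β w j * ((nm F w : ℕ) : ℂ) ^ (-(1 + τ * I : ℂ))‖ = 1 := by
        have : β w j * ((nm F w : ℕ) : ℂ) ^ (-(1 + τ * I : ℂ)) = 1 := by
          linear_combination -h4
        rw [this, norm_one]
      rw [norm_mul, hβ1, one_mul] at h5
      have h6 := cpow_le_half normSys w (s := 1 + τ * I) (by simp)
      linarith) (LA α)
    (fun s _ => by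
      rw [LA_fin]
      unfold LA
      refine tprod_congr fun w => ?_
      rw [hBe])
  refine ⟨h.1, h.2.congr fun ε => ?_⟩
  congr 2
  funext w
  rw [Complex.re_ofReal_mul]
  rfl

/-- the order is a mean value -/
theorem ord_LA (hα : ∀ w k, ‖α w k‖ = 1) (ht : ∀ w, ∑ k, α w k = (t w : ℂ)) {τ : ℝ} {Λ : ℂ → ℂ}
    (h : IsCA α τ Λ) : ∃ e : ℤ,
    meromorphicOrderAt Λ (1 + τ * I) = e ∧ ∀ U : Ultrafilter ℝ, (U : Filter ℝ) ≤ 𝓝[>] 0 →
      (M (nm F) U fun w => t w * cw F τ w) = -e := by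
  obtain ⟨e, h1, h2⟩ := order_unit (size_LA hα ht τ).1 h.1 h.2
  refine ⟨e, h1, fun U hU => M_of_tendsto hU ?_⟩
  have h3 := (size_LA hα ht τ).2.add h2
  rw [zero_add] at h3
  exact h3.congr fun ε => by ring

/-- averages from orders -/
theorem avg_LA (hα : ∀ w k, ‖α w k‖ = 1) (ht : ∀ w, ∑ k, α w k = (t w : ℂ)) {c : ℤ}
    (hc : ∀ τ : ℝ, ∃ Λ : ℂ → ℂ, IsCA α τ Λ ∧
      meromorphicOrderAt Λ (1 + τ * I) = ((if τ = 0 then -c else 0 : ℤ) : WithTop ℤ)) :
    Tendsto (mn t) atTop (𝓝 (c : ℝ)) := by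
  refine mn_of_orders (α := fun w (j : Fin (Fintype.card κ)) =>
    α w ((Fintype.equivFin κ).symm j)) (fun w j => hα w _) (t := t) (fun w => ?_)
    (L := LA α) (fun s _ => LA_fin s) fun τ => ?_
  · rw [← ht]
    exact Fintype.sum_equiv (Fintype.equivFin κ).symm _ _ fun j => rfl
  · obtain ⟨Λ, h1, h2⟩ := hc τ
    exact ⟨Λ, h1.1, h1.2, h2⟩

end Pool.Agent.X289.Al
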