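import Pool.Agent.X289.Dens

set_option autoImplicit false

/-!
# The functionals with integral moments that are dominated by the Sato-Tate law
-/

namespace Pool.Agent.X289.Cls

open Finset Filter Topology MeasureTheory Polynomial
open Pool.Agent.X289.Trig Pool.Agent.X289.Dens

/-- the law with the parameter `k` -/
noncomputable def dk (k : ℕ) (t : ℝ) : ℝ := 2 * Real.sin (k * t) ^ 2

theorem cont_dk (k : ℕ) : Continuous (dk k) :=
  ((Real.continuous_sin.comp (continuous_const.mul continuous_id)).pow 2).const_mul 2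

theorem cont_sum (s : Finset ℕ) (a : ℕ → ℝ) : Continuous fun x => ∑ l ∈ s, a l * Tf l x :=
  continuous_finsetSum _ fun l _ => (cont_Tf l).const_mul _

/-- the hypotheses on the functional -/
structure Fn (Λ : (ℝ → ℝ) → ℝ) (C : ℝ) : Prop where
  add : ∀ f g, Continuous f → Continuous g → Λ (fun x => f x + g x) = Λ f + Λ g
  smul : ∀ (c : ℝ) f, Continuous f → Λ (fun x => c * f x) = c * Λ f
  mono : ∀ f g, Continuous f → Continuous g → (∀ x ∈ Set.Icc (-1 : ℝ) 1, f x ≤ g x) → Λ f ≤ Λ g
  one : Λ (fun _ => 1) = 1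
  cs : ∀ f, Continuous f → (Λ f) ^ 2 ≤ Λ fun x => f x ^ 2
  dom : ∀ f, Continuous f → (∀ x, 0 ≤ f x) → Λ f ≤ C * J (dk 1) f
  int : ∀ l : ℕ, ∃ n : ℤ, 2 * Λ (Tf (l + 1)) = n

variable {Λ : (ℝ → ℝ) → ℝ} {C : ℝ}

theorem Fn.sum (H : Fn Λ C) (s : Finset ℕ) (a : ℕ → ℝ) :
    Λ (fun x => ∑ l ∈ s, a l * Tf l x) = ∑ l ∈ s, a l * Λ (Tf l) := by
  classical
  induction s using Finset.induction_on with
  | empty =>
    simp only [sum_empty]
    have h1 := H.smul 0 (fun _ => 1) continuous_const
    simpa using h1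
  | insert b s hb ih =>
    simp only [sum_insert hb]
    rw [H.add _ _ ((cont_Tf b).const_mul _) (cont_sum s a), H.smul _ _ (cont_Tf b), ih]

theorem Fn.near (H : Fn Λ C) {f g : ℝ → ℝ} (hf : Continuous f) (hg : Continuous g) {ε : ℝ}
    (h : ∀ x ∈ Set.Icc (-1 : ℝ) 1, |f x - g x| ≤ ε) : |Λ f - Λ g| ≤ ε := by
  have hc : ∀ c : ℝ, Λ (fun _ => c) = c := by
    intro c
    have := H.smul c (fun _ => 1) continuous_const
    rw [H.one] at this
    simpa using this
  have h1 : ∀ f g : ℝ → ℝ, Continuous f → Continuous g →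
      (∀ x ∈ Set.Icc (-1 : ℝ) 1, |f x - g x| ≤ ε) → Λ f - Λ g ≤ ε := by
    intro f g hf hg h
    have h2 := H.mono f (fun x => g x + ε) hf (hg.add continuous_const) fun x hx => by
      have := (abs_le.1 (h x hx)).2
      linarith
    rw [H.add _ _ hg continuous_const, hc] at h2
    linarith
  rw [abs_le]
  constructor
  · have := h1 g f hg hf fun x hx => by rw [abs_sub_comm]; exact h x hx
    linarith
  · exact h1 f g hf hg h

/-- the functional is given by a density -/
theorem Fn.eq_J (H : Fn Λ C) {p : ℝ → ℝ} (hp : Continuous p) (h : ∀ l, Λ (Tf l) = J p (Tf l))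
    {f : ℝ → ℝ} (hf : Continuous f) : Λ f = J p f := by
  refine dens (Q := fun f => Λ f = J p f) ?_ ?_ h ?_ hf
  · intro f g hf hg h1 h2
    rw [H.add f g hf hg, J_add hp hf hg, h1, h2]
  · intro c f hf h1
    rw [H.smul c f hf, J_smul, h1]
  · intro f hf h1
    set B : ℝ := 1 / Real.pi * ∫ t in (0 : ℝ)..Real.pi, |p t| with hB
    have hB0 : 0 ≤ B := by
      have := Real.pi_pos
      rw [hB]
      have h3 : 0 ≤ ∫ t in (0 : ℝ)..Real.pi, |p t| :=
        intervalIntegral.integral_nonneg this.le fun t _ => abs_nonneg _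
      positivity
    have key : ∀ ε > 0, |Λ f - J p f| ≤ ε * (1 + B) := by
      intro ε hε
      obtain ⟨g, hg, hQ, hfg⟩ := h1 ε hε
      have h2 := H.near hf hg hfg
      have h3 := J_le hp (f := fun x => f x - g x) (hf.sub hg) (ε := ε) hfg
      rw [J_sub hp hf hg] at h3
      have h4 : Λ f - J p f = (Λ f - Λ g) - (J p f - J p g) := by rw [hQ]; ring
      rw [h4]
      refine (abs_sub _ _).trans ?_
      rw [← hB] at h3
      linarith
    have h5 : |Λ f - J p f| ≤ 0 := by
      refine le_of_forall_pos_le_add fun δ hδ => ?_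
      have h6 := key (δ / (1 + B)) (by positivity)
      rw [div_mul_cancel₀ _ (by positivity : (1 + B) ≠ 0)] at h6
      linarith
    have h6 := abs_nonpos_iff.1 h5
    linarith

/-- the square of a cosine polynomial -/
theorem J_sq (s : Finset ℕ) (hs : 0 ∉ s) (a : ℕ → ℝ) :
    J (fun _ => 1) (fun x => (∑ l ∈ s, a l * Tf l x) ^ 2) = 1 / 2 * ∑ l ∈ s, a l ^ 2 := by
  have hpi := Real.pi_pos
  unfold J
  have h1 : ∀ t : ℝ, (∑ l ∈ s, a l * Tf l (Real.cos t)) ^ 2 * 1 =
      ∑ l ∈ s, ∑ j ∈ s, (a l * a j) * (Real.cos (l * t) * Real.cos (j * t)) := by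
    intro t
    rw [mul_one, sq, sum_mul_sum]
    refine sum_congr rfl fun l _ => sum_congr rfl fun j _ => ?_
    rw [Tf_cos, Tf_cos]
    ring
  simp only [h1]
  have hc : ∀ l j : ℕ, IntervalIntegrable (fun t : ℝ => (a l * a j) *
      (Real.cos (l * t) * Real.cos (j * t))) volume 0 Real.pi := by
    intro l j
    refine IntervalIntegrable.const_mul ?_ _
    exact ((Real.continuous_cos.comp (continuous_const.mul continuous_id)).mul
      (Real.continuous_cos.comp (continuous_const.mul continuous_id))).intervalIntegrable _ _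
  have hc' : ∀ l : ℕ, Continuous fun t : ℝ => ∑ j ∈ s, (a l * a j) *
      (Real.cos (l * t) * Real.cos (j * t)) := by
    intro l
    refine continuous_finsetSum _ fun j _ => Continuous.const_mul ?_ _
    exact ((Real.continuous_cos.comp (continuous_const.mul continuous_id)).mul
      (Real.continuous_cos.comp (continuous_const.mul continuous_id)))
  rw [intervalIntegral.integral_finsetSum fun l _ => (hc' l).intervalIntegrable _ _]
  have h2 : ∀ l ∈ s, ∫ t in (0 : ℝ)..Real.pi, ∑ j ∈ s, (a l * a j) *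
      (Real.cos (l * t) * Real.cos (j * t)) = Real.pi / 2 * a l ^ 2 := by
    intro l hl
    have hl0 : l ≠ 0 := fun h => hs (h ▸ hl)
    rw [intervalIntegral.integral_finsetSum fun j _ => hc l j]
    simp only [intervalIntegral.integral_const_mul, int_cos_cos]
    have h3 : ∀ j ∈ s, (a l * a j) * ((if l = j then Real.pi / 2 else 0) +
        if l = 0 ∧ j = 0 then Real.pi / 2 else 0) = if l = j then Real.pi / 2 * a l ^ 2 else 0 := by
      intro j _
      rw [if_neg (show ¬ (l = 0 ∧ j = 0) from fun h => hl0 h.1), add_zero]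
      by_cases e : l = j
      · rw [if_pos e, if_pos e, ← e]; ring
      · rw [if_neg e, if_neg e, mul_zero]
    rw [sum_congr rfl h3, sum_ite_eq, if_pos hl]
  rw [sum_congr rfl h2, ← mul_sum]
  field_simp

theorem J_mono_dk {f : ℝ → ℝ} (hf : Continuous f) (h0 : ∀ x, 0 ≤ f x) :
    J (dk 1) f ≤ 2 * J (fun _ => 1) f := by
  have hpi := Real.pi_pos
  unfold J
  have h1 : ∫ t in (0 : ℝ)..Real.pi, f (Real.cos t) * dk 1 t ≤
      ∫ t in (0 : ℝ)..Real.pi, 2 * (f (Real.cos t) * 1) := by
    refine intervalIntegral.integral_mono_on hpi.le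
      (((hf.comp Real.continuous_cos).mul (cont_dk 1)).intervalIntegrable _ _)
      ((((hf.comp Real.continuous_cos).mul continuous_const).const_mul 2).intervalIntegrable _ _)
      fun t _ => ?_
    unfold dk
    have h2 := Real.sin_sq_le_one ((1 : ℕ) * t)
    have h3 := h0 (Real.cos t)
    simp only [mul_one]
    nlinarith
  rw [intervalIntegral.integral_const_mul] at h1
  calc 1 / Real.pi * ∫ t in (0 : ℝ)..Real.pi, f (Real.cos t) * dk 1 t ≤
      1 / Real.pi * (2 * ∫ t in (0 : ℝ)..Real.pi, f (Real.cos t) * 1) :=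
        mul_le_mul_of_nonneg_left h1 (by positivity)
    _ = _ := by ring

/-- the coefficients -/
noncomputable def cf (Λ : (ℝ → ℝ) → ℝ) (l : ℕ) : ℝ := if l = 0 then 1 else 2 * Λ (Tf l)

theorem Fn.C_pos (H : Fn Λ C) : 0 ≤ C := by
  have h1 := H.dom (fun _ => 1) continuous_const fun _ => zero_le_one
  rw [H.one] at h1
  by_contra hn
  push Not at hn
  have h2 : 0 ≤ J (dk 1) fun _ => 1 := by
    unfold J
    have := Real.pi_pos
    refine mul_nonneg (by positivity) (intervalIntegral.integral_nonneg this.le fun t _ => ?_)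
    unfold dk
    positivity
  nlinarith

theorem Fn.sum_le (H : Fn Λ C) (L : ℕ) : ∑ l ∈ Icc 1 L, cf Λ l ^ 2 ≤ 4 * C := by
  have hC := H.C_pos
  set S : ℝ := ∑ l ∈ Icc 1 L, cf Λ l ^ 2 with hS
  have hs0 : (0 : ℕ) ∉ Icc 1 L := by simp
  set a : ℕ → ℝ := fun l => 2 * cf Λ l with ha
  have h1 : Λ (fun x => ∑ l ∈ Icc 1 L, a l * Tf l x) = S := by
    rw [H.sum, hS]
    refine sum_congr rfl fun l hl => ?_
    have hl0 : l ≠ 0 := fun h => hs0 (h ▸ hl)
    rw [ha]
    simp only
    unfold cf
    rw [if_neg hl0]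
    ring
  have h2 := H.cs _ (cont_sum (Icc 1 L) a)
  have h3 := H.dom (fun x => (∑ l ∈ Icc 1 L, a l * Tf l x) ^ 2) ((cont_sum (Icc 1 L) a).pow 2)
    fun x => sq_nonneg _
  have h4 := J_mono_dk (f := fun x => (∑ l ∈ Icc 1 L, a l * Tf l x) ^ 2)
    ((cont_sum (Icc 1 L) a).pow 2) fun x => sq_nonneg _
  have h5 := J_sq (Icc 1 L) hs0 a
  have h6 : ∑ l ∈ Icc 1 L, a l ^ 2 = 4 * S := by
    rw [hS, mul_sum]
    refine sum_congr rfl fun l _ => ?_
    rw [ha]
    ring
  rw [h5, h6] at h4
  rw [h1] at h2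
  have h7 : S ^ 2 ≤ 4 * C * S := by
    refine h2.trans (h3.trans ?_)
    calc C * J (dk 1) (fun x => (∑ l ∈ Icc 1 L, a l * Tf l x) ^ 2) ≤ C * (2 * (1 / 2 * (4 * S))) :=
          mul_le_mul_of_nonneg_left h4 hC
      _ = _ := by ring
  have hS0 : 0 ≤ S := sum_nonneg fun l _ => sq_nonneg _
  rcases hS0.eq_or_lt with h8 | h8
  · rw [← h8]
    positivity
  · have : S * S ≤ 4 * C * S := by rw [← sq]; exact h7
    exact le_of_mul_le_mul_right this h8

theorem Fn.cf_int (H : Fn Λ C) (l : ℕ) : ∃ n : ℤ, cf Λ l = n := by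
  rcases l with _ | l
  · exact ⟨1, by simp [cf]⟩
  · obtain ⟨n, hn⟩ := H.int l
    exact ⟨n, by unfold cf; rw [if_neg (Nat.succ_ne_zero l), hn]⟩

theorem Fn.finite (H : Fn Λ C) : ∃ K : ℕ, ∀ l, K < l → cf Λ l = 0 := by
  have h1 : Summable fun l => cf Λ (l + 1) ^ 2 := by
    refine summable_of_sum_range_le (c := 4 * C) (fun l => sq_nonneg _) fun n => ?_
    have h2 := H.sum_le n
    have h3 : ∑ l ∈ Icc 1 n, cf Λ l ^ 2 = ∑ i ∈ range n, cf Λ (i + 1) ^ 2 := by
      clear h2
      induction n with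
      | zero => simp
      | succ n ih => rw [sum_Icc_succ_top (by omega), sum_range_succ, ih]
    rw [← h3]
    exact h2
  have h2 := h1.tendsto_atTop_zero
  have h3 := (h2.eventually (gt_mem_nhds (show (0 : ℝ) < 1 by norm_num)))
  obtain ⟨K, hK⟩ := Filter.eventually_atTop.1 h3
  refine ⟨K, fun l hl => ?_⟩
  have h4 := hK (l - 1) (by omega)
  have h5 : l - 1 + 1 = l := by omega
  rw [h5] at h4
  obtain ⟨n, hn⟩ := H.cf_int l
  rw [hn] at h4 ⊢
  have h6 : n ^ 2 < 1 := by exact_mod_cast h4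
  have h7 : n ^ 2 = 0 := le_antisymm (by omega) (sq_nonneg n)
  have h8 : n = 0 := by simpa using h7
  rw [h8]
  simp


theorem tp_arccos (c : ℕ → ℝ) (K : ℕ) (t : ℝ) : tp c K t = tp c K (Real.arccos (Real.cos t)) := by
  unfold tp
  refine sum_congr rfl fun l _ => ?_
  rw [← Tf_cos, ← Tf_cos, Real.cos_arccos (Real.neg_one_le_cos t) (Real.cos_le_one t)]

/-- **The classification of the functionals.** -/
theorem Fn.main (H : Fn Λ C) : ∃ k : ℕ, 1 ≤ k ∧ (k : ℝ) ^ 2 ≤ C ∧
    ∀ f : ℝ → ℝ, Continuous f → Λ f = J (dk k) f := by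
  classical
  have hpi := Real.pi_pos
  have hex := H.finite
  set K : ℕ := Nat.find hex with hK
  have hK1 : ∀ l, K < l → cf Λ l = 0 := Nat.find_spec hex
  set p : ℝ → ℝ := tp (cf Λ) K with hp
  have hpc : Continuous p := cont_tp _ _
  have hmom : ∀ l, Λ (Tf l) = J p (Tf l) := by
    intro l
    rw [hp, J_tp (cf Λ) K l (by simp [cf]) hK1]
    split_ifs with h
    · subst h
      have e : Tf 0 = fun _ => (1 : ℝ) := by funext x; exact Tf_zero x
      rw [e, H.one]
    · unfold cf
      rw [if_neg h]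
      ring
  have hJ : ∀ f : ℝ → ℝ, Continuous f → Λ f = J p f := fun f hf => H.eq_J hpc hmom hf
  have hnn : ∀ t, 0 ≤ p t := by
    intro t
    rw [hp, tp_arccos]
    refine nonneg_of_J hpc (fun f hf h0 => ?_) ⟨Real.arccos_nonneg _, Real.arccos_le_pi _⟩
    rw [← hJ f hf]
    have h1 := H.mono (fun _ => 0) f continuous_const hf fun x _ => h0 x
    have h2 := H.smul 0 (fun _ => 1) continuous_const
    simp only [zero_mul] at h2
    rw [h2] at h1
    exact h1
  have hup : ∀ t ∈ Set.Icc 0 Real.pi, p t ≤ C * dk 1 t := by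
    intro t ht
    have hDc : Continuous fun t => C * dk 1 t - p t := ((cont_dk 1).const_mul C).sub hpc
    have h1 := nonneg_of_J hDc (fun f hf h0 => ?_) ht
    · linarith
    · have h2 := H.dom f hf h0
      rw [hJ f hf] at h2
      have h3 : J (fun t => C * dk 1 t - p t) f = C * J (dk 1) f - J p f := by
        unfold J
        have e1 : ∀ t : ℝ, f (Real.cos t) * (C * dk 1 t - p t) =
            C * (f (Real.cos t) * dk 1 t) - f (Real.cos t) * p t := fun t => by ring
        simp only [e1]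
        rw [intervalIntegral.integral_sub ((ci (cont_dk 1) hf).const_mul C) (ci hpc hf),
          intervalIntegral.integral_const_mul]
        ring
      rw [h3]
      linarith
  have hz0 : p 0 = 0 := by
    refine le_antisymm ?_ (hnn 0)
    have := hup 0 ⟨le_rfl, hpi.le⟩
    simpa [dk] using this
  have hcf0 : cf Λ 0 = 1 := by simp [cf]
  have hKpos : 0 < K := by
    by_contra h
    have h0 : K = 0 := by omega
    rw [hp, h0] at hz0
    simp [tp, hcf0] at hz0
  have hcK : cf Λ K ≠ 0 := by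
    intro h
    have h1 := Nat.find_min hex (m := K - 1) (by omega)
    apply h1
    intro l hl
    rcases Nat.lt_or_ge K l with h2 | h2
    · exact hK1 l h2
    · have : l = K := by omega
      rw [this, h]
  have habs : 1 ≤ |cf Λ K| := by
    obtain ⟨n, hn⟩ := H.cf_int K
    rw [hn] at hcK ⊢
    have h1 : n ≠ 0 := by
      intro h
      rw [h] at hcK
      simp at hcK
    have h2 := Int.one_le_abs h1
    exact_mod_cast h2
  obtain ⟨h1, h2⟩ := classify hKpos hcf0 habs hnn
  have hpe : ∀ t, p t = 1 + cf Λ K * Real.cos (K * t) := by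
    intro t
    rw [hp]
    unfold tp
    rw [sum_range_succ]
    congr 1
    rw [sum_eq_single 0]
    · rw [hcf0]
      simp
    · intro l hl hl0
      rw [h2 l (Nat.pos_of_ne_zero hl0) (mem_range.1 hl), zero_mul]
    · intro h
      exact absurd (mem_range.2 hKpos) h
  have hcK1 : cf Λ K = -1 := by
    have := hpe 0
    rw [hz0, mul_zero, Real.cos_zero] at this
    linarith
  have heven : Even K := by
    rcases Nat.even_or_odd K with h | h
    · exact h
    · exfalso
      have h3 := hup Real.pi ⟨hpi.le, le_rfl⟩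
      rw [hpe, hcK1, Real.cos_nat_mul_pi, h.neg_one_pow] at h3
      unfold dk at h3
      simp at h3
      linarith
  obtain ⟨k, hk⟩ := heven
  have hk2 : K = 2 * k := by omega
  have hpd : p = dk k := by
    funext t
    rw [hpe, hcK1, hk2]
    unfold dk
    push_cast
    have h3 : Real.cos (2 * (k : ℝ) * t) = 1 - 2 * Real.sin (k * t) ^ 2 := by
      rw [mul_assoc, Real.cos_two_mul, Real.cos_sq']
      ring
    rw [h3]
    ring
  refine ⟨k, by omega, ?_, fun f hf => by rw [hJ f hf, hpd]⟩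
  -- the bound
  have hC := H.C_pos
  have hle : ∀ᶠ t in 𝓝[≠] (0 : ℝ), ((t⁻¹ * Real.sin (k * t)) ^ 2) ≤ C := by
    have hkey : ∀ t ∈ Set.Icc 0 Real.pi, Real.sin (k * t) ^ 2 ≤ C * t ^ 2 := by
      intro t ht
      have h3 := hup t ht
      rw [hpd] at h3
      unfold dk at h3
      have h4 : Real.sin t ^ 2 ≤ t ^ 2 := by
        have h5 := Real.sin_le ht.1
        have h6 := Real.sin_nonneg_of_nonneg_of_le_pi ht.1 ht.2
        nlinarith
      have e1 : Real.sin ((1 : ℕ) * t) = Real.sin t := by simp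
      rw [e1] at h3
      nlinarith [mul_le_mul_of_nonneg_left h4 hC]
    filter_upwards [self_mem_nhdsWithin,
      nhdsWithin_le_nhds (Icc_mem_nhds (show -Real.pi < 0 by linarith) hpi)] with t ht ht2
    have ht0 : t ≠ 0 := ht
    have h3 : Real.sin (k * t) ^ 2 ≤ C * t ^ 2 := by
      rcases le_total 0 t with h | h
      · exact hkey t ⟨h, ht2.2⟩
      · have h4 := hkey (-t) ⟨by linarith, by linarith [ht2.1]⟩
        rw [mul_neg, Real.sin_neg, neg_sq, neg_sq] at h4
        exact h4
    rw [mul_pow, inv_pow, inv_mul_le_iff₀ (by positivity)]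
    linarith
  have hd : HasDerivAt (fun t : ℝ => Real.sin (k * t)) (k : ℝ) 0 := by
    have h3 : HasDerivAt (fun t : ℝ => (k : ℝ) * t) (k : ℝ) 0 := by
      simpa using (hasDerivAt_id (0 : ℝ)).const_mul (k : ℝ)
    have h4 := h3.sin
    simpa using h4
  have hlim := hd.tendsto_slope_zero
  simp only [zero_add, mul_zero, Real.sin_zero, sub_zero, smul_eq_mul] at hlim
  exact le_of_tendsto (hlim.pow 2) hle

end Pool.Agent.X289.Cls
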