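import Pool.Agent.TH553.ST.Ext2
import Pool.Agent.X289.Cls

set_option autoImplicit false
set_option linter.unusedSectionVars false

/-!
# Means over an extension
-/

namespace Pool.Agent.X289.Bc

open Complex Filter Topology ComplexConjugate NumberField IsDedekindDomain MeasureTheory
  Pool.Agent.W540.BE Pool.Agent.TH553.RS Pool.Agent.TH553.ST Pool.Agent.H341R2 Pool.Agent.W353.TP
open Pool.Agent.X289.Dens Pool.Agent.X289.Cls

variable {K F : Type} [Field K] [NumberField K] [Field F] [NumberField F] [Algebra K F]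

/-- the number of extensions of a homomorphism -/
theorem cnt_le (u : HX K) : cnt K F u ≤ Module.finrank K F := by
  classical
  obtain ⟨p, φ⟩ := u
  have hp : Fact (p : ℕ).Prime := ⟨p.2⟩
  set P : Ideal (𝓞 K) := RingHom.ker φ with hP
  have hsurj : Function.Surjective φ := ZMod.ringHom_surjective φ
  have hmax : P.IsMaximal := RingHom.ker_isMaximal_of_surjective φ hsurj
  have hpb : P ≠ ⊥ := by
    intro h
    have h1 : ((p : ℕ) : 𝓞 K) ∈ P := by
      rw [hP, RingHom.mem_ker, map_natCast]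
      exact ZMod.natCast_self _
    rw [h, Ideal.mem_bot] at h1
    exact hp.out.ne_zero (by exact_mod_cast h1)
  have h1 : cnt K F ⟨p, φ⟩ = ((Finset.univ.filter
      (fun ψ : 𝓞 F →+* ZMod (p : ℕ) => res K ψ = φ)).card : ℝ) := by
    unfold cnt push
    rw [Finset.sum_const, nsmul_eq_mul, mul_one]
  rw [h1]
  have h2 : (Finset.univ.filter (fun ψ : 𝓞 F →+* ZMod (p : ℕ) => res K ψ = φ)).card ≤
      (IsDedekindDomain.primesOverFinset P (𝓞 F)).card := by
    refine Finset.card_le_card_of_injOn (fun ψ => RingHom.ker ψ) ?_ ?_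
    · intro ψ hψ
      have h3 := (Finset.mem_filter.1 hψ).2
      rw [Finset.mem_coe, IsDedekindDomain.mem_primesOverFinset_iff hpb]
      refine ⟨RingHom.ker_isPrime ψ, ⟨?_⟩⟩
      rw [hP, ← h3]
      rfl
    · intro ψ _ ψ' _ h
      simp only at h
      ext a
      obtain ⟨n, hn⟩ : ∃ n : ℕ, ((n : ℕ) : ZMod (p : ℕ)) = ψ a :=
        ⟨(ψ a).val, ZMod.natCast_zmod_val _⟩
      have h4 : a - (n : 𝓞 F) ∈ RingHom.ker ψ := by
        rw [RingHom.mem_ker, map_sub, map_natCast, hn, sub_self]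
      rw [h, RingHom.mem_ker, map_sub, map_natCast, sub_eq_zero] at h4
      rw [h4, hn]
  have _ : NoZeroSMulDivisors (𝓞 K) (𝓞 F) := ⟨fun {c x} h => by
    rw [Algebra.smul_def, mul_eq_zero] at h
    rcases h with h | h
    · left
      exact (map_eq_zero_iff _ (FaithfulSMul.algebraMap_injective (𝓞 K) (𝓞 F))).1 h
    · exact Or.inr h⟩
  have h3 := Ideal.card_primesOverFinset_le_finrank (S := 𝓞 F) K F (p := P) hpb
  exact_mod_cast h2.trans h3

/-- base change of angles -/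
def BCa (θ : HeightOneSpectrum (𝓞 K) → ℝ) (φ : HeightOneSpectrum (𝓞 F) → ℝ) : Prop :=
  ∃ S : Finset (HeightOneSpectrum (𝓞 F)), ∀ w, w ∉ S → ∀ v : HeightOneSpectrum (𝓞 K),
    w.asIdeal.comap (algebraMap (𝓞 K) (𝓞 F)) = v.asIdeal →
    Ideal.absNorm w.asIdeal = Ideal.absNorm v.asIdeal → Real.cos (φ w) = Real.cos (θ v)

variable {θ : HeightOneSpectrum (𝓞 K) → ℝ} {φ : HeightOneSpectrum (𝓞 F) → ℝ}

theorem bd_cos {E : Type} [Field E] [NumberField E] (θ : HeightOneSpectrum (𝓞 E) → ℝ) {f : ℝ → ℝ}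
    (hf : Continuous f) : Bd fun v => f (Real.cos (θ v)) := by
  obtain ⟨C, hC⟩ := (isCompact_Icc (a := (-1 : ℝ)) (b := 1)).exists_bound_of_continuousOn
    hf.continuousOn
  exact ⟨C, fun v => hC _ (Real.cos_mem_Icc _)⟩

/-- the point of the circle -/
noncomputable def pt (t : ℝ) : Circle := Circle.exp (Real.arccos (Real.cos t))

theorem pt_re (t : ℝ) : ((pt t : Circle) : ℂ).re = Real.cos t := by
  unfold pt
  rw [Circle.coe_exp, Complex.exp_ofReal_mul_I_re,
    Real.cos_arccos (Real.neg_one_le_cos t) (Real.cos_le_one t)]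

/-- the mean over the extension -/
theorem M_angle {U : Ultrafilter ℝ} (hU : (U : Filter ℝ) ≤ 𝓝[>] 0) (hb : BCa θ φ) {f : ℝ → ℝ}
    (hf : Continuous f) : (M (nm F) U fun w => f (Real.cos (φ w))) =
      M (NH K) U fun u => f (Real.cos (θ (kr u))) * cnt K F u := by
  let _ : MeasurableSpace Circle := borel Circle
  have _ : BorelSpace Circle := ⟨rfl⟩
  have hbc : BC (fun v => pt (θ v)) (fun w => pt (φ w)) := by
    obtain ⟨S, hS⟩ := hb
    refine ⟨S, fun w hw v h1 h2 => ⟨1, ?_⟩⟩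
    rw [one_mul, inv_one, mul_one]
    simp only [pt, hS w hw v h1 h2]
  have hher : Her fun z : Circle => ((f (z : ℂ).re : ℝ) : ℂ) := by
    refine ⟨?_, fun g h => ?_, fun g => ?_⟩
    · exact Complex.continuous_ofReal.comp (hf.comp
        (Complex.continuous_re.comp continuous_subtype_val))
    · have : h * g * h⁻¹ = g := by rw [mul_comm h g, mul_inv_cancel_right]
      rw [this]
    · rw [Circle.coe_inv_eq_conj, Complex.conj_re, Complex.conj_ofReal]
  have h1 := M_bc (K := K) (F := F) hU hbc hher 0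
  have e1 : (fun w => (((f ((pt (φ w) : Circle) : ℂ).re : ℝ) : ℂ) *
      ((nm F w : ℕ) : ℂ) ^ (-(((0 : ℝ) : ℂ) * I))).re) = fun w => f (Real.cos (φ w)) := by
    funext w
    rw [pt_re]
    simp
  have e2 : (fun u => (((f ((pt (θ (kr u)) : Circle) : ℂ).re : ℝ) : ℂ) *
      ((NH K u : ℕ) : ℂ) ^ (-(((0 : ℝ) : ℂ) * I))).re * cnt K F u) =
      fun u => f (Real.cos (θ (kr u))) * cnt K F u := by
    funext u
    rw [pt_re]
    simp
  rw [e1, e2] at h1
  exact h1

/-- domination -/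
theorem M_dom {U : Ultrafilter ℝ} (hU : (U : Filter ℝ) ≤ 𝓝[>] 0) (hb : BCa θ φ)
    (hθ : ∀ f : ℝ → ℝ, Continuous f → Tendsto (mn fun v => f (Real.cos (θ v))) atTop
      (𝓝 (J (dk 1) f))) {f : ℝ → ℝ} (hf : Continuous f) (h0 : ∀ x, 0 ≤ f x) :
    (M (nm F) U fun w => f (Real.cos (φ w))) ≤ Module.finrank K F * J (dk 1) f := by
  rw [M_angle hU hb hf]
  have hbd : Bd fun u : HX K => f (Real.cos (θ (kr u))) := by
    obtain ⟨B, hB⟩ := bd_cos θ hf
    exact ⟨B, fun u => hB (kr u)⟩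
  have h1 : (M (NH K) U fun u => f (Real.cos (θ (kr u))) * cnt K F u) ≤
      M (NH K) U fun u => Module.finrank K F * f (Real.cos (θ (kr u))) := by
    refine M_mono (sysHS K) hU (hbd.mul bd_cnt) (hbd.const_mul _) fun u => ?_
    rw [mul_comm]
    exact mul_le_mul_of_nonneg_right (cnt_le u) (h0 _)
  refine h1.trans (le_of_eq ?_)
  rw [M_const_mul (sysHS K) hU hbd, M_kr hU (bd_cos θ hf), M_of_mn hU (bd_cos θ hf) (hθ f hf)]

end Pool.Agent.X289.Bc
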