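import Pool.Agent.X289.Trig

set_option autoImplicit false

/-!
# Continuous functions of the cosine
-/

namespace Pool.Agent.X289.Dens

open Finset Filter Topology MeasureTheory Polynomial
open Pool.Agent.X289.Trig

/-- the Chebyshev polynomial as a function -/
noncomputable def Tf (l : ℕ) (x : ℝ) : ℝ := (Chebyshev.T ℝ (l : ℤ)).eval x

theorem Tf_cos (l : ℕ) (t : ℝ) : Tf l (Real.cos t) = Real.cos (l * t) := by
  unfold Tf
  rw [Chebyshev.T_real_cos]
  simp

theorem cont_Tf (l : ℕ) : Continuous (Tf l) := (Chebyshev.T ℝ (l : ℤ)).continuous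

theorem Tf_zero (x : ℝ) : Tf 0 x = 1 := by simp [Tf]

theorem Tf_one (x : ℝ) : Tf 1 x = x := by simp [Tf]

theorem mul_Tf (l : ℕ) (x : ℝ) : x * Tf (l + 1) x = 1 / 2 * Tf (l + 2) x + 1 / 2 * Tf l x := by
  unfold Tf
  push_cast
  rw [Chebyshev.T_add_two]
  simp only [eval_sub, eval_mul, eval_ofNat, eval_X]
  ring

/-- density of the polynomials -/
theorem dens {Q : (ℝ → ℝ) → Prop}
    (hadd : ∀ f g, Continuous f → Continuous g → Q f → Q g → Q fun x => f x + g x)
    (hsmul : ∀ (c : ℝ) f, Continuous f → Q f → Q fun x => c * f x)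
    (hT : ∀ l : ℕ, Q (Tf l))
    (hcl : ∀ f, Continuous f → (∀ ε > 0, ∃ g, Continuous g ∧ Q g ∧
      ∀ x ∈ Set.Icc (-1 : ℝ) 1, |f x - g x| ≤ ε) → Q f) {f : ℝ → ℝ} (hf : Continuous f) : Q f := by
  have h1 : ∀ n : ℕ, ∀ l : ℕ, Q fun x => x ^ n * Tf l x := by
    intro n
    induction n with
    | zero =>
      intro l
      have := hT l
      simpa using this
    | succ n ih =>
      intro l
      rcases l with _ | l
      · have h2 := ih 1
        have e : (fun x : ℝ => x ^ (n + 1) * Tf 0 x) = fun x => x ^ n * Tf 1 x := by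
          funext x
          rw [Tf_zero, Tf_one]
          ring
        rw [e]
        exact h2
      · have h2 := hadd _ _ ((((continuous_id.pow n).mul (cont_Tf (l + 2)))).const_mul (1 / 2))
          ((((continuous_id.pow n).mul (cont_Tf l))).const_mul (1 / 2))
          (hsmul (1 / 2) _ ((continuous_id.pow n).mul (cont_Tf (l + 2))) (ih (l + 2)))
          (hsmul (1 / 2) _ ((continuous_id.pow n).mul (cont_Tf l)) (ih l))
        have e : (fun x : ℝ => x ^ (n + 1) * Tf (l + 1) x) = fun x =>
            1 / 2 * (x ^ n * Tf (l + 2) x) + 1 / 2 * (x ^ n * Tf l x) := by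
          funext x
          rw [pow_succ, mul_assoc, mul_Tf]
          ring
        rw [e]
        exact h2
  have h2 : ∀ P : ℝ[X], Q fun x => P.eval x := by
    intro P
    induction P using Polynomial.induction_on' with
    | add p q hp hq =>
      simp only [eval_add]
      exact hadd _ _ p.continuous q.continuous hp hq
    | monomial n a =>
      simp only [eval_monomial]
      have h3 := h1 n 0
      simp only [Tf_zero, mul_one] at h3
      exact hsmul a _ (continuous_id.pow n) h3
  refine hcl f hf fun ε hε => ?_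
  obtain ⟨P, hP⟩ := exists_polynomial_near_of_continuousOn (-1) 1 f hf.continuousOn ε hε
  refine ⟨_, P.continuous, h2 P, fun x hx => ?_⟩
  rw [abs_sub_comm]
  exact (hP x hx).le

/-- the integral of a cosine -/
theorem int_cos (n : ℤ) : ∫ t in (0 : ℝ)..Real.pi, Real.cos (n * t) = if n = 0 then Real.pi else 0 := by
  split_ifs with h
  · subst h
    simp
  · have hn : (n : ℝ) ≠ 0 := by exact_mod_cast h
    rw [intervalIntegral.integral_comp_mul_left (fun t => Real.cos t) hn, integral_cos]
    rw [mul_zero, Real.sin_zero, Real.sin_int_mul_pi]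
    simp

theorem ci_cos (n : ℤ) : IntervalIntegrable (fun t : ℝ => Real.cos (n * t)) volume 0 Real.pi :=
  (Real.continuous_cos.comp (continuous_const.mul continuous_id)).intervalIntegrable _ _

/-- orthogonality -/
theorem int_cos_cos (a b : ℕ) : ∫ t in (0 : ℝ)..Real.pi, Real.cos (a * t) * Real.cos (b * t) =
    (if a = b then Real.pi / 2 else 0) + if a = 0 ∧ b = 0 then Real.pi / 2 else 0 := by
  have h1 : ∀ t : ℝ, Real.cos (a * t) * Real.cos (b * t) =
      1 / 2 * (Real.cos (((a - b : ℤ) : ℝ) * t) + Real.cos (((a + b : ℤ) : ℝ) * t)) := by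
    intro t
    push_cast
    rw [sub_mul, add_mul, Real.cos_sub, Real.cos_add]
    ring
  simp only [h1]
  rw [intervalIntegral.integral_const_mul, intervalIntegral.integral_add (ci_cos _) (ci_cos _),
    int_cos, int_cos]
  have e1 : ((a - b : ℤ) = 0) ↔ a = b := by omega
  have e2 : ((a + b : ℤ) = 0) ↔ (a = 0 ∧ b = 0) := by omega
  simp only [e1, e2]
  by_cases h : a = b <;> by_cases h' : a = 0 ∧ b = 0
  · rw [if_pos h, if_pos h', if_pos h, if_pos h']; ring
  · rw [if_pos h, if_neg h', if_pos h, if_neg h']; ring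
  · rw [if_neg h, if_pos h', if_neg h, if_pos h']; ring
  · rw [if_neg h, if_neg h', if_neg h, if_neg h']; ring

/-- the integral against a density -/
noncomputable def J (p : ℝ → ℝ) (f : ℝ → ℝ) : ℝ :=
  1 / Real.pi * ∫ t in (0 : ℝ)..Real.pi, f (Real.cos t) * p t

variable {p : ℝ → ℝ} (hp : Continuous p)

include hp in
theorem ci {f : ℝ → ℝ} (hf : Continuous f) : IntervalIntegrable (fun t : ℝ => f (Real.cos t) * p t)
    volume 0 Real.pi :=
  ((hf.comp Real.continuous_cos).mul hp).intervalIntegrable _ _

include hp in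
theorem J_add {f g : ℝ → ℝ} (hf : Continuous f) (hg : Continuous g) :
    J p (fun x => f x + g x) = J p f + J p g := by
  unfold J
  rw [← mul_add, ← intervalIntegral.integral_add (ci hp hf) (ci hp hg)]
  simp only [add_mul]

theorem J_smul (c : ℝ) (f : ℝ → ℝ) : J p (fun x => c * f x) = c * J p f := by
  unfold J
  simp only [mul_assoc]
  rw [intervalIntegral.integral_const_mul]
  ring

include hp in
theorem J_sub {f g : ℝ → ℝ} (hf : Continuous f) (hg : Continuous g) :
    J p (fun x => f x - g x) = J p f - J p g := by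
  have h1 := J_add hp hf (hg.const_mul (-1))
  rw [J_smul] at h1
  have e : (fun x => f x - g x) = fun x => f x + -1 * g x := by funext x; ring
  rw [e, h1]
  ring

include hp in
/-- the bound of the integral -/
theorem J_le {f : ℝ → ℝ} (hf : Continuous f) {ε : ℝ} (h : ∀ x ∈ Set.Icc (-1 : ℝ) 1, |f x| ≤ ε) :
    |J p f| ≤ ε * (1 / Real.pi * ∫ t in (0 : ℝ)..Real.pi, |p t|) := by
  have hpi := Real.pi_pos
  unfold J
  rw [abs_mul, abs_of_pos (by positivity : 0 < 1 / Real.pi)]
  have h1 : |∫ t in (0 : ℝ)..Real.pi, f (Real.cos t) * p t| ≤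
      ∫ t in (0 : ℝ)..Real.pi, ε * |p t| := by
    refine (intervalIntegral.abs_integral_le_integral_abs hpi.le).trans ?_
    refine intervalIntegral.integral_mono_on hpi.le
      (((hf.comp Real.continuous_cos).mul hp).abs.intervalIntegrable _ _)
      ((hp.abs.const_mul ε).intervalIntegrable _ _) fun t _ => ?_
    rw [abs_mul]
    exact mul_le_mul_of_nonneg_right (h _ (Real.cos_mem_Icc t)) (abs_nonneg _)
  rw [intervalIntegral.integral_const_mul] at h1
  calc 1 / Real.pi * |∫ t in (0 : ℝ)..Real.pi, f (Real.cos t) * p t| ≤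
      1 / Real.pi * (ε * ∫ t in (0 : ℝ)..Real.pi, |p t|) :=
        mul_le_mul_of_nonneg_left h1 (by positivity)
    _ = _ := by ring

/-- moments of a cosine polynomial -/
theorem J_tp (c : ℕ → ℝ) (K l : ℕ) (h0 : c 0 = 1) (hl : ∀ l, K < l → c l = 0) :
    J (tp c K) (Tf l) = if l = 0 then 1 else c l / 2 := by
  have hpi := Real.pi_pos
  unfold J
  have h1 : ∀ t : ℝ, Tf l (Real.cos t) * tp c K t =
      ∑ j ∈ range (K + 1), c j * (Real.cos (l * t) * Real.cos (j * t)) := by
    intro t
    rw [Tf_cos]
    unfold tp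
    rw [mul_sum]
    exact sum_congr rfl fun j _ => by ring
  simp only [h1]
  rw [intervalIntegral.integral_finsetSum fun j _ => by
    refine IntervalIntegrable.const_mul ?_ _
    exact ((Real.continuous_cos.comp (continuous_const.mul continuous_id)).mul
      (Real.continuous_cos.comp (continuous_const.mul continuous_id))).intervalIntegrable _ _]
  simp only [intervalIntegral.integral_const_mul, int_cos_cos]
  have h2 : ∀ j ∈ range (K + 1), c j * ((if l = j then Real.pi / 2 else 0) +
      if l = 0 ∧ j = 0 then Real.pi / 2 else 0) =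
      (if j = l then c l * (Real.pi / 2) else 0) +
        if j = 0 then (if l = 0 then c 0 * (Real.pi / 2) else 0) else 0 := by
    intro j _
    by_cases e1 : j = l
    · subst e1
      by_cases e2 : j = 0
      · subst e2; simp; ring
      · simp [e2]
    · by_cases e2 : j = 0
      · subst e2
        have e3 : ¬ l = 0 := fun h => e1 h.symm
        simp [e1, e3]
      · have e3 : ¬ l = j := fun h => e1 h.symm
        simp [e1, e2, e3]
  rw [sum_congr rfl h2, sum_add_distrib, sum_ite_eq', sum_ite_eq',
    if_pos (show 0 ∈ range (K + 1) by simp)]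
  by_cases hlK : l ∈ range (K + 1)
  · rw [if_pos hlK]
    by_cases e : l = 0
    · subst e
      rw [if_pos rfl, if_pos rfl, h0]
      field_simp
      norm_num
    · rw [if_neg e, if_neg e]
      field_simp
      ring
  · rw [if_neg hlK]
    have h3 : K < l := by
      rw [mem_range] at hlK
      omega
    have h4 : l ≠ 0 := by omega
    rw [if_neg h4, if_neg h4, hl l h3]
    simp

theorem cont_tp (c : ℕ → ℝ) (K : ℕ) : Continuous (tp c K) := by
  unfold tp
  exact continuous_finsetSum _ fun l _ =>
    (Real.continuous_cos.comp (continuous_const.mul continuous_id)).const_mul _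

/-- a function of the angle in `[0, π]` as a function of the cosine -/
theorem cos_arccos_comp (g : ℝ → ℝ) {t : ℝ} (ht : t ∈ Set.Icc 0 Real.pi) :
    g (Real.arccos (Real.cos t)) = g t := by
  rw [Real.arccos_cos ht.1 ht.2]

/-- positivity of the density -/
theorem nonneg_of_J (hp : Continuous p) (h : ∀ f : ℝ → ℝ, Continuous f → (∀ x, 0 ≤ f x) →
    0 ≤ J p f) {t : ℝ} (ht : t ∈ Set.Icc 0 Real.pi) : 0 ≤ p t := by
  have hpi := Real.pi_pos
  by_contra hneg
  push Not at hneg
  set f : ℝ → ℝ := fun x => max (-p (Real.arccos x)) 0 with hf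
  have hfc : Continuous f := ((hp.comp Real.continuous_arccos).neg).max continuous_const
  have h1 := h f hfc fun x => le_max_right _ _
  have h2 : 0 < ∫ t in (0 : ℝ)..Real.pi, -(f (Real.cos t) * p t) := by
    have hcv : ∀ s ∈ Set.Icc 0 Real.pi, f (Real.cos s) = max (-p s) 0 := by
      intro s hs
      rw [hf]
      simp only
      rw [cos_arccos_comp p hs]
    refine intervalIntegral.integral_pos hpi ?_ ?_ ?_
    · exact (((hfc.comp Real.continuous_cos).mul hp).neg).continuousOn
    · intro s hs
      rw [hcv s ⟨hs.1.le, hs.2⟩]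
      rcases le_total 0 (p s) with h3 | h3
      · rw [max_eq_right (by linarith)]
        simp
      · rw [max_eq_left (by linarith)]
        nlinarith
    · refine ⟨t, ht, ?_⟩
      rw [hcv t ht, max_eq_left (by linarith)]
      nlinarith
  rw [intervalIntegral.integral_neg] at h2
  unfold J at h1
  have h3 : 0 ≤ ∫ t in (0 : ℝ)..Real.pi, f (Real.cos t) * p t := by
    by_contra hn
    push Not at hn
    have : 1 / Real.pi * ∫ t in (0 : ℝ)..Real.pi, f (Real.cos t) * p t < 0 :=
      mul_neg_of_pos_of_neg (by positivity) hn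
    linarith
  linarith

end Pool.Agent.X289.Dens
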