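import Pool.Agent.X289.Multi2

set_option autoImplicit false
set_option linter.unusedSectionVars false

/-!
# Continuous functions of several cosines
-/

namespace Pool.Agent.X289.DensM

open Finset Filter Topology MeasureTheory
open Pool.Agent.X289.Dens Pool.Agent.X289.Cls Pool.Agent.X289.Uch

variable {ι : Type} [Fintype ι] [DecidableEq ι]

theorem mul_Cf (l : ℕ) (x : ℝ) : x * Cf (l + 1) x = 1 / 2 * Cf (l + 2) x + 1 / 2 * Cf l x := by
  rw [Cf_add_two]
  ring

theorem cont_prod (l : ι → ℕ) : Continuous fun x : ι → ℝ => ∏ i, Cf (l i) (x i) :=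
  continuous_finsetProd _ fun i _ => (cont_Cf (l i)).comp (continuous_apply i)

/-- density of the products of characters -/
theorem densM {Q : ((ι → ℝ) → ℝ) → Prop}
    (hadd : ∀ f g, Continuous f → Continuous g → Q f → Q g → Q fun x => f x + g x)
    (hsmul : ∀ (c : ℝ) f, Continuous f → Q f → Q fun x => c * f x)
    (hU : ∀ l : ι → ℕ, Q fun x => ∏ i, Cf (l i) (x i))
    (hcl : ∀ f, Continuous f → (∀ ε > 0, ∃ g, Continuous g ∧ Q g ∧
      ∀ x : ι → ℝ, (∀ i, x i ∈ Set.Icc (-1 : ℝ) 1) → |f x - g x| ≤ ε) → Q f)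
    {f : (ι → ℝ) → ℝ} (hf : Continuous f) : Q f := by
  have hpc : ∀ (p : MvPolynomial ι ℝ), Continuous fun x : ι → ℝ => MvPolynomial.eval x p :=
    fun p => MvPolynomial.continuous_eval p
  have h1 : ∀ p : MvPolynomial ι ℝ, ∀ l : ι → ℕ,
      Q fun x => MvPolynomial.eval x p * ∏ i, Cf (l i) (x i) := by
    intro p
    induction p using MvPolynomial.induction_on with
    | C a =>
      intro l
      simp only [MvPolynomial.eval_C]
      exact hsmul a _ (cont_prod l) (hU l)
    | add p q hp hq =>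
      intro l
      have e : (fun x : ι → ℝ => MvPolynomial.eval x (p + q) * ∏ i, Cf (l i) (x i)) =
          fun x => MvPolynomial.eval x p * ∏ i, Cf (l i) (x i) +
            MvPolynomial.eval x q * ∏ i, Cf (l i) (x i) := by
        funext x
        rw [map_add, add_mul]
      rw [e]
      exact hadd _ _ ((hpc p).mul (cont_prod l)) ((hpc q).mul (cont_prod l)) (hp l) (hq l)
    | mul_X p j hp =>
      intro l
      have hsplit : ∀ (m : ℕ) (x : ι → ℝ), ∏ i, Cf (Function.update l j m i) (x i) =
          Cf m (x j) * ∏ i ∈ univ.erase j, Cf (l i) (x i) := by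
        intro m x
        rw [← mul_prod_erase univ (fun i => Cf (Function.update l j m i) (x i)) (mem_univ j),
          Function.update_self]
        congr 1
        exact prod_congr rfl fun i hi => by rw [Function.update_of_ne (ne_of_mem_erase hi)]
      have hl : ∀ x : ι → ℝ, ∏ i, Cf (l i) (x i) =
          Cf (l j) (x j) * ∏ i ∈ univ.erase j, Cf (l i) (x i) := fun x =>
        (mul_prod_erase univ (fun i => Cf (l i) (x i)) (mem_univ j)).symm
      rcases hlj : l j with _ | m
      · have e : (fun x : ι → ℝ => MvPolynomial.eval x (p * MvPolynomial.X j) *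
            ∏ i, Cf (l i) (x i)) = fun x => 1 / 2 * (MvPolynomial.eval x p *
              ∏ i, Cf (Function.update l j 1 i) (x i)) := by
          funext x
          rw [map_mul, MvPolynomial.eval_X, hsplit, hl, hlj, Cf_zero, Cf_one]
          ring
        rw [e]
        exact hsmul _ _ ((hpc p).mul (cont_prod _)) (hp _)
      · have e : (fun x : ι → ℝ => MvPolynomial.eval x (p * MvPolynomial.X j) *
            ∏ i, Cf (l i) (x i)) = fun x => 1 / 2 * (MvPolynomial.eval x p *
              ∏ i, Cf (Function.update l j (m + 2) i) (x i)) +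
              1 / 2 * (MvPolynomial.eval x p *
              ∏ i, Cf (Function.update l j m i) (x i)) := by
          funext x
          rw [map_mul, MvPolynomial.eval_X, hsplit, hsplit, hl, hlj]
          have h2 := mul_Cf m (x j)
          linear_combination (MvPolynomial.eval x p * ∏ i ∈ univ.erase j, Cf (l i) (x i)) * h2
        rw [e]
        exact hadd _ _ (((hpc p).mul (cont_prod _)).const_mul _)
          (((hpc p).mul (cont_prod _)).const_mul _)
          (hsmul _ _ ((hpc p).mul (cont_prod _)) (hp _))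
          (hsmul _ _ ((hpc p).mul (cont_prod _)) (hp _))
  refine hcl f hf fun ε hε => ?_
  set co : ι → C(ι → ℝ, ℝ) := fun i => ⟨fun x => x i, continuous_apply i⟩ with hco
  set A : Subalgebra ℝ C(ι → ℝ, ℝ) := (MvPolynomial.aeval (R := ℝ) co).range with hA
  have hev : ∀ (p : MvPolynomial ι ℝ) (x : ι → ℝ),
      (MvPolynomial.aeval (R := ℝ) co p : C(ι → ℝ, ℝ)) x = MvPolynomial.eval x p := by
    intro p x
    induction p using MvPolynomial.induction_on with
    | C a => simp
    | add p q hp hq => rw [map_add, map_add, ContinuousMap.add_apply, hp, hq]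
    | mul_X p j hp =>
      rw [map_mul, map_mul, ContinuousMap.mul_apply, hp, MvPolynomial.aeval_X,
        MvPolynomial.eval_X]
      rfl
  have hsep : A.SeparatesPoints := by
    intro x y hxy
    obtain ⟨i, hi⟩ := Function.ne_iff.1 hxy
    refine ⟨fun x => x i, ⟨co i, ?_, rfl⟩, hi⟩
    exact ⟨MvPolynomial.X i, MvPolynomial.aeval_X _ _⟩
  obtain ⟨g, hg, hfg⟩ :=
    ContinuousMap.exists_mem_subalgebra_near_continuous_of_isCompact_of_separatesPoints hsep
      ⟨f, hf⟩ (K := Set.pi Set.univ fun _ : ι => Set.Icc (-1 : ℝ) 1)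
      (isCompact_univ_pi fun _ => isCompact_Icc) hε
  obtain ⟨p, hp⟩ := hg
  refine ⟨fun x => MvPolynomial.eval x p, hpc p, ?_, fun x hx => ?_⟩
  · have h2 := h1 p fun _ => 0
    simpa [Cf_zero] using h2
  · have h2 := hfg x fun i _ => hx i
    rw [← hp] at h2
    have h3 := hev p x
    rw [abs_sub_comm, ← Real.norm_eq_abs]
    change ‖MvPolynomial.eval x p - f x‖ ≤ ε
    rw [← h3]
    exact h2.le

/-- the product law -/
noncomputable def Im (f : (ι → ℝ) → ℝ) : ℝ :=
  ∫ t in Set.Icc (0 : ι → ℝ) (fun _ => Real.pi), f (fun i => Real.cos (t i)) *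
    ∏ i, (1 / Real.pi * dk 1 (t i))

theorem cont_w : Continuous fun t : ι → ℝ => ∏ i, (1 / Real.pi * dk 1 (t i)) :=
  continuous_finsetProd _ fun i _ => ((cont_dk 1).comp (continuous_apply i)).const_mul _

theorem w_nonneg (t : ι → ℝ) : 0 ≤ ∏ i, (1 / Real.pi * dk 1 (t i)) := by
  have := Real.pi_pos
  refine prod_nonneg fun i _ => ?_
  unfold dk
  positivity

theorem cont_cos : Continuous fun t : ι → ℝ => fun i => Real.cos (t i) :=
  continuous_pi fun i => Real.continuous_cos.comp (continuous_apply i)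

theorem int_Im {f : (ι → ℝ) → ℝ} (hf : Continuous f) : IntegrableOn (fun t : ι → ℝ =>
    f (fun i => Real.cos (t i)) * ∏ i, (1 / Real.pi * dk 1 (t i)))
    (Set.Icc (0 : ι → ℝ) fun _ => Real.pi) :=
  ((hf.comp cont_cos).mul cont_w).continuousOn.integrableOn_compact isCompact_Icc

theorem Im_prod (f : ι → ℝ → ℝ) : Im (fun x => ∏ i, f i (x i)) = ∏ i, J (dk 1) (f i) := by
  have hpi := Real.pi_pos
  unfold Im
  have h1 : (Set.Icc (0 : ι → ℝ) fun _ => Real.pi) =
      Set.pi Set.univ fun _ : ι => Set.Icc (0 : ℝ) Real.pi := by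
    rw [Set.pi_univ_Icc]
    rfl
  rw [h1, volume_pi, Measure.restrict_pi_pi]
  have h2 : ∀ t : ι → ℝ, (∏ i, f i (Real.cos (t i))) * ∏ i, (1 / Real.pi * dk 1 (t i)) =
      ∏ i, (fun s : ℝ => f i (Real.cos s) * (1 / Real.pi * dk 1 s)) (t i) := by
    intro t
    rw [← prod_mul_distrib]
  simp only [h2]
  rw [integral_fintype_prod_eq_prod (f := fun (i : ι) (s : ℝ) =>
    f i (Real.cos s) * (1 / Real.pi * dk 1 s))]
  refine prod_congr rfl fun i _ => ?_
  unfold J
  rw [intervalIntegral.integral_of_le hpi.le, ← integral_Icc_eq_integral_Ioc, ← integral_const_mul]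
  congr 1
  funext s
  ring

theorem Im_add {f g : (ι → ℝ) → ℝ} (hf : Continuous f) (hg : Continuous g) :
    Im (fun x => f x + g x) = Im f + Im g := by
  unfold Im
  rw [← integral_add (int_Im hf) (int_Im hg)]
  simp only [add_mul]

theorem Im_smul (c : ℝ) (f : (ι → ℝ) → ℝ) : Im (fun x => c * f x) = c * Im f := by
  unfold Im
  rw [← integral_const_mul]
  simp only [mul_assoc]

theorem Im_one : Im (fun _ : ι → ℝ => 1) = 1 := by
  have h := Im_prod (fun (_ : ι) (_ : ℝ) => (1 : ℝ))
  simp only [prod_const_one] at h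
  rw [h]
  refine prod_eq_one fun i _ => ?_
  have h1 := J_C 0
  rw [if_pos rfl] at h1
  have e : (fun _ : ℝ => (1 : ℝ)) = Cf 0 := by
    funext x
    rw [Cf_zero]
  rw [e, h1]

theorem Im_le {f : (ι → ℝ) → ℝ} (hf : Continuous f) {ε : ℝ}
    (h : ∀ x : ι → ℝ, (∀ i, x i ∈ Set.Icc (-1 : ℝ) 1) → |f x| ≤ ε) : |Im f| ≤ ε := by
  have h1 : ∀ g : (ι → ℝ) → ℝ, Continuous g →
      (∀ x : ι → ℝ, (∀ i, x i ∈ Set.Icc (-1 : ℝ) 1) → g x ≤ ε) → Im g ≤ ε := by
    intro g hg hgε
    have h2 : Im g ≤ Im fun _ : ι → ℝ => ε := by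
      unfold Im
      refine integral_mono (int_Im hg) (int_Im continuous_const) fun t => ?_
      exact mul_le_mul_of_nonneg_right (hgε _ fun i => Real.cos_mem_Icc _) (w_nonneg t)
    have h3 := Im_smul ε (fun _ : ι → ℝ => 1)
    rw [Im_one] at h3
    simp only [mul_one] at h3
    rwa [h3] at h2
  rw [abs_le]
  constructor
  · have h2 := h1 (fun x => (-1) * f x) (hf.const_mul _) fun x hx => by
      have := (abs_le.1 (h x hx)).1
      linarith
    rw [Im_smul] at h2
    linarith
  · exact h1 f hf fun x hx => (abs_le.1 (h x hx)).2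

end Pool.Agent.X289.DensM
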