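import Pool.Agent.TH553.ST.PW2

set_option autoImplicit false
set_option linter.unusedSectionVars false

/-!
# The theorem of Peter and Weyl for class functions on a finite product
-/

namespace Pool.Agent.X289.DenseM

open Complex Filter Topology ComplexConjugate MeasureTheory NumberField IsDedekindDomain
  Pool.Agent.W540.BE Pool.Agent.TH553.ST
open scoped Matrix ComplexOrder

section

variable {κ : Type} [Fintype κ] {G : κ → Type} [∀ i, Group (G i)] [∀ i, TopologicalSpace (G i)]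

/-- sums of products of matrix coefficients -/
def CoefM (f : (∀ i, G i) → ℂ) : Prop := ∃ (J : Type) (_ : Fintype J) (a : J → ℂ)
  (φ : J → ∀ i, G i → ℂ), (∀ j i, Coef (φ j i)) ∧ ∀ p, f p = ∑ j, a j * ∏ i, φ j i (p i)

theorem CoefM.add {f f' : (∀ i, G i) → ℂ} (h : CoefM f) (h' : CoefM f') :
    CoefM fun p => f p + f' p := by
  obtain ⟨J, _, a, φ, h1, h3⟩ := h
  obtain ⟨J', _, a', φ', h1', h3'⟩ := h'
  refine ⟨J ⊕ J', inferInstance, Sum.elim a a', Sum.elim φ φ', ?_, fun p => ?_⟩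
  · rintro (j | j) i
    · exact h1 j i
    · exact h1' j i
  · rw [Fintype.sum_sum_type]
    exact congrArg₂ (· + ·) (h3 p) (h3' p)

theorem CoefM.mul {f f' : (∀ i, G i) → ℂ} (h : CoefM f) (h' : CoefM f') :
    CoefM fun p => f p * f' p := by
  obtain ⟨J, _, a, φ, h1, h3⟩ := h
  obtain ⟨J', _, a', φ', h1', h3'⟩ := h'
  refine ⟨J × J', inferInstance, fun j => a j.1 * a' j.2, fun j i g => φ j.1 i g * φ' j.2 i g,
    fun j i => (h1 j.1 i).mul (h1' j.2 i), fun p => ?_⟩
  rw [Fintype.sum_prod_type]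
  refine (congrArg₂ (· * ·) (h3 p) (h3' p)).trans ?_
  simp only
  rw [Finset.sum_mul_sum]
  exact Finset.sum_congr rfl fun i _ => Finset.sum_congr rfl fun j _ => by
    rw [Finset.prod_mul_distrib]
    ring

theorem CoefM.const (c : ℂ) : CoefM fun _ : (∀ i, G i) => c :=
  ⟨Unit, inferInstance, fun _ => c, fun _ _ _ => 1, fun _ _ => Coef.const 1, fun p => by simp⟩

theorem CoefM.conj {f : (∀ i, G i) → ℂ} (h : CoefM f) : CoefM fun p => conj (f p) := by
  obtain ⟨J, _, a, φ, h1, h3⟩ := h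
  refine ⟨J, inferInstance, fun j => conj (a j), fun j i g => conj (φ j i g),
    fun j i => (h1 j i).conj, fun p => ?_⟩
  simp only
  rw [h3, map_sum]
  exact Finset.sum_congr rfl fun j _ => by rw [map_mul, map_prod]

theorem coefM_cont {f : (∀ i, G i) → ℂ} (h : CoefM f) : Continuous f := by
  obtain ⟨J, _, a, φ, h1, h3⟩ := h
  have : f = fun p => ∑ j, a j * ∏ i, φ j i (p i) := funext h3
  rw [this]
  exact continuous_finsetSum _ fun j _ => continuous_const.mul (continuous_finsetProd _ fun i _ =>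
    (coef_cont (h1 j i)).comp (continuous_apply i))

/-- the algebra -/
noncomputable def coefAlgM (κ : Type) [Fintype κ] (G : κ → Type) [∀ i, Group (G i)]
    [∀ i, TopologicalSpace (G i)] : StarSubalgebra ℂ C((∀ i, G i), ℂ) where
  carrier := {f | CoefM f}
  mul_mem' := fun {f f'} (h : CoefM f) (h' : CoefM f') => show CoefM _ from h.mul h'
  one_mem' := show CoefM _ from CoefM.const 1
  add_mem' := fun {f f'} (h : CoefM f) (h' : CoefM f') => show CoefM _ from h.add h'
  zero_mem' := show CoefM _ from CoefM.const 0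
  algebraMap_mem' := fun c => show CoefM _ from CoefM.const c
  star_mem' := fun {f} (h : CoefM f) => show CoefM _ from h.conj

theorem coefM_one [DecidableEq κ] (i : κ) {φ : G i → ℂ} (hφ : Coef φ) :
    CoefM fun p : (∀ i, G i) => φ (p i) := by
  refine ⟨Unit, inferInstance, fun _ => 1,
    fun _ => Function.update (fun i (_ : G i) => (1 : ℂ)) i φ, fun _ k => ?_, fun p => ?_⟩
  · by_cases h : k = i
    · subst h
      simp only [Function.update_self]
      exact hφ
    · simp only [Function.update_of_ne h]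
      exact Coef.const 1
  · simp only [one_mul, Finset.univ_unique, Finset.sum_singleton]
    rw [Finset.prod_eq_single i]
    · simp
    · intro k _ hk
      simp [Function.update_of_ne hk]
    · intro h
      exact absurd (Finset.mem_univ i) h

end

section

variable {κ : Type} [Fintype κ] {G : κ → Type} [∀ i, Group (G i)] [∀ i, TopologicalSpace (G i)]
  [∀ i, IsTopologicalGroup (G i)] [∀ i, CompactSpace (G i)] [∀ i, T2Space (G i)]

theorem coefM_dense {f : (∀ i, G i) → ℂ} (hf : Continuous f) {ε : ℝ} (hε : 0 < ε) :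
    ∃ φ : (∀ i, G i) → ℂ, CoefM φ ∧ ∀ p, ‖f p - φ p‖ ≤ ε := by
  classical
  have h1 : (coefAlgM κ G).topologicalClosure = ⊤ := by
    refine ContinuousMap.starSubalgebra_topologicalClosure_eq_top_of_separatesPoints _ ?_
    intro g h hne
    obtain ⟨i, hi⟩ := Function.ne_iff.1 hne
    obtain ⟨φ, h2, h3⟩ := coef_sep hi
    have h4 := coefM_one (G := G) i h2
    exact ⟨_, ⟨⟨_, coefM_cont h4⟩, h4, rfl⟩, h3⟩
  have h2 : (⟨f, hf⟩ : C((∀ i, G i), ℂ)) ∈ (coefAlgM κ G).topologicalClosure := by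
    rw [h1]
    exact StarSubalgebra.mem_top
  have h3 : (⟨f, hf⟩ : C((∀ i, G i), ℂ)) ∈ closure ((coefAlgM κ G :
      StarSubalgebra ℂ C((∀ i, G i), ℂ)) : Set C((∀ i, G i), ℂ)) := h2
  obtain ⟨φ, h4, h5⟩ := Metric.mem_closure_iff.1 h3 ε hε
  refine ⟨φ, h4, fun g => ?_⟩
  rw [dist_eq_norm] at h5
  exact (ContinuousMap.norm_coe_le_norm ((⟨f, hf⟩ : C((∀ i, G i), ℂ)) - φ) g).trans h5.le

/-- **Products of irreducible characters span a dense space of class functions.** -/
theorem class_denseM {f : (∀ i, G i) → ℂ} (hf : Continuous f)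
    (hcl : ∀ g k, f (k * g * k⁻¹) = f g) {ε : ℝ} (hε : 0 < ε) :
    ∃ (J : Type) (_ : Fintype J) (m : J → κ → ℕ)
      (ρ : ∀ j i, G i →* Matrix.unitaryGroup (Fin (m j i)) ℂ) (a : J → ℂ),
      (∀ j i, Continuous (ρ j i) ∧ Schur (ρ j i)) ∧
      ∀ g, ‖f g - ∑ j, a j * ∏ i, chi (ρ j i) (g i)‖ ≤ ε := by
  classical
  obtain ⟨φ₀, h1, h2⟩ := coefM_dense hf hε
  let _ : ∀ i, MeasurableSpace (G i) := fun i => borel (G i)
  have _ : ∀ i, BorelSpace (G i) := fun i => ⟨rfl⟩
  set ν : ∀ i, Measure (G i) := fun i => Measure.haarMeasure ⊤ with hν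
  have hν1 : ∀ i, IsProbabilityMeasure (ν i) := fun i => ⟨by
    rw [hν]
    exact Measure.haarMeasure_self⟩
  obtain ⟨J, _, b, φ, h3, h5⟩ := h1
  choose J1 i1 m1 ρ1 a1 p1 q1 using fun j => fun i => dec_cav (μ := ν i) (h3 j i)
  have hcf : ∀ g : (∀ i, G i), ∀ j i, Continuous fun k : G i => φ j i (k⁻¹ * g i * k) :=
    fun g j i => (coef_cont (h3 j i)).comp
      ((continuous_inv.mul continuous_const).mul continuous_id)
  have hmeas : ∀ g : (∀ i, G i), ∀ j, Integrable
      (fun h : (∀ i, G i) => b j * ∏ i, φ j i ((h i)⁻¹ * g i * h i)) (Measure.pi ν) := by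
    intro g j
    refine Integrable.const_mul ?_ _
    exact Integrable.fintype_prod_dep (f := fun i (k : G i) => φ j i (k⁻¹ * g i * k))
      (μ := ν) fun i => (hcf g j i).integrable_of_hasCompactSupport
        (HasCompactSupport.of_compactSpace _)
  have key : ∀ g : (∀ i, G i), ∑ i : (Σ j, ∀ i, J1 j i), (b i.1 * ∏ k, a1 i.1 k (i.2 k)) *
      ∏ k, chi (ρ1 i.1 k (i.2 k)) (g k) =
      ∫ h : (∀ i, G i), φ₀ (h⁻¹ * g * h) ∂(Measure.pi ν) := by
    intro g
    have e1 : ∀ h : (∀ i, G i), φ₀ (h⁻¹ * g * h) =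
        ∑ j, b j * ∏ i, φ j i ((h i)⁻¹ * g i * h i) := fun h => h5 _
    simp only [e1]
    rw [integral_finsetSum _ fun j _ => hmeas g j, Fintype.sum_sigma]
    refine Finset.sum_congr rfl fun j _ => ?_
    rw [integral_const_mul]
    rw [integral_fintype_prod_eq_prod (f := fun i (k : G i) => φ j i (k⁻¹ * g i * k))]
    have e2 : ∀ i, ∫ k, φ j i (k⁻¹ * g i * k) ∂(ν i) =
        ∑ l, a1 j i l * chi (ρ1 j i l) (g i) := fun i => q1 j i (g i)
    simp only [e2]
    rw [Fintype.prod_sum, Finset.mul_sum]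
    refine Finset.sum_congr rfl fun l _ => ?_
    rw [Finset.prod_mul_distrib]
    ring
  refine ⟨Σ j, ∀ i, J1 j i, inferInstance, fun i k => m1 i.1 k (i.2 k),
    fun i k => ρ1 i.1 k (i.2 k), fun i => b i.1 * ∏ k, a1 i.1 k (i.2 k), fun i k => p1 _ _ _,
    fun g => ?_⟩
  rw [key]
  have h6 : f g = ∫ _ : (∀ i, G i), f g ∂(Measure.pi ν) := by simp
  have h7 : Integrable (fun h : (∀ i, G i) => φ₀ (h⁻¹ * g * h)) (Measure.pi ν) := by
    have e1 : (fun h : (∀ i, G i) => φ₀ (h⁻¹ * g * h)) =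
        fun h => ∑ j, b j * ∏ i, φ j i ((h i)⁻¹ * g i * h i) := funext fun h => h5 _
    rw [e1]
    exact integrable_finsetSum _ fun j _ => hmeas g j
  rw [h6, ← integral_sub (integrable_const _) h7]
  have h8 := norm_integral_le_of_norm_le_const (μ := Measure.pi ν) (C := ε)
    (f := fun h : (∀ i, G i) => f g - φ₀ (h⁻¹ * g * h)) (Filter.Eventually.of_forall fun h => by
      have h9 := hcl g h⁻¹
      rw [inv_inv] at h9
      rw [← h9]
      exact h2 _)
  simpa using h8

end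

section

variable {K : Type} [Field K] [NumberField K]
  {κ : Type} [Fintype κ] {G : κ → Type} [∀ i, Group (G i)] [∀ i, TopologicalSpace (G i)]
  [∀ i, IsTopologicalGroup (G i)] [∀ i, CompactSpace (G i)] [∀ i, T2Space (G i)]
  [∀ i, SecondCountableTopology (G i)] [∀ i, MeasurableSpace (G i)] [∀ i, BorelSpace (G i)]
  {μ : ∀ i, Measure (G i)} [∀ i, IsProbabilityMeasure (μ i)]

/-- joint equidistribution -/
def Joint (y : ∀ i, HeightOneSpectrum (𝓞 K) → G i) (μ : ∀ i, Measure (G i)) : Prop :=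
  ∀ f : (∀ i, G i) → ℂ, Continuous f → (∀ g k, f (k * g * k⁻¹) = f g) →
    Tendsto (mn fun v => f fun i => y i v) atTop (𝓝 (∫ g, f g ∂(Measure.pi μ)))

/-- **Weyl's criterion.** -/
theorem weylM {y : ∀ i, HeightOneSpectrum (𝓞 K) → G i}
    (h : ∀ (m : κ → ℕ) (ρ : ∀ i, G i →* Matrix.unitaryGroup (Fin (m i)) ℂ),
      (∀ i, Continuous (ρ i)) → (∀ i, Schur (ρ i)) →
      Tendsto (mn fun v => ∏ i, chi (ρ i) (y i v)) atTop (𝓝 (∏ i, ∫ g, chi (ρ i) g ∂(μ i)))) :
    Joint y μ := by
  intro f hf hcl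
  refine mn_unif fun ε hε => ?_
  obtain ⟨J, _, m, ρ, a, h1, h2⟩ := class_denseM hf hcl hε
  refine ⟨fun v => ∑ j, a j * ∏ i, chi (ρ j i) (y i v),
    ∑ j, a j * ∏ i, ∫ g, chi (ρ j i) g ∂(μ i), fun v => h2 _, ?_, ?_⟩
  · have hci : ∀ j, Continuous fun p : (∀ i, G i) => a j * ∏ i, chi (ρ j i) (p i) :=
      fun j => continuous_const.mul (continuous_finsetProd _ fun i _ =>
        (cont_chi (h1 j i).1).comp (continuous_apply i))
    have hFc : Continuous fun p : (∀ i, G i) => ∑ j, a j * ∏ i, chi (ρ j i) (p i) :=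
      continuous_finsetSum _ fun j _ => hci j
    have hI : ∀ F : (∀ i, G i) → ℂ, Continuous F → Integrable F (Measure.pi μ) := fun F hF =>
      hF.integrable_of_hasCompactSupport (HasCompactSupport.of_compactSpace F)
    have h5 : ∫ p, (∑ j, a j * ∏ i, chi (ρ j i) (p i)) ∂(Measure.pi μ) =
        ∑ j, a j * ∏ i, ∫ g, chi (ρ j i) g ∂(μ i) := by
      rw [integral_finsetSum _ fun j _ => hI _ (hci j)]
      refine Finset.sum_congr rfl fun j _ => ?_
      rw [integral_const_mul, integral_fintype_prod_eq_prod (f := fun i g => chi (ρ j i) g)]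
    rw [← h5, ← integral_sub (hI _ hFc) (hI _ hf)]
    have h8 := norm_integral_le_of_norm_le_const (μ := Measure.pi μ) (C := ε)
      (f := fun p : (∀ i, G i) => (∑ j, a j * ∏ i, chi (ρ j i) (p i)) - f p)
      (Filter.Eventually.of_forall fun p => by
        rw [norm_sub_rev]
        exact h2 p)
    simpa using h8
  · have h5 : Tendsto (fun N => ∑ j, a j * mn (fun v => ∏ i, chi (ρ j i) (y i v)) N)
        atTop (𝓝 (∑ j, a j * ∏ i, ∫ g, chi (ρ j i) g ∂(μ i))) :=
      tendsto_finsetSum _ fun j _ => (h (m j) (ρ j) (fun i => (h1 j i).1)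
        fun i => (h1 j i).2).const_mul _
    refine h5.congr fun N => ?_
    rw [mn_sum]
    exact Finset.sum_congr rfl fun i _ => (mn_mul _ _ _).symm

end

end Pool.Agent.X289.DenseM
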