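import Pool.Agent.X289.SymM

set_option autoImplicit false
set_option linter.unusedSectionVars false

/-!
# The laws over the extensions
-/

namespace Pool.Agent.X289.Fin

open Complex Filter Topology ComplexConjugate NumberField IsDedekindDomain MeasureTheory
  Pool.Agent.W540.BE Pool.Agent.TH553.RS Pool.Agent.TH553.ST Pool.Agent.H341R2
open Pool.Agent.X289.Dens Pool.Agent.X289.Cls Pool.Agent.X289.Bc Pool.Agent.X289.TaubR
  Pool.Agent.X289.SymM

/-- the moments of the laws -/
theorem J_dk {k : ℕ} (hk : 1 ≤ k) (j : ℕ) :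
    J (dk k) (Tf j) = (if j = 0 then 1 else 0) - if j = 2 * k then 1 / 2 else 0 := by
  have hpi := Real.pi_pos
  unfold J
  have h1 : ∀ t : ℝ, Tf j (Real.cos t) * dk k t =
      Real.cos (j * t) * Real.cos ((0 : ℕ) * t) -
        Real.cos (j * t) * Real.cos ((2 * k : ℕ) * t) := by
    intro t
    rw [Tf_cos]
    unfold dk
    push_cast
    have h3 : Real.cos (2 * (k : ℝ) * t) = 1 - 2 * Real.sin (k * t) ^ 2 := by
      rw [mul_assoc, Real.cos_two_mul, Real.cos_sq']
      ring
    rw [h3]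
    simp
    ring
  simp only [h1]
  have hc : ∀ a b : ℕ, IntervalIntegrable (fun t : ℝ =>
      Real.cos (a * t) * Real.cos (b * t)) volume 0 Real.pi := by
    intro a b
    exact ((Real.continuous_cos.comp (continuous_const.mul continuous_id)).mul
      (Real.continuous_cos.comp (continuous_const.mul continuous_id))).intervalIntegrable _ _
  rw [intervalIntegral.integral_sub (hc _ _) (hc _ _), int_cos_cos, int_cos_cos]
  have e1 : ¬ (j = 0 ∧ 2 * k = 0) := by omega
  rw [if_neg e1]
  by_cases e2 : j = 0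
  · have e3 : ¬ (0 = 2 * k) := by omega
    subst e2
    rw [if_pos rfl, if_pos ⟨rfl, rfl⟩, if_neg e3, if_pos rfl, if_neg e3]
    field_simp
    norm_num
    ring
  · have e3 : ¬ (j = 0 ∧ 0 = 0) := fun h => e2 h.1
    rw [if_neg e2, if_neg e3, if_neg e2]
    by_cases e4 : j = 2 * k
    · rw [if_pos e4, if_pos e4]
      field_simp
      ring
    · rw [if_neg e4, if_neg e4]
      simp

variable {K F : Type} [Field K] [NumberField K] [Field F] [NumberField F] [Algebra K F]
  {θ : HeightOneSpectrum (𝓞 K) → ℝ} {φ : HeightOneSpectrum (𝓞 F) → ℝ}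
  {U : Ultrafilter ℝ} (hU : (U : Filter ℝ) ≤ 𝓝[>] 0)

/-- the mean of a function of the cosine -/
noncomputable def LamU (φ : HeightOneSpectrum (𝓞 F) → ℝ) (U : Ultrafilter ℝ) (f : ℝ → ℝ) : ℝ :=
  M (nm F) U fun w => f (Real.cos (φ w))

include hU in
theorem LamU_one : LamU φ U (fun _ => 1) = 1 := M_one (sysF F) hU

/-- the means of the characters are integers -/
theorem exists_int (hL : ∀ m, 1 ≤ m → ∀ τ : ℝ, ∃ Λ, IsC φ m τ Λ) (τ : ℝ) (m : ℕ) :
    ∃ n : ℤ, ∀ U : Ultrafilter ℝ, (U : Filter ℝ) ≤ 𝓝[>] 0 →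
      (M (nm F) U fun w => ch m (φ w) * cw F τ w) = n := by
  rcases m with _ | m
  · by_cases hτ : τ = 0
    · refine ⟨1, fun U hU => ?_⟩
      simp only [ch_zero, one_mul, hτ]
      rw [cw_zero, M_one (sysF F) hU]
      simp
    · refine ⟨0, fun U hU => ?_⟩
      simp only [ch_zero, one_mul]
      rw [M_cw hU hτ]
      simp
  · obtain ⟨Λ, hΛ⟩ := hL (m + 1) (by omega) τ
    obtain ⟨e, -, h2⟩ := exists_ord φ hΛ
    exact ⟨-e, fun U hU => by rw [h2 U hU]; push_cast; rfl⟩

include hU in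
theorem two_cos_one (τ : ℝ) : 2 * (M (nm F) U fun w => Real.cos ((1 : ℕ) * φ w) * cw F τ w) =
    M (nm F) U fun w => ch 1 (φ w) * cw F τ w := by
  rw [← M_const_mul (sysF F) hU ((bd_cosn φ 1).mul (bd_cw τ))]
  congr 1
  funext w
  rw [ch_one]
  push_cast
  ring_nf

include hU in
theorem two_cos_add_two (τ : ℝ) (m : ℕ) :
    2 * (M (nm F) U fun w => Real.cos ((m + 2 : ℕ) * φ w) * cw F τ w) =
    (M (nm F) U fun w => ch (m + 2) (φ w) * cw F τ w) -
      M (nm F) U fun w => ch m (φ w) * cw F τ w := by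
  rw [← M_const_mul (sysF F) hU ((bd_cosn φ (m + 2)).mul (bd_cw τ)),
    ← M_sub (sysF F) hU ((bd_ch φ (m + 2)).mul (bd_cw τ)) ((bd_ch φ m).mul (bd_cw τ))]
  congr 1
  funext w
  rw [ch_add_two]
  ring

/-- twice the means of the cosines are integers -/
theorem exists_int_cos (hL : ∀ m, 1 ≤ m → ∀ τ : ℝ, ∃ Λ, IsC φ m τ Λ) (τ : ℝ) {l : ℕ}
    (hl : 1 ≤ l) : ∃ n : ℤ, ∀ U : Ultrafilter ℝ, (U : Filter ℝ) ≤ 𝓝[>] 0 →
      2 * (M (nm F) U fun w => Real.cos (l * φ w) * cw F τ w) = n := by
  rcases l with _ | _ | l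
  · omega
  · obtain ⟨n, hn⟩ := exists_int hL τ 1
    refine ⟨n, fun U hU => ?_⟩
    have h := two_cos_one (φ := φ) hU τ
    rw [hn U hU] at h
    exact h
  · obtain ⟨n, hn⟩ := exists_int hL τ (l + 2)
    obtain ⟨n', hn'⟩ := exists_int hL τ l
    refine ⟨n - n', fun U hU => ?_⟩
    have h := two_cos_add_two (φ := φ) hU τ l
    rw [hn U hU, hn' U hU] at h
    change 2 * (M (nm F) U fun w => Real.cos ((l + 2 : ℕ) * φ w) * cw F τ w) = _
    rw [h]
    push_cast
    ring

include hU in
/-- the functional -/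
theorem fn (hθ : ∀ f : ℝ → ℝ, Continuous f → Tendsto (mn fun v => f (Real.cos (θ v))) atTop
      (𝓝 (J (dk 1) f))) (hb : BCa θ φ) (hL : ∀ m, 1 ≤ m → ∀ τ : ℝ, ∃ Λ, IsC φ m τ Λ) :
    Fn (LamU φ U) (Module.finrank K F) where
  add f g hf hg := M_add (sysF F) hU (bd_cos φ hf) (bd_cos φ hg)
  smul c f hf := M_const_mul (sysF F) hU (bd_cos φ hf) c
  mono f g hf hg h := M_mono (sysF F) hU (bd_cos φ hf) (bd_cos φ hg) fun w =>
    h _ (Real.cos_mem_Icc _)
  one := LamU_one hU
  cs f hf := by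
    have h := M_cs (sysF F) hU (bd_cos φ hf) (Bd.const 1)
    simp only [mul_one, one_pow] at h
    rw [M_one (sysF F) hU, mul_one] at h
    exact h
  dom f hf h0 := M_dom hU hb hθ hf h0
  int l := by
    obtain ⟨n, hn⟩ := exists_int_cos hL 0 (l := l + 1) (by omega)
    refine ⟨n, ?_⟩
    rw [← hn U hU]
    unfold LamU
    congr 2
    funext w
    rw [cw_zero, Tf_cos, mul_one]


include hU in
/-- off the real point all means vanish -/
theorem cos_zero {k : ℕ} (hk : 1 ≤ k) (hlaw : ∀ f : ℝ → ℝ, Continuous f → LamU φ U f = J (dk k) f)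
    (hL : ∀ m, 1 ≤ m → ∀ τ : ℝ, ∃ Λ, IsC φ m τ Λ) {τ : ℝ} (hτ : τ ≠ 0) {l : ℕ} (hl : 1 ≤ l) :
    (M (nm F) U fun w => Real.cos (l * φ w) * cw F τ w) = 0 := by
  have hN := sysF F
  have hmom : ∀ j : ℕ, (M (nm F) U fun w => Real.cos (j * φ w)) =
      (if j = 0 then 1 else 0) - if j = 2 * k then 1 / 2 else 0 := by
    intro j
    rw [← J_dk hk j, ← hlaw _ (cont_Tf j)]
    unfold LamU
    congr 1
    funext w
    rw [Tf_cos]
  have hc2 : (M (nm F) U fun w => cw F τ w ^ 2) = 1 / 2 := by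
    have e : (fun w => cw F τ w ^ 2) = fun w => 1 / 2 + 1 / 2 * cw F (2 * τ) w :=
      funext fun w => cw_sq τ w
    rw [e, M_add hN hU (Bd.const _) ((bd_cw _).const_mul _), M_const hN hU,
      M_const_mul hN hU (bd_cw _), M_cw hU (by simpa using hτ)]
    ring
  have hx2 : ∀ l : ℕ, 1 ≤ l → (M (nm F) U fun w => (2 * Real.cos (l * φ w)) ^ 2) =
      2 - if l = k then 1 else 0 := by
    intro l hl
    have e : (fun w => (2 * Real.cos (l * φ w)) ^ 2) =
        fun w => 2 + 2 * Real.cos ((2 * l : ℕ) * φ w) := by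
      funext w
      push_cast
      rw [mul_assoc 2 (l : ℝ), Real.cos_two_mul]
      ring
    rw [e, M_add hN hU (Bd.const _) ((bd_cosn φ (2 * l)).const_mul _), M_const hN hU,
      M_const_mul hN hU (bd_cosn φ (2 * l)), hmom]
    have e1 : ¬ (2 * l = 0) := by omega
    have e2 : (2 * l = 2 * k) ↔ l = k := by omega
    rw [if_neg e1]
    simp only [e2]
    split_ifs <;> ring
  obtain ⟨n, hn⟩ := exists_int_cos hL τ hl
  have hn' := hn U hU
  have hxc : (M (nm F) U fun w => (2 * Real.cos (l * φ w)) * cw F τ w) = n := by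
    rw [← hn', ← M_const_mul hN hU ((bd_cosn φ l).mul (bd_cw τ))]
    congr 1
    funext w
    ring
  have hbx : Bd fun w => 2 * Real.cos (l * φ w) := (bd_cosn φ l).const_mul 2
  have hcs := M_cs hN hU hbx (bd_cw τ)
  rw [hxc, hx2 l hl, hc2] at hcs
  have hle : (n : ℝ) ^ 2 ≤ 1 := by
    refine hcs.trans ?_
    split_ifs <;> norm_num
  have hn2 : n ^ 2 ≤ 1 := by exact_mod_cast hle
  by_cases hn0 : n = 0
  · rw [hn0] at hn'
    push_cast at hn'
    linarith
  · exfalso
    have hn1 : n ^ 2 = 1 := by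
      have h1 : 0 < n ^ 2 := by positivity
      omega
    have hlk : l ≠ k := by
      intro h
      rw [if_pos h] at hcs
      have h1 : (n : ℝ) ^ 2 = 1 := by exact_mod_cast hn1
      rw [h1] at hcs
      norm_num at hcs
    have hr2 : (n : ℝ) ^ 2 = 1 := by exact_mod_cast hn1
    have hbd : Bd fun w => 2 * Real.cos (l * φ w) - 2 * n * cw F τ w :=
      hbx.sub ((bd_cw τ).const_mul _)
    have hd0 : (M (nm F) U fun w => (2 * Real.cos (l * φ w) - 2 * n * cw F τ w) ^ 2) = 0 := by
      have e : (fun w => (2 * Real.cos (l * φ w) - 2 * n * cw F τ w) ^ 2) =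
          fun w => ((2 * Real.cos (l * φ w)) ^ 2 + (-4 * n) *
            ((2 * Real.cos (l * φ w)) * cw F τ w)) + (4 * n ^ 2) * cw F τ w ^ 2 := by
        funext w
        ring
      rw [e, M_add hN hU (hbx.sq.add ((hbx.mul (bd_cw τ)).const_mul _))
        ((bd_cw τ).sq.const_mul _), M_add hN hU hbx.sq ((hbx.mul (bd_cw τ)).const_mul _),
        M_const_mul hN hU (hbx.mul (bd_cw τ)), M_const_mul hN hU (bd_cw τ).sq, hxc, hc2,
        hx2 l hl, if_neg hlk]
      nlinarith
    obtain ⟨n', hn''⟩ := exists_int_cos hL τ (l := l + 2 * k) (by omega)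
    have h1 := hn'' U hU
    have hba : Bd fun w => Real.cos ((l + 2 * k : ℕ) * φ w) := bd_cosn φ (l + 2 * k)
    have h2 := M_cs hN hU hba hbd
    rw [hd0, mul_zero] at h2
    have h3 : (M (nm F) U fun w => Real.cos ((l + 2 * k : ℕ) * φ w) *
        (2 * Real.cos (l * φ w) - 2 * n * cw F τ w)) = 0 := by
      have := le_antisymm h2 (sq_nonneg _)
      simpa using this
    have h4 : (M (nm F) U fun w => Real.cos ((l + 2 * k : ℕ) * φ w) *
        (2 * Real.cos (l * φ w) - 2 * n * cw F τ w)) =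
        (M (nm F) U fun w => Real.cos ((2 * l + 2 * k : ℕ) * φ w)) +
          (M (nm F) U fun w => Real.cos ((2 * k : ℕ) * φ w)) -
          n * (2 * M (nm F) U fun w => Real.cos ((l + 2 * k : ℕ) * φ w) * cw F τ w) := by
      rw [← M_const_mul hN hU (hba.mul (bd_cw τ)), ← M_const_mul hN hU
        ((hba.mul (bd_cw τ)).const_mul _), ← M_add hN hU (bd_cosn φ _) (bd_cosn φ _),
        ← M_sub hN hU ((bd_cosn φ _).add (bd_cosn φ _))
          (((hba.mul (bd_cw τ)).const_mul _).const_mul _)]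
      congr 1
      funext w
      have e1 : Real.cos ((2 * l + 2 * k : ℕ) * φ w) =
          Real.cos ((l + 2 * k : ℕ) * φ w + l * φ w) := by
        congr 1
        push_cast
        ring
      have e2 : Real.cos ((2 * k : ℕ) * φ w) =
          Real.cos ((l + 2 * k : ℕ) * φ w - l * φ w) := by
        congr 1
        push_cast
        ring
      rw [e1, e2, Real.cos_add, Real.cos_sub]
      ring
    rw [h3, h1, hmom, hmom] at h4
    have e1 : ¬ (2 * l + 2 * k = 0) := by omega
    have e2 : ¬ (2 * l + 2 * k = 2 * k) := by omega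
    have e3 : ¬ (2 * k = 0) := by omega
    rw [if_neg e1, if_neg e2, if_neg e3, if_pos rfl] at h4
    have h5 : (2 * (n * n') : ℝ) = -1 := by linarith
    have h6 : 2 * (n * n') = -1 := by exact_mod_cast h5
    omega

include hU in
theorem ch_mean_zero {k : ℕ} (hk : 1 ≤ k)
    (hlaw : ∀ f : ℝ → ℝ, Continuous f → LamU φ U f = J (dk k) f)
    (hL : ∀ m, 1 ≤ m → ∀ τ : ℝ, ∃ Λ, IsC φ m τ Λ) {τ : ℝ} (hτ : τ ≠ 0) (m : ℕ) :
    (M (nm F) U fun w => ch m (φ w) * cw F τ w) = 0 := by
  have h : ∀ m, (M (nm F) U fun w => ch m (φ w) * cw F τ w) = 0 ∧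
      (M (nm F) U fun w => ch (m + 1) (φ w) * cw F τ w) = 0 := by
    intro m
    induction m with
    | zero =>
      constructor
      · simp only [ch_zero, one_mul]
        exact M_cw hU hτ
      · rw [← two_cos_one hU τ, cos_zero hU hk hlaw hL hτ le_rfl, mul_zero]
    | succ m ih =>
      refine ⟨ih.2, ?_⟩
      have h1 := two_cos_add_two (φ := φ) hU τ m
      rw [cos_zero hU hk hlaw hL hτ (by omega), ih.1] at h1
      change (M (nm F) U fun w => ch (m + 2) (φ w) * cw F τ w) = 0
      linarith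
  exact (h m).1

include hU in
theorem ch_mean {k : ℕ} (hk : 1 ≤ k)
    (hlaw : ∀ f : ℝ → ℝ, Continuous f → LamU φ U f = J (dk k) f) (m : ℕ) :
    (M (nm F) U fun w => ch m (φ w) * cw F 0 w) = if Even m ∧ m < 2 * k then 1 else 0 := by
  have hcos : ∀ j : ℕ, (M (nm F) U fun w => Real.cos (j * φ w) * cw F 0 w) =
      (if j = 0 then 1 else 0) - if j = 2 * k then 1 / 2 else 0 := by
    intro j
    rw [← J_dk hk j, ← hlaw _ (cont_Tf j)]
    unfold LamU
    congr 1
    funext w
    rw [Tf_cos, cw_zero, mul_one]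
  have h : ∀ m, ((M (nm F) U fun w => ch m (φ w) * cw F 0 w) =
      if Even m ∧ m < 2 * k then 1 else 0) ∧
      ((M (nm F) U fun w => ch (m + 1) (φ w) * cw F 0 w) =
        if Even (m + 1) ∧ m + 1 < 2 * k then 1 else 0) := by
    intro m
    induction m with
    | zero =>
      constructor
      · rw [if_pos ⟨by simp, by omega⟩, cw_zero]
        simp only [ch_zero, one_mul]
        exact M_one (sysF F) hU
      · rw [← two_cos_one hU 0, hcos, if_neg (by omega), if_neg (by omega), if_neg]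
        · ring
        · intro h
          exact absurd h.1 (by decide)
    | succ m ih =>
      refine ⟨ih.2, ?_⟩
      have h1 := two_cos_add_two (φ := φ) hU 0 m
      rw [hcos, ih.1, if_neg (by omega)] at h1
      change (M (nm F) U fun w => ch (m + 2) (φ w) * cw F 0 w) = _
      have h2 : (M (nm F) U fun w => ch (m + 2) (φ w) * cw F 0 w) =
          (if Even m ∧ m < 2 * k then 1 else 0) - (if m + 2 = 2 * k then 1 else 0) := by
        have e : (2 : ℝ) * (0 - if m + 2 = 2 * k then 1 / 2 else 0) =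
            -(if m + 2 = 2 * k then 1 else 0) := by split_ifs <;> ring
        rw [e] at h1
        linarith
      rw [h2]
      have e3 : Even (m + 1 + 1) ↔ Even m := by
        rw [add_assoc, Nat.even_add]
        simp
      simp only [e3]
      by_cases he : Even m
      · obtain ⟨a, ha⟩ := he
        have he : Even m := ⟨a, ha⟩
        simp only [he, true_and]
        by_cases h3 : m < 2 * k
        · by_cases h4 : m + 2 = 2 * k
          · rw [if_pos h3, if_pos h4, if_neg (by omega)]; ring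
          · rw [if_pos h3, if_neg h4, if_pos (by omega)]; ring
        · rw [if_neg h3, if_neg (by omega), if_neg (by omega)]; ring
      · have h4 : ¬ (m + 2 = 2 * k) := by
          intro h
          exact he ⟨k - 1, by omega⟩
        rw [if_neg (fun h => he h.1), if_neg h4, if_neg (fun h => he h.1)]
        ring
  exact (h m).1

end Pool.Agent.X289.Fin
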