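import Pool.Agent.X289.Three

set_option autoImplicit false
set_option linter.unusedSectionVars false

/-!
# Up to four families: strict bounds from the laws of the pairs
-/

namespace Pool.Agent.X289.Four

open Complex Filter Topology ComplexConjugate NumberField IsDedekindDomain MeasureTheory
  Pool.Agent.W540.BE Pool.Agent.TH553.RS Pool.Agent.TH553.ST Pool.Agent.H341R2
open Pool.Agent.X289.Dens Pool.Agent.X289.Cls Pool.Agent.X289.Bc Pool.Agent.X289.SymM
  Pool.Agent.X289.Uch Pool.Agent.X289.Al Pool.Agent.X289.DensM Pool.Agent.X289.Main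
  Pool.Agent.X289.Multi Pool.Agent.X289.Three

/-! ### small values of a character -/

/-- the bump function of the small values -/
noncomputable def sml (c : ℕ) (δ : ℝ) (x : ℝ) : ℝ := max 0 (1 - |Cf c x| / δ)

/-- one at the small values -/
noncomputable def one (c : ℕ) (η : ℝ) (x : ℝ) : ℝ := max 0 (min 1 (2 - |Cf c x| / η))

theorem cont_sml (c : ℕ) (δ : ℝ) : Continuous (sml c δ) := by
  have := cont_Cf c
  unfold sml
  fun_prop

theorem cont_one (c : ℕ) (η : ℝ) : Continuous (one c η) := by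
  have := cont_Cf c
  unfold one
  fun_prop

theorem sml_nonneg (c : ℕ) (δ x : ℝ) : 0 ≤ sml c δ x := le_max_left _ _

theorem one_nonneg (c : ℕ) (η x : ℝ) : 0 ≤ one c η x := le_max_left _ _

theorem one_le (c : ℕ) (η x : ℝ) : one c η x ≤ 1 := max_le zero_le_one (min_le_left _ _)

theorem sml_le {c : ℕ} {δ : ℝ} (hδ : 0 < δ) (x : ℝ) : sml c δ x ≤ 1 := by
  have : 0 ≤ |Cf c x| / δ := by positivity
  exact max_le zero_le_one (by linarith)

theorem sml_zero {c : ℕ} {δ : ℝ} (hδ : 0 < δ) {x : ℝ} (h : δ ≤ |Cf c x|) : sml c δ x = 0 := by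
  unfold sml
  rw [max_eq_left]
  have : 1 ≤ |Cf c x| / δ := by rwa [le_div_iff₀ hδ, one_mul]
  linarith

theorem one_one {c : ℕ} {η : ℝ} (hη : 0 < η) {x : ℝ} (h : |Cf c x| ≤ η) : one c η x = 1 := by
  unfold one
  have : |Cf c x| / η ≤ 1 := by rwa [div_le_one hη]
  rw [min_eq_left (by linarith), max_eq_right zero_le_one]

theorem Cf_sin (c : ℕ) (t : ℝ) : Cf c (Real.cos t) * Real.sin t = Real.sin ((c + 1 : ℕ) * t) := by
  have := Polynomial.Chebyshev.U_real_cos t (c : ℤ)
  unfold Cf
  rw [this]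
  push_cast
  rfl

/-- a zero of the character -/
theorem J_sml {c : ℕ} (hc : 1 ≤ c) {δ : ℝ} (hδ : 0 < δ) : 0 < J (dk 1) (sml c δ) := by
  have hpi := Real.pi_pos
  unfold J
  refine mul_pos (by positivity) (intervalIntegral.integral_pos hpi
    (((cont_sml c δ).comp Real.continuous_cos).mul (cont_dk 1)).continuousOn
    (fun t _ => ?_) ⟨Real.pi / (c + 1 : ℕ), ⟨by positivity, ?_⟩, ?_⟩)
  · refine mul_nonneg (sml_nonneg _ _ _) ?_
    unfold dk
    positivity
  · rw [div_le_iff₀ (by positivity)]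
    have : (1 : ℝ) ≤ (c + 1 : ℕ) := by exact_mod_cast Nat.le_add_left 1 c
    nlinarith
  · have hs : 0 < Real.sin (Real.pi / (c + 1 : ℕ)) := by
      refine Real.sin_pos_of_pos_of_lt_pi (by positivity) ?_
      rw [div_lt_iff₀ (by positivity)]
      have : (1 : ℝ) < (c + 1 : ℕ) := by exact_mod_cast Nat.lt_add_of_pos_left hc
      nlinarith
    have h0 : Cf c (Real.cos (Real.pi / (c + 1 : ℕ))) = 0 := by
      have h1 := Cf_sin c (Real.pi / (c + 1 : ℕ))
      rw [mul_div_cancel₀ _ (by positivity), Real.sin_pi] at h1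
      rcases mul_eq_zero.1 h1 with h2 | h2
      · exact h2
      · exact absurd h2 hs.ne'
    unfold sml dk
    rw [h0]
    simp only [abs_zero, zero_div, sub_zero, Nat.cast_one, one_mul]
    rw [max_eq_right zero_le_one, one_mul]
    positivity

/-- the mass of the small values tends to zero -/
theorem J_one (c : ℕ) : Tendsto (fun n : ℕ => J (dk 1) (one c (1 / ((n : ℝ) + 1)))) atTop
    (𝓝 0) := by
  have hpi := Real.pi_pos
  unfold J
  have h1 : Tendsto (fun n : ℕ => ∫ t in (0 : ℝ)..Real.pi, one c (1 / ((n : ℝ) + 1))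
      (Real.cos t) * dk 1 t) atTop (𝓝 (∫ t in (0 : ℝ)..Real.pi, (0 : ℝ))) := by
    refine intervalIntegral.tendsto_integral_filter_of_dominated_convergence (fun _ => 2)
      (Eventually.of_forall fun n => ?_) (Eventually.of_forall fun n => ?_)
      intervalIntegrable_const ?_
    · exact (((cont_one c _).comp Real.continuous_cos).mul (cont_dk 1)).aestronglyMeasurable
    · refine Eventually.of_forall fun t _ => ?_
      have h1 := one_nonneg c (1 / ((n : ℝ) + 1)) (Real.cos t)
      have h2 := one_le c (1 / ((n : ℝ) + 1)) (Real.cos t)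
      have h3 : 0 ≤ dk 1 t ∧ dk 1 t ≤ 2 := by
        unfold dk
        have := Real.sin_sq_le_one ((1 : ℕ) * t)
        constructor
        · positivity
        · linarith
      rw [Real.norm_eq_abs, abs_of_nonneg (mul_nonneg h1 h3.1)]
      nlinarith [h3.1, h3.2]
    · have hcount : ({t : ℝ | Real.sin ((c + 1 : ℕ) * t) = 0}).Countable := by
        have : {t : ℝ | Real.sin ((c + 1 : ℕ) * t) = 0} ⊆
            Set.range fun n : ℤ => (n : ℝ) * Real.pi / (c + 1 : ℕ) := by
          intro t ht
          obtain ⟨n, hn⟩ := Real.sin_eq_zero_iff.1 ht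
          refine ⟨n, ?_⟩
          simp only
          rw [hn]
          field_simp
        exact (Set.countable_range _).mono this
      filter_upwards [hcount.ae_notMem volume] with t ht _
      have h3 : Cf c (Real.cos t) ≠ 0 := by
        intro h
        refine ht ?_
        show Real.sin ((c + 1 : ℕ) * t) = 0
        rw [← Cf_sin, h, zero_mul]
      have h4 : 0 < |Cf c (Real.cos t)| := abs_pos.2 h3
      refine tendsto_const_nhds.congr' ?_
      obtain ⟨n0, hn0⟩ := exists_nat_gt (2 / |Cf c (Real.cos t)|)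
      filter_upwards [eventually_ge_atTop n0] with n hn
      have h5 : one c (1 / ((n : ℝ) + 1)) (Real.cos t) = 0 := by
        unfold one
        rw [max_eq_left]
        refine (min_le_right _ _).trans ?_
        rw [div_div_eq_mul_div, div_one]
        rw [div_lt_iff₀ h4] at hn0
        have h6 : (n0 : ℝ) ≤ n := by exact_mod_cast hn
        nlinarith
      rw [h5, zero_mul]
  have h2 := h1.const_mul (1 / Real.pi)
  simpa using h2

/-! ### the bound -/

variable {K : Type} [Field K] [NumberField K] {U : Ultrafilter ℝ}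
  (hU : (U : Filter ℝ) ≤ 𝓝[>] 0)

variable {x y z w : HeightOneSpectrum (𝓞 K) → ℝ}

include hU in
theorem M_PL (h : PL x y) {f g : ℝ → ℝ} (hf : Continuous f) (hg : Continuous g) :
    (M (nm K) U fun v => f (Real.cos (x v)) * g (Real.cos (y v))) =
      J (dk 1) f * J (dk 1) g :=
  M_of_mn hU ((bd_cos x hf).mul (bd_cos y hg)) (h f g hf hg)

include hU in
theorem M_PL1 (h : PL x y) {f : ℝ → ℝ} (hf : Continuous f) :
    (M (nm K) U fun v => f (Real.cos (x v))) = J (dk 1) f := by
  have h1 := M_PL hU h hf (g := fun _ => 1) continuous_const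
  simp only [mul_one] at h1
  have h2 := J_C 0
  rw [if_pos rfl] at h2
  have e : Cf 0 = fun _ => 1 := funext Cf_zero
  rw [e] at h2
  rw [h1, h2, mul_one]

include hU in
theorem M_PLsq (h : PL x y) (a b : ℕ) :
    (M (nm K) U fun v => (Cf a (Real.cos (x v)) * Cf b (Real.cos (y v))) ^ 2) = 1 := by
  have h1 := M_PL hU h (f := fun t => Cf a t ^ 2) (g := fun t => Cf b t ^ 2)
    ((cont_Cf a).pow 2) ((cont_Cf b).pow 2)
  rw [J_sq_C, J_sq_C, mul_one] at h1
  rw [← h1]
  congr 1
  funext v
  ring

include hU in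
/-- **The strict bound.** -/
theorem core (hxy : PL x y) (hzw : PL z w) (hzx : PL z x) (hzy : PL z y) (a b d : ℕ) {c : ℕ}
    (hc : 1 ≤ c) (τ : ℝ) :
    |M (nm K) U fun v => (Cf a (Real.cos (x v)) * Cf b (Real.cos (y v))) *
      ((Cf c (Real.cos (z v)) * Cf d (Real.cos (w v))) * cw K τ v)| < 1 := by
  have hN := sysF K
  set A : HeightOneSpectrum (𝓞 K) → ℝ := fun v => Cf a (Real.cos (x v)) * Cf b (Real.cos (y v))
    with hA
  set C : HeightOneSpectrum (𝓞 K) → ℝ := fun v => Cf c (Real.cos (z v)) * Cf d (Real.cos (w v))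
    with hC
  have bA : Bd A := (bd_Cf x a).mul (bd_Cf y b)
  have bC : Bd C := (bd_Cf z c).mul (bd_Cf w d)
  have bB : Bd fun v => C v * cw K τ v := bC.mul (bd_cw τ)
  have hcw : ∀ v, |cw K τ v| ≤ 1 := fun v => abs_cw τ v
  have hA2 : (M (nm K) U fun v => A v ^ 2) = 1 := M_PLsq hU hxy a b
  have hB2 : (M (nm K) U fun v => (C v * cw K τ v) ^ 2) ≤ 1 := by
    rw [← M_PLsq hU hzw c d]
    refine M_mono hN hU bB.sq bC.sq fun v => ?_
    rw [mul_pow]
    have h1 : cw K τ v ^ 2 ≤ 1 := by
      rw [← sq_abs]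
      exact pow_le_one₀ (abs_nonneg _) (hcw v)
    have h2 := sq_nonneg (C v)
    calc C v ^ 2 * cw K τ v ^ 2 ≤ C v ^ 2 * 1 := mul_le_mul_of_nonneg_left h1 h2
      _ = _ := mul_one _
  by_contra hcon
  push Not at hcon
  set m := M (nm K) U fun v => A v * (C v * cw K τ v) with hm
  have h1 := M_cs hN hU bA bB
  rw [← hm, hA2, one_mul] at h1
  have hm2 : m ^ 2 = 1 := by
    have h2 : 1 ≤ m ^ 2 := by
      rw [← sq_abs]
      exact one_le_pow₀ hcon
    linarith
  have hD : (M (nm K) U fun v => (A v - m * (C v * cw K τ v)) ^ 2) = 0 := by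
    have e : (fun v => (A v - m * (C v * cw K τ v)) ^ 2) = fun v =>
        (A v ^ 2 + (-2 * m) * (A v * (C v * cw K τ v))) + m ^ 2 * (C v * cw K τ v) ^ 2 := by
      funext v
      ring
    have h2 := M_nonneg hN hU (bA.sub (bB.const_mul m)).sq fun v =>
      sq_nonneg (A v - m * (C v * cw K τ v))
    rw [e, M_add hN hU (bA.sq.add ((bA.mul bB).const_mul _)) (bB.sq.const_mul _),
      M_add hN hU bA.sq ((bA.mul bB).const_mul _), M_const_mul hN hU (bA.mul bB),
      M_const_mul hN hU bB.sq, hA2, hm2, one_mul] at h2 ⊢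
    rw [← hm] at h2 ⊢
    nlinarith
  have hmabs : |m| = 1 := by
    have := sq_abs m
    rw [hm2] at this
    nlinarith [abs_nonneg m]
  -- the bound for `w`
  obtain ⟨B, hB⟩ := bd_Cf w d
  set Q := max B 1 with hQ
  have hQ1 : 1 ≤ Q := le_max_right _ _
  have hQ0 : 0 < Q := by linarith
  have hBQ : ∀ v, |Cf d (Real.cos (w v))| ≤ Q := fun v => (hB v).trans (le_max_left _ _)
  -- the choice of `η`
  obtain ⟨n, hn⟩ := (((J_one a).add (J_one b)).eventually
    (gt_mem_nhds (by norm_num : (0 : ℝ) + 0 < 1))).exists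
  set η : ℝ := 1 / ((n : ℝ) + 1) with hη
  have hη0 : 0 < η := by positivity
  set δ : ℝ := η ^ 2 / (2 * Q) with hδ
  have hδ0 : 0 < δ := by positivity
  have hδQ : 2 * (δ * Q) = η ^ 2 := by
    rw [hδ]
    field_simp
  have hδQ0 : 0 < δ * Q := by positivity
  have bD : Bd fun v => (A v - m * (C v * cw K τ v)) ^ 2 := (bA.sub (bB.const_mul m)).sq
  have key : ∀ v, sml c δ (Real.cos (z v)) ≤
      (sml c δ (Real.cos (z v)) * one a η (Real.cos (x v)) +
        sml c δ (Real.cos (z v)) * one b η (Real.cos (y v))) +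
      ((δ * Q) ^ 2)⁻¹ * (A v - m * (C v * cw K τ v)) ^ 2 := by
    intro v
    have g0 := sml_nonneg c δ (Real.cos (z v))
    have g1 := sml_le (c := c) hδ0 (Real.cos (z v))
    have o1 := one_nonneg a η (Real.cos (x v))
    have o2 := one_nonneg b η (Real.cos (y v))
    have hinv : 0 ≤ ((δ * Q) ^ 2)⁻¹ * (A v - m * (C v * cw K τ v)) ^ 2 := by positivity
    rcases le_or_gt δ |Cf c (Real.cos (z v))| with h2 | h2
    · rw [sml_zero hδ0 h2]
      simpa using hinv
    · rcases le_or_gt (δ * Q) |A v - m * (C v * cw K τ v)| with h3 | h3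
      · have h4 : 1 ≤ ((δ * Q) ^ 2)⁻¹ * (A v - m * (C v * cw K τ v)) ^ 2 := by
          rw [← div_eq_inv_mul, le_div_iff₀ (by positivity), one_mul, ← sq_abs (A v - _)]
          exact pow_le_pow_left₀ hδQ0.le h3 2
        have h5 : 0 ≤ sml c δ (Real.cos (z v)) * one a η (Real.cos (x v)) +
            sml c δ (Real.cos (z v)) * one b η (Real.cos (y v)) := by positivity
        linarith
      · have h4 : |m * (C v * cw K τ v)| ≤ δ * Q := by
          rw [abs_mul, hmabs, one_mul, abs_mul, hC]
          simp only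
          rw [abs_mul]
          calc |Cf c (Real.cos (z v))| * |Cf d (Real.cos (w v))| * |cw K τ v|
              ≤ δ * Q * 1 := mul_le_mul (mul_le_mul h2.le (hBQ v) (abs_nonneg _) hδ0.le) (hcw v)
                (abs_nonneg _) hδQ0.le
            _ = _ := mul_one _
        have h5 : |A v| ≤ η ^ 2 := by
          have h6 : A v = (A v - m * (C v * cw K τ v)) + m * (C v * cw K τ v) := by ring
          rw [h6]
          refine (abs_add_le _ _).trans ?_
          linarith
        rw [hA] at h5
        simp only at h5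
        rw [abs_mul] at h5
        rcases le_or_gt |Cf a (Real.cos (x v))| η with h6 | h6
        · rw [one_one hη0 h6]
          have : 0 ≤ sml c δ (Real.cos (z v)) * one b η (Real.cos (y v)) := by positivity
          linarith
        · rcases le_or_gt |Cf b (Real.cos (y v))| η with h7 | h7
          · rw [one_one hη0 h7]
            have : 0 ≤ sml c δ (Real.cos (z v)) * one a η (Real.cos (x v)) := by positivity
            linarith
          · exfalso
            nlinarith
  have bs : Bd fun v => sml c δ (Real.cos (z v)) := bd_cos z (cont_sml c δ)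
  have b1 : Bd fun v => sml c δ (Real.cos (z v)) * one a η (Real.cos (x v)) :=
    bs.mul (bd_cos x (cont_one a η))
  have b2 : Bd fun v => sml c δ (Real.cos (z v)) * one b η (Real.cos (y v)) :=
    bs.mul (bd_cos y (cont_one b η))
  have h8 := M_mono hN hU bs ((b1.add b2).add (bD.const_mul _)) key
  rw [M_add hN hU (b1.add b2) (bD.const_mul _), M_add hN hU b1 b2, M_const_mul hN hU bD, hD,
    mul_zero, add_zero, M_PL1 hU hzw (cont_sml c δ),
    M_PL hU hzx (cont_sml c δ) (cont_one a η), M_PL hU hzy (cont_sml c δ) (cont_one b η)] at h8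
  have h9 := J_sml hc hδ0
  have h10 : J (dk 1) (one a η) + J (dk 1) (one b η) < 1 := hn
  nlinarith

/-- all exponents -/
theorem all {θ : Fin 4 → HeightOneSpectrum (𝓞 K) → ℝ} (hp : ∀ i j, i ≠ j → PL (θ i) (θ j))
    {a : Fin 4 → ℕ} (ha : a ≠ 0) (τ : ℝ) (hU : (U : Filter ℝ) ≤ 𝓝[>] 0) :
    |M (nm K) U fun v => (∏ i, Cf (a i) (Real.cos (θ i v))) * cw K τ v| < 1 := by
  obtain ⟨i, hi⟩ := Function.ne_iff.1 ha
  have hi' : 1 ≤ a i := Nat.one_le_iff_ne_zero.2 hi
  have key : ∀ i j k l : Fin 4, i ≠ j → k ≠ l → k ≠ i → k ≠ j → 1 ≤ a k →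
      (∀ f : Fin 4 → ℝ, ∏ i, f i = (f i * f j) * (f k * f l)) →
      |M (nm K) U fun v => (∏ i, Cf (a i) (Real.cos (θ i v))) * cw K τ v| < 1 := by
    intro i j k l h1 h2 h3 h4 h5 h6
    have h7 := core hU (hp i j h1) (hp k l h2) (hp k i h3) (hp k j h4) (a i) (a j) (a l) h5 τ
    have e : (fun v => (∏ i, Cf (a i) (Real.cos (θ i v))) * cw K τ v) =
        fun v => (Cf (a i) (Real.cos (θ i v)) * Cf (a j) (Real.cos (θ j v))) *
          ((Cf (a k) (Real.cos (θ k v)) * Cf (a l) (Real.cos (θ l v))) * cw K τ v) := by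
      funext v
      rw [h6 fun i => Cf (a i) (Real.cos (θ i v))]
      ring
    rw [e]
    exact h7
  fin_cases i
  · exact key 2 3 0 1 (by decide) (by decide) (by decide) (by decide) hi' fun f => by
      rw [Fin.prod_univ_four]
      ring
  · exact key 2 3 1 0 (by decide) (by decide) (by decide) (by decide) hi' fun f => by
      rw [Fin.prod_univ_four]
      ring
  · exact key 0 1 2 3 (by decide) (by decide) (by decide) (by decide) hi' fun f => by
      rw [Fin.prod_univ_four]
      ring
  · exact key 0 1 3 2 (by decide) (by decide) (by decide) (by decide) hi' fun f => by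
      rw [Fin.prod_univ_four]
      ring

end Pool.Agent.X289.Four
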