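import Pool.Agent.Y725.UG.RatMany
import Pool.Agent.Y725.UG.Temp2

/-! Several isobaric representations at once. -/

set_option autoImplicit false

namespace Pool.Agent.X289.Iso

open NumberField IsDedekindDomain Filter Topology Complex
open Pool.Agent.W189.TP (DS)
open Pool.Agent.TH861.GL3 (PL qq two_le_qq qq_pos one_lt_qq)
open Pool.Agent.TH949.LT
open Pool.Agent.TH949.UL
open Pool.Agent.Y725.UG

universe u

section

variable {K : Type u} [Field K] [NumberField K] {S : Finset (HeightOneSpectrum (𝓞 K))} {n m : ℕ}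

/-- `∑_{v ∉ S} ∑_{k ≥ 1} (|∑_i α_{i,v}^k|² - e) / k · q_v^{-ks}` -/
noncomputable def logE (e : ℕ) (α : PL S → Fin n → ℂ) (s : ℂ) : ℂ :=
  ∑' x : PL S × ℕ, (((‖∑ i, α x.1 i ^ (x.2 + 1)‖ ^ 2 - e) / ((x.2 : ℝ) + 1) : ℝ) : ℂ) *
    (((qq x.1.1 : ℕ) : ℂ) ^ (-s)) ^ (x.2 + 1)

/-- no parameters -/
def z0 : PL S → Fin 0 → ℂ := fun _ i => i.elim0

/-- no parameters -/
def z1 : HeightOneSpectrum (𝓞 K) → Fin 0 → ℂ := fun _ i => i.elim0

theorem loc_zero : Loc (z0 (S := S)) (z1 (K := K)) :=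
  ⟨fun _ i => i.elim0, fun _ _ i => i.elim0, fun _ _ _ => ⟨0, le_rfl, by simp⟩⟩

theorem sum_log {α : PL S → Fin n → ℂ} {β : HeightOneSpectrum (𝓞 K) → Fin m → ℂ} (h : Loc α β) {s : ℂ}
    (hs : 5 / 2 ≤ s.re) : Summable fun x : PL S × ℕ =>
      (((‖∑ i, α x.1 i ^ (x.2 + 1)‖ ^ 2 - 1) / ((x.2 : ℝ) + 1) : ℝ) : ℂ) *
        (((qq x.1.1 : ℕ) : ℂ) ^ (-s)) ^ (x.2 + 1) := by
  have h1 := ((summable_dall h hs).comp_injective (jSum_bij (S := S)).1).comp_injective
    (Sum.inl_injective (β := S × ℕ))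
  refine h1.congr fun x => ?_
  simp only [Function.comp, jSum, Sum.elim_inl]
  rw [cexp_LV, dall_P x.1.2]

theorem logE_eq (f : ℕ) {α : PL S → Fin n → ℂ} {β : HeightOneSpectrum (𝓞 K) → Fin m → ℂ} (h : Loc α β) {s : ℂ}
    (hs : 5 / 2 ≤ s.re) : logE (f + 1) α s = logAdn α s + f * logAdn (z0 (S := S)) s := by
  unfold logE logAdn
  rw [← tsum_mul_left, ← (sum_log h hs).tsum_add ((sum_log (loc_zero (S := S)) hs).mul_left _)]
  refine tsum_congr fun x => ?_
  simp only [Finset.univ_eq_empty, Finset.sum_empty, norm_zero]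
  push_cast
  ring

/-- the coefficients -/
noncomputable def dE (f : ℕ) (α : PL S → Fin n → ℂ) (β : HeightOneSpectrum (𝓞 K) → Fin m → ℂ) (x : PV K) : ℝ :=
  dall α β x + f * dall (z0 (S := S)) z1 x

theorem dE_le (f : ℕ) {α : PL S → Fin n → ℂ} {β : HeightOneSpectrum (𝓞 K) → Fin m → ℂ} (h : Loc α β) (x : PV K) :
    |dE f α β x| ≤ ((n : ℝ) ^ 2 + m + 1 + f) * Real.exp (LV x) := by
  have h1 := dall_le h x
  have h2 := dall_le (loc_zero (S := S)) x
  unfold dE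
  have h3 : |(f : ℝ) * dall (z0 (S := S)) z1 x| = f * |dall (z0 (S := S)) z1 x| := by
    rw [abs_mul, Nat.abs_cast]
  have h4 : (f : ℝ) * |dall (z0 (S := S)) z1 x| ≤ f * Real.exp (LV x) := by
    refine mul_le_mul_of_nonneg_left (h2.trans (le_of_eq ?_)) (Nat.cast_nonneg _)
    norm_num
  refine (abs_add_le _ _).trans ?_
  rw [h3]
  linarith

theorem summable_dE (f : ℕ) {α : PL S → Fin n → ℂ} {β : HeightOneSpectrum (𝓞 K) → Fin m → ℂ} (h : Loc α β) {s : ℂ}
    (hs : 5 / 2 ≤ s.re) : Summable fun x => (dE f α β x : ℂ) * Complex.exp (-(s * LV x)) := by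
  refine ((summable_dall h hs).add ((summable_dall (loc_zero (S := S)) hs).mul_left (f : ℂ))).congr fun x => ?_
  unfold dE
  push_cast
  ring

theorem DS_dE (f : ℕ) {α : PL S → Fin n → ℂ} {β : HeightOneSpectrum (𝓞 K) → Fin m → ℂ} (h : Loc α β) {s : ℂ}
    (hs : 5 / 2 ≤ s.re) : DS (dE f α β) LV s = DS (dall α β) LV s + f * DS (dall (z0 (S := S)) z1) LV s := by
  unfold DS
  rw [← tsum_mul_left, ← (summable_dall h hs).tsum_add ((summable_dall (loc_zero (S := S)) hs).mul_left _)]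
  refine tsum_congr fun x => ?_
  unfold dE
  push_cast
  ring

theorem exp_zero {s : ℂ} (hs : 5 / 2 ≤ s.re) : Complex.exp (DS (dall (z0 (S := S)) z1) LV s) =
    Complex.exp (logAdn (z0 (S := S)) s) := by
  have h1 := exp_all (loc_zero (S := S)) hs
  rw [← h1]
  simp

variable {α : PL S → Fin n → ℂ} {β : HeightOneSpectrum (𝓞 K) → Fin m → ℂ}
  {T : Finset (HeightOneSpectrum (𝓞 K) × Fin m)}

theorem singleE (f : ℕ) (h : LocT α β T) {G D : ℂ → ℂ} (hE : ∀ s : ℂ, 5 / 2 ≤ s.re →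
    G s * ∏ v ∈ S, ∏ i, (1 - β v i * ((qq v : ℕ) : ℂ) ^ (-s)) = D s * Complex.exp (logE (f + 1) α s)) {s : ℂ}
    (hs : 5 / 2 ≤ s.re) :
    G s * ∏ x ∈ T, (1 - β x.1 x.2 * ((qq x.1 : ℕ) : ℂ) ^ (-s)) =
      D s * Complex.exp (DS (dE f α (cut β T)) LV s) := by
  have h1 := single h (G := G) (D := fun s => D s * Complex.exp (f * logAdn (z0 (S := S)) s))
    (fun s hs => by
      rw [hE s hs, logE_eq f (loc_cut h) hs, Complex.exp_add]
      ring) hs
  rw [h1, DS_dE f (loc_cut h) hs, Complex.exp_add, Complex.exp_nat_mul, Complex.exp_nat_mul, exp_zero hs]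
  ring

end

theorem gln_iso (K : Type u) [Field K] [NumberField K] (n m r N f : ℕ) {D : ℂ → ℂ} {CD : ℝ}
    (hD : Den (fun s => D s ^ m) CD) {ε : ℝ} (hε : 0 < ε) :
    ∃ A : ℝ, 0 < A ∧ ∀ (S : Finset (HeightOneSpectrum (𝓞 K))) (α : Fin m → PL S → Fin n → ℂ)
      (β : Fin m → HeightOneSpectrum (𝓞 K) → Fin r → ℂ) (T : Fin m → Finset (HeightOneSpectrum (𝓞 K) × Fin r))
      (κ : Fin m → Fin N → ℂ) (Q : Fin m → ℝ) (G : Fin m → ℂ → ℂ),
      (∀ i, LocT (α i) (β i) (T i)) → (∀ i, LData N (κ i) (Q i) (G i)) → (∃ i j, κ i j = 0) →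
      (∀ i, ∀ s : ℂ, 5 / 2 ≤ s.re →
        G i s * ∏ v ∈ S, ∏ j, (1 - β i v j * ((qq v : ℕ) : ℂ) ^ (-s)) =
          D s * Complex.exp (logE (f + 1) (α i) s)) →
      ∃ (v : PL S) (k : ℕ), 1 ≤ k ∧
        (qq v.1 : ℝ) ^ k ≤ A * (∏ i, (Q i ^ 2 * PK (κ i) * ∏ x ∈ T i, (qq x.1 : ℝ))) ^ (1 + ε) ∧
        ∑ i, ‖∑ j, α i v j ^ k‖ ^ 2 < m * ((f + 1 : ℕ) : ℝ) := by
  classical
  obtain ⟨A, hA0, hA⟩ := euler.{u} K (m * N) (m * r) hD (B := m * ((n : ℝ) ^ 2 + r + 1 + f))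
    (by positivity) hε
  refine ⟨A, hA0, fun S α β T κ Q G h hG hκ hE => ?_⟩
  obtain ⟨κ', hL', hPK, hz⟩ := ldata_prod N m κ Q G hG
  have hL : ∀ i, Loc (α i) (cut (β i) (T i)) := fun i => loc_cut (h i)
  obtain ⟨x, hx, hxl⟩ := hA (fun x => ∑ i, dE f (α i) (cut (β i) (T i)) x) κ' (∏ i, Q i)
    (fun s => ∏ i, G i s) ((Finset.univ.sigma T).map (emb m r))
    (fun x => β (finProdFinEquiv.symm x.2).1 x.1 (finProdFinEquiv.symm x.2).2)
    (by
      intro x hx
      rw [Finset.mem_map] at hx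
      obtain ⟨p, hp, rfl⟩ := hx
      rw [Finset.mem_sigma] at hp
      have := ((h p.1).removed p.2 hp.2).2
      simpa [emb] using this)
    hL' (hz hκ)
    (fun x => by
      calc |∑ i, dE f (α i) (cut (β i) (T i)) x| ≤ ∑ i, |dE f (α i) (cut (β i) (T i)) x| :=
            Finset.abs_sum_le_sum_abs _ _
        _ ≤ ∑ _i : Fin m, ((n : ℝ) ^ 2 + r + 1 + f) * Real.exp (LV x) :=
            Finset.sum_le_sum fun i _ => dE_le f (hL i) x
        _ = _ := by
            rw [Finset.sum_const, Finset.card_univ, Fintype.card_fin, nsmul_eq_mul]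
            ring)
    (fun s hs => by
      rw [Finset.prod_map, Finset.prod_sigma, ← Finset.prod_mul_distrib]
      have h1 : DS (fun x => ∑ i, dE f (α i) (cut (β i) (T i)) x) LV s =
          ∑ i, DS (dE f (α i) (cut (β i) (T i))) LV s := by
        unfold DS
        rw [← Summable.tsum_finsetSum fun i _ => summable_dE f (hL i) hs]
        refine tsum_congr fun x => ?_
        rw [Complex.ofReal_sum, Finset.sum_mul]
      have h2 : D s ^ m = ∏ _i : Fin m, D s := by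
        rw [Finset.prod_const, Finset.card_univ, Fintype.card_fin]
      rw [h1, Complex.exp_sum, h2, ← Finset.prod_mul_distrib]
      refine Finset.prod_congr rfl fun i _ => ?_
      rw [← singleE f (h i) (hE i) hs]
      congr 1
      refine Finset.prod_congr rfl fun x _ => ?_
      simp [emb])
  have hprod : (∏ i, Q i) ^ 2 * PK κ' * ∏ x ∈ (Finset.univ.sigma T).map (emb m r), (qq x.1 : ℝ) =
      ∏ i, (Q i ^ 2 * PK (κ i) * ∏ x ∈ T i, (qq x.1 : ℝ)) := by
    rw [Finset.prod_map, Finset.prod_sigma, hPK, ← Finset.prod_pow, ← Finset.prod_mul_distrib,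
      ← Finset.prod_mul_distrib]
    rfl
  rw [hprod] at hxl
  obtain ⟨v, k⟩ := x
  simp only at hx hxl
  by_cases hxS : v ∈ S
  · exfalso
    refine absurd hx (not_lt.2 (Finset.sum_nonneg fun i _ => ?_))
    unfold dE
    rw [dall_S hxS, dall_S hxS]
    obtain ⟨c, hc, hc2⟩ := (hL i).ramified_nonneg v hxS k
    rw [hc2, Complex.ofReal_re]
    simp only [Finset.univ_eq_empty, Finset.sum_empty, Complex.zero_re, zero_div, mul_zero, add_zero]
    positivity
  · refine ⟨⟨v, hxS⟩, k + 1, by omega, hxl, ?_⟩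
    have h1 : ∀ i, dE f (α i) (cut (β i) (T i)) (v, k) =
        (‖∑ j, α i ⟨v, hxS⟩ j ^ (k + 1)‖ ^ 2 - (f + 1)) / ((k : ℝ) + 1) := fun i => by
      unfold dE
      rw [dall_P hxS k, dall_P hxS k]
      simp only [Finset.univ_eq_empty, Finset.sum_empty, norm_zero]
      ring
    simp only [h1] at hx
    rw [← Finset.sum_div, Finset.sum_sub_distrib, Finset.sum_const, Finset.card_univ, Fintype.card_fin,
      nsmul_eq_mul] at hx
    have hk : (0 : ℝ) < (k : ℝ) + 1 := by positivity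
    rw [div_lt_iff₀ hk, zero_mul] at hx
    push_cast
    linarith

/-- The function `F(s) = s^e (s - 1)^e Γ_ℝ(s)^e L(s, P × P~)`. -/
theorem gdataE (e : ℕ) {N : ℕ} {κ : Fin N → ℂ} {Q : ℝ} {ω : ℂ} {G Ξ : ℂ → ℂ} (hQ : 1 ≤ Q) (hω : ‖ω‖ = 1)
    (hconj : Multiset.map (fun j => (starRingEnd ℂ) (κ j)) Finset.univ.val = Multiset.map κ Finset.univ.val)
    (hre : ∀ j, -1 < (κ j).re) (hG : Differentiable ℂ G) (hΞ : Differentiable ℂ Ξ)
    (hgr : ∀ a b : ℝ, ∃ C A : ℝ, ∀ s : ℂ, a ≤ s.re → s.re ≤ b → ‖G s‖ ≤ C * (1 + |s.im|) ^ A)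
    (hΞe : ∀ s : ℂ, 1 < s.re → Ξ s = s ^ e * G s * ((Q : ℂ) ^ s * Gammaℝ s ^ e * ∏ j, Gammaℝ (s + κ j)))
    (hfe : ∀ s : ℂ, Ξ (1 - s) = ω * Ξ s) :
    ∃ F : ℂ → ℂ, LData N κ Q F ∧ ∀ s : ℂ, 1 < s.re → F s = s ^ e * G s * Gammaℝ s ^ e := by
  have hQ0 : (Q : ℂ) ≠ 0 := by exact_mod_cast (by linarith : Q ≠ 0)
  set P : ℂ → ℂ := fun s => (Q : ℂ) ^ (-s) * ∏ j, (Gammaℝ (s + κ j))⁻¹ with hP
  have hPd : Differentiable ℂ P := by
    refine Differentiable.mul ?_ (Differentiable.fun_finsetProd fun x _ => ?_)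
    · intro s
      exact (differentiableAt_id.neg).const_cpow (Or.inl hQ0)
    · exact Complex.differentiable_Gammaℝ_inv.comp (differentiable_id.add_const _)
  have hGne : ∀ s : ℂ, 1 < s.re → ∀ j, Gammaℝ (s + κ j) ≠ 0 := by
    intro s hs j
    refine Complex.Gammaℝ_ne_zero_of_re_pos ?_
    rw [add_re]
    linarith [hre j]
  have hcancel : ∀ s : ℂ, 1 < s.re → P s * ((Q : ℂ) ^ s * ∏ j, Gammaℝ (s + κ j)) = 1 := by
    intro s hs
    rw [hP]
    simp only
    have h1 : (Q : ℂ) ^ (-s) * (Q : ℂ) ^ s = 1 := by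
      rw [← Complex.cpow_add _ _ hQ0]
      simp
    have h2 : (∏ j, (Gammaℝ (s + κ j))⁻¹) * ∏ j, Gammaℝ (s + κ j) = 1 := by
      rw [← Finset.prod_mul_distrib]
      exact Finset.prod_eq_one fun x _ => inv_mul_cancel₀ (hGne s hs x)
    linear_combination h2 * ((Q : ℂ) ^ (-s) * (Q : ℂ) ^ s) + h1
  have hid1 : ∀ s : ℂ, 1 < s.re → Ξ s * P s = s ^ e * G s * Gammaℝ s ^ e := by
    intro s hs
    rw [hΞe s hs]
    linear_combination (s ^ e * G s * Gammaℝ s ^ e) * hcancel s hs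
  have hid2 : ∀ s : ℂ, Ξ s * P s * ((Gammaℝ s)⁻¹) ^ e = s ^ e * G s * ((Gammaℝ s * (Gammaℝ s)⁻¹)) ^ e := by
    intro s
    have hd1 : Differentiable ℂ fun s => Ξ s * P s * ((Gammaℝ s)⁻¹) ^ e :=
      (hΞ.mul hPd).mul (Complex.differentiable_Gammaℝ_inv.pow e)
    have hd2 : Differentiable ℂ fun s => s ^ e * G s := (differentiable_id.pow e).mul hG
    have h1 : (fun s => Ξ s * P s * ((Gammaℝ s)⁻¹) ^ e) = fun s => s ^ e * G s := by
      refine AnalyticOnNhd.eq_of_eventuallyEq (z₀ := 2) (fun z _ => hd1.analyticAt z)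
        (fun z _ => hd2.analyticAt z) ?_
      have hopen : IsOpen {s : ℂ | 1 < s.re} := isOpen_lt continuous_const Complex.continuous_re
      refine Filter.eventually_of_mem (hopen.mem_nhds (by norm_num : (2 : ℂ) ∈ {s : ℂ | 1 < s.re})) fun s hs => ?_
      have hg : Gammaℝ s ≠ 0 := Complex.Gammaℝ_ne_zero_of_re_pos (by
        have : 1 < s.re := hs
        linarith)
      simp only
      rw [hid1 s hs, mul_assoc, ← mul_pow, mul_inv_cancel₀ hg, one_pow, mul_one]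
    have h2 := congrFun h1 s
    by_cases hg : Gammaℝ s = 0
    · rcases Nat.eq_zero_or_pos e with he | he
      · subst he
        simpa using h2
      · rw [hg]
        simp [zero_pow he.ne']
    · rw [h2, mul_inv_cancel₀ hg, one_pow, mul_one]
  refine ⟨fun s => Ξ s * P s, ⟨hQ, hconj, hre, hΞ.mul hPd, ?_,
    Ξ, ω, hω, hΞ, fun s hs => ?_, hfe⟩, hid1⟩
  · -- growth
    intro a b
    obtain ⟨C1, A1, hC1⟩ := hgr a b
    obtain ⟨C2, hC20, hC2⟩ := gr_strip a b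
    have hcont : Continuous fun s => Ξ s * P s := (hΞ.mul hPd).continuous
    obtain ⟨C3, hC3⟩ := (isCompact_Icc (a := a) (b := b)).reProdIm (isCompact_Icc (a := (-1 : ℝ)) (b := 1))
      |>.exists_bound_of_continuousOn hcont.continuousOn
    obtain ⟨m, hm⟩ := exists_nat_ge (|A1|)
    refine ⟨|C3| + (|a| + |b| + 1) ^ e * |C1| * C2 ^ e, e + m, fun s h1 h2 => ?_⟩
    have hone : (1 : ℝ) ≤ 1 + |s.im| := by linarith [abs_nonneg s.im]
    have hpow : (1 : ℝ) ≤ (1 + |s.im|) ^ (e + m) := one_le_pow₀ hone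
    rcases le_or_gt |s.im| 1 with h3 | h3
    · have h4 := hC3 s ⟨⟨h1, h2⟩, abs_le.1 h3⟩
      have h5 : 0 ≤ (|a| + |b| + 1) ^ e * |C1| * C2 ^ e := by positivity
      calc ‖Ξ s * P s‖ ≤ |C3| := h4.trans (le_abs_self _)
        _ ≤ (|C3| + (|a| + |b| + 1) ^ e * |C1| * C2 ^ e) * 1 := by linarith
        _ ≤ _ := mul_le_mul_of_nonneg_left hpow (by positivity)
    · have him : s.im ≠ 0 := by
        intro h0
        rw [h0, abs_zero] at h3
        linarith
      have hg : Gammaℝ s ≠ 0 := by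
        rw [Ne, Complex.Gammaℝ_eq_zero_iff]
        rintro ⟨k, hk⟩
        apply him
        rw [hk]
        simp
      have h4 : Ξ s * P s = s ^ e * G s * Gammaℝ s ^ e := by
        have h5 := hid2 s
        rw [mul_inv_cancel₀ hg, one_pow, mul_one] at h5
        rw [← h5, mul_assoc (Ξ s * P s), ← mul_pow, inv_mul_cancel₀ hg, one_pow, mul_one]
      rw [h4, norm_mul, norm_mul, norm_pow, norm_pow]
      have h5 : ‖s‖ ≤ (|a| + |b| + 1) * (1 + |s.im|) := by
        have h6 := Complex.norm_le_abs_re_add_abs_im s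
        have h7 : |s.re| ≤ |a| + |b| := by
          rw [abs_le]
          constructor
          · linarith [neg_abs_le a, abs_nonneg b]
          · linarith [le_abs_self b, abs_nonneg a]
        have h8 : 0 ≤ (|a| + |b|) * |s.im| := by positivity
        nlinarith
      have h5e : ‖s‖ ^ e ≤ (|a| + |b| + 1) ^ e * (1 + |s.im|) ^ e := by
        rw [← mul_pow]
        exact pow_le_pow_left₀ (norm_nonneg _) h5 e
      have h6 : ‖G s‖ ≤ |C1| * (1 + |s.im|) ^ m := by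
        have h7 : ‖G s‖ ≤ |C1| * (1 + |s.im|) ^ (|A1|) :=
          (hC1 s h1 h2).trans (mul_le_mul (le_abs_self _)
            (Real.rpow_le_rpow_of_exponent_le hone (le_abs_self _)) (Real.rpow_nonneg (by linarith) _) (abs_nonneg _))
        have h8 : (1 + |s.im|) ^ (|A1|) ≤ (1 + |s.im|) ^ m := by
          rw [← Real.rpow_natCast (1 + |s.im|) m]
          exact Real.rpow_le_rpow_of_exponent_le hone hm
        exact h7.trans (mul_le_mul_of_nonneg_left h8 (abs_nonneg _))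
      have h7 : ‖Gammaℝ s‖ ^ e ≤ C2 ^ e := pow_le_pow_left₀ (norm_nonneg _) (hC2 s h1 h2 h3.le) e
      calc ‖s‖ ^ e * ‖G s‖ * ‖Gammaℝ s‖ ^ e
          ≤ ((|a| + |b| + 1) ^ e * (1 + |s.im|) ^ e) * (|C1| * (1 + |s.im|) ^ m) * C2 ^ e := by
            refine mul_le_mul (mul_le_mul h5e h6 (norm_nonneg _) (by positivity)) h7 (by positivity) (by positivity)
        _ = (|a| + |b| + 1) ^ e * |C1| * C2 ^ e * (1 + |s.im|) ^ (e + m) := by rw [pow_add]; ring
        _ ≤ _ := mul_le_mul_of_nonneg_right (by linarith [abs_nonneg C3]) (by positivity)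
  · have h1 := hcancel s (by linarith)
    linear_combination (-Ξ s) * h1

end Pool.Agent.X289.Iso
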