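import Pool.Agent.X289.RSD

set_option autoImplicit false

/-!
# Density bounds from linear combinations of logarithms of `L`-functions
-/

namespace Pool.Agent.X289.Lin

open Filter Topology ComplexConjugate
open Pool.Agent.X289.Many (UD)
open Pool.Agent.X289.RSD (log_bound log_atTop)

section

variable {P : Type*} {J : Type*} [Fintype J]

/-- the terms of the logarithm -/
noncomputable def term (q : P → ℕ) (f : P → ℕ → ℂ) (s : ℂ) (x : P × ℕ) : ℂ :=
  f x.1 x.2 / ((x.2 : ℂ) + 1) * (((q x.1 : ℕ) : ℂ) ^ (-s)) ^ (x.2 + 1)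

/-- **Linear combinations of logarithms.** -/
theorem lin {q : P → ℕ} (hq : ∀ v, 1 < q v) {f : J → P → ℕ → ℂ}
    (hs : ∀ j (s : ℝ), 1 < s → Summable (term q (f j) s)) {e : J → ℤ}
    (hp : ∀ j, ∃ Λ : ℂ → ℂ, MeromorphicAt Λ 1 ∧ meromorphicOrderAt Λ 1 = (-(e j) : ℤ) ∧
      ∀ᶠ s in 𝓝 (1 : ℂ), (1 : ℝ) < s.re → Λ s = Complex.exp (∑' x, term q (f j) s x))
    (g : J → ℝ) (G : P → ℕ → ℝ) (hG : ∀ v k, 0 ≤ G v k)
    (hGe : ∀ v k, (G v k : ℂ) = ∑ j, (g j : ℂ) * f j v k) {B : Set P} {X : ℝ} (hX : 0 < X)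
    (hB : ∀ v ∈ B, X ≤ G v 0) : UD q B ((∑ j, g j * e j) / X) := by
  have hq0 : ∀ v, (0 : ℝ) < q v := fun v => by exact_mod_cast (hq v).le.trans_lt' Nat.zero_lt_one
  have hcast : ∀ (s : ℝ) v, ((q v : ℕ) : ℂ) ^ (-(s : ℂ)) = (((q v : ℝ) ^ (-s) : ℝ) : ℂ) := by
    intro s v
    rw [Complex.ofReal_cpow (hq0 v).le]
    push_cast
    rfl
  choose Λ h1 h2 h3 using hp
  choose C hC using fun j => log_bound (h1 j) (h2 j) (h3 j)
  have hall : ∀ᶠ s : ℝ in 𝓝[>] 1, ∀ j,
      |(∑' x, term q (f j) s x).re - ((-(e j) : ℤ) : ℝ) * Real.log (s - 1)| ≤ C j := by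
    rw [eventually_all]
    intro j
    filter_upwards [hC j] with s h4
    have h5 := h4.2
    rwa [Complex.norm_exp, Real.log_exp] at h5
  intro ε hε
  have hbig := log_atTop.eventually (eventually_ge_atTop ((∑ j, |g j| * C j) / (X * ε)))
  filter_upwards [hall, hbig, self_mem_nhdsWithin] with s h4 h5 h6
  have hs1 : (1 : ℝ) < s := h6
  -- the terms of the combination
  have hterm : ∀ x : P × ℕ, (∑ j, (g j : ℂ) * term q (f j) s x) =
      ((G x.1 x.2 / ((x.2 : ℝ) + 1) * ((q x.1 : ℝ) ^ (-s)) ^ (x.2 + 1) : ℝ) : ℂ) := by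
    intro x
    unfold term
    rw [hcast]
    push_cast
    rw [hGe, Finset.sum_div, Finset.sum_mul]
    refine Finset.sum_congr rfl fun j _ => ?_
    ring
  have hsum1 : Summable fun x : P × ℕ => ∑ j, (g j : ℂ) * term q (f j) s x :=
    summable_sum fun j _ => (hs j s hs1).mul_left _
  have hsum2 : Summable fun x : P × ℕ => G x.1 x.2 / ((x.2 : ℝ) + 1) * ((q x.1 : ℝ) ^ (-s)) ^ (x.2 + 1) := by
    rw [← Complex.summable_ofReal]
    exact hsum1.congr fun x => hterm x
  have hval : ∑' x : P × ℕ, G x.1 x.2 / ((x.2 : ℝ) + 1) * ((q x.1 : ℝ) ^ (-s)) ^ (x.2 + 1) =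
      ∑ j, g j * (∑' x, term q (f j) s x).re := by
    have e1 : ((∑' x : P × ℕ, G x.1 x.2 / ((x.2 : ℝ) + 1) * ((q x.1 : ℝ) ^ (-s)) ^ (x.2 + 1) : ℝ) : ℂ) =
        ∑ j, (g j : ℂ) * ∑' x, term q (f j) s x := by
      rw [Complex.ofReal_tsum, ← tsum_congr hterm, Summable.tsum_finsetSum fun j _ => (hs j s hs1).mul_left _]
      exact Finset.sum_congr rfl fun j _ => tsum_mul_left
    have e2 := congrArg Complex.re e1
    rw [Complex.ofReal_re, Complex.re_sum] at e2
    rw [e2]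
    exact Finset.sum_congr rfl fun j _ => Complex.re_ofReal_mul _ _
  have hnn : ∀ v, 0 ≤ B.indicator (fun v => (q v : ℝ) ^ (-s)) v := fun v =>
    Set.indicator_nonneg (fun v _ => by positivity) v
  have hnn2 : ∀ x : P × ℕ, 0 ≤ G x.1 x.2 / ((x.2 : ℝ) + 1) * ((q x.1 : ℝ) ^ (-s)) ^ (x.2 + 1) := fun x => by
    have := hG x.1 x.2
    have := hq0 x.1
    positivity
  have key : ∀ T : Finset P, ∑ v ∈ T, B.indicator (fun v => (q v : ℝ) ^ (-s)) v ≤
      ((∑ j, g j * e j) / X + ε) * Real.log (1 / (s - 1)) := by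
    intro T
    have h7 : ∑ v ∈ T, X * B.indicator (fun v => (q v : ℝ) ^ (-s)) v ≤
        ∑ v ∈ T, G v 0 / (((0 : ℕ) : ℝ) + 1) * ((q v : ℝ) ^ (-s)) ^ (0 + 1) := by
      refine Finset.sum_le_sum fun v _ => ?_
      have e1 : G v 0 / (((0 : ℕ) : ℝ) + 1) * ((q v : ℝ) ^ (-s)) ^ (0 + 1) = G v 0 * (q v : ℝ) ^ (-s) := by
        norm_num
      rw [e1]
      by_cases hv : v ∈ B
      · rw [Set.indicator_of_mem hv]
        exact mul_le_mul_of_nonneg_right (hB v hv) (by have := hq0 v; positivity)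
      · rw [Set.indicator_of_notMem hv, mul_zero]
        have := hG v 0
        have := hq0 v
        positivity
    have h8 : ∑ v ∈ T, G v 0 / (((0 : ℕ) : ℝ) + 1) * ((q v : ℝ) ^ (-s)) ^ (0 + 1) ≤
        ∑' x : P × ℕ, G x.1 x.2 / ((x.2 : ℝ) + 1) * ((q x.1 : ℝ) ^ (-s)) ^ (x.2 + 1) := by
      have h9 := hsum2.sum_le_tsum (T.map ⟨fun v => (v, 0), fun a b h => (Prod.mk.inj h).1⟩) fun x _ => hnn2 x
      rw [Finset.sum_map] at h9
      exact h9
    have h10 : ∑ j, g j * (∑' x, term q (f j) s x).re ≤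
        (∑ j, g j * e j) * Real.log (1 / (s - 1)) + ∑ j, |g j| * C j := by
      rw [Finset.sum_mul, ← Finset.sum_add_distrib]
      refine Finset.sum_le_sum fun j _ => ?_
      have h11 := h4 j
      have e2 : g j * (∑' x, term q (f j) s x).re = g j * e j * Real.log (1 / (s - 1)) +
          g j * ((∑' x, term q (f j) s x).re - ((-(e j) : ℤ) : ℝ) * Real.log (s - 1)) := by
        rw [one_div, Real.log_inv]
        push_cast
        ring
      rw [e2]
      have h12 : g j * ((∑' x, term q (f j) s x).re - ((-(e j) : ℤ) : ℝ) * Real.log (s - 1)) ≤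
          |g j| * C j := by
        refine (le_abs_self _).trans ?_
        rw [abs_mul]
        exact mul_le_mul_of_nonneg_left h11 (abs_nonneg _)
      linarith
    rw [← Finset.mul_sum] at h7
    have h13 := (h7.trans h8).trans (hval.le.trans h10)
    rw [div_le_iff₀ (by positivity)] at h5
    refine le_of_mul_le_mul_left ?_ hX
    have e1 : X * (((∑ j, g j * e j) / X + ε) * Real.log (1 / (s - 1))) =
        (∑ j, g j * e j) * Real.log (1 / (s - 1)) + Real.log (1 / (s - 1)) * (X * ε) := by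
      field_simp
    rw [e1]
    linarith
  have hsum := summable_of_sum_le hnn key
  exact ⟨hsum, hsum.tsum_le_of_sum_le key⟩

end

/-- **Pairs.** -/
theorem pair {P I J : Type*} [Fintype I] [Fintype J] [DecidableEq I] [DecidableEq J] {q : P → ℕ}
    (hq : ∀ v, 1 < q v) {N : I → I → J → ℝ} {j0 : J} (hN : ∀ a c, N a c j0 = if a = c then 1 else 0)
    {F1 F2 : I → P → ℕ → ℝ} {H1 H2 : J → P → ℕ → ℂ}
    (h1 : ∀ a c v k, (F1 a v k : ℂ) * F1 c v k = ∑ e, (N a c e : ℂ) * H1 e v k)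
    (h2 : ∀ a c v k, (F2 a v k : ℂ) * F2 c v k = ∑ e, (N a c e : ℂ) * H2 e v k)
    (hs : ∀ e f (s : ℝ), 1 < s → Summable (term q (fun v k => H1 e v k * H2 f v k) s))
    (hp : ∀ e f, ∃ Λ : ℂ → ℂ, MeromorphicAt Λ 1 ∧
      meromorphicOrderAt Λ 1 = (-(if e = j0 ∧ f = j0 then 1 else 0 : ℤ) : ℤ) ∧
      ∀ᶠ s in 𝓝 (1 : ℂ), (1 : ℝ) < s.re →
        Λ s = Complex.exp (∑' x, term q (fun v k => H1 e v k * H2 f v k) s x))
    (c : I → I → ℝ) {B : Set P} {X : ℝ} (hX : 0 < X)
    (hB : ∀ v ∈ B, X ≤ |∑ a, ∑ b, c a b * (F1 a v 0 * F2 b v 0)|) :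
    UD q B ((∑ a, ∑ b, c a b ^ 2) / X ^ 2) := by
  have hX2 : 0 < X ^ 2 := by positivity
  have h3 := lin (J := J × J) hq (f := fun j v k => H1 j.1 v k * H2 j.2 v k)
    (e := fun j => if j.1 = j0 ∧ j.2 = j0 then 1 else 0)
    (fun j s hs1 => hs j.1 j.2 s hs1) (fun j => hp j.1 j.2)
    (fun j => ∑ a, ∑ b, ∑ a', ∑ b', c a b * c a' b' * (N a a' j.1 * N b b' j.2))
    (fun v k => (∑ a, ∑ b, c a b * (F1 a v k * F2 b v k)) ^ 2) (fun v k => sq_nonneg _)
    (fun v k => by
      push_cast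
      have e1 : (∑ a, ∑ b, (c a b : ℂ) * (F1 a v k * F2 b v k)) ^ 2 =
          ∑ a, ∑ b, ∑ a', ∑ b', (c a b : ℂ) * c a' b' *
            (((F1 a v k : ℂ) * F1 a' v k) * ((F2 b v k : ℂ) * F2 b' v k)) := by
        rw [sq, Finset.sum_mul]
        refine Finset.sum_congr rfl fun a _ => ?_
        rw [Finset.sum_mul]
        refine Finset.sum_congr rfl fun b _ => ?_
        rw [Finset.mul_sum]
        refine Finset.sum_congr rfl fun a' _ => ?_
        rw [Finset.mul_sum]
        refine Finset.sum_congr rfl fun b' _ => ?_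
        ring
      rw [e1]
      simp only [h1, h2, Finset.sum_mul_sum, Finset.mul_sum, Finset.sum_mul]
      rw [Fintype.sum_prod_type]
      simp only [Finset.sum_comm (s := (Finset.univ : Finset I)) (t := (Finset.univ : Finset J))]
      refine Finset.sum_comm.trans ?_
      refine Finset.sum_congr rfl fun e _ => ?_
      refine Finset.sum_congr rfl fun f _ => ?_
      refine Finset.sum_congr rfl fun a _ => ?_
      refine Finset.sum_congr rfl fun b _ => ?_
      refine Finset.sum_congr rfl fun a' _ => ?_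
      refine Finset.sum_congr rfl fun b' _ => ?_
      ring)
    (B := B) hX2 (fun v hv => by
      have := hB v hv
      rw [← sq_abs (∑ a, ∑ b, c a b * (F1 a v 0 * F2 b v 0))]
      exact pow_le_pow_left₀ hX.le this 2)
  have h4 : (∑ j : J × J, (∑ a, ∑ b, ∑ a', ∑ b', c a b * c a' b' * (N a a' j.1 * N b b' j.2)) *
      ((if j.1 = j0 ∧ j.2 = j0 then 1 else 0 : ℤ) : ℝ)) = ∑ a, ∑ b, c a b ^ 2 := by
    rw [Finset.sum_eq_single (j0, j0)]
    · simp only [and_self, if_true, Int.cast_one, mul_one, hN]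
      refine Finset.sum_congr rfl fun a _ => Finset.sum_congr rfl fun b _ => ?_
      rw [Finset.sum_eq_single a, Finset.sum_eq_single b]
      · simp [sq]
      · intro b' _ hb
        rw [if_pos rfl, if_neg hb.symm]
        ring
      · intro h
        exact absurd (Finset.mem_univ _) h
      · intro a' _ ha
        refine Finset.sum_eq_zero fun b' _ => ?_
        rw [if_neg ha.symm]
        ring
      · intro h
        exact absurd (Finset.mem_univ _) h
    · intro j _ hj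
      rw [if_neg, Int.cast_zero, mul_zero]
      rintro ⟨h5, h6⟩
      exact hj (Prod.ext h5 h6)
    · intro h
      exact absurd (Finset.mem_univ _) h
  rw [h4] at h3
  exact h3

end Pool.Agent.X289.Lin
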