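import Pool.Agent.X289.Lin
import Mathlib.Analysis.Fourier.FiniteAbelian.PontryaginDuality

set_option autoImplicit false

/-!
# Density bounds from complex linear combinations of logarithms of `L`-functions
-/

namespace Pool.Agent.X289.LinC

open Filter Topology ComplexConjugate
open Pool.Agent.X289.Many (UD)
open Pool.Agent.X289.RSD (log_bound log_atTop)
open Pool.Agent.X289.Lin (term)

section

variable {P : Type*}

theorem norm_term_le {q : P → ℕ} (hq : ∀ v, 1 < q v) (f : P → ℕ → ℂ) {s t : ℝ} (hst : s ≤ t) (x : P × ℕ) :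
    ‖term q f t x‖ ≤ ‖term q f s x‖ := by
  have hq0 : (0 : ℝ) < q x.1 := by exact_mod_cast (hq x.1).le.trans_lt' Nat.zero_lt_one
  have hq1 : (1 : ℝ) ≤ q x.1 := by exact_mod_cast (hq x.1).le
  have hcast : ∀ s : ℝ, ‖((q x.1 : ℕ) : ℂ) ^ (-(s : ℂ))‖ = (q x.1 : ℝ) ^ (-s) := by
    intro s
    rw [Complex.norm_natCast_cpow_of_pos (by exact_mod_cast hq0)]
    simp
  unfold term
  rw [norm_mul, norm_mul, norm_pow, norm_pow, hcast, hcast]
  have h1 : (q x.1 : ℝ) ^ (-t) ≤ (q x.1 : ℝ) ^ (-s) :=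
    Real.rpow_le_rpow_of_exponent_le hq1 (by linarith)
  have h2 : (0 : ℝ) ≤ (q x.1 : ℝ) ^ (-t) := by positivity
  gcongr

theorem cont {q : P → ℕ} (hq : ∀ v, 1 < q v) {f : P → ℕ → ℂ}
    (hs : ∀ s : ℝ, 1 < s → Summable (term q f s)) :
    ContinuousOn (fun s : ℝ => ∑' x, term q f s x) (Set.Ioi 1) := by
  intro s hs1
  have hs1' : (1 : ℝ) < s := hs1
  refine ContinuousAt.continuousWithinAt ?_
  set s0 : ℝ := (1 + s) / 2 with hs0
  have h1 : 1 < s0 := by linarith
  have h2 : s0 < s := by linarith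
  have h3 : ContinuousOn (fun s : ℝ => ∑' x, term q f s x) (Set.Ici s0) := by
    refine continuousOn_tsum (u := fun x => ‖term q f s0 x‖) (fun x => ?_) (hs s0 h1).norm
      fun x t ht => norm_term_le hq f ht x
    refine Continuous.continuousOn ?_
    unfold term
    have hq0 : ((q x.1 : ℕ) : ℂ) ≠ 0 := by
      have := hq x.1
      exact_mod_cast (by omega : q x.1 ≠ 0)
    refine Continuous.mul continuous_const (Continuous.pow ?_ _)
    exact (Complex.continuous_ofReal.neg).const_cpow (Or.inl hq0)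
  exact h3.continuousAt (Ici_mem_nhds h2)

/-- an integer valued continuous function on an interval is constant -/
theorem const_of_int {r : ℝ → ℝ} {a b : ℝ} (hr : ContinuousOn r (Set.Ioo a b))
    (hi : ∀ s ∈ Set.Ioo a b, ∃ n : ℤ, r s = n) {s t : ℝ} (hs : s ∈ Set.Ioo a b) (ht : t ∈ Set.Ioo a b) :
    r s = r t := by
  by_contra hne
  wlog hlt : r s < r t generalizing s t
  · exact this ht hs (fun h => hne h.symm) (lt_of_le_of_ne (not_lt.1 hlt) fun h => hne h.symm)
  obtain ⟨m, hm⟩ := hi s hs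
  obtain ⟨n, hn⟩ := hi t ht
  have hmn : m + 1 ≤ n := by
    rw [hm, hn] at hlt
    have : m < n := by exact_mod_cast hlt
    omega
  have hmn' : (m : ℝ) + 1 ≤ n := by exact_mod_cast hmn
  have h1 := (isPreconnected_Ioo.image r hr).ordConnected
  have h2 : r s + 1 / 2 ∈ r '' Set.Ioo a b :=
    h1.out ⟨s, hs, rfl⟩ ⟨t, ht, rfl⟩ ⟨by linarith, by rw [hm, hn]; linarith⟩
  obtain ⟨u, hu, hu2⟩ := h2
  obtain ⟨l, hl⟩ := hi u hu
  rw [hl, hm] at hu2
  have h3 : (2 * l : ℤ) = 2 * m + 1 := by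
    have : (2 : ℝ) * l = 2 * m + 1 := by linarith
    exact_mod_cast this
  omega

/-- **The complex logarithm at a point of order `e`.** -/
theorem clog {F : ℝ → ℂ} (hF : ContinuousOn F (Set.Ioi 1)) {Λ : ℂ → ℂ} {e : ℤ} (hΛ : MeromorphicAt Λ 1)
    (ho : meromorphicOrderAt Λ 1 = (e : WithTop ℤ))
    (he : ∀ᶠ s : ℝ in 𝓝[>] 1, Λ s = Complex.exp (F s)) :
    ∃ C : ℝ, ∀ᶠ s : ℝ in 𝓝[>] 1, ‖F s - e * (Real.log (s - 1) : ℝ)‖ ≤ C := by
  obtain ⟨g, h1, h2, h3⟩ := (meromorphicOrderAt_eq_int_iff hΛ).1 ho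
  have ht : Tendsto (fun s : ℝ => (s : ℂ)) (𝓝[>] 1) (𝓝 1) := by
    have h : Tendsto (fun s : ℝ => (s : ℂ)) (𝓝 1) (𝓝 ((1 : ℝ) : ℂ)) :=
      Complex.continuous_ofReal.tendsto 1
    rw [Complex.ofReal_one] at h
    exact h.mono_left nhdsWithin_le_nhds
  rw [eventually_nhdsWithin_iff] at h3
  have h4 : ∀ᶠ s in 𝓝 (1 : ℂ), ‖g s / g 1 - 1‖ < 1 / 2 := by
    have h5 : ContinuousAt (fun s => g s / g 1 - 1) 1 :=
      (h1.continuousAt.div_const _).sub continuousAt_const
    have h6 : Tendsto (fun s => g s / g 1 - 1) (𝓝 1) (𝓝 0) := by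
      have := h5.tendsto
      simpa [div_self h2] using this
    have h7 := (Metric.tendsto_nhds.1 h6) (1 / 2) (by norm_num)
    exact h7.mono fun s hs => by simpa using hs
  set w0 := Complex.log (g 1) with hw0
  have hw : Complex.exp w0 = g 1 := Complex.exp_log h2
  set D : ℝ → ℂ := fun s => F s - e * (Real.log (s - 1) : ℝ) - w0 with hD
  have h5 : ∀ᶠ s : ℝ in 𝓝[>] 1, ‖Complex.exp (D s) - 1‖ < 1 / 2 := by
    filter_upwards [ht.eventually h4, ht.eventually h3, he, self_mem_nhdsWithin] with s g4 g3 g5 g6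
    have hs : (1 : ℝ) < s := g6
    have hs0 : 0 < s - 1 := by linarith
    have hne : (s : ℂ) ∈ ({1} : Set ℂ)ᶜ := by
      intro h
      have h10 : (s : ℂ) = 1 := h
      have : s = 1 := by exact_mod_cast h10
      linarith
    have e1 : (s : ℂ) - 1 = ((s - 1 : ℝ) : ℂ) := by push_cast; ring
    have hne0 : (s : ℂ) - 1 ≠ 0 := by
      rw [e1]
      exact_mod_cast hs0.ne'
    have e2 : Complex.exp (e * (Real.log (s - 1) : ℝ)) = ((s : ℂ) - 1) ^ e := by
      rw [Complex.exp_int_mul, Complex.ofReal_log hs0.le, ← e1, Complex.exp_log hne0]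
    have e3 : Complex.exp (F s) = ((s : ℂ) - 1) ^ e * g s := by
      rw [← g5, g3 hne, smul_eq_mul]
    have e4 : Complex.exp (D s) = g s / g 1 := by
      rw [hD]
      simp only
      rw [Complex.exp_sub, Complex.exp_sub, hw, e3, e2,
        mul_div_cancel_left₀ _ (zpow_ne_zero _ hne0)]
    rw [e4]
    exact g4
  obtain ⟨δ, hδ, h6⟩ := (mem_nhdsGT_iff_exists_Ioo_subset.1 h5 : ∃ u ∈ Set.Ioi (1 : ℝ), _)
  have hδ1 : (1 : ℝ) < δ := hδ
  have hexp : ∀ s ∈ Set.Ioo 1 δ, ‖Complex.exp (D s) - 1‖ < 1 / 2 := fun s hs => h6 hs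
  have hslit : ∀ s ∈ Set.Ioo 1 δ, Complex.exp (D s) ∈ Complex.slitPlane := by
    intro s hs
    left
    have h7 := Complex.abs_re_le_norm (Complex.exp (D s) - 1)
    have h8 := hexp s hs
    rw [Complex.sub_re, Complex.one_re] at h7
    have := (abs_le.1 (h7.trans h8.le)).1
    linarith
  have hDc : ContinuousOn D (Set.Ioo 1 δ) := by
    refine ((hF.mono fun s hs => hs.1).sub ?_).sub continuousOn_const
    refine continuousOn_const.mul (Complex.continuous_ofReal.comp_continuousOn ?_)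
    exact (continuousOn_id.sub continuousOn_const).log fun s hs => by
      have : (1 : ℝ) < s := hs.1
      exact (sub_pos.2 this).ne'
  have hLc : ContinuousOn (fun s => Complex.log (Complex.exp (D s))) (Set.Ioo 1 δ) :=
    (Complex.continuous_exp.comp_continuousOn hDc).clog hslit
  set r : ℝ → ℝ := fun s => (D s - Complex.log (Complex.exp (D s))).im / (2 * Real.pi) with hr
  have hrc : ContinuousOn r (Set.Ioo 1 δ) :=
    (Complex.continuous_im.comp_continuousOn (hDc.sub hLc)).div_const _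
  have hpi : 2 * Real.pi ≠ 0 := by positivity
  have hri' : ∀ s, ∃ n : ℤ, D s - Complex.log (Complex.exp (D s)) = n * (2 * Real.pi * Complex.I) ∧ r s = n := by
    intro s
    have h7 : Complex.exp (D s - Complex.log (Complex.exp (D s))) = 1 := by
      rw [Complex.exp_sub, Complex.exp_log (Complex.exp_ne_zero _), div_self (Complex.exp_ne_zero _)]
    obtain ⟨n, hn⟩ := Complex.exp_eq_one_iff.1 h7
    refine ⟨n, hn, ?_⟩
    rw [hr]
    simp only
    rw [hn]
    have e1 : ((n : ℂ) * (2 * Real.pi * Complex.I)).im = n * (2 * Real.pi) := by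
      simp
    rw [e1, mul_div_assoc, div_self hpi, mul_one]
  have hmid : (1 + δ) / 2 ∈ Set.Ioo 1 δ := ⟨by linarith, by linarith⟩
  refine ⟨‖w0‖ + (1 + Real.pi) + |r ((1 + δ) / 2)| * (2 * Real.pi), ?_⟩
  filter_upwards [Ioo_mem_nhdsGT hδ1] with s hs
  have h7 : r s = r ((1 + δ) / 2) := const_of_int hrc (fun s _ => by
    obtain ⟨n, -, hn⟩ := hri' s
    exact ⟨n, hn⟩) hs hmid
  obtain ⟨n, hn, hn2⟩ := hri' s
  have h8 : F s - e * (Real.log (s - 1) : ℝ) = w0 + Complex.log (Complex.exp (D s)) +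
      n * (2 * Real.pi * Complex.I) := by
    rw [← hn, hD]
    simp only
    ring
  have h9 : ‖(n : ℂ) * (2 * Real.pi * Complex.I)‖ = |r ((1 + δ) / 2)| * (2 * Real.pi) := by
    rw [← h7, hn2, norm_mul, Complex.norm_intCast, norm_mul, Complex.norm_I, mul_one, norm_mul,
      Complex.norm_real, Real.norm_of_nonneg Real.pi_pos.le]
    norm_num
  have h10 : ‖Complex.log (Complex.exp (D s))‖ ≤ 1 + Real.pi := by
    have h11 := Complex.norm_le_abs_re_add_abs_im (Complex.log (Complex.exp (D s)))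
    have h12 : |(Complex.log (Complex.exp (D s))).im| ≤ Real.pi := by
      rw [Complex.log_im]
      exact Complex.abs_arg_le_pi _
    have h13 : |(Complex.log (Complex.exp (D s))).re| ≤ 1 := by
      rw [Complex.log_re]
      have h14 := hexp s hs
      have h15 : 1 / 2 ≤ ‖Complex.exp (D s)‖ := by
        have := norm_sub_norm_le (1 : ℂ) (1 - Complex.exp (D s))
        rw [sub_sub_cancel, norm_one, norm_sub_rev] at this
        linarith
      have h16 : ‖Complex.exp (D s)‖ ≤ 3 / 2 := by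
        have := norm_add_le (Complex.exp (D s) - 1) 1
        rw [sub_add_cancel, norm_one] at this
        linarith
      have h17 : Real.log ‖Complex.exp (D s)‖ ≤ ‖Complex.exp (D s)‖ - 1 :=
        Real.log_le_sub_one_of_pos (by linarith)
      have h18 : 1 - ‖Complex.exp (D s)‖⁻¹ ≤ Real.log ‖Complex.exp (D s)‖ :=
        Real.one_sub_inv_le_log_of_pos (by linarith)
      have h19 : ‖Complex.exp (D s)‖⁻¹ ≤ 2 := by
        rw [inv_le_comm₀ (by linarith) (by norm_num)]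
        linarith
      rw [abs_le]
      constructor <;> linarith
    linarith
  rw [h8]
  calc _ ≤ ‖w0 + Complex.log (Complex.exp (D s))‖ + ‖(n : ℂ) * (2 * Real.pi * Complex.I)‖ := norm_add_le _ _
    _ ≤ ‖w0‖ + ‖Complex.log (Complex.exp (D s))‖ + ‖(n : ℂ) * (2 * Real.pi * Complex.I)‖ :=
        add_le_add (norm_add_le _ _) le_rfl
    _ ≤ _ := by
        rw [h9]
        linarith

variable {J : Type*} [Fintype J]

/-- **Complex linear combinations of logarithms.** -/
theorem linC {q : P → ℕ} (hq : ∀ v, 1 < q v) {f : J → P → ℕ → ℂ}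
    (hs : ∀ j (s : ℝ), 1 < s → Summable (term q (f j) s)) {e : J → ℤ}
    (hp : ∀ j, ∃ Λ : ℂ → ℂ, MeromorphicAt Λ 1 ∧ meromorphicOrderAt Λ 1 = (-(e j) : ℤ) ∧
      ∀ᶠ s in 𝓝 (1 : ℂ), (1 : ℝ) < s.re → Λ s = Complex.exp (∑' x, term q (f j) s x))
    (g : J → ℂ) (G : P → ℕ → ℝ) (hG : ∀ v k, 0 ≤ G v k)
    (hGe : ∀ v k, (G v k : ℂ) = ∑ j, g j * f j v k) {B : Set P} {X : ℝ} (hX : 0 < X)
    (hB : ∀ v ∈ B, X ≤ G v 0) : UD q B ((∑ j, (g j).re * e j) / X) := by
  have hq0 : ∀ v, (0 : ℝ) < q v := fun v => by exact_mod_cast (hq v).le.trans_lt' Nat.zero_lt_one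
  have hcast : ∀ (s : ℝ) v, ((q v : ℕ) : ℂ) ^ (-(s : ℂ)) = (((q v : ℝ) ^ (-s) : ℝ) : ℂ) := by
    intro s v
    rw [Complex.ofReal_cpow (hq0 v).le]
    push_cast
    rfl
  have ht : Tendsto (fun s : ℝ => (s : ℂ)) (𝓝[>] 1) (𝓝 1) := by
    have h : Tendsto (fun s : ℝ => (s : ℂ)) (𝓝 1) (𝓝 ((1 : ℝ) : ℂ)) :=
      Complex.continuous_ofReal.tendsto 1
    rw [Complex.ofReal_one] at h
    exact h.mono_left nhdsWithin_le_nhds
  choose Λ h1 h2 h3 using hp
  have h3' : ∀ j, ∀ᶠ s : ℝ in 𝓝[>] 1, Λ j s = Complex.exp (∑' x, term q (f j) s x) := by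
    intro j
    filter_upwards [ht.eventually (h3 j), self_mem_nhdsWithin] with s g1 g2
    exact g1 (by rw [Complex.ofReal_re]; exact g2)
  choose C hC using fun j => clog (cont hq (hs j)) (h1 j) (h2 j) (h3' j)
  have hall : ∀ᶠ s : ℝ in 𝓝[>] 1, ∀ j,
      ‖(∑' x, term q (f j) s x) - ((-(e j) : ℤ) : ℂ) * (Real.log (s - 1) : ℝ)‖ ≤ C j := by
    rw [eventually_all]
    exact hC
  intro ε hε
  have hbig := log_atTop.eventually (eventually_ge_atTop ((∑ j, ‖g j‖ * C j) / (X * ε)))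
  filter_upwards [hall, hbig, self_mem_nhdsWithin] with s h4 h5 h6
  have hs1 : (1 : ℝ) < s := h6
  -- the terms of the combination
  have hterm : ∀ x : P × ℕ, (∑ j, g j * term q (f j) s x) =
      ((G x.1 x.2 / ((x.2 : ℝ) + 1) * ((q x.1 : ℝ) ^ (-s)) ^ (x.2 + 1) : ℝ) : ℂ) := by
    intro x
    unfold term
    rw [hcast]
    push_cast
    rw [hGe, Finset.sum_div, Finset.sum_mul]
    refine Finset.sum_congr rfl fun j _ => ?_
    ring
  have hsum1 : Summable fun x : P × ℕ => ∑ j, g j * term q (f j) s x :=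
    summable_sum fun j _ => (hs j s hs1).mul_left _
  have hsum2 : Summable fun x : P × ℕ => G x.1 x.2 / ((x.2 : ℝ) + 1) * ((q x.1 : ℝ) ^ (-s)) ^ (x.2 + 1) := by
    rw [← Complex.summable_ofReal]
    exact hsum1.congr fun x => hterm x
  have hval : ∑' x : P × ℕ, G x.1 x.2 / ((x.2 : ℝ) + 1) * ((q x.1 : ℝ) ^ (-s)) ^ (x.2 + 1) =
      ∑ j, (g j * ∑' x, term q (f j) s x).re := by
    have e1 : ((∑' x : P × ℕ, G x.1 x.2 / ((x.2 : ℝ) + 1) * ((q x.1 : ℝ) ^ (-s)) ^ (x.2 + 1) : ℝ) : ℂ) =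
        ∑ j, g j * ∑' x, term q (f j) s x := by
      rw [Complex.ofReal_tsum, ← tsum_congr hterm, Summable.tsum_finsetSum fun j _ => (hs j s hs1).mul_left _]
      exact Finset.sum_congr rfl fun j _ => tsum_mul_left
    have e2 := congrArg Complex.re e1
    rw [Complex.ofReal_re, Complex.re_sum] at e2
    exact e2
  have hnn : ∀ v, 0 ≤ B.indicator (fun v => (q v : ℝ) ^ (-s)) v := fun v =>
    Set.indicator_nonneg (fun v _ => by positivity) v
  have hnn2 : ∀ x : P × ℕ, 0 ≤ G x.1 x.2 / ((x.2 : ℝ) + 1) * ((q x.1 : ℝ) ^ (-s)) ^ (x.2 + 1) := fun x => by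
    have := hG x.1 x.2
    have := hq0 x.1
    positivity
  have key : ∀ T : Finset P, ∑ v ∈ T, B.indicator (fun v => (q v : ℝ) ^ (-s)) v ≤
      ((∑ j, (g j).re * e j) / X + ε) * Real.log (1 / (s - 1)) := by
    intro T
    have h7 : ∑ v ∈ T, X * B.indicator (fun v => (q v : ℝ) ^ (-s)) v ≤
        ∑ v ∈ T, G v 0 / (((0 : ℕ) : ℝ) + 1) * ((q v : ℝ) ^ (-s)) ^ (0 + 1) := by
      refine Finset.sum_le_sum fun v _ => ?_
      have e1 : G v 0 / (((0 : ℕ) : ℝ) + 1) * ((q v : ℝ) ^ (-s)) ^ (0 + 1) = G v 0 * (q v : ℝ) ^ (-s) := by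
        norm_num
      rw [e1]
      by_cases hv : v ∈ B
      · rw [Set.indicator_of_mem hv]
        exact mul_le_mul_of_nonneg_right (hB v hv) (by have := hq0 v; positivity)
      · rw [Set.indicator_of_notMem hv, mul_zero]
        have := hG v 0
        have := hq0 v
        positivity
    have h8 : ∑ v ∈ T, G v 0 / (((0 : ℕ) : ℝ) + 1) * ((q v : ℝ) ^ (-s)) ^ (0 + 1) ≤
        ∑' x : P × ℕ, G x.1 x.2 / ((x.2 : ℝ) + 1) * ((q x.1 : ℝ) ^ (-s)) ^ (x.2 + 1) := by
      have h9 := hsum2.sum_le_tsum (T.map ⟨fun v => (v, 0), fun a b h => (Prod.mk.inj h).1⟩) fun x _ => hnn2 x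
      rw [Finset.sum_map] at h9
      exact h9
    have h10 : ∑ j, (g j * ∑' x, term q (f j) s x).re ≤
        (∑ j, (g j).re * e j) * Real.log (1 / (s - 1)) + ∑ j, ‖g j‖ * C j := by
      rw [Finset.sum_mul, ← Finset.sum_add_distrib]
      refine Finset.sum_le_sum fun j _ => ?_
      have h11 := h4 j
      set w := (∑' x, term q (f j) s x) - ((-(e j) : ℤ) : ℂ) * (Real.log (s - 1) : ℝ) with hw
      have e2 : g j * (∑' x, term q (f j) s x) =
          g j * w + g j * (((-(e j : ℝ) * Real.log (s - 1) : ℝ)) : ℂ) := by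
        rw [hw]
        push_cast
        ring
      rw [e2, Complex.add_re, Complex.re_mul_ofReal]
      have h12 : (g j * w).re ≤ ‖g j‖ * C j := by
        refine (Complex.re_le_norm _).trans ?_
        rw [norm_mul]
        exact mul_le_mul_of_nonneg_left h11 (norm_nonneg _)
      have e3 : (g j).re * (-(e j : ℝ) * Real.log (s - 1)) = (g j).re * e j * Real.log (1 / (s - 1)) := by
        rw [one_div, Real.log_inv]
        ring
      rw [e3]
      linarith
    rw [← Finset.mul_sum] at h7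
    have h13 := (h7.trans h8).trans (hval.le.trans h10)
    rw [div_le_iff₀ (by positivity)] at h5
    refine le_of_mul_le_mul_left ?_ hX
    have e1 : X * (((∑ j, (g j).re * e j) / X + ε) * Real.log (1 / (s - 1))) =
        (∑ j, (g j).re * e j) * Real.log (1 / (s - 1)) + Real.log (1 / (s - 1)) * (X * ε) := by
      field_simp
    rw [e1]
    linarith
  have hsum := summable_of_sum_le hnn key
  exact ⟨hsum, hsum.tsum_le_of_sum_le key⟩

end

/-- Fourier inversion -/
theorem fourier {G : Type*} [AddCommGroup G] [Fintype G] (h : G → ℂ) (a : G) :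
    h a = ∑ ψ : AddChar G ℂ, ((Fintype.card G : ℂ)⁻¹ * ∑ b, h b * ψ (-b)) * ψ a := by
  classical
  have h1 : ∑ ψ : AddChar G ℂ, ((Fintype.card G : ℂ)⁻¹ * ∑ b, h b * ψ (-b)) * ψ a =
      (Fintype.card G : ℂ)⁻¹ * ∑ b, h b * ∑ ψ : AddChar G ℂ, ψ (a - b) := by
    simp only [Finset.mul_sum, Finset.sum_mul]
    rw [Finset.sum_comm]
    refine Finset.sum_congr rfl fun b _ => Finset.sum_congr rfl fun ψ _ => ?_
    rw [sub_eq_add_neg, AddChar.map_add_eq_mul]
    ring
  rw [h1]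
  have hc : (Fintype.card G : ℂ) ≠ 0 := by
    exact_mod_cast Fintype.card_ne_zero
  simp only [AddChar.sum_apply_eq_ite, sub_eq_zero, mul_ite, mul_zero]
  rw [Finset.sum_ite_eq, if_pos (Finset.mem_univ _), mul_comm (h a), ← mul_assoc, inv_mul_cancel₀ hc, one_mul]

/-- **Classes.** -/
theorem classes {P I G : Type*} [Fintype I] [DecidableEq I] [AddCommGroup G] [Fintype G]
    {q : P → ℕ} (hq : ∀ v, 1 < q v) {F : P → G} {T : I → P → ℕ → ℝ}
    (hs : ∀ i j (ψ : AddChar G ℂ) (s : ℝ), 1 < s →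
      Summable (term q (fun v k => (T i v k : ℂ) * T j v k * ψ ((k + 1) • F v)) s))
    (hp : ∀ i j (ψ : AddChar G ℂ), ∃ Λ : ℂ → ℂ, MeromorphicAt Λ 1 ∧
      meromorphicOrderAt Λ 1 = ((if i = j ∧ ψ = 0 then -1 else 0 : ℤ) : WithTop ℤ) ∧
      ∀ᶠ s in 𝓝 (1 : ℂ), (1 : ℝ) < s.re →
        Λ s = Complex.exp (∑' x, term q (fun v k => (T i v k : ℂ) * T j v k * ψ ((k + 1) • F v)) s x))
    (f : I → G → ℝ) {B : Set P} {X : ℝ} (hX : 0 < X)
    (hB : ∀ v ∈ B, X ≤ |∑ i, f i (F v) * T i v 0|) :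
    UD q B (((∑ i, ∑ b, f i b ^ 2) / Fintype.card G) / X ^ 2) := by
  classical
  have hX2 : 0 < X ^ 2 := by positivity
  have h3 := linC (J := (I × I) × AddChar G ℂ) hq
    (f := fun j v k => (T j.1.1 v k : ℂ) * T j.1.2 v k * j.2 ((k + 1) • F v))
    (e := fun j => if j.1.1 = j.1.2 ∧ j.2 = 0 then 1 else 0)
    (fun j s hs1 => hs j.1.1 j.1.2 j.2 s hs1) (fun j => by
      obtain ⟨Λ, g1, g2, g3⟩ := hp j.1.1 j.1.2 j.2
      refine ⟨Λ, g1, ?_, g3⟩
      rw [g2]
      split_ifs <;> simp)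
    (fun j => (Fintype.card G : ℂ)⁻¹ * ∑ b, ((f j.1.1 b * f j.1.2 b : ℝ) : ℂ) * j.2 (-b))
    (fun v k => (∑ i, f i ((k + 1) • F v) * T i v k) ^ 2) (fun v k => sq_nonneg _)
    (fun v k => by
      push_cast
      rw [Fintype.sum_prod_type, Fintype.sum_prod_type]
      rw [sq, Finset.sum_mul]
      refine Finset.sum_congr rfl fun i _ => ?_
      rw [Finset.mul_sum]
      refine Finset.sum_congr rfl fun j _ => ?_
      have h := fourier (fun b => ((f i b * f j b : ℝ) : ℂ)) ((k + 1) • F v)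
      have h' : (f i ((k + 1) • F v) : ℂ) * f j ((k + 1) • F v) =
          ∑ ψ : AddChar G ℂ, ((Fintype.card G : ℂ)⁻¹ * ∑ b, ((f i b : ℂ) * f j b) * ψ (-b)) * ψ ((k + 1) • F v) := by
        rw [← Complex.ofReal_mul, h]
        push_cast
        rfl
      calc _ = ((f i ((k + 1) • F v) : ℂ) * f j ((k + 1) • F v)) * (T i v k * T j v k) := by ring
        _ = _ := by
          rw [h', Finset.sum_mul]
          refine Finset.sum_congr rfl fun ψ _ => ?_
          ring)
    (B := B) hX2 (fun v hv => by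
      have := hB v hv
      simp only [zero_add, one_smul]
      rw [← sq_abs (∑ i, f i (F v) * T i v 0)]
      exact pow_le_pow_left₀ hX.le this 2)
  have h4 : (∑ j : (I × I) × AddChar G ℂ,
      ((Fintype.card G : ℂ)⁻¹ * ∑ b, ((f j.1.1 b * f j.1.2 b : ℝ) : ℂ) * j.2 (-b)).re *
      ((if j.1.1 = j.1.2 ∧ j.2 = 0 then 1 else 0 : ℤ) : ℝ)) = (∑ i, ∑ b, f i b ^ 2) / Fintype.card G := by
    rw [Fintype.sum_prod_type, Fintype.sum_prod_type, Finset.sum_div]
    refine Finset.sum_congr rfl fun i _ => ?_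
    rw [Finset.sum_eq_single i]
    · rw [Finset.sum_eq_single (0 : AddChar G ℂ)]
      · simp only [and_self, if_true, Int.cast_one, mul_one, AddChar.zero_apply]
        have e1 : (Fintype.card G : ℂ)⁻¹ * ∑ b, ((f i b * f i b : ℝ) : ℂ) =
            (((∑ b, f i b ^ 2) / Fintype.card G : ℝ) : ℂ) := by
          push_cast
          rw [div_eq_mul_inv, mul_comm]
          congr 1
          exact Finset.sum_congr rfl fun b _ => by ring
        rw [e1, Complex.ofReal_re]
      · intro ψ _ hψ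
        rw [if_neg fun h => hψ h.2, Int.cast_zero, mul_zero]
      · intro h
        exact absurd (Finset.mem_univ _) h
    · intro j _ hj
      refine Finset.sum_eq_zero fun ψ _ => ?_
      rw [if_neg fun h => hj h.1.symm, Int.cast_zero, mul_zero]
    · intro h
      exact absurd (Finset.mem_univ _) h
  rw [h4] at h3
  exact h3

end Pool.Agent.X289.LinC
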