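import Pool.Agent.X289.Fin

set_option autoImplicit false
set_option linter.unusedSectionVars false

/-!
# The laws over the extensions: natural density and the theorem
-/

namespace Pool.Agent.X289.Main

open Complex Filter Topology ComplexConjugate NumberField IsDedekindDomain MeasureTheory
  Pool.Agent.W540.BE Pool.Agent.TH553.RS Pool.Agent.TH553.ST Pool.Agent.H341R2
open Pool.Agent.X289.Dens Pool.Agent.X289.Cls Pool.Agent.X289.Bc Pool.Agent.X289.TaubR
  Pool.Agent.X289.SymM Pool.Agent.X289.Fin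

section

variable {F : Type} [Field F] [NumberField F]

theorem mn_add (f g : HeightOneSpectrum (𝓞 F) → ℝ) (n : ℕ) :
    mn (fun v => f v + g v) n = mn f n + mn g n := by
  unfold mn
  rw [Finset.sum_add_distrib, smul_add]

theorem mn_smul (c : ℝ) (f : HeightOneSpectrum (𝓞 F) → ℝ) (n : ℕ) :
    mn (fun v => c * f v) n = c * mn f n := by
  unfold mn
  rw [← Finset.mul_sum, smul_eq_mul, smul_eq_mul]
  ring

theorem mn_abs_le {f : HeightOneSpectrum (𝓞 F) → ℝ} {ε : ℝ} (hε : 0 ≤ ε) (h : ∀ v, |f v| ≤ ε)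
    (n : ℕ) : |mn f n| ≤ ε := by
  unfold mn
  rw [smul_eq_mul, abs_mul, abs_inv, Nat.abs_cast]
  rcases Nat.eq_zero_or_pos (upto F n).card with h0 | h0
  · rw [h0]
    simpa using hε
  · have h1 : (0 : ℝ) < (upto F n).card := by exact_mod_cast h0
    rw [inv_mul_le_iff₀ h1]
    refine (Finset.abs_sum_le_sum_abs _ _).trans ?_
    refine (Finset.sum_le_card_nsmul _ _ ε fun v _ => h v).trans ?_
    rw [nsmul_eq_mul]

theorem mn_one : Tendsto (mn fun _ : HeightOneSpectrum (𝓞 F) => (1 : ℝ)) atTop (𝓝 1) := by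
  refine Tendsto.congr' ?_ tendsto_const_nhds
  filter_upwards [card_ev (K := F)] with N hN
  unfold mn
  rw [Finset.sum_const, nsmul_eq_mul, mul_one, smul_eq_mul]
  field_simp

/-- averages of all continuous functions from the averages of the cosines -/
theorem mn_dens {φ : HeightOneSpectrum (𝓞 F) → ℝ} {p : ℝ → ℝ} (hp : Continuous p)
    (h : ∀ l : ℕ, Tendsto (mn fun w => Real.cos (l * φ w)) atTop (𝓝 (J p (Tf l))))
    {f : ℝ → ℝ} (hf : Continuous f) :
    Tendsto (mn fun w => f (Real.cos (φ w))) atTop (𝓝 (J p f)) := by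
  refine dens (Q := fun f => Tendsto (mn fun w => f (Real.cos (φ w))) atTop (𝓝 (J p f)))
    ?_ ?_ ?_ ?_ hf
  · intro f g hf hg h1 h2
    rw [J_add hp hf hg]
    exact (h1.add h2).congr fun n => (mn_add _ _ n).symm
  · intro c f hf h1
    rw [J_smul]
    exact (h1.const_mul c).congr fun n => (mn_smul _ _ n).symm
  · intro l
    simp only [Tf_cos]
    exact h l
  · intro f hf h1
    set B : ℝ := 1 / Real.pi * ∫ t in (0 : ℝ)..Real.pi, |p t| with hB
    have hB0 : 0 ≤ B := by
      have := Real.pi_pos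
      rw [hB]
      have h3 : 0 ≤ ∫ t in (0 : ℝ)..Real.pi, |p t| :=
        intervalIntegral.integral_nonneg this.le fun t _ => abs_nonneg _
      positivity
    rw [Metric.tendsto_atTop]
    intro η hη
    set ε : ℝ := η / (3 * (1 + B)) with hε
    have hεpos : 0 < ε := by positivity
    obtain ⟨g, hg, hQ, hfg⟩ := h1 ε hεpos
    rw [Metric.tendsto_atTop] at hQ
    obtain ⟨n0, hn0⟩ := hQ (η / 3) (by positivity)
    refine ⟨n0, fun n hn => ?_⟩
    have h2 := hn0 n hn
    rw [Real.dist_eq] at h2 ⊢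
    have h3 : |mn (fun w => f (Real.cos (φ w)) - g (Real.cos (φ w))) n| ≤ ε :=
      mn_abs_le hεpos.le (fun w => hfg _ (Real.cos_mem_Icc _)) n
    have h4 := J_le hp (f := fun x => f x - g x) (hf.sub hg) (ε := ε) hfg
    rw [J_sub hp hf hg, ← hB] at h4
    have h5 : mn (fun w => f (Real.cos (φ w)) - g (Real.cos (φ w))) n =
        mn (fun w => f (Real.cos (φ w))) n - mn (fun w => g (Real.cos (φ w))) n := by
      have e : (fun w => f (Real.cos (φ w)) - g (Real.cos (φ w))) =
          fun w => f (Real.cos (φ w)) + (-1) * g (Real.cos (φ w)) := by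
        funext w
        ring
      rw [e, mn_add, mn_smul]
      ring
    rw [h5] at h3
    have h6 : ε * B < η / 3 := by
      have : ε * (1 + B) = η / 3 := by
        rw [hε]
        field_simp
      nlinarith
    have h7 : ε ≤ η / 3 := by
      have : ε * (1 + B) = η / 3 := by
        rw [hε]
        field_simp
      nlinarith
    have e : mn (fun w => f (Real.cos (φ w))) n - J p f =
        (mn (fun w => f (Real.cos (φ w))) n - mn (fun w => g (Real.cos (φ w))) n) +
        (mn (fun w => g (Real.cos (φ w))) n - J p g) - (J p f - J p g) := by ring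
    rw [e]
    have h8 := abs_sub ((mn (fun w => f (Real.cos (φ w))) n -
      mn (fun w => g (Real.cos (φ w))) n) + (mn (fun w => g (Real.cos (φ w))) n - J p g))
      (J p f - J p g)
    have h9 := abs_add_le (mn (fun w => f (Real.cos (φ w))) n -
      mn (fun w => g (Real.cos (φ w))) n) (mn (fun w => g (Real.cos (φ w))) n - J p g)
    linarith

end

variable {K F : Type} [Field K] [NumberField K] [Field F] [NumberField F] [Algebra K F]
  {θ : HeightOneSpectrum (𝓞 K) → ℝ} {φ : HeightOneSpectrum (𝓞 F) → ℝ}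

/-- the averages of the characters -/
theorem avg_ch {k : ℕ} (hL : ∀ m, 1 ≤ m → ∀ τ : ℝ, ∃ Λ, IsC φ m τ Λ)
    (hord : ∀ m, 1 ≤ m → ∀ (τ : ℝ) (Λ : ℂ → ℂ), IsC φ m τ Λ →
      meromorphicOrderAt Λ (1 + τ * I) =
        ((if τ = 0 ∧ Even m ∧ m < 2 * k then -1 else 0 : ℤ) : WithTop ℤ)) {m : ℕ} (hm : 1 ≤ m) :
    Tendsto (mn fun w => ch m (φ w)) atTop (𝓝 (if Even m ∧ m < 2 * k then 1 else 0)) := by
  have h := mn_of_orders (α := fun w => eg m (φ w)) (fun w j => norm_eg m _ j)
    (t := fun w => ch m (φ w)) (fun w => Ec_real m (φ w)) (L := LS φ m) (fun s _ => rfl)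
    (c := if Even m ∧ m < 2 * k then 1 else 0) (fun τ => by
      obtain ⟨Λ, hΛ⟩ := hL m hm τ
      refine ⟨Λ, hΛ.1, hΛ.2, ?_⟩
      rw [hord m hm τ Λ hΛ]
      congr 1
      by_cases h1 : τ = 0 <;> by_cases h2 : Even m ∧ m < 2 * k
      · rw [if_pos ⟨h1, h2⟩, if_pos h1, if_pos h2]
      · rw [if_neg (fun h => h2 h.2), if_pos h1, if_neg h2, neg_zero]
      · rw [if_neg (fun h => h1 h.1), if_neg h1]
      · rw [if_neg (fun h => h1 h.1), if_neg h1])
  push_cast at h
  exact h

/-- **The theorem.** -/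
theorem main (hθ : ∀ f : ℝ → ℝ, Continuous f → Tendsto (mn fun v => f (Real.cos (θ v))) atTop
      (𝓝 (J (dk 1) f))) (hb : BCa θ φ) (hL : ∀ m, 1 ≤ m → ∀ τ : ℝ, ∃ Λ, IsC φ m τ Λ) :
    ∃ k : ℕ, 1 ≤ k ∧ k ^ 2 ≤ Module.finrank K F ∧
      (∀ f : ℝ → ℝ, Continuous f → Tendsto (mn fun w => f (Real.cos (φ w))) atTop
        (𝓝 (J (dk k) f))) ∧
      ∀ m, 1 ≤ m → ∀ (τ : ℝ) (Λ : ℂ → ℂ), IsC φ m τ Λ →
        meromorphicOrderAt Λ (1 + τ * I) =
          ((if τ = 0 ∧ Even m ∧ m < 2 * k then -1 else 0 : ℤ) : WithTop ℤ) := by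
  obtain ⟨U, hU⟩ : ∃ U : Ultrafilter ℝ, (U : Filter ℝ) ≤ 𝓝[>] 0 :=
    ⟨Ultrafilter.of (𝓝[>] 0), Ultrafilter.of_le _⟩
  obtain ⟨k, hk, hkC, hlaw⟩ := (fn hU hθ hb hL).main
  have hord : ∀ m, 1 ≤ m → ∀ (τ : ℝ) (Λ : ℂ → ℂ), IsC φ m τ Λ →
      meromorphicOrderAt Λ (1 + τ * I) =
        ((if τ = 0 ∧ Even m ∧ m < 2 * k then -1 else 0 : ℤ) : WithTop ℤ) := by
    intro m hm τ Λ hΛ
    obtain ⟨e, h1, h2⟩ := exists_ord φ hΛ
    have h3 := h2 U hU
    rw [h1]
    congr 1
    by_cases hτ : τ = 0
    · subst hτ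
      rw [ch_mean hU hk hlaw m] at h3
      by_cases h4 : Even m ∧ m < 2 * k
      · rw [if_pos h4] at h3
        rw [if_pos ⟨rfl, h4⟩]
        have : (e : ℝ) = ((-1 : ℤ) : ℝ) := by push_cast; linarith
        exact_mod_cast this
      · rw [if_neg h4] at h3
        rw [if_neg (fun h => h4 h.2)]
        have : (e : ℝ) = ((0 : ℤ) : ℝ) := by push_cast; linarith
        exact_mod_cast this
    · rw [ch_mean_zero hU hk hlaw hL hτ m] at h3
      rw [if_neg (fun h => hτ h.1)]
      have : (e : ℝ) = ((0 : ℤ) : ℝ) := by push_cast; linarith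
      exact_mod_cast this
  refine ⟨k, hk, by exact_mod_cast hkC, fun f hf => ?_, hord⟩
  refine mn_dens (cont_dk k) (fun l => ?_) hf
  rw [J_dk hk]
  rcases l with _ | _ | l
  · rw [if_pos rfl, if_neg (by omega), sub_zero]
    refine (mn_one (F := F)).congr fun n => ?_
    congr 1
    funext w
    simp
  · have h1 := (avg_ch hL hord (m := 1) le_rfl).const_mul (1 / 2)
    rw [if_neg (fun h => absurd h.1 (by decide))] at h1
    rw [if_neg (by omega), if_neg (by omega), sub_zero]
    rw [mul_zero] at h1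
    refine h1.congr fun n => ?_
    rw [← mn_smul]
    congr 1
    funext w
    rw [ch_one]
    simp
  · have h0 : Tendsto (mn fun w => ch l (φ w)) atTop
        (𝓝 (if Even l ∧ l < 2 * k then 1 else 0)) := by
      rcases Nat.eq_zero_or_pos l with h | h
      · subst h
        rw [if_pos ⟨by simp, by omega⟩]
        simp only [ch_zero]
        exact mn_one
      · exact avg_ch hL hord h
    have h2 := avg_ch hL hord (m := l + 2) (by omega)
    have h3 := (h2.sub h0).const_mul (1 / 2)
    have e : (1 / 2 : ℝ) * ((if Even (l + 2) ∧ l + 2 < 2 * k then 1 else 0) -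
        if Even l ∧ l < 2 * k then 1 else 0) =
        (if l + 1 + 1 = 0 then 1 else 0) - if l + 1 + 1 = 2 * k then 1 / 2 else 0 := by
      have e3 : Even (l + 2) ↔ Even l := by
        rw [Nat.even_add]
        simp
      rw [if_neg (by omega : ¬ (l + 1 + 1 = 0))]
      simp only [e3]
      by_cases he : Even l
      · obtain ⟨a, ha⟩ := he
        have he : Even l := ⟨a, ha⟩
        simp only [he, true_and]
        by_cases h3 : l < 2 * k
        · by_cases h4 : l + 2 = 2 * k
          · rw [if_pos h3, if_neg (by omega), if_pos (by omega)]; ring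
          · rw [if_pos h3, if_pos (by omega), if_neg (by omega)]; ring
        · rw [if_neg h3, if_neg (by omega), if_neg (by omega)]; ring
      · have h4 : ¬ (l + 1 + 1 = 2 * k) := by
          intro h
          exact he ⟨k - 1, by omega⟩
        rw [if_neg (fun h => he h.1), if_neg (fun h => he h.1), if_neg h4]
        ring
    rw [e] at h3
    refine h3.congr fun n => ?_
    have h5 : mn (fun w => Real.cos ((l + 1 + 1 : ℕ) * φ w)) n =
        1 / 2 * (mn (fun w => ch (l + 2) (φ w)) n - mn (fun w => ch l (φ w)) n) := by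
      have e1 : (fun w => Real.cos ((l + 1 + 1 : ℕ) * φ w)) =
          fun w => 1 / 2 * (ch (l + 2) (φ w) + (-1) * ch l (φ w)) := by
        funext w
        rw [ch_add_two]
        ring
      rw [e1, mn_smul, mn_add, mn_smul]
      ring
    exact h5.symm

end Pool.Agent.X289.Main
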