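import Mathlib

set_option autoImplicit false

/-!
# Many representations of `GL(2)`: local estimates and the density bound
-/

namespace Pool.Agent.X289.Many

open Filter Topology ComplexConjugate

/-- **Positivity of the logarithm of a local factor of Rankin-Selberg type.** -/
theorem local_pos {κ : Type*} [Fintype κ] (A : κ → ℂ) {Q : ℝ} (hQ : 0 < Q)
    (hA : ∀ i, ‖A i‖ ^ 2 < Q) :
    Real.exp (‖∑ i, A i‖ ^ 2 / Q) ≤
      ∏ i, ∏ j, ‖(1 - A i * conj (A j) * ((Q⁻¹ : ℝ) : ℂ))⁻¹‖ := by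
  set z : κ → κ → ℂ := fun i j => A i * conj (A j) * ((Q⁻¹ : ℝ) : ℂ) with hz
  have hz1 : ∀ i j, ‖z i j‖ < 1 := by
    intro i j
    rw [hz]
    simp only
    rw [norm_mul, norm_mul, Complex.norm_conj, Complex.norm_real, Real.norm_eq_abs,
      abs_of_pos (inv_pos.2 hQ), ← div_eq_mul_inv, div_lt_one hQ]
    have h1 := hA i
    have h2 := hA j
    nlinarith [norm_nonneg (A i), norm_nonneg (A j), sq_nonneg (‖A i‖ - ‖A j‖)]
  have h1 : HasSum (fun n : ℕ => ∑ i, ∑ j, z i j ^ n / n) (∑ i, ∑ j, -Complex.log (1 - z i j)) :=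
    hasSum_sum fun i _ => hasSum_sum fun j _ => Complex.hasSum_taylorSeries_neg_log (hz1 i j)
  have h2 := Complex.hasSum_re h1
  have h3 : ∀ n : ℕ, (∑ i, ∑ j, z i j ^ n / n).re = ‖∑ i, A i ^ n‖ ^ 2 / (Q ^ n * n) := by
    intro n
    have e1 : ∑ i, ∑ j, z i j ^ n / n = ((‖∑ i, A i ^ n‖ ^ 2 / (Q ^ n * n) : ℝ) : ℂ) := by
      have e2 : ((‖∑ i, A i ^ n‖ ^ 2 : ℝ) : ℂ) = (∑ i, A i ^ n) * conj (∑ j, A j ^ n) := by
        rw [Complex.mul_conj, Complex.normSq_eq_norm_sq]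
      have e3 : ((‖∑ i, A i ^ n‖ ^ 2 / (Q ^ n * n) : ℝ) : ℂ) =
          ((‖∑ i, A i ^ n‖ ^ 2 : ℝ) : ℂ) * (((Q⁻¹ : ℝ) : ℂ) ^ n / n) := by
        push_cast
        rw [inv_pow, div_eq_mul_inv, div_eq_mul_inv, mul_inv]
      rw [e3, e2, map_sum, Finset.sum_mul_sum, Finset.sum_mul]
      refine Finset.sum_congr rfl fun i _ => ?_
      rw [Finset.sum_mul]
      refine Finset.sum_congr rfl fun j _ => ?_
      rw [hz]
      simp only
      rw [map_pow, mul_pow, mul_pow]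
      ring
    rw [e1, Complex.ofReal_re]
  simp only [h3] at h2
  have h4 := le_hasSum h2 1 fun n _ => by positivity
  rw [pow_one, Nat.cast_one, mul_one] at h4
  simp only [pow_one] at h4
  have h5 : (∑ i, ∑ j, -Complex.log (1 - z i j)).re =
      Real.log (∏ i, ∏ j, ‖(1 - z i j)⁻¹‖) := by
    have hne : ∀ i j, ‖(1 - z i j)⁻¹‖ ≠ 0 := by
      intro i j
      rw [norm_inv]
      refine inv_ne_zero (norm_ne_zero_iff.2 fun h => ?_)
      have : z i j = 1 := by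
        rw [sub_eq_zero] at h
        exact h.symm
      have h6 := hz1 i j
      rw [this, norm_one] at h6
      exact lt_irrefl _ h6
    rw [Real.log_prod fun i _ => Finset.prod_ne_zero_iff.2 fun j _ => hne i j, Complex.re_sum]
    refine Finset.sum_congr rfl fun i _ => ?_
    rw [Real.log_prod fun j _ => hne i j, Complex.re_sum]
    refine Finset.sum_congr rfl fun j _ => ?_
    rw [Complex.neg_re, Complex.log_re, norm_inv, Real.log_inv]
  rw [h5] at h4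
  have hpos : 0 < ∏ i, ∏ j, ‖(1 - z i j)⁻¹‖ := by
    refine Finset.prod_pos fun i _ => Finset.prod_pos fun j _ => ?_
    rw [norm_pos_iff]
    refine inv_ne_zero fun h => ?_
    rw [sub_eq_zero] at h
    have h6 := hz1 i j
    rw [← h, norm_one] at h6
    exact lt_irrefl _ h6
  calc Real.exp (‖∑ i, A i‖ ^ 2 / Q) ≤ Real.exp (Real.log (∏ i, ∏ j, ‖(1 - z i j)⁻¹‖)) :=
        Real.exp_le_exp.2 h4
    _ = _ := Real.exp_log hpos

/-- finite products of factors of absolute value at least one are at most the infinite product -/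
theorem prod_le_norm_tprod {P : Type*} {f : P → ℂ} (hf : Multipliable f) (h1 : ∀ v, 1 ≤ ‖f v‖)
    (T : Finset P) : ∏ v ∈ T, ‖f v‖ ≤ ‖∏' v, f v‖ := by
  classical
  have h2 : Tendsto (fun T : Finset P => ‖∏ v ∈ T, f v‖) atTop (𝓝 ‖∏' v, f v‖) :=
    (continuous_norm.tendsto _).comp hf.hasProd
  refine ge_of_tendsto h2 ?_
  filter_upwards [eventually_ge_atTop T] with T' hT'
  rw [norm_prod, ← Finset.prod_sdiff hT']
  have h3 : 1 ≤ ∏ v ∈ T' \ T, ‖f v‖ := by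
    calc (1 : ℝ) = ∏ v ∈ T' \ T, (1 : ℝ) := by simp
      _ ≤ _ := Finset.prod_le_prod (fun _ _ => zero_le_one) fun v _ => h1 v
  exact le_mul_of_one_le_left (Finset.prod_nonneg fun v _ => norm_nonneg _) h3

/-- an upper bound for the size at the pole -/
theorem pole_bound {Λ L : ℂ → ℂ} {N : ℕ} (hΛ : MeromorphicAt Λ 1)
    (ho : meromorphicOrderAt Λ 1 = ((-(N : ℤ) : ℤ) : WithTop ℤ))
    (he : ∀ᶠ s in 𝓝 (1 : ℂ), (1 : ℝ) < s.re → Λ s = L s) :
    ∃ C : ℝ, ∀ᶠ s : ℝ in 𝓝[>] 1, ‖L s‖ ≤ C * (s - 1) ^ (-(N : ℤ)) := by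
  obtain ⟨g, h1, -, h3⟩ := (meromorphicOrderAt_eq_int_iff hΛ).1 ho
  have h4 : ∀ᶠ s in 𝓝 (1 : ℂ), ‖g s‖ ≤ ‖g 1‖ + 1 := by
    have := h1.continuousAt.norm.eventually (gt_mem_nhds (by linarith : ‖g 1‖ < ‖g 1‖ + 1))
    exact this.mono fun s hs => hs.le
  have ht : Tendsto (fun s : ℝ => (s : ℂ)) (𝓝[>] 1) (𝓝 1) := by
    have h : Tendsto (fun s : ℝ => (s : ℂ)) (𝓝 1) (𝓝 ((1 : ℝ) : ℂ)) :=
      Complex.continuous_ofReal.tendsto 1
    rw [Complex.ofReal_one] at h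
    exact h.mono_left nhdsWithin_le_nhds
  rw [eventually_nhdsWithin_iff] at h3
  refine ⟨‖g 1‖ + 1, ?_⟩
  filter_upwards [ht.eventually h4, ht.eventually h3, ht.eventually he, self_mem_nhdsWithin]
    with s h5 h6 h7 h8
  have h9 : (1 : ℝ) < s := h8
  have hne : (s : ℂ) ∈ ({1} : Set ℂ)ᶜ := by
    intro h
    have h10 : (s : ℂ) = 1 := h
    have : s = 1 := by exact_mod_cast h10
    linarith
  rw [← h7 (by rw [Complex.ofReal_re]; exact h9), h6 hne, smul_eq_mul, norm_mul]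
  have e : ‖((s : ℂ) - 1) ^ (-(N : ℤ))‖ = (s - 1) ^ (-(N : ℤ)) := by
    rw [norm_zpow]
    congr 1
    have : (s : ℂ) - 1 = ((s - 1 : ℝ) : ℂ) := by push_cast; ring
    rw [this, Complex.norm_real, Real.norm_eq_abs, abs_of_pos (by linarith)]
  rw [e, mul_comm]
  exact mul_le_mul_of_nonneg_right h5 (zpow_nonneg (by linarith) _)

/-- upper density at most `d` -/
def UD {P : Type*} (q : P → ℕ) (B : Set P) (d : ℝ) : Prop :=
  ∀ ε : ℝ, 0 < ε → ∀ᶠ s : ℝ in 𝓝[>] 1, (Summable (B.indicator fun v => (q v : ℝ) ^ (-s))) ∧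
    ∑' v, B.indicator (fun v => (q v : ℝ) ^ (-s)) v ≤ (d + ε) * Real.log (1 / (s - 1))

/-- **The density bound.** -/
theorem density {P κ : Type*} [Fintype κ] {q : P → ℕ} (hq : ∀ v, 1 < q v) {A : P → κ → ℂ}
    (hA : ∀ v i, ‖A v i‖ ^ 2 < q v)
    (hm : ∀ s : ℝ, 1 < s → Multipliable fun v => ∏ i, ∏ j,
      (1 - A v i * conj (A v j) * ((q v : ℕ) : ℂ) ^ (-(s : ℂ)))⁻¹)
    {Λ : ℂ → ℂ} {N : ℕ} (hΛ : MeromorphicAt Λ 1)
    (ho : meromorphicOrderAt Λ 1 = ((-(N : ℤ) : ℤ) : WithTop ℤ))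
    (he : ∀ᶠ s in 𝓝 (1 : ℂ), (1 : ℝ) < s.re → Λ s = ∏' v, ∏ i, ∏ j,
      (1 - A v i * conj (A v j) * ((q v : ℕ) : ℂ) ^ (-s))⁻¹)
    {B : Set P} {X : ℝ} (hX : 0 < X) (hB : ∀ v ∈ B, X ≤ ‖∑ i, A v i‖) : UD q B (N / X ^ 2) := by
  intro ε hε
  obtain ⟨C, hC⟩ := pole_bound hΛ ho he
  have hlog : Tendsto (fun s : ℝ => Real.log (1 / (s - 1))) (𝓝[>] 1) atTop := by
    have h1 : Tendsto (fun s : ℝ => s - 1) (𝓝[>] 1) (𝓝[>] 0) := by
      refine tendsto_nhdsWithin_iff.2 ⟨?_, ?_⟩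
      · have : Tendsto (fun s : ℝ => s - 1) (𝓝 1) (𝓝 (1 - 1)) :=
          (continuous_id.sub continuous_const).tendsto 1
        rw [sub_self] at this
        exact this.mono_left nhdsWithin_le_nhds
      · filter_upwards [self_mem_nhdsWithin] with s hs
        have : (1 : ℝ) < s := hs
        exact sub_pos.2 this
    have h2 := Real.tendsto_log_atTop.comp (tendsto_inv_nhdsGT_zero.comp h1)
    refine h2.congr fun s => ?_
    simp [Function.comp]
  have hbig := hlog.eventually (eventually_ge_atTop (max 1 (Real.log (max C 1) / (X ^ 2 * ε))))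
  filter_upwards [hC, hbig, self_mem_nhdsWithin] with s h1 h2 h3
  have hs : (1 : ℝ) < s := h3
  have hq0 : ∀ v, (0 : ℝ) < q v := fun v => by exact_mod_cast (hq v).le.trans_lt' Nat.zero_lt_one
  have hq1 : ∀ v, (1 : ℝ) < q v := fun v => by exact_mod_cast hq v
  have hcast : ∀ v, ((q v : ℕ) : ℂ) ^ (-(s : ℂ)) = ((((q v : ℝ) ^ s)⁻¹ : ℝ) : ℂ) := by
    intro v
    rw [← Real.rpow_neg (hq0 v).le, Complex.ofReal_cpow (hq0 v).le]
    push_cast
    rfl
  set f : P → ℂ := fun v => ∏ i, ∏ j,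
    (1 - A v i * conj (A v j) * ((q v : ℕ) : ℂ) ^ (-(s : ℂ)))⁻¹ with hf
  have hloc : ∀ v, Real.exp (‖∑ i, A v i‖ ^ 2 * (q v : ℝ) ^ (-s)) ≤ ‖f v‖ := by
    intro v
    have h4 : (q v : ℝ) ≤ (q v : ℝ) ^ s := by
      calc (q v : ℝ) = (q v : ℝ) ^ (1 : ℝ) := (Real.rpow_one _).symm
        _ ≤ (q v : ℝ) ^ s := Real.rpow_le_rpow_of_exponent_le (hq1 v).le hs.le
    have h5 := local_pos (A v) (Q := (q v : ℝ) ^ s) (Real.rpow_pos_of_pos (hq0 v) s)
      fun i => (hA v i).trans_le h4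
    rw [hf]
    simp only
    rw [norm_prod]
    simp only [norm_prod, hcast]
    rw [Real.rpow_neg (hq0 v).le, ← div_eq_mul_inv]
    exact h5
  have hone : ∀ v, 1 ≤ ‖f v‖ := fun v => (Real.one_le_exp (by positivity)).trans (hloc v)
  have hs0 : 0 < s - 1 := by linarith
  have hC1 : 0 < max C 1 := lt_max_of_lt_right zero_lt_one
  have key : ∀ T : Finset P, X ^ 2 * ∑ v ∈ T, B.indicator (fun v => (q v : ℝ) ^ (-s)) v ≤
      N * Real.log (1 / (s - 1)) + Real.log (max C 1) := by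
    intro T
    have h4 : Real.exp (∑ v ∈ T, ‖∑ i, A v i‖ ^ 2 * (q v : ℝ) ^ (-s)) ≤
        max C 1 * (s - 1) ^ (-(N : ℤ)) := by
      rw [Real.exp_sum]
      calc ∏ v ∈ T, Real.exp (‖∑ i, A v i‖ ^ 2 * (q v : ℝ) ^ (-s)) ≤ ∏ v ∈ T, ‖f v‖ :=
            Finset.prod_le_prod (fun v _ => (Real.exp_pos _).le) fun v _ => hloc v
        _ ≤ ‖∏' v, f v‖ := prod_le_norm_tprod (hm s hs) hone T
        _ ≤ C * (s - 1) ^ (-(N : ℤ)) := h1
        _ ≤ _ := mul_le_mul_of_nonneg_right (le_max_left _ _) (zpow_nonneg hs0.le _)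
    have h5 : ∑ v ∈ T, ‖∑ i, A v i‖ ^ 2 * (q v : ℝ) ^ (-s) ≤
        Real.log (max C 1 * (s - 1) ^ (-(N : ℤ))) := by
      rw [Real.le_log_iff_exp_le (by positivity)]
      exact h4
    rw [Real.log_mul (by positivity) (by positivity), Real.log_zpow] at h5
    have h6 : ∑ v ∈ T, X ^ 2 * B.indicator (fun v => (q v : ℝ) ^ (-s)) v ≤
        ∑ v ∈ T, ‖∑ i, A v i‖ ^ 2 * (q v : ℝ) ^ (-s) := by
      refine Finset.sum_le_sum fun v _ => ?_
      by_cases hv : v ∈ B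
      · rw [Set.indicator_of_mem hv]
        have := hB v hv
        gcongr
      · rw [Set.indicator_of_notMem hv, mul_zero]
        positivity
    rw [← Finset.mul_sum] at h6
    rw [one_div, Real.log_inv]
    push_cast at h5
    linarith
  have hl1 : (1 : ℝ) ≤ Real.log (1 / (s - 1)) := (le_max_left _ _).trans h2
  have hl2 : Real.log (max C 1) ≤ X ^ 2 * ε * Real.log (1 / (s - 1)) := by
    have := (le_max_right 1 (Real.log (max C 1) / (X ^ 2 * ε))).trans h2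
    rw [div_le_iff₀ (by positivity)] at this
    linarith
  have key2 : ∀ T : Finset P, ∑ v ∈ T, B.indicator (fun v => (q v : ℝ) ^ (-s)) v ≤
      (N / X ^ 2 + ε) * Real.log (1 / (s - 1)) := by
    intro T
    have h4 := key T
    have h5 : X ^ 2 * ∑ v ∈ T, B.indicator (fun v => (q v : ℝ) ^ (-s)) v ≤
        X ^ 2 * ((N / X ^ 2 + ε) * Real.log (1 / (s - 1))) := by
      have e : X ^ 2 * ((N / X ^ 2 + ε) * Real.log (1 / (s - 1))) =
          N * Real.log (1 / (s - 1)) + X ^ 2 * ε * Real.log (1 / (s - 1)) := by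
        field_simp
      rw [e]
      linarith
    exact le_of_mul_le_mul_left h5 (by positivity)
  have hnn : ∀ v, 0 ≤ B.indicator (fun v => (q v : ℝ) ^ (-s)) v := fun v =>
    Set.indicator_nonneg (fun v _ => by positivity) v
  have hsum := summable_of_sum_le hnn key2
  exact ⟨hsum, hsum.tsum_le_of_sum_le key2⟩

end Pool.Agent.X289.Many
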