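import Pool.Agent.X289.Uch

set_option autoImplicit false
set_option linter.unusedSectionVars false

/-!
# Several families of angles
-/

namespace Pool.Agent.X289.Multi

open Complex Filter Topology ComplexConjugate NumberField IsDedekindDomain MeasureTheory
  Pool.Agent.W540.BE Pool.Agent.TH553.RS Pool.Agent.TH553.ST Pool.Agent.H341R2
open Pool.Agent.X289.Dens Pool.Agent.X289.Cls Pool.Agent.X289.Bc Pool.Agent.X289.SymM
  Pool.Agent.X289.Uch

section gen

variable {P : Type*} {N : P → ℕ} {U : Ultrafilter ℝ}

/-- the case of equality in the inequality of Cauchy and Schwarz -/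
theorem coin (hN : Sys N) (hU : (U : Filter ℝ) ≤ 𝓝[>] 0) {A B C : P → ℝ} (bA : Bd A) (bB : Bd B)
    (bC : Bd C) {n : ℝ} (hn : n ^ 2 = 1) (hA : (M N U fun p => A p ^ 2) = 1)
    (hB : (M N U fun p => B p ^ 2) = 1) (hAB : (M N U fun p => A p * B p) = n) :
    (M N U fun p => A p ^ 2 * C p) = M N U fun p => B p ^ 2 * C p := by
  have hd : Bd fun p => A p - n * B p := bA.sub (bB.const_mul n)
  have h0 : (M N U fun p => (A p - n * B p) ^ 2) = 0 := by
    have e : (fun p => (A p - n * B p) ^ 2) = fun p =>
        (A p ^ 2 + (-2 * n) * (A p * B p)) + n ^ 2 * B p ^ 2 := by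
      funext p
      ring
    rw [e, M_add hN hU (bA.sq.add ((bA.mul bB).const_mul _)) (bB.sq.const_mul _),
      M_add hN hU bA.sq ((bA.mul bB).const_mul _), M_const_mul hN hU (bA.mul bB),
      M_const_mul hN hU bB.sq, hA, hB, hAB]
    nlinarith
  have h1 := M_cs hN hU hd ((bA.add (bB.const_mul n)).mul bC)
  rw [h0, zero_mul] at h1
  have h2 : (M N U fun p => (A p - n * B p) * ((A p + n * B p) * C p)) = 0 := by
    have := le_antisymm h1 (sq_nonneg _)
    simpa using this
  have e : (fun p => (A p - n * B p) * ((A p + n * B p) * C p)) =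
      fun p => A p ^ 2 * C p - B p ^ 2 * C p := by
    funext p
    linear_combination (-(B p ^ 2 * C p)) * hn
  rw [e, M_sub hN hU (bA.sq.mul bC) (bB.sq.mul bC)] at h2
  linarith

end gen

variable {K : Type} [Field K] [NumberField K]

/-- the Sato-Tate law -/
def STL (θ : HeightOneSpectrum (𝓞 K) → ℝ) : Prop :=
  ∀ f : ℝ → ℝ, Continuous f → Tendsto (mn fun v => f (Real.cos (θ v))) atTop (𝓝 (J (dk 1) f))

variable {U : Ultrafilter ℝ} (hU : (U : Filter ℝ) ≤ 𝓝[>] 0)

include hU in
theorem M_law {θ : HeightOneSpectrum (𝓞 K) → ℝ} (h : STL θ) {f : ℝ → ℝ} (hf : Continuous f) :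
    (M (nm K) U fun v => f (Real.cos (θ v))) = J (dk 1) f :=
  M_of_mn hU (bd_cos θ hf) (h f hf)

include hU in
theorem M_law_cw {θ : HeightOneSpectrum (𝓞 K) → ℝ} (h : STL θ) {f : ℝ → ℝ} (hf : Continuous f)
    {τ : ℝ} (hτ : τ ≠ 0) : (M (nm K) U fun v => f (Real.cos (θ v)) * cw K τ v) = 0 := by
  have h1 : Tendsto (mn fun v => ((f (Real.cos (θ v)) - J (dk 1) f : ℝ) : ℂ)) atTop (𝓝 0) := by
    have h2 := (h f hf).sub ((Main.mn_one (F := K)).const_mul (J (dk 1) f))
    rw [mul_one, sub_self] at h2
    have h3 := (Complex.continuous_ofReal.tendsto (0 : ℝ)).comp h2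
    rw [Complex.ofReal_zero] at h3
    refine h3.congr fun n => ?_
    simp only [Function.comp]
    rw [← ofReal_mn]
    congr 1
    have e : (fun v => f (Real.cos (θ v)) - J (dk 1) f) =
        fun v => f (Real.cos (θ v)) + (-1) * (J (dk 1) f * 1) := by
      funext v
      ring
    rw [e, Main.mn_add, Main.mn_smul, Main.mn_smul]
    ring
  have hbd : Bd fun v => f (Real.cos (θ v)) - J (dk 1) f := (bd_cos θ hf).sub (Bd.const _)
  have h4 := M_height (K := K) hU (g := fun v => ((f (Real.cos (θ v)) - J (dk 1) f : ℝ) : ℂ)) (by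
    obtain ⟨C, hC⟩ := hbd
    exact ⟨C, fun v => by rw [Complex.norm_real]; exact hC v⟩) h1 τ
  have e : (fun v => (((f (Real.cos (θ v)) - J (dk 1) f : ℝ) : ℂ) *
      ((nm K v : ℕ) : ℂ) ^ (-(τ * I : ℂ))).re) =
      fun v => f (Real.cos (θ v)) * cw K τ v - J (dk 1) f * cw K τ v := by
    funext v
    rw [Complex.re_ofReal_mul]
    unfold cw
    ring
  rw [e, M_sub (sysF K) hU ((bd_cos θ hf).mul (bd_cw τ)) ((bd_cw τ).const_mul _),
    M_const_mul (sysF K) hU (bd_cw τ), M_cw hU hτ, mul_zero, sub_zero] at h4
  exact h4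

include hU in
/-- extension from the characters to all continuous functions -/
theorem lin {θ : HeightOneSpectrum (𝓞 K) → ℝ} {R : HeightOneSpectrum (𝓞 K) → ℝ} (hR : Bd R)
    {c : ℝ} (h : ∀ l, (M (nm K) U fun v => Cf l (Real.cos (θ v)) * R v) = J (dk 1) (Cf l) * c)
    {f : ℝ → ℝ} (hf : Continuous f) :
    (M (nm K) U fun v => f (Real.cos (θ v)) * R v) = J (dk 1) f * c := by
  have hN := sysF K
  refine densU (Q := fun f => (M (nm K) U fun v => f (Real.cos (θ v)) * R v) = J (dk 1) f * c)
    ?_ ?_ h ?_ hf
  · intro f g hf hg h1 h2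
    have e : (fun v => (f (Real.cos (θ v)) + g (Real.cos (θ v))) * R v) =
        fun v => f (Real.cos (θ v)) * R v + g (Real.cos (θ v)) * R v := by
      funext v; ring
    rw [e, M_add hN hU ((bd_cos θ hf).mul hR) ((bd_cos θ hg).mul hR), h1, h2,
      J_add (cont_dk 1) hf hg]
    ring
  · intro a f hf h1
    have e : (fun v => (a * f (Real.cos (θ v))) * R v) =
        fun v => a * (f (Real.cos (θ v)) * R v) := by
      funext v; ring
    rw [e, M_const_mul hN hU ((bd_cos θ hf).mul hR), h1, J_smul]
    ring
  · intro f hf h1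
    obtain ⟨B, hB⟩ := id hR
    set I1 : ℝ := 1 / Real.pi * ∫ t in (0 : ℝ)..Real.pi, |dk 1 t| with hI1
    have hI0 : 0 ≤ I1 := by
      have := Real.pi_pos
      rw [hI1]
      have h3 : 0 ≤ ∫ t in (0 : ℝ)..Real.pi, |dk 1 t| :=
        intervalIntegral.integral_nonneg this.le fun t _ => abs_nonneg _
      positivity
    have key : ∀ ε > 0, |(M (nm K) U fun v => f (Real.cos (θ v)) * R v) - J (dk 1) f * c| ≤
        ε * (|B| + I1 * |c|) := by
      intro ε hε
      obtain ⟨g, hg, hQ, hfg⟩ := h1 ε hε
      have h2 : |(M (nm K) U fun v => f (Real.cos (θ v)) * R v) -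
          M (nm K) U fun v => g (Real.cos (θ v)) * R v| ≤ ε * |B| := by
        rw [← M_sub hN hU ((bd_cos θ hf).mul hR) ((bd_cos θ hg).mul hR)]
        have hb : Bd fun v => f (Real.cos (θ v)) * R v - g (Real.cos (θ v)) * R v :=
          ((bd_cos θ hf).mul hR).sub ((bd_cos θ hg).mul hR)
        have hle : ∀ v, |f (Real.cos (θ v)) * R v - g (Real.cos (θ v)) * R v| ≤ ε * |B| := by
          intro v
          rw [← sub_mul, abs_mul]
          exact mul_le_mul (hfg _ (Real.cos_mem_Icc _)) ((hB v).trans (le_abs_self B))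
            (abs_nonneg _) hε.le
        rw [abs_le]
        constructor
        · have := M_mono hN hU (Bd.const (-(ε * |B|))) hb fun v => (abs_le.1 (hle v)).1
          rwa [M_const hN hU] at this
        · have := M_mono hN hU hb (Bd.const (ε * |B|)) fun v => (abs_le.1 (hle v)).2
          rwa [M_const hN hU] at this
      have h3 := J_le (cont_dk 1) (f := fun x => f x - g x) (hf.sub hg) (ε := ε) hfg
      rw [J_sub (cont_dk 1) hf hg] at h3
      have h4 : (M (nm K) U fun v => f (Real.cos (θ v)) * R v) - J (dk 1) f * c =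
          ((M (nm K) U fun v => f (Real.cos (θ v)) * R v) -
            M (nm K) U fun v => g (Real.cos (θ v)) * R v) -
          (J (dk 1) f - J (dk 1) g) * c := by rw [hQ]; ring
      rw [h4]
      refine (abs_sub _ _).trans ?_
      rw [abs_mul, mul_add]
      refine add_le_add h2 ?_
      calc |J (dk 1) f - J (dk 1) g| * |c| ≤ (ε * I1) * |c| :=
            mul_le_mul_of_nonneg_right h3 (abs_nonneg _)
        _ = _ := by ring
    have h5 : |(M (nm K) U fun v => f (Real.cos (θ v)) * R v) - J (dk 1) f * c| ≤ 0 := by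
      refine le_of_forall_pos_le_add fun δ hδ => ?_
      have hpos : 0 < 1 + (|B| + I1 * |c|) := by positivity
      have h6 := key (δ / (1 + (|B| + I1 * |c|))) (by positivity)
      have h7 : δ / (1 + (|B| + I1 * |c|)) * (|B| + I1 * |c|) ≤ δ := by
        rw [div_mul_eq_mul_div, div_le_iff₀ hpos]
        nlinarith
      linarith
    have h6 := abs_nonpos_iff.1 h5
    linarith

section fam

variable {ι : Type} [DecidableEq ι] {θ : ι → HeightOneSpectrum (𝓞 K) → ℝ}

theorem bd_prod (s : Finset ι) {f : ι → ℝ → ℝ} (hf : ∀ i, Continuous (f i)) :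
    Bd fun v => ∏ i ∈ s, f i (Real.cos (θ i v)) := by
  induction s using Finset.induction_on with
  | empty => simpa using Bd.const 1
  | insert a s ha ih =>
    simp only [Finset.prod_insert ha]
    exact (bd_cos (θ a) (hf a)).mul ih

/-- independence of the families in `s` -/
def Ind (θ : ι → HeightOneSpectrum (𝓞 K) → ℝ) (U : Ultrafilter ℝ) (s : Finset ι) : Prop :=
  ∀ (τ : ℝ) (f : ι → ℝ → ℝ), (∀ i, Continuous (f i)) →
    (M (nm K) U fun v => (∏ i ∈ s, f i (Real.cos (θ i v))) * cw K τ v) =
      (if τ = 0 then 1 else 0) * ∏ i ∈ s, J (dk 1) (f i)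

theorem Ind.zero {s : Finset ι} (h : Ind θ U s) {f : ι → ℝ → ℝ} (hf : ∀ i, Continuous (f i)) :
    (M (nm K) U fun v => ∏ i ∈ s, f i (Real.cos (θ i v))) = ∏ i ∈ s, J (dk 1) (f i) := by
  have h1 := h 0 f hf
  rw [cw_zero, if_pos rfl, one_mul] at h1
  simpa using h1

include hU in
/-- extension from the characters to all continuous functions -/
theorem ind_of_chars {s : Finset ι} (h : ∀ (l : ι → ℕ) (τ : ℝ), (∃ i ∈ s, l i ≠ 0) →
    (M (nm K) U fun v => (∏ i ∈ s, Cf (l i) (Real.cos (θ i v))) * cw K τ v) = 0) :
    Ind θ U s := by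
  intro τ
  have hcl : ∀ t : Finset ι, t ⊆ s → ∀ f : ι → ℝ → ℝ, (∀ i, Continuous (f i)) →
      (∀ i ∈ s, i ∉ t → ∃ l, f i = Cf l) →
      (M (nm K) U fun v => (∏ i ∈ s, f i (Real.cos (θ i v))) * cw K τ v) =
      (if τ = 0 then 1 else 0) * ∏ i ∈ s, J (dk 1) (f i) := by
    intro t
    induction t using Finset.induction_on with
    | empty =>
      intro _ f hf hl
      have hl' : ∀ i, ∃ l, i ∈ s → f i = Cf l := by
        intro i
        by_cases hi : i ∈ s
        · obtain ⟨l, hl⟩ := hl i hi (Finset.notMem_empty i)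
          exact ⟨l, fun _ => hl⟩
        · exact ⟨0, fun h => absurd h hi⟩
      choose l hl using hl'
      have e1 : (fun v => (∏ i ∈ s, f i (Real.cos (θ i v))) * cw K τ v) =
          fun v => (∏ i ∈ s, Cf (l i) (Real.cos (θ i v))) * cw K τ v := by
        funext v
        congr 1
        exact Finset.prod_congr rfl fun i hi => by rw [hl i hi]
      have e2 : ∏ i ∈ s, J (dk 1) (f i) = ∏ i ∈ s, J (dk 1) (Cf (l i)) :=
        Finset.prod_congr rfl fun i hi => by rw [hl i hi]
      rw [e1, e2]
      by_cases hz : ∃ i ∈ s, l i ≠ 0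
      · rw [h l τ hz]
        obtain ⟨i, hi, hli⟩ := hz
        rw [Finset.prod_eq_zero hi, mul_zero]
        rw [J_C, if_neg hli]
      · push Not at hz
        have e3 : (fun v => (∏ i ∈ s, Cf (l i) (Real.cos (θ i v))) * cw K τ v) = cw K τ := by
          funext v
          rw [Finset.prod_eq_one fun i hi => by rw [hz i hi, Cf_zero], one_mul]
        rw [e3, Finset.prod_eq_one fun i hi => by rw [hz i hi, J_C, if_pos rfl], mul_one]
        by_cases hτ : τ = 0
        · rw [if_pos hτ, hτ, cw_zero]
          exact M_one (sysF K) hU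
        · rw [if_neg hτ, M_cw hU hτ]
    | insert j t hj ih =>
      intro hts f hf hl
      have hjs : j ∈ s := hts (Finset.mem_insert_self j t)
      have hR : Bd fun v => (∏ i ∈ s.erase j, f i (Real.cos (θ i v))) * cw K τ v :=
        (bd_prod _ hf).mul (bd_cw τ)
      have key := lin hU (θ := θ j) hR
        (c := (if τ = 0 then 1 else 0) * ∏ i ∈ s.erase j, J (dk 1) (f i)) (fun l => by
          have h1 := ih ((Finset.subset_insert j t).trans hts) (Function.update f j (Cf l))
            (fun i => by
              by_cases hi : i = j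
              · subst hi
                rw [Function.update_self]
                exact cont_Cf l
              · rw [Function.update_of_ne hi]
                exact hf i)
            (fun i hi hit => by
              by_cases hij : i = j
              · subst hij
                exact ⟨l, Function.update_self _ _ _⟩
              · rw [Function.update_of_ne hij]
                exact hl i hi (by rw [Finset.mem_insert]; tauto))
          rw [← Finset.mul_prod_erase s (fun i => J (dk 1) (Function.update f j (Cf l) i)) hjs]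
            at h1
          have e1 : (fun v => (∏ i ∈ s, Function.update f j (Cf l) i (Real.cos (θ i v))) *
              cw K τ v) = fun v => Cf l (Real.cos (θ j v)) *
              ((∏ i ∈ s.erase j, f i (Real.cos (θ i v))) * cw K τ v) := by
            funext v
            rw [← Finset.mul_prod_erase s
              (fun i => Function.update f j (Cf l) i (Real.cos (θ i v))) hjs,
              Function.update_self]
            rw [Finset.prod_congr rfl (fun i hi => by
              rw [Function.update_of_ne (Finset.ne_of_mem_erase hi)])]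
            ring
          rw [e1] at h1
          rw [h1, Function.update_self]
          rw [Finset.prod_congr rfl (fun i hi => by
              rw [Function.update_of_ne (Finset.ne_of_mem_erase hi)])]
          ring) (hf j)
      have e1 : (fun v => (∏ i ∈ s, f i (Real.cos (θ i v))) * cw K τ v) =
          fun v => f j (Real.cos (θ j v)) *
              ((∏ i ∈ s.erase j, f i (Real.cos (θ i v))) * cw K τ v) := by
        funext v
        rw [← Finset.mul_prod_erase s (fun i => f i (Real.cos (θ i v))) hjs]
        ring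
      rw [e1, key, ← Finset.mul_prod_erase s (fun i => J (dk 1) (f i)) hjs]
      ring
  intro f hf
  exact hcl s subset_rfl f hf fun i hi hni => absurd hi hni

end fam

end Pool.Agent.X289.Multi
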