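import Pool.Agent.X289.Multi

set_option autoImplicit false
set_option linter.unusedSectionVars false

/-!
# Several families of angles, second part
-/

namespace Pool.Agent.X289.Multi

open Complex Filter Topology ComplexConjugate NumberField IsDedekindDomain MeasureTheory
  Pool.Agent.W540.BE Pool.Agent.TH553.RS Pool.Agent.TH553.ST Pool.Agent.H341R2
open Pool.Agent.X289.Dens Pool.Agent.X289.Cls Pool.Agent.X289.Bc Pool.Agent.X289.SymM
  Pool.Agent.X289.Uch Pool.Agent.X289.Al

variable {K : Type} [Field K] [NumberField K] {U : Ultrafilter ℝ}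
  (hU : (U : Filter ℝ) ≤ 𝓝[>] 0)

section pair

variable {θ θ' : HeightOneSpectrum (𝓞 K) → ℝ}

/-- integers -/
def IntPair (θ θ' : HeightOneSpectrum (𝓞 K) → ℝ) (U : Ultrafilter ℝ) : Prop :=
  ∀ a b : ℕ, 1 ≤ a → 1 ≤ b → ∃ n : ℤ,
    (M (nm K) U fun v => Cf a (Real.cos (θ v)) * Cf b (Real.cos (θ' v))) = n

theorem bd_Cf (θ : HeightOneSpectrum (𝓞 K) → ℝ) (a : ℕ) : Bd fun v => Cf a (Real.cos (θ v)) :=
  bd_cos θ (cont_Cf a)

include hU in
theorem M_sq {θ : HeightOneSpectrum (𝓞 K) → ℝ} (h : STL θ) (a : ℕ) :
    (M (nm K) U fun v => Cf a (Real.cos (θ v)) ^ 2) = 1 := by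
  rw [M_law hU h (f := fun x => Cf a x ^ 2) ((cont_Cf a).pow 2), J_sq_C]

include hU in
theorem sq_le_one (h : STL θ) (h' : STL θ') (a b : ℕ) :
    (M (nm K) U fun v => Cf a (Real.cos (θ v)) * Cf b (Real.cos (θ' v))) ^ 2 ≤ 1 := by
  have h1 := M_cs (sysF K) hU (bd_Cf θ a) (bd_Cf θ' b)
  rw [M_sq hU h, M_sq hU h', mul_one] at h1
  exact h1

/-- the square of a nonzero integer of square at most one -/
theorem int_sq {x : ℝ} {n : ℤ} (hx : x = n) (hx0 : x ≠ 0) (hx1 : x ^ 2 ≤ 1) : x ^ 2 = 1 := by
  rw [hx] at hx0 hx1 ⊢
  have h1 : n ≠ 0 := by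
    intro h
    rw [h] at hx0
    simp at hx0
  have h2 : n ^ 2 ≤ 1 := by exact_mod_cast hx1
  have h3 : 0 < n ^ 2 := by positivity
  have h4 : n ^ 2 = 1 := by omega
  exact_mod_cast h4

include hU in
/-- coincidences occur only for equal weights -/
theorem P1 (h : STL θ) (h' : STL θ') (hi : IntPair θ θ' U) {a b : ℕ} (ha : 1 ≤ a) (hb : 1 ≤ b)
    (h0 : (M (nm K) U fun v => Cf a (Real.cos (θ v)) * Cf b (Real.cos (θ' v))) ≠ 0) : a = b := by
  obtain ⟨n, hn⟩ := hi a b ha hb
  have h2 := int_sq hn h0 (sq_le_one hU h h' a b)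
  have bA := bd_Cf θ a
  have bB := bd_Cf θ' b
  have h3 := coin (sysF K) hU bA bB (bA.sq.add bB.sq) h2 (M_sq hU h a) (M_sq hU h' b) rfl
  have e1 : (fun v => Cf a (Real.cos (θ v)) ^ 2 *
      (Cf a (Real.cos (θ v)) ^ 2 + Cf b (Real.cos (θ' v)) ^ 2)) =
      fun v => Cf a (Real.cos (θ v)) ^ 4 +
        Cf a (Real.cos (θ v)) ^ 2 * Cf b (Real.cos (θ' v)) ^ 2 := by
    funext v; ring
  have e2 : (fun v => Cf b (Real.cos (θ' v)) ^ 2 *
      (Cf a (Real.cos (θ v)) ^ 2 + Cf b (Real.cos (θ' v)) ^ 2)) =
      fun v => Cf b (Real.cos (θ' v)) ^ 4 +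
        Cf a (Real.cos (θ v)) ^ 2 * Cf b (Real.cos (θ' v)) ^ 2 := by
    funext v; ring
  have c4 : ∀ a : ℕ, Continuous fun x => Cf a x ^ 4 := fun a => (cont_Cf a).pow 4
  rw [e1, e2, M_add (sysF K) hU (bd_cos θ (c4 a)) (bA.sq.mul bB.sq),
    M_add (sysF K) hU (bd_cos θ' (c4 b)) (bA.sq.mul bB.sq), M_law hU h (c4 a),
    M_law hU h' (c4 b), J_four, J_four] at h3
  have h4 : (a : ℝ) = b := by linarith
  exact_mod_cast h4

include hU in
/-- a coincidence implies the coincidence of the symmetric squares -/
theorem P2 (h : STL θ) (h' : STL θ') (hi : IntPair θ θ' U) {a b : ℕ} (ha : 1 ≤ a) (hb : 1 ≤ b)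
    (h0 : (M (nm K) U fun v => Cf a (Real.cos (θ v)) * Cf b (Real.cos (θ' v))) ≠ 0) :
    (M (nm K) U fun v => Cf 2 (Real.cos (θ v)) * Cf 2 (Real.cos (θ' v))) = 1 := by
  obtain ⟨n, hn⟩ := hi a b ha hb
  have h2 := int_sq hn h0 (sq_le_one hU h h' a b)
  have h3 := coin (sysF K) hU (bd_Cf θ a) (bd_Cf θ' b) (bd_Cf θ' 2) h2 (M_sq hU h a)
    (M_sq hU h' b) rfl
  rw [M_law hU h' (f := fun x => Cf b x ^ 2 * Cf 2 x) (((cont_Cf b).pow 2).mul (cont_Cf 2)),
    J_sq_two hb] at h3
  have e1 : (fun v => Cf a (Real.cos (θ v)) ^ 2 * Cf 2 (Real.cos (θ' v))) =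
      fun v => ∑ m ∈ Finset.range (a + 1), Cf (2 * m) (Real.cos (θ v)) *
        Cf 2 (Real.cos (θ' v)) := by
    funext v
    rw [Cf_sq, Finset.sum_mul]
  rw [e1, M_sum (sysF K) hU _ fun m _ => (bd_Cf θ (2 * m)).mul (bd_Cf θ' 2),
    Finset.sum_eq_single 1] at h3
  · exact h3
  · intro m _ hm
    rcases Nat.eq_zero_or_pos m with h4 | h4
    · subst h4
      simp only [mul_zero, Cf_zero, one_mul]
      rw [M_law hU h' (cont_Cf 2), J_C, if_neg (by norm_num)]
    · by_contra h5
      have := P1 hU h h' hi (a := 2 * m) (b := 2) (by omega) (by norm_num) h5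
      omega
  · intro h4
    exact absurd (Finset.mem_range.2 (by omega)) h4

end pair

section fam

variable {ι : Type} [DecidableEq ι] {θ : ι → HeightOneSpectrum (𝓞 K) → ℝ}

/-- integrality of the means of the products of characters -/
def IntAll (θ : ι → HeightOneSpectrum (𝓞 K) → ℝ) (U : Ultrafilter ℝ) : Prop :=
  ∀ s : Finset ι, 2 ≤ s.card → ∀ l : ι → ℕ, (∀ i ∈ s, l i ≠ 0) → ∀ τ : ℝ, ∃ n : ℤ,
    (M (nm K) U fun v => (∏ i ∈ s, Cf (l i) (Real.cos (θ i v))) * cw K τ v) = n

theorem intPair_of (H : IntAll θ U) {i j : ι} (hij : i ≠ j) : IntPair (θ i) (θ j) U := by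
  intro a b ha hb
  obtain ⟨n, hn⟩ := H {i, j} (by rw [Finset.card_pair hij])
    (fun k => if k = i then a else b) (fun k _ => by
      split_ifs <;> omega) 0
  refine ⟨n, ?_⟩
  rw [← hn]
  congr 1
  funext v
  rw [cw_zero, Finset.prod_pair hij, if_pos rfl, if_neg hij.symm, mul_one]

include hU in
/-- **The induction.** -/
theorem ind_all (hlaw : ∀ i, STL (θ i)) (H : IntAll θ U)
    (hp : ∀ i j, i ≠ j → (M (nm K) U fun v => Cf 2 (Real.cos (θ i v)) *
      Cf 2 (Real.cos (θ j v))) ≠ 1) (s : Finset ι) : Ind θ U s := by
  have hN := sysF K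
  induction s using Finset.strongInduction with
  | H s ih =>
    refine ind_of_chars hU fun l τ hl => ?_
    by_cases hall : ∀ i ∈ s, l i ≠ 0
    swap
    · -- a trivial factor
      push Not at hall
      obtain ⟨j, hj, hlj⟩ := hall
      have h1 := ih (s.erase j) (Finset.erase_ssubset hj) τ (fun i => Cf (l i))
        fun i => cont_Cf _
      have e1 : (fun v => (∏ i ∈ s, Cf (l i) (Real.cos (θ i v))) * cw K τ v) =
          fun v => (∏ i ∈ s.erase j, Cf (l i) (Real.cos (θ i v))) * cw K τ v := by
        funext v
        rw [← Finset.mul_prod_erase s (fun i => Cf (l i) (Real.cos (θ i v))) hj, hlj, Cf_zero,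
          one_mul]
      rw [e1, h1]
      obtain ⟨i, hi, hli⟩ := hl
      have hij : i ≠ j := by
        rintro rfl
        exact hli hlj
      rw [Finset.prod_eq_zero (Finset.mem_erase.2 ⟨hij, hi⟩), mul_zero]
      rw [J_C, if_neg hli]
    · obtain ⟨i₀, hi₀, hl0⟩ := hl
      rcases Nat.lt_or_ge s.card 2 with hc | hc
      · -- one family
        have hs : s = {i₀} := by
          have h1 : s.card = 1 := by
            have := Finset.card_pos.2 ⟨i₀, hi₀⟩
            omega
          obtain ⟨a, ha⟩ := Finset.card_eq_one.1 h1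
          rw [ha] at hi₀ ⊢
          rw [Finset.mem_singleton.1 hi₀]
        rw [hs]
        simp only [Finset.prod_singleton]
        by_cases hτ : τ = 0
        · rw [hτ, cw_zero]
          simp only [mul_one]
          rw [M_law hU (hlaw i₀) (cont_Cf _), J_C, if_neg hl0]
        · exact M_law_cw hU (hlaw i₀) (cont_Cf _) hτ
      · -- at least two families
        obtain ⟨n, hn⟩ := H s hc l hall τ
        set A : HeightOneSpectrum (𝓞 K) → ℝ := fun v => Cf (l i₀) (Real.cos (θ i₀ v)) with hA
        set B : HeightOneSpectrum (𝓞 K) → ℝ := fun v =>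
          ∏ i ∈ s.erase i₀, Cf (l i) (Real.cos (θ i v)) with hB
        have bA : Bd A := bd_Cf (θ i₀) _
        have bB : Bd B := bd_prod _ fun i => cont_Cf _
        have hIe := ih (s.erase i₀) (Finset.erase_ssubset hi₀)
        have hA2 : (M (nm K) U fun v => A v ^ 2) = 1 := M_sq hU (hlaw i₀) _
        have eB2 : (fun v => B v ^ 2) = fun v =>
            ∏ i ∈ s.erase i₀, (fun x => Cf (l i) x ^ 2) (Real.cos (θ i v)) := by
          funext v
          rw [hB]
          simp only
          rw [Finset.prod_pow]
        have hB2 : (M (nm K) U fun v => B v ^ 2) = 1 := by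
          rw [eB2, hIe.zero (f := fun i x => Cf (l i) x ^ 2) fun i => (cont_Cf _).pow 2]
          exact Finset.prod_eq_one fun i _ => J_sq_C _
        have hsplit : ∀ τ, (fun v => (∏ i ∈ s, Cf (l i) (Real.cos (θ i v))) * cw K τ v) =
            fun v => A v * (B v * cw K τ v) := by
          intro τ
          funext v
          rw [← Finset.mul_prod_erase s (fun i => Cf (l i) (Real.cos (θ i v))) hi₀, mul_assoc]
        by_cases hτ : τ = 0
        · subst hτ
          by_contra h0
          rw [hsplit] at hn h0
          have e0 : (fun v => A v * (B v * cw K 0 v)) = fun v => A v * B v := by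
            funext v
            rw [cw_zero, mul_one]
          rw [e0] at hn h0
          have hle : (M (nm K) U fun v => A v * B v) ^ 2 ≤ 1 := by
            have := M_cs hN hU bA bB
            rwa [hA2, hB2, mul_one] at this
          have hsq := int_sq hn h0 hle
          -- another index
          obtain ⟨i₁, hi₁⟩ : (s.erase i₀).Nonempty := by
            rw [← Finset.card_pos, Finset.card_erase_of_mem hi₀]
            omega
          have hi₁s : i₁ ∈ s := Finset.mem_of_mem_erase hi₁
          have hne : i₁ ≠ i₀ := Finset.ne_of_mem_erase hi₁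
          rcases Nat.lt_or_ge s.card 3 with hc3 | hc3
          · -- two families
            have hs2 : s.erase i₀ = {i₁} := by
              have h1 : (s.erase i₀).card = 1 := by
                rw [Finset.card_erase_of_mem hi₀]
                omega
              obtain ⟨a, ha⟩ := Finset.card_eq_one.1 h1
              rw [ha] at hi₁ ⊢
              rw [Finset.mem_singleton.1 hi₁]
            have eB : B = fun v => Cf (l i₁) (Real.cos (θ i₁ v)) := by
              funext v
              rw [hB]
              simp only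
              rw [hs2, Finset.prod_singleton]
            rw [eB] at h0
            exact hp i₀ i₁ hne.symm (P2 hU (hlaw i₀) (hlaw i₁) (intPair_of H hne.symm)
              (Nat.one_le_iff_ne_zero.2 hl0) (Nat.one_le_iff_ne_zero.2 (hall i₁ hi₁s)) h0)
          · -- three or more families
            have h3 := coin hN hU bA bB (bd_Cf (θ i₁) 2) hsq hA2 hB2 rfl
            have hpr : ({i₀, i₁} : Finset ι) ⊂ s := by
              refine Finset.ssubset_iff_subset_ne.2 ⟨?_, ?_⟩
              · intro x hx
                rw [Finset.mem_insert, Finset.mem_singleton] at hx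
                rcases hx with rfl | rfl
                · exact hi₀
                · exact hi₁s
              · intro h
                rw [← h, Finset.card_pair hne.symm] at hc3
                omega
            have h4 : (M (nm K) U fun v => A v ^ 2 * Cf 2 (Real.cos (θ i₁ v))) = 0 := by
              have h5 := (ih {i₀, i₁} hpr).zero (f := fun i x =>
                if i = i₀ then Cf (l i₀) x ^ 2 else Cf 2 x) (fun i => by
                  split_ifs
                  · exact (cont_Cf _).pow 2
                  · exact cont_Cf _)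
              simp only [Finset.prod_pair hne.symm, if_neg hne, if_true] at h5
              rw [show (J (dk 1) fun x => Cf 2 x) = 0 from by
                have := J_C 2
                rw [if_neg (by norm_num)] at this
                exact this, mul_zero] at h5
              exact h5
            have h5 : (M (nm K) U fun v => B v ^ 2 * Cf 2 (Real.cos (θ i₁ v))) = 1 := by
              have h6 := hIe.zero (f := fun i x =>
                if i = i₁ then Cf (l i₁) x ^ 2 * Cf 2 x else Cf (l i) x ^ 2) (fun i => by
                  split_ifs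
                  · exact ((cont_Cf _).pow 2).mul (cont_Cf 2)
                  · exact (cont_Cf _).pow 2)
              have e1 : (fun v => B v ^ 2 * Cf 2 (Real.cos (θ i₁ v))) = fun v =>
                  ∏ i ∈ s.erase i₀, (fun x => if i = i₁ then Cf (l i₁) x ^ 2 * Cf 2 x else
                    Cf (l i) x ^ 2) (Real.cos (θ i v)) := by
                funext v
                have e2 : ∀ i ∈ (s.erase i₀).erase i₁, (if i = i₁ then
                    Cf (l i₁) (Real.cos (θ i v)) ^ 2 * Cf 2 (Real.cos (θ i v)) else
                    Cf (l i) (Real.cos (θ i v)) ^ 2) = Cf (l i) (Real.cos (θ i v)) ^ 2 :=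
                  fun i hi => if_neg (Finset.ne_of_mem_erase hi)
                rw [hB]
                simp only
                rw [← Finset.prod_pow,
                  ← Finset.mul_prod_erase _ (fun i => Cf (l i) (Real.cos (θ i v)) ^ 2) hi₁,
                  ← Finset.mul_prod_erase _ (fun i => if i = i₁ then
                    Cf (l i₁) (Real.cos (θ i v)) ^ 2 * Cf 2 (Real.cos (θ i v)) else
                    Cf (l i) (Real.cos (θ i v)) ^ 2) hi₁, if_pos rfl,
                  Finset.prod_congr rfl e2]
                ring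
              rw [e1, h6, ← Finset.mul_prod_erase _ _ hi₁]
              rw [Finset.prod_eq_one, mul_one]
              · simp only [if_true]
                exact J_sq_two (Nat.one_le_iff_ne_zero.2 (hall i₁ hi₁s))
              · intro i hi
                simp only [if_neg (Finset.ne_of_mem_erase hi)]
                exact J_sq_C _
            rw [h4, h5] at h3
            exact zero_ne_one h3
        · -- off the real point
          have h1 := M_cs hN hU bA (bB.mul (bd_cw τ))
          rw [hA2, one_mul] at h1
          have h2 : (M (nm K) U fun v => (B v * cw K τ v) ^ 2) = 1 / 2 := by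
            have e : (fun v => (B v * cw K τ v) ^ 2) = fun v =>
                1 / 2 * B v ^ 2 + 1 / 2 * (B v ^ 2 * cw K (2 * τ) v) := by
              funext v
              rw [mul_pow, cw_sq]
              ring
            have h3 : (M (nm K) U fun v => B v ^ 2 * cw K (2 * τ) v) = 0 := by
              have h4 := hIe (2 * τ) (fun i x => Cf (l i) x ^ 2) fun i => (cont_Cf _).pow 2
              rw [if_neg (by simpa using hτ), zero_mul] at h4
              rw [← h4]
              congr 1
              funext v
              have := congrFun eB2 v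
              simp only at this
              rw [this]
            rw [e, M_add hN hU (bB.sq.const_mul _) ((bB.sq.mul (bd_cw _)).const_mul _),
              M_const_mul hN hU bB.sq, M_const_mul hN hU (bB.sq.mul (bd_cw _)), hB2, h3]
            ring
          rw [hsplit] at hn ⊢
          rw [h2, hn] at h1
          have h3 : n = 0 := by
            by_contra hne
            have h4 : 1 ≤ n ^ 2 := by
              have : 0 < n ^ 2 := by positivity
              omega
            have h5 : (1 : ℝ) ≤ (n : ℝ) ^ 2 := by exact_mod_cast h4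
            linarith
          rw [hn, h3]
          simp

end fam

end Pool.Agent.X289.Multi
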