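import Pool.Agent.X289.DensM

set_option autoImplicit false
set_option linter.unusedSectionVars false

/-!
# Several families of angles: the theorem
-/

namespace Pool.Agent.X289.Multi

open Complex Filter Topology ComplexConjugate NumberField IsDedekindDomain MeasureTheory
  Pool.Agent.W540.BE Pool.Agent.TH553.RS Pool.Agent.TH553.ST Pool.Agent.H341R2
open Pool.Agent.X289.Dens Pool.Agent.X289.Cls Pool.Agent.X289.Bc Pool.Agent.X289.SymM
  Pool.Agent.X289.Uch Pool.Agent.X289.Al Pool.Agent.X289.DensM Pool.Agent.X289.Main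

variable {K : Type} [Field K] [NumberField K] {ι : Type} [Fintype ι] [DecidableEq ι]
  (θ : ι → HeightOneSpectrum (𝓞 K) → ℝ)

/-- the local parameters -/
noncomputable def am (a : ι → ℕ) (v : HeightOneSpectrum (𝓞 K)) (k : (i : ι) → Fin (a i + 1)) : ℂ :=
  ∏ i, eg (a i) (θ i v) (k i)

theorem norm_am (a : ι → ℕ) (v : HeightOneSpectrum (𝓞 K)) (k : (i : ι) → Fin (a i + 1)) :
    ‖am θ a v k‖ = 1 := by
  unfold am
  rw [norm_prod]
  exact Finset.prod_eq_one fun i _ => norm_eg _ _ _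

theorem sum_am (a : ι → ℕ) (v : HeightOneSpectrum (𝓞 K)) :
    ∑ k, am θ a v k = ((∏ i, Cf (a i) (Real.cos (θ i v)) : ℝ) : ℂ) := by
  unfold am
  rw [← Fintype.piFinset_univ, ← Finset.prod_univ_sum]
  push_cast
  refine Finset.prod_congr rfl fun i _ => ?_
  rw [← ch_eq, ← Ec_real]
  rfl

variable {θ}

/-- the function with support in `s` -/
theorem prod_supp (s : Finset ι) (l : ι → ℕ) (v : HeightOneSpectrum (𝓞 K)) :
    ∏ i, Cf (if i ∈ s then l i else 0) (Real.cos (θ i v)) =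
      ∏ i ∈ s, Cf (l i) (Real.cos (θ i v)) := by
  rw [← Finset.prod_subset (Finset.subset_univ s)]
  · exact Finset.prod_congr rfl fun i hi => by rw [if_pos hi]
  · intro i _ hi
    rw [if_neg hi, Cf_zero]

/-- at least two nonzero entries -/
def Two (a : ι → ℕ) : Prop := ∃ i j, i ≠ j ∧ a i ≠ 0 ∧ a j ≠ 0

theorem intAll (hL : ∀ a : ι → ℕ, Two a → ∀ τ : ℝ, ∃ Λ, IsCA (am θ a) τ Λ)
    {U : Ultrafilter ℝ} (hU : (U : Filter ℝ) ≤ 𝓝[>] 0) : IntAll θ U := by
  intro s hs l hl τ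
  obtain ⟨i, hi, j, hj, hij⟩ := Finset.one_lt_card.1 (by omega : 1 < s.card)
  obtain ⟨Λ, hΛ⟩ := hL (fun i => if i ∈ s then l i else 0)
    ⟨i, j, hij, by simpa [hi] using hl i hi, by simpa [hj] using hl j hj⟩ τ
  obtain ⟨e, -, h2⟩ := ord_LA (norm_am θ _) (sum_am θ _) hΛ
  refine ⟨-e, ?_⟩
  have h3 := h2 U hU
  push_cast
  rw [← h3]
  congr 1
  funext v
  rw [prod_supp]

/-- the weight with the entries two at `i` and `j` -/
def w2 (i j k : ι) : ℕ := if k = i ∨ k = j then 2 else 0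

theorem prod_w2 {i j : ι} (hij : i ≠ j) (v : HeightOneSpectrum (𝓞 K)) :
    ∏ k, Cf (w2 i j k) (Real.cos (θ k v)) =
      Cf 2 (Real.cos (θ i v)) * Cf 2 (Real.cos (θ j v)) := by
  have h := prod_supp (θ := θ) {i, j} (fun _ => 2) v
  rw [Finset.prod_pair hij] at h
  rw [← h]
  refine Finset.prod_congr rfl fun k _ => ?_
  unfold w2
  simp only [Finset.mem_insert, Finset.mem_singleton]

theorem two_w2 {i j : ι} (hij : i ≠ j) : Two (w2 i j) :=
  ⟨i, j, hij, by simp [w2], by simp [w2]⟩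

/-- the orders and the averages of the products of characters -/
theorem orders (hlaw : ∀ i, STL (θ i))
    (hL : ∀ a : ι → ℕ, Two a → ∀ τ : ℝ, ∃ Λ, IsCA (am θ a) τ Λ)
    (hp : ∀ i j, i ≠ j → ∀ Λ, IsCA (am θ (w2 i j)) 0 Λ → 0 ≤ meromorphicOrderAt Λ 1)
    {a : ι → ℕ} (ha : Two a) {τ : ℝ} {Λ : ℂ → ℂ} (hΛ : IsCA (am θ a) τ Λ) :
    meromorphicOrderAt Λ (1 + τ * I) = ((0 : ℤ) : WithTop ℤ) := by
  obtain ⟨U, hU⟩ : ∃ U : Ultrafilter ℝ, (U : Filter ℝ) ≤ 𝓝[>] 0 :=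
    ⟨Ultrafilter.of (𝓝[>] 0), Ultrafilter.of_le _⟩
  have hp' : ∀ i j, i ≠ j → (M (nm K) U fun v => Cf 2 (Real.cos (θ i v)) *
      Cf 2 (Real.cos (θ j v))) ≠ 1 := by
    intro i j hij h1
    obtain ⟨Λ, hΛ⟩ := hL (w2 i j) (two_w2 hij) 0
    obtain ⟨e, h2, h3⟩ := ord_LA (norm_am θ _) (sum_am θ _) hΛ
    have h4 := hp i j hij Λ hΛ
    have h5 := h3 U hU
    simp only [prod_w2 hij, cw_zero, mul_one] at h5
    rw [h1] at h5
    have e1 : (1 : ℂ) + ((0 : ℝ) : ℂ) * I = 1 := by simp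
    rw [e1] at h2
    rw [h2] at h4
    have h6 : 0 ≤ e := by exact_mod_cast h4
    have h7 : (0 : ℝ) ≤ e := by exact_mod_cast h6
    linarith
  have hind := ind_all hU hlaw (intAll hL hU) hp' Finset.univ
  obtain ⟨e, h1, h2⟩ := ord_LA (norm_am θ _) (sum_am θ _) hΛ
  have h3 := h2 U hU
  have h4 := hind τ (fun i => Cf (a i)) fun i => cont_Cf _
  obtain ⟨i, j, hij, hi, hj⟩ := ha
  rw [Finset.prod_eq_zero (Finset.mem_univ i) (by rw [J_C, if_neg hi]), mul_zero, h3] at h4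
  rw [h1]
  have h5 : (e : ℝ) = ((0 : ℤ) : ℝ) := by push_cast; linarith
  have h6 : e = 0 := by exact_mod_cast h5
  rw [h6]

theorem avg_prod (hlaw : ∀ i, STL (θ i))
    (hL : ∀ a : ι → ℕ, Two a → ∀ τ : ℝ, ∃ Λ, IsCA (am θ a) τ Λ)
    (hp : ∀ i j, i ≠ j → ∀ Λ, IsCA (am θ (w2 i j)) 0 Λ → 0 ≤ meromorphicOrderAt Λ 1)
    (a : ι → ℕ) : Tendsto (mn fun v => ∏ i, Cf (a i) (Real.cos (θ i v))) atTop
      (𝓝 (∏ i, J (dk 1) (Cf (a i)))) := by
  by_cases ha : Two a
  · have h := avg_LA (norm_am θ a) (sum_am θ a) (c := 0) fun τ => by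
      obtain ⟨Λ, hΛ⟩ := hL a ha τ
      refine ⟨Λ, hΛ, ?_⟩
      rw [orders hlaw hL hp ha hΛ]
      simp
    obtain ⟨i, j, hij, hi, hj⟩ := ha
    rw [Finset.prod_eq_zero (Finset.mem_univ i) (by rw [J_C, if_neg hi])]
    push_cast at h
    exact h
  · by_cases h0 : ∃ i, a i ≠ 0
    · obtain ⟨i, hi⟩ := h0
      have hz : ∀ j, j ≠ i → a j = 0 := by
        intro j hj
        by_contra hne
        exact ha ⟨i, j, hj.symm, hi, hne⟩
      have e1 : (fun v => ∏ i, Cf (a i) (Real.cos (θ i v))) =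
          fun v => Cf (a i) (Real.cos (θ i v)) := by
        funext v
        rw [Finset.prod_eq_single i (fun j _ hj => by rw [hz j hj, Cf_zero])
          (fun h => absurd (Finset.mem_univ i) h)]
      rw [e1, Finset.prod_eq_single i (fun j _ hj => by rw [hz j hj, J_C, if_pos rfl])
        (fun h => absurd (Finset.mem_univ i) h)]
      exact hlaw i _ (cont_Cf _)
    · push Not at h0
      have e1 : (fun v : HeightOneSpectrum (𝓞 K) => ∏ i, Cf (a i) (Real.cos (θ i v))) =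
          fun _ => (1 : ℝ) := by
        funext v
        exact Finset.prod_eq_one fun i _ => by rw [h0 i, Cf_zero]
      rw [e1, Finset.prod_eq_one fun i _ => by rw [h0 i, J_C, if_pos rfl]]
      exact mn_one

/-- **The joint law.** -/
theorem joint (hlaw : ∀ i, STL (θ i))
    (hL : ∀ a : ι → ℕ, Two a → ∀ τ : ℝ, ∃ Λ, IsCA (am θ a) τ Λ)
    (hp : ∀ i j, i ≠ j → ∀ Λ, IsCA (am θ (w2 i j)) 0 Λ → 0 ≤ meromorphicOrderAt Λ 1)
    {f : (ι → ℝ) → ℝ} (hf : Continuous f) :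
    Tendsto (mn fun v => f fun i => Real.cos (θ i v)) atTop (𝓝 (Im f)) := by
  refine densM (Q := fun f => Tendsto (mn fun v => f fun i => Real.cos (θ i v)) atTop
    (𝓝 (Im f))) ?_ ?_ ?_ ?_ hf
  · intro f g hf hg h1 h2
    rw [Im_add hf hg]
    exact (h1.add h2).congr fun n => (mn_add _ _ n).symm
  · intro c f hf h1
    rw [Im_smul]
    exact (h1.const_mul c).congr fun n => (mn_smul _ _ n).symm
  · intro l
    rw [Im_prod]
    exact avg_prod hlaw hL hp l
  · intro f hf h1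
    rw [Metric.tendsto_atTop]
    intro η hη
    obtain ⟨g, hg, hQ, hfg⟩ := h1 (η / 4) (by positivity)
    rw [Metric.tendsto_atTop] at hQ
    obtain ⟨n0, hn0⟩ := hQ (η / 4) (by positivity)
    refine ⟨n0, fun n hn => ?_⟩
    have h2 := hn0 n hn
    rw [Real.dist_eq] at h2 ⊢
    have h3 : |mn (fun v => (f fun i => Real.cos (θ i v)) - (g fun i => Real.cos (θ i v))) n| ≤
        η / 4 := mn_abs_le (by positivity) (fun v => hfg _ fun i => Real.cos_mem_Icc _) n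
    have e2 : ∀ f g : (ι → ℝ) → ℝ, (fun x => f x - g x) = fun x => f x + (-1) * g x :=
      fun f g => by
        funext x
        ring
    have h4 := Im_le (f := fun x => f x - g x) (hf.sub hg) (ε := η / 4) hfg
    rw [e2 f g, Im_add hf (hg.const_mul _), Im_smul] at h4
    have h5 : mn (fun v => (f fun i => Real.cos (θ i v)) - (g fun i => Real.cos (θ i v))) n =
        mn (fun v => f fun i => Real.cos (θ i v)) n -
          mn (fun v => g fun i => Real.cos (θ i v)) n := by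
      have e : (fun v => (f fun i => Real.cos (θ i v)) - (g fun i => Real.cos (θ i v))) =
          fun v => (f fun i => Real.cos (θ i v)) + (-1) * (g fun i => Real.cos (θ i v)) := by
        funext w
        ring
      rw [e, mn_add, mn_smul]
      ring
    rw [h5] at h3
    have e : mn (fun v => f fun i => Real.cos (θ i v)) n - Im f =
        (mn (fun v => f fun i => Real.cos (θ i v)) n -
          mn (fun v => g fun i => Real.cos (θ i v)) n) +
        (mn (fun v => g fun i => Real.cos (θ i v)) n - Im g) - (Im f + -1 * Im g) := by ring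
    rw [e]
    have h8 := abs_sub ((mn (fun v => f fun i => Real.cos (θ i v)) n -
      mn (fun v => g fun i => Real.cos (θ i v)) n) +
        (mn (fun v => g fun i => Real.cos (θ i v)) n - Im g)) (Im f + -1 * Im g)
    have h9 := abs_add_le (mn (fun v => f fun i => Real.cos (θ i v)) n -
      mn (fun v => g fun i => Real.cos (θ i v)) n)
      (mn (fun v => g fun i => Real.cos (θ i v)) n - Im g)
    linarith

/-- the converse -/
theorem pole_of_joint (hjt : ∀ f : (ι → ℝ) → ℝ, Continuous f →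
      Tendsto (mn fun v => f fun i => Real.cos (θ i v)) atTop (𝓝 (Im f)))
    {i j : ι} {Λ : ℂ → ℂ} (hΛ : IsCA (am θ (w2 i j)) 0 Λ) :
    0 ≤ meromorphicOrderAt Λ 1 := by
  obtain ⟨U, hU⟩ : ∃ U : Ultrafilter ℝ, (U : Filter ℝ) ≤ 𝓝[>] 0 :=
    ⟨Ultrafilter.of (𝓝[>] 0), Ultrafilter.of_le _⟩
  have h1 := hjt _ (cont_prod (w2 i j))
  rw [Im_prod] at h1
  have hb : Bd fun v => ∏ k, Cf (w2 i j k) (Real.cos (θ k v)) := bd_prod _ fun i => cont_Cf _
  have h2 := M_of_mn hU hb h1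
  obtain ⟨e, h3, h4⟩ := ord_LA (norm_am θ _) (sum_am θ _) hΛ
  have h5 := h4 U hU
  simp only [cw_zero, mul_one] at h5
  rw [h2, Finset.prod_eq_zero (Finset.mem_univ i) (by rw [J_C, if_neg]; simp [w2])] at h5
  have e1 : (1 : ℂ) + ((0 : ℝ) : ℂ) * I = 1 := by simp
  rw [e1] at h3
  rw [h3]
  have h6 : (e : ℝ) = ((0 : ℤ) : ℝ) := by push_cast; linarith
  have h7 : e = 0 := by exact_mod_cast h6
  rw [h7]
  simp


/-- off the real point the mean of a product of two characters vanishes -/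
theorem off_zero {θ θ' : HeightOneSpectrum (𝓞 K) → ℝ} (h : STL θ) (h' : STL θ')
    {U : Ultrafilter ℝ} (hU : (U : Filter ℝ) ≤ 𝓝[>] 0) {a b : ℕ} {τ : ℝ} (hτ : τ ≠ 0) {n : ℤ}
    (hn : (M (nm K) U fun v => Cf a (Real.cos (θ v)) * Cf b (Real.cos (θ' v)) * cw K τ v) = n) :
    n = 0 := by
  have hN := sysF K
  have bA := bd_Cf θ a
  have bB := bd_Cf θ' b
  have h1 := M_cs hN hU bA (bB.mul (bd_cw τ))
  rw [M_sq hU h, one_mul] at h1
  have h2 : (M (nm K) U fun v => (Cf b (Real.cos (θ' v)) * cw K τ v) ^ 2) = 1 / 2 := by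
    have e : (fun v => (Cf b (Real.cos (θ' v)) * cw K τ v) ^ 2) = fun v =>
        1 / 2 * Cf b (Real.cos (θ' v)) ^ 2 +
          1 / 2 * (Cf b (Real.cos (θ' v)) ^ 2 * cw K (2 * τ) v) := by
      funext v
      rw [mul_pow, cw_sq]
      ring
    rw [e, M_add hN hU (bB.sq.const_mul _) ((bB.sq.mul (bd_cw _)).const_mul _),
      M_const_mul hN hU bB.sq, M_const_mul hN hU (bB.sq.mul (bd_cw _)), M_sq hU h',
      M_law_cw hU h' (f := fun x => Cf b x ^ 2) ((cont_Cf b).pow 2) (by simpa using hτ)]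
    ring
  have e3 : (fun v => Cf a (Real.cos (θ v)) * (Cf b (Real.cos (θ' v)) * cw K τ v)) =
      fun v => Cf a (Real.cos (θ v)) * Cf b (Real.cos (θ' v)) * cw K τ v := by
    funext v
    ring
  rw [e3, h2, hn] at h1
  by_contra hne
  have h4 : 1 ≤ n ^ 2 := by
    have : 0 < n ^ 2 := by positivity
    omega
  have h5 : (1 : ℝ) ≤ (n : ℝ) ^ 2 := by exact_mod_cast h4
  linarith

theorem Cf_two (x : ℝ) : Cf 2 x = (2 * x) ^ 2 - 1 := by
  have h := Cf_add_two 0 x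
  rw [zero_add, Cf_zero] at h
  change Cf 2 x = 2 * x * Cf 1 x - 1 at h
  rw [h, Cf_one]
  ring

/-- the traces agree up to the sign outside sets of small density -/
def Coi (θ θ' : HeightOneSpectrum (𝓞 K) → ℝ) : Prop :=
  Tendsto (mn fun v => |(2 * Real.cos (θ v)) ^ 2 - (2 * Real.cos (θ' v)) ^ 2|) atTop (𝓝 0)

theorem bd_coi (θ θ' : HeightOneSpectrum (𝓞 K) → ℝ) :
    Bd fun v => |(2 * Real.cos (θ v)) ^ 2 - (2 * Real.cos (θ' v)) ^ 2| :=
  ((bd_cos θ (f := fun x => (2 * x) ^ 2) (by fun_prop)).sub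
    (bd_cos θ' (f := fun x => (2 * x) ^ 2) (by fun_prop))).abs

/-- a coincidence gives the mean value one -/
theorem one_of_coi {θ θ' : HeightOneSpectrum (𝓞 K) → ℝ} (h : STL θ) (hc : Coi θ θ')
    {U : Ultrafilter ℝ} (hU : (U : Filter ℝ) ≤ 𝓝[>] 0) :
    (M (nm K) U fun v => Cf 2 (Real.cos (θ v)) * Cf 2 (Real.cos (θ' v))) = 1 := by
  have hN := sysF K
  have h1 := M_of_mn hU (bd_coi θ θ') hc
  have bA := bd_Cf θ 2
  have bB := bd_Cf θ' 2
  obtain ⟨B, hB⟩ := id bA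
  have hd : Bd fun v => Cf 2 (Real.cos (θ v)) ^ 2 -
      Cf 2 (Real.cos (θ v)) * Cf 2 (Real.cos (θ' v)) := bA.sq.sub (bA.mul bB)
  have h2 : ∀ v, |Cf 2 (Real.cos (θ v)) ^ 2 - Cf 2 (Real.cos (θ v)) * Cf 2 (Real.cos (θ' v))| ≤
      B * |(2 * Real.cos (θ v)) ^ 2 - (2 * Real.cos (θ' v)) ^ 2| := by
    intro v
    have e : Cf 2 (Real.cos (θ v)) ^ 2 - Cf 2 (Real.cos (θ v)) * Cf 2 (Real.cos (θ' v)) =
        Cf 2 (Real.cos (θ v)) * ((2 * Real.cos (θ v)) ^ 2 - (2 * Real.cos (θ' v)) ^ 2) := by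
      rw [Cf_two (Real.cos (θ' v)), sq (Cf 2 (Real.cos (θ v))), ← mul_sub]
      congr 1
      rw [Cf_two]
      ring
    rw [e, abs_mul]
    exact mul_le_mul_of_nonneg_right (hB v) (abs_nonneg _)
  have h3 : (M (nm K) U fun v => |Cf 2 (Real.cos (θ v)) ^ 2 -
      Cf 2 (Real.cos (θ v)) * Cf 2 (Real.cos (θ' v))|) = 0 :=
    M_zero_of_le hN hU hd.abs ((bd_coi θ θ').const_mul B) (fun v => abs_nonneg _) h2
      (by rw [M_const_mul hN hU (bd_coi θ θ'), h1, mul_zero])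
  have h4 : (M (nm K) U fun v => Cf 2 (Real.cos (θ v)) ^ 2 -
      Cf 2 (Real.cos (θ v)) * Cf 2 (Real.cos (θ' v))) = 0 := by
    refine le_antisymm ?_ ?_
    · have := M_mono hN hU hd hd.abs fun v => le_abs_self _
      rwa [h3] at this
    · have := M_mono hN hU hd.neg hd.abs fun v => neg_le_abs _
      rw [h3, M_neg hN hU hd] at this
      linarith
  rw [M_sub hN hU bA.sq (bA.mul bB), M_sq hU h] at h4
  linarith

/-- a pole gives a coincidence -/
theorem coi_of_avg {θ θ' : HeightOneSpectrum (𝓞 K) → ℝ} (h : STL θ) (h' : STL θ')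
    (ha : Tendsto (mn fun v => Cf 2 (Real.cos (θ v)) * Cf 2 (Real.cos (θ' v))) atTop (𝓝 1)) :
    Coi θ θ' := by
  have h1 := h (fun x => Cf 2 x ^ 2) ((cont_Cf 2).pow 2)
  have h2 := h' (fun x => Cf 2 x ^ 2) ((cont_Cf 2).pow 2)
  rw [J_sq_C] at h1 h2
  have h3 := (h1.add h2).add (ha.const_mul (-2))
  have e0 : (1 : ℝ) + 1 + -2 * 1 = 0 := by norm_num
  rw [e0] at h3
  have h4 : Tendsto (mn fun v =>
      |(2 * Real.cos (θ v)) ^ 2 - (2 * Real.cos (θ' v)) ^ 2| ^ 2) atTop (𝓝 0) := by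
    refine h3.congr fun n => ?_
    rw [← mn_smul, ← mn_add, ← mn_add]
    congr 1
    funext v
    rw [sq_abs, Cf_two, Cf_two]
    ring
  have h5 : Tendsto (fun n => Real.sqrt (mn (fun v =>
      |(2 * Real.cos (θ v)) ^ 2 - (2 * Real.cos (θ' v)) ^ 2| ^ 2) n)) atTop (𝓝 0) := by
    have := (Real.continuous_sqrt.tendsto 0).comp h4
    rwa [Real.sqrt_zero] at this
  refine squeeze_zero (fun n => ?_) (fun n => ?_) h5
  · unfold mn
    rw [smul_eq_mul]
    exact mul_nonneg (inv_nonneg.2 (Nat.cast_nonneg _)) (Finset.sum_nonneg fun v _ => abs_nonneg _)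
  · refine Real.le_sqrt_of_sq_le ?_
    unfold mn
    rw [smul_eq_mul, smul_eq_mul]
    rcases Nat.eq_zero_or_pos (upto K n).card with h0 | h0
    · rw [h0]
      simp
    · have h6 : (0 : ℝ) < (upto K n).card := by exact_mod_cast h0
      have h7 := sq_sum_le_card_mul_sum_sq (s := upto K n) (f := fun v =>
        |(2 * Real.cos (θ v)) ^ 2 - (2 * Real.cos (θ' v)) ^ 2|)
      rw [mul_pow, inv_pow]
      calc (((upto K n).card : ℝ) ^ 2)⁻¹ * (∑ v ∈ upto K n,
            |(2 * Real.cos (θ v)) ^ 2 - (2 * Real.cos (θ' v)) ^ 2|) ^ 2 ≤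
          (((upto K n).card : ℝ) ^ 2)⁻¹ * (((upto K n).card : ℝ) * ∑ v ∈ upto K n,
            |(2 * Real.cos (θ v)) ^ 2 - (2 * Real.cos (θ' v)) ^ 2| ^ 2) :=
            mul_le_mul_of_nonneg_left h7 (by positivity)
        _ = _ := by field_simp

/-- **The criterion with coincidences.** -/
theorem no_pole_of_no_coi (hlaw : ∀ i, STL (θ i))
    (hL : ∀ a : ι → ℕ, Two a → ∀ τ : ℝ, ∃ Λ, IsCA (am θ a) τ Λ) {i j : ι} (hij : i ≠ j)
    (hc : ¬ Coi (θ i) (θ j)) {Λ : ℂ → ℂ} (hΛ : IsCA (am θ (w2 i j)) 0 Λ) :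
    0 ≤ meromorphicOrderAt Λ 1 := by
  obtain ⟨U, hU⟩ : ∃ U : Ultrafilter ℝ, (U : Filter ℝ) ≤ 𝓝[>] 0 :=
    ⟨Ultrafilter.of (𝓝[>] 0), Ultrafilter.of_le _⟩
  obtain ⟨e, h1, h2⟩ := ord_LA (norm_am θ _) (sum_am θ _) hΛ
  have h3 := h2 U hU
  simp only [prod_w2 hij, cw_zero, mul_one] at h3
  have e1 : (1 : ℂ) + ((0 : ℝ) : ℂ) * I = 1 := by simp
  by_contra hneg
  apply hc
  refine coi_of_avg (hlaw i) (hlaw j) ?_
  have hle := sq_le_one hU (hlaw i) (hlaw j) 2 2
  have he : e = -1 := by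
    rw [e1] at h1
    rw [h1] at hneg
    have h4 : ¬ (0 ≤ e) := by
      intro h
      apply hneg
      exact_mod_cast h
    rw [h3] at hle
    have h5 : (-e) ^ 2 ≤ 1 := by exact_mod_cast hle
    nlinarith
  have h6 := avg_LA (norm_am θ (w2 i j)) (sum_am θ (w2 i j)) (c := 1) fun τ => by
    obtain ⟨Λ', hΛ'⟩ := hL (w2 i j) (two_w2 hij) τ
    refine ⟨Λ', hΛ', ?_⟩
    obtain ⟨e', h7, h8⟩ := ord_LA (norm_am θ _) (sum_am θ _) hΛ'
    have h9 := h8 U hU
    simp only [prod_w2 hij] at h9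
    rw [h7]
    congr 1
    by_cases hτ : τ = 0
    · rw [if_pos hτ]
      rw [hτ] at h9
      simp only [cw_zero, mul_one] at h9
      rw [h3, he] at h9
      push_cast at h9
      have : (e' : ℝ) = ((-1 : ℤ) : ℝ) := by push_cast; linarith
      exact_mod_cast this
    · rw [if_neg hτ]
      have h10 := off_zero (hlaw i) (hlaw j) hU hτ (n := -e') (by rw [h9]; push_cast; rfl)
      omega
  push_cast at h6
  refine h6.congr fun n => ?_
  congr 1
  funext v
  exact prod_w2 hij v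

end Pool.Agent.X289.Multi
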