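import Pool.Agent.X289.Many

set_option autoImplicit false

/-!
# The density bound from Rankin-Selberg products, with real weights
-/

namespace Pool.Agent.X289.RSD

open Filter Topology ComplexConjugate
open Pool.Agent.X289.Many (UD)

/-- **Positivity, weighted.** -/
theorem local_pos {κ : Type*} [Fintype κ] (c : κ → ℝ) (A : κ → ℂ) {Q : ℝ} (hQ : 0 < Q)
    (hA : ∀ i, ‖A i‖ ^ 2 < Q) :
    ‖∑ i, (c i : ℂ) * A i‖ ^ 2 / Q ≤
      ∑ i, ∑ j, c i * c j * Real.log ‖(1 - A i * conj (A j) * ((Q⁻¹ : ℝ) : ℂ))⁻¹‖ := by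
  set z : κ → κ → ℂ := fun i j => A i * conj (A j) * ((Q⁻¹ : ℝ) : ℂ) with hz
  have hz1 : ∀ i j, ‖z i j‖ < 1 := by
    intro i j
    rw [hz]
    simp only
    rw [norm_mul, norm_mul, Complex.norm_conj, Complex.norm_real, Real.norm_eq_abs,
      abs_of_pos (inv_pos.2 hQ), ← div_eq_mul_inv, div_lt_one hQ]
    have h1 := hA i
    have h2 := hA j
    nlinarith [norm_nonneg (A i), norm_nonneg (A j), sq_nonneg (‖A i‖ - ‖A j‖)]
  have h1 : HasSum (fun n : ℕ => ∑ i, ∑ j, ((c i : ℂ) * c j) * (z i j ^ n / n))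
      (∑ i, ∑ j, ((c i : ℂ) * c j) * -Complex.log (1 - z i j)) :=
    hasSum_sum fun i _ => hasSum_sum fun j _ =>
      (Complex.hasSum_taylorSeries_neg_log (hz1 i j)).mul_left _
  have h2 := Complex.hasSum_re h1
  have h3 : ∀ n : ℕ, (∑ i, ∑ j, ((c i : ℂ) * c j) * (z i j ^ n / n)).re =
      ‖∑ i, (c i : ℂ) * A i ^ n‖ ^ 2 / (Q ^ n * n) := by
    intro n
    have e1 : ∑ i, ∑ j, ((c i : ℂ) * c j) * (z i j ^ n / n) =
        ((‖∑ i, (c i : ℂ) * A i ^ n‖ ^ 2 / (Q ^ n * n) : ℝ) : ℂ) := by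
      have e2 : ((‖∑ i, (c i : ℂ) * A i ^ n‖ ^ 2 : ℝ) : ℂ) =
          (∑ i, (c i : ℂ) * A i ^ n) * conj (∑ j, (c j : ℂ) * A j ^ n) := by
        rw [Complex.mul_conj, Complex.normSq_eq_norm_sq]
      have e3 : ((‖∑ i, (c i : ℂ) * A i ^ n‖ ^ 2 / (Q ^ n * n) : ℝ) : ℂ) =
          ((‖∑ i, (c i : ℂ) * A i ^ n‖ ^ 2 : ℝ) : ℂ) * (((Q⁻¹ : ℝ) : ℂ) ^ n / n) := by
        push_cast
        rw [inv_pow, div_eq_mul_inv, div_eq_mul_inv, mul_inv]
      rw [e3, e2, map_sum, Finset.sum_mul_sum, Finset.sum_mul]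
      refine Finset.sum_congr rfl fun i _ => ?_
      rw [Finset.sum_mul]
      refine Finset.sum_congr rfl fun j _ => ?_
      rw [hz]
      simp only
      rw [map_mul, map_pow, mul_pow, mul_pow, Complex.conj_ofReal]
      ring
    rw [e1, Complex.ofReal_re]
  simp only [h3] at h2
  have h4 := le_hasSum h2 1 fun n _ => by positivity
  rw [pow_one, Nat.cast_one, mul_one] at h4
  simp only [pow_one] at h4
  refine h4.trans (le_of_eq ?_)
  rw [Complex.re_sum]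
  refine Finset.sum_congr rfl fun i _ => ?_
  rw [Complex.re_sum]
  refine Finset.sum_congr rfl fun j _ => ?_
  rw [← Complex.ofReal_mul, Complex.re_ofReal_mul, Complex.neg_re, Complex.log_re, norm_inv,
    Real.log_inv]

/-- the size at `1` -/
theorem log_bound {Λ L : ℂ → ℂ} {e : ℤ} (hΛ : MeromorphicAt Λ 1)
    (ho : meromorphicOrderAt Λ 1 = (e : WithTop ℤ))
    (he : ∀ᶠ s in 𝓝 (1 : ℂ), (1 : ℝ) < s.re → Λ s = L s) :
    ∃ C : ℝ, ∀ᶠ s : ℝ in 𝓝[>] 1, L s ≠ 0 ∧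
      |Real.log ‖L s‖ - e * Real.log (s - 1)| ≤ C := by
  obtain ⟨g, h1, h2, h3⟩ := (meromorphicOrderAt_eq_int_iff hΛ).1 ho
  have hg : 0 < ‖g 1‖ := norm_pos_iff.2 h2
  have h4 : ContinuousAt (fun s => Real.log ‖g s‖) 1 := h1.continuousAt.norm.log hg.ne'
  have h5 : ∀ᶠ s in 𝓝 (1 : ℂ), |Real.log ‖g s‖ - Real.log ‖g 1‖| < 1 := by
    have := Metric.continuousAt_iff'.1 h4 1 one_pos
    exact this.mono fun s hs => by rwa [Real.dist_eq] at hs
  have h6 : ∀ᶠ s in 𝓝 (1 : ℂ), g s ≠ 0 := h1.continuousAt.eventually_ne h2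
  have ht : Tendsto (fun s : ℝ => (s : ℂ)) (𝓝[>] 1) (𝓝 1) := by
    have h : Tendsto (fun s : ℝ => (s : ℂ)) (𝓝 1) (𝓝 ((1 : ℝ) : ℂ)) :=
      Complex.continuous_ofReal.tendsto 1
    rw [Complex.ofReal_one] at h
    exact h.mono_left nhdsWithin_le_nhds
  rw [eventually_nhdsWithin_iff] at h3
  refine ⟨|Real.log ‖g 1‖| + 1, ?_⟩
  filter_upwards [ht.eventually h5, ht.eventually h6, ht.eventually h3, ht.eventually he,
    self_mem_nhdsWithin] with s g5 g6 g3 g4 g7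
  have hs : (1 : ℝ) < s := g7
  have hs0 : 0 < s - 1 := by linarith
  have hne : (s : ℂ) ∈ ({1} : Set ℂ)ᶜ := by
    intro h
    have h10 : (s : ℂ) = 1 := h
    have : s = 1 := by exact_mod_cast h10
    linarith
  have e1 : (s : ℂ) - 1 = ((s - 1 : ℝ) : ℂ) := by push_cast; ring
  have e2 : ‖((s : ℂ) - 1) ^ e‖ = (s - 1) ^ e := by
    rw [norm_zpow, e1, Complex.norm_real, Real.norm_eq_abs, abs_of_pos hs0]
  have e3 : L s = ((s : ℂ) - 1) ^ e • g s := by
    rw [← g4 (by rw [Complex.ofReal_re]; exact hs), g3 hne]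
  have e4 : ((s : ℂ) - 1) ^ e ≠ 0 := by
    rw [← norm_ne_zero_iff, e2]
    exact (zpow_pos hs0 _).ne'
  refine ⟨by rw [e3, smul_eq_mul]; exact mul_ne_zero e4 g6, ?_⟩
  rw [e3, smul_eq_mul, norm_mul, e2, Real.log_mul (zpow_pos hs0 _).ne' (norm_ne_zero_iff.2 g6),
    Real.log_zpow, add_sub_cancel_left]
  have h8 := abs_sub_abs_le_abs_sub (Real.log ‖g s‖) (Real.log ‖g 1‖)
  linarith

theorem log_atTop : Tendsto (fun s : ℝ => Real.log (1 / (s - 1))) (𝓝[>] 1) atTop := by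
  have h1 : Tendsto (fun s : ℝ => s - 1) (𝓝[>] 1) (𝓝[>] 0) := by
    refine tendsto_nhdsWithin_iff.2 ⟨?_, ?_⟩
    · have : Tendsto (fun s : ℝ => s - 1) (𝓝 1) (𝓝 (1 - 1)) :=
        (continuous_id.sub continuous_const).tendsto 1
      rw [sub_self] at this
      exact this.mono_left nhdsWithin_le_nhds
    · filter_upwards [self_mem_nhdsWithin] with s hs
      have : (1 : ℝ) < s := hs
      exact sub_pos.2 this
  have h2 := Real.tendsto_log_atTop.comp (tendsto_inv_nhdsGT_zero.comp h1)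
  refine h2.congr fun s => ?_
  simp [Function.comp]

section

variable {P ι : Type*} [Fintype ι] {n : ι → ℕ}

/-- the local factor of the product of Rankin and Selberg -/
noncomputable def fac (q : P → ℕ) (A : ∀ i, P → Fin (n i) → ℂ) (i j : ι) (s : ℂ) (v : P) : ℂ :=
  ∏ a, ∏ b, (1 - A i v a * conj (A j v b) * ((q v : ℕ) : ℂ) ^ (-s))⁻¹

/-- **The quadratic form.** -/
theorem form {q : P → ℕ} (hq : ∀ v, 1 < q v) {A : ∀ i, P → Fin (n i) → ℂ}
    (hA : ∀ i v a, ‖A i v a‖ ^ 2 < q v)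
    (hm : ∀ i j (s : ℝ), 1 < s → Multipliable (fac q A i j s)) {e : ι → ι → ℤ}
    (hp : ∀ i j, ∃ Λ : ℂ → ℂ, MeromorphicAt Λ 1 ∧ meromorphicOrderAt Λ 1 = (-(e i j) : ℤ) ∧
      ∀ᶠ s in 𝓝 (1 : ℂ), (1 : ℝ) < s.re → Λ s = ∏' v, fac q A i j s v) (c : ι → ℝ) :
    ∃ C : ℝ, ∀ᶠ s : ℝ in 𝓝[>] 1, ∀ T : Finset P,
      ∑ v ∈ T, ‖∑ i, (c i : ℂ) * ∑ a, A i v a‖ ^ 2 * (q v : ℝ) ^ (-s) ≤
        (∑ i, ∑ j, c i * c j * e i j) * Real.log (1 / (s - 1)) + C := by
  choose Λ h1 h2 h3 using hp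
  choose C hC using fun i j => log_bound (h1 i j) (h2 i j) (h3 i j)
  have hall : ∀ᶠ s : ℝ in 𝓝[>] 1, ∀ i j, (∏' v, fac q A i j s v) ≠ 0 ∧
      |Real.log ‖∏' v, fac q A i j s v‖ - ((-(e i j) : ℤ) : ℝ) * Real.log (s - 1)| ≤ C i j := by
    rw [eventually_all]
    intro i
    rw [eventually_all]
    exact fun j => hC i j
  refine ⟨∑ i, ∑ j, |c i * c j| * C i j, ?_⟩
  filter_upwards [hall, self_mem_nhdsWithin] with s h4 h5 T
  have hs : (1 : ℝ) < s := h5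
  have hq0 : ∀ v, (0 : ℝ) < q v := fun v => by exact_mod_cast (hq v).le.trans_lt' Nat.zero_lt_one
  have hq1 : ∀ v, (1 : ℝ) < q v := fun v => by exact_mod_cast hq v
  have hcast : ∀ v, ((q v : ℕ) : ℂ) ^ (-(s : ℂ)) = ((((q v : ℝ) ^ s)⁻¹ : ℝ) : ℂ) := by
    intro v
    rw [← Real.rpow_neg (hq0 v).le, Complex.ofReal_cpow (hq0 v).le]
    push_cast
    rfl
  have hzne : ∀ i j v a b, (1 - A i v a * conj (A j v b) * ((q v : ℕ) : ℂ) ^ (-(s : ℂ))) ≠ 0 := by
    intro i j v a b h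
    have h6 : A i v a * conj (A j v b) * ((q v : ℕ) : ℂ) ^ (-(s : ℂ)) = 1 := by
      linear_combination -h
    have h7 := congrArg norm h6
    rw [hcast, norm_mul, norm_mul, Complex.norm_conj, Complex.norm_real, Real.norm_eq_abs,
      norm_one, abs_of_pos (inv_pos.2 (Real.rpow_pos_of_pos (hq0 v) s)), ← div_eq_mul_inv,
      div_eq_one_iff_eq (Real.rpow_pos_of_pos (hq0 v) s).ne'] at h7
    have h8 : (q v : ℝ) ≤ (q v : ℝ) ^ s := by
      calc (q v : ℝ) = (q v : ℝ) ^ (1 : ℝ) := (Real.rpow_one _).symm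
        _ ≤ (q v : ℝ) ^ s := Real.rpow_le_rpow_of_exponent_le (hq1 v).le hs.le
    have h9 := hA i v a
    have h10 := hA j v b
    nlinarith [norm_nonneg (A i v a), norm_nonneg (A j v b), sq_nonneg (‖A i v a‖ - ‖A j v b‖)]
  have hne : ∀ i j v, fac q A i j s v ≠ 0 := by
    intro i j v
    unfold fac
    exact Finset.prod_ne_zero_iff.2 fun a _ => Finset.prod_ne_zero_iff.2 fun b _ =>
      inv_ne_zero (hzne i j v a b)
  -- the local inequality
  have hloc : ∀ v, ‖∑ i, (c i : ℂ) * ∑ a, A i v a‖ ^ 2 * (q v : ℝ) ^ (-s) ≤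
      ∑ i, ∑ j, c i * c j * Real.log ‖fac q A i j s v‖ := by
    intro v
    have h8 : (q v : ℝ) ≤ (q v : ℝ) ^ s := by
      calc (q v : ℝ) = (q v : ℝ) ^ (1 : ℝ) := (Real.rpow_one _).symm
        _ ≤ (q v : ℝ) ^ s := Real.rpow_le_rpow_of_exponent_le (hq1 v).le hs.le
    have h9 := local_pos (κ := Σ i, Fin (n i)) (fun x => c x.1) (fun x => A x.1 v x.2)
      (Q := (q v : ℝ) ^ s) (Real.rpow_pos_of_pos (hq0 v) s)
      fun x => (hA x.1 v x.2).trans_le h8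
    rw [Fintype.sum_sigma] at h9
    simp only [← Finset.mul_sum] at h9
    have e0 : ‖∑ i, (c i : ℂ) * ∑ a, A i v a‖ ^ 2 * (q v : ℝ) ^ (-s) =
        ‖∑ i, (c i : ℂ) * ∑ a, A i v a‖ ^ 2 / (q v : ℝ) ^ s := by
      rw [Real.rpow_neg (hq0 v).le, div_eq_mul_inv]
    rw [e0]
    refine h9.trans (le_of_eq ?_)
    rw [Fintype.sum_sigma]
    refine Finset.sum_congr rfl fun i _ => ?_
    simp only [Fintype.sum_sigma]
    rw [Finset.sum_comm]
    refine Finset.sum_congr rfl fun j _ => ?_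
    have e1 : Real.log ‖fac q A i j s v‖ = ∑ a, ∑ b, Real.log
        ‖(1 - A i v a * conj (A j v b) * ((((q v : ℝ) ^ s)⁻¹ : ℝ) : ℂ))⁻¹‖ := by
      unfold fac
      rw [norm_prod, Real.log_prod fun a _ => norm_ne_zero_iff.2 (Finset.prod_ne_zero_iff.2
        fun b _ => inv_ne_zero (hzne i j v a b))]
      refine Finset.sum_congr rfl fun a _ => ?_
      rw [norm_prod, Real.log_prod fun b _ => norm_ne_zero_iff.2 (inv_ne_zero (hzne i j v a b))]
      simp only [hcast]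
    rw [e1, Finset.mul_sum]
    exact Finset.sum_congr rfl fun a _ => (Finset.mul_sum _ _ _).symm
  have hpos : ∀ v, 0 ≤ ∑ i, ∑ j, c i * c j * Real.log ‖fac q A i j s v‖ := fun v =>
    le_trans (by positivity) (hloc v)
  -- the limit
  have hlim : Tendsto (fun T : Finset P => ∑ v ∈ T, ∑ i, ∑ j,
      c i * c j * Real.log ‖fac q A i j s v‖) atTop
      (𝓝 (∑ i, ∑ j, c i * c j * Real.log ‖∏' v, fac q A i j s v‖)) := by
    have e1 : (fun T : Finset P => ∑ v ∈ T, ∑ i, ∑ j,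
        c i * c j * Real.log ‖fac q A i j s v‖) = fun T =>
        ∑ i, ∑ j, c i * c j * Real.log ‖∏ v ∈ T, fac q A i j s v‖ := by
      funext T
      rw [Finset.sum_comm]
      refine Finset.sum_congr rfl fun i _ => ?_
      rw [Finset.sum_comm]
      refine Finset.sum_congr rfl fun j _ => ?_
      rw [← Finset.mul_sum, norm_prod, Real.log_prod fun v _ => norm_ne_zero_iff.2 (hne i j v)]
    rw [e1]
    refine tendsto_finsetSum _ fun i _ => tendsto_finsetSum _ fun j _ => ?_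
    refine Tendsto.const_mul _ ?_
    have h6 : Tendsto (fun T : Finset P => ‖∏ v ∈ T, fac q A i j s v‖) atTop
        (𝓝 ‖∏' v, fac q A i j s v‖) :=
      (continuous_norm.tendsto _).comp (hm i j s hs).hasProd
    exact (Real.continuousAt_log (norm_ne_zero_iff.2 (h4 i j).1)).tendsto.comp h6
  have hle : ∑ v ∈ T, ∑ i, ∑ j, c i * c j * Real.log ‖fac q A i j s v‖ ≤
      ∑ i, ∑ j, c i * c j * Real.log ‖∏' v, fac q A i j s v‖ := by
    refine ge_of_tendsto hlim ?_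
    filter_upwards [eventually_ge_atTop T] with T' hT'
    exact Finset.sum_le_sum_of_subset_of_nonneg hT' fun v _ _ => hpos v
  refine ((Finset.sum_le_sum fun v _ => hloc v).trans hle).trans ?_
  rw [Finset.sum_mul, ← Finset.sum_add_distrib]
  refine Finset.sum_le_sum fun i _ => ?_
  rw [Finset.sum_mul, ← Finset.sum_add_distrib]
  refine Finset.sum_le_sum fun j _ => ?_
  have h6 := (h4 i j).2
  have e2 : c i * c j * Real.log ‖∏' v, fac q A i j s v‖ =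
      c i * c j * e i j * Real.log (1 / (s - 1)) + c i * c j *
        (Real.log ‖∏' v, fac q A i j s v‖ - ((-(e i j) : ℤ) : ℝ) * Real.log (s - 1)) := by
    rw [one_div, Real.log_inv]
    push_cast
    ring
  rw [e2]
  have h7 : c i * c j * (Real.log ‖∏' v, fac q A i j s v‖ -
      ((-(e i j) : ℤ) : ℝ) * Real.log (s - 1)) ≤ |c i * c j| * C i j := by
    refine (le_abs_self _).trans ?_
    rw [abs_mul]
    exact mul_le_mul_of_nonneg_left h6 (abs_nonneg _)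
  linarith

/-- **The density bound.** -/
theorem density {q : P → ℕ} (hq : ∀ v, 1 < q v) {A : ∀ i, P → Fin (n i) → ℂ}
    (hA : ∀ i v a, ‖A i v a‖ ^ 2 < q v)
    (hm : ∀ i j (s : ℝ), 1 < s → Multipliable (fac q A i j s)) {e : ι → ι → ℤ}
    (hp : ∀ i j, ∃ Λ : ℂ → ℂ, MeromorphicAt Λ 1 ∧ meromorphicOrderAt Λ 1 = (-(e i j) : ℤ) ∧
      ∀ᶠ s in 𝓝 (1 : ℂ), (1 : ℝ) < s.re → Λ s = ∏' v, fac q A i j s v) (c : ι → ℝ)
    {B : Set P} {X : ℝ} (hX : 0 < X) (hB : ∀ v ∈ B, X ≤ ‖∑ i, (c i : ℂ) * ∑ a, A i v a‖) :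
    UD q B ((∑ i, ∑ j, c i * c j * e i j) / X ^ 2) := by
  intro ε hε
  obtain ⟨C, hC⟩ := form hq hA hm hp c
  have hbig := log_atTop.eventually (eventually_ge_atTop (C / (X ^ 2 * ε)))
  filter_upwards [hC, hbig] with s h1 h2
  have hnn : ∀ v, 0 ≤ B.indicator (fun v => (q v : ℝ) ^ (-s)) v := fun v =>
    Set.indicator_nonneg (fun v _ => by positivity) v
  have key : ∀ T : Finset P, ∑ v ∈ T, B.indicator (fun v => (q v : ℝ) ^ (-s)) v ≤
      ((∑ i, ∑ j, c i * c j * e i j) / X ^ 2 + ε) * Real.log (1 / (s - 1)) := by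
    intro T
    have h6 : ∑ v ∈ T, X ^ 2 * B.indicator (fun v => (q v : ℝ) ^ (-s)) v ≤
        ∑ v ∈ T, ‖∑ i, (c i : ℂ) * ∑ a, A i v a‖ ^ 2 * (q v : ℝ) ^ (-s) := by
      refine Finset.sum_le_sum fun v _ => ?_
      by_cases hv : v ∈ B
      · rw [Set.indicator_of_mem hv]
        have := hB v hv
        gcongr
      · rw [Set.indicator_of_notMem hv, mul_zero]
        positivity
    rw [← Finset.mul_sum] at h6
    have h7 := h6.trans (h1 T)
    rw [div_le_iff₀ (by positivity)] at h2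
    refine le_of_mul_le_mul_left ?_ (show 0 < X ^ 2 by positivity)
    have e1 : X ^ 2 * (((∑ i, ∑ j, c i * c j * e i j) / X ^ 2 + ε) * Real.log (1 / (s - 1))) =
        (∑ i, ∑ j, c i * c j * e i j) * Real.log (1 / (s - 1)) +
          Real.log (1 / (s - 1)) * (X ^ 2 * ε) := by
      field_simp
    rw [e1]
    linarith
  have hsum := summable_of_sum_le hnn key
  exact ⟨hsum, hsum.tsum_le_of_sum_le key⟩

end

end Pool.Agent.X289.RSD
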