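import Pool.Agent.TH553.ST.Joint
import Pool.Agent.TH553.ST.PW2
import Pool.Agent.TH553.ST.Ext

set_option autoImplicit false
set_option linter.unusedSectionVars false

/-!
# Joint equidistribution of two families, general form
-/

namespace Pool.Agent.X289

open Complex Filter Topology ComplexConjugate NumberField IsDedekindDomain MeasureTheory
  Pool.Agent.W540.BE Pool.Agent.TH553.RS Pool.Agent.H341R2 Pool.Agent.TH553.ST
open scoped Kronecker

section

variable {K : Type} [Field K] [NumberField K]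
variable {G : Type} [Group G] [TopologicalSpace G] [IsTopologicalGroup G] [CompactSpace G]
  [MeasurableSpace G] [BorelSpace G] {μ : Measure G} [IsProbabilityMeasure μ] [μ.IsHaarMeasure]
  {n : ℕ} {π : G →* Matrix.unitaryGroup (Fin n) ℂ}
variable {G' : Type} [Group G'] [TopologicalSpace G'] [IsTopologicalGroup G'] [CompactSpace G']
  [MeasurableSpace G'] [BorelSpace G'] {μ' : Measure G'} [IsProbabilityMeasure μ']
  [μ'.IsHaarMeasure] {n' : ℕ} {π' : G' →* Matrix.unitaryGroup (Fin n') ℂ}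
  {x : HeightOneSpectrum (𝓞 K) → G} {x' : HeightOneSpectrum (𝓞 K) → G'}

omit [IsTopologicalGroup G] [CompactSpace G] [MeasurableSpace G] [BorelSpace G] in
theorem her_pow {f : G → ℂ} (h : Her f) (k : ℕ) : Her fun g => f g ^ k := by
  induction k with
  | zero => simpa using Her.const (G := G) 1
  | succ k ih => simpa only [pow_succ] using ih.mul h

/-- powers in the case of equality -/
theorem edge_pow {P : Type*} {N : P → ℕ} (hN : Sys N) {U : Ultrafilter ℝ}
    (hU : (U : Filter ℝ) ≤ 𝓝[>] 0) {t c : P → ℂ} (ht : Bc t) (hc : Bc c) {r : ℝ} (hr : |r| = 1)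
    (h0 : (M N U fun p => ‖df r t c p‖ ^ 2) = 0) (k : ℕ) :
    (M N U fun p => (t p ^ k).re) = r ^ k * M N U fun p => (c p ^ k).re := by
  have hpow : ∀ {s : P → ℂ}, Bc s → ∀ k : ℕ, Bc fun p => s p ^ k := by
    rintro s ⟨C, hC⟩ k
    refine ⟨C ^ k, fun p => ?_⟩
    rw [norm_pow]
    exact pow_le_pow_left₀ (norm_nonneg _) (hC p) k
  set w : P → ℂ := fun p => (r : ℂ) * conj (c p) with hw
  have hwb : Bc w := by
    obtain ⟨C, hC⟩ := hc
    refine ⟨C, fun p => ?_⟩
    rw [hw]
    simp only [norm_mul, Complex.norm_real, Real.norm_eq_abs, hr, one_mul, Complex.norm_conj]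
    exact hC p
  have key : ∀ k : ℕ, ∃ C : ℝ, ∀ p, ‖t p ^ k - w p ^ k‖ ≤ C * ‖df r t c p‖ := by
    intro k
    induction k with
    | zero => exact ⟨0, fun p => by simp⟩
    | succ k ih =>
      obtain ⟨C, hC⟩ := ih
      obtain ⟨A, hA⟩ := ht
      obtain ⟨B, hB⟩ := hpow hwb k
      refine ⟨A * C + B, fun p => ?_⟩
      have e : t p ^ (k + 1) - w p ^ (k + 1) = t p * (t p ^ k - w p ^ k) + (t p - w p) * w p ^ k := by
        ring
      have hA0 : 0 ≤ A := (norm_nonneg _).trans (hA p)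
      rw [e]
      refine (norm_add_le _ _).trans ?_
      rw [norm_mul, norm_mul]
      have h1 : ‖t p‖ * ‖t p ^ k - w p ^ k‖ ≤ A * (C * ‖df r t c p‖) :=
        mul_le_mul (hA p) (hC p) (norm_nonneg _) hA0
      have h2 : ‖t p - w p‖ * ‖w p ^ k‖ ≤ ‖df r t c p‖ * B :=
        mul_le_mul_of_nonneg_left (hB p) (norm_nonneg _)
      calc _ ≤ A * (C * ‖df r t c p‖) + ‖df r t c p‖ * B := add_le_add h1 h2
        _ = _ := by ring
  obtain ⟨C, hC⟩ := key k
  have hb := Bc.df ht hc r
  have h1 := M_zero_of_sq hN hU hb.norm h0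
  have hd : Bd fun p => (t p ^ k).re - (w p ^ k).re := ((hpow ht k).re).sub ((hpow hwb k).re)
  have h2 : (M N U fun p => |(t p ^ k).re - (w p ^ k).re|) = 0 := by
    refine M_zero_of_le hN hU hd.abs (hb.norm.const_mul C) (fun p => abs_nonneg _) (fun p => ?_)
      (by rw [M_const_mul hN hU hb.norm, h1, mul_zero])
    rw [← Complex.sub_re]
    exact (Complex.abs_re_le_norm _).trans (hC p)
  have h4 : M N U (fun p => (t p ^ k).re - (w p ^ k).re) ≤ 0 := by
    rw [← h2]
    exact M_mono hN hU hd hd.abs fun p => le_abs_self _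
  have h5 : 0 ≤ M N U (fun p => (t p ^ k).re - (w p ^ k).re) := by
    have h6 := M_mono hN hU hd.neg hd.abs fun p => neg_le_abs _
    rw [h2, M_neg hN hU hd] at h6
    linarith
  rw [M_sub hN hU (hpow ht k).re (hpow hwb k).re] at h4 h5
  have e : (fun p => (w p ^ k).re) = fun p => r ^ k * (c p ^ k).re := by
    funext p
    rw [hw]
    simp only
    rw [mul_pow, ← map_pow, ← Complex.ofReal_pow, Complex.re_ofReal_mul, Complex.conj_re]
  rw [e, M_const_mul hN hU (hpow hc k).re] at h4 h5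
  linarith

/-- off the real point a coincidence forces the vanishing of the invariants of the tensor powers -/
theorem pair_pow (hx : Law x μ) (hx' : Law x' μ') (hc : Continuous π)
    (hc' : Continuous π') {τ : ℝ} (hτ : τ ≠ 0) {U : Ultrafilter ℝ}
    (hU : (U : Filter ℝ) ≤ 𝓝[>] 0) {r : ℝ} (hr : |r| = 1)
    (h0 : (M (nm K) U fun v => ‖df r (tc π x 0) (tc π' x' τ) v‖ ^ 2) = 0) {k : ℕ} (hk : 0 < k) :
    ∫ g, chi π g ^ k ∂μ = 0 := by
  have hN := sysF K
  have h1 := edge_pow hN hU (bc_tc (π := π) x 0) (bc_tc (π := π') x' τ) hr h0 k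
  have h2 : (M (nm K) U fun v => (tc π x 0 v ^ k).re) = (∫ g, chi π g ^ k ∂μ).re := by
    have := jl_of_law hU hx (fun g => chi π g ^ k) (her_pow (her_chi hc) k) 0
    rw [if_pos rfl] at this
    rw [← this]
    congr 1
    funext v
    unfold tc
    simp
  have h3 : (M (nm K) U fun v => (tc π' x' τ v ^ k).re) = 0 := by
    have := jl_of_law hU hx' (fun g => chi π' g ^ k) (her_pow (her_chi hc') k) (k * τ)
    rw [if_neg (by positivity)] at this
    rw [← this]
    congr 1
    funext v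
    unfold tc
    rw [mul_pow, ← Complex.cpow_nat_mul]
    congr 3
    push_cast
    ring
  rw [h2, h3, mul_zero] at h1
  rw [her_real (her_pow (her_chi hc) k), h1]
  simp

/-- averages from orders -/
theorem avg_of_order
    (hcont : ∀ τ : ℝ, ∃ Λ : ℂ → ℂ, MeromorphicAt Λ (1 + τ * I) ∧
      (∀ᶠ s in 𝓝 ((1 : ℂ) + τ * I), (1 : ℝ) < s.re → Λ s = LP π x π' x' s) ∧
      meromorphicOrderAt Λ (1 + τ * I) = ((0 : ℤ) : WithTop ℤ)) :
    Tendsto (mn fun v => chi π (x v) * chi π' (x' v)) atTop (𝓝 0) := by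
  obtain ⟨α, h1, h2, h3⟩ := exists_al π x π' x'
  have h4 := taub h1 (L := LP π x π' x') (fun s _ => by
    unfold LP
    exact tprod_congr fun v => by rw [h3]) (fun τ => by
    obtain ⟨Λ, h5, h6, h7⟩ := hcont τ
    obtain ⟨g, h10, h11, h12⟩ := (meromorphicOrderAt_eq_int_iff h5).1 h7
    refine ⟨g, h10, h11, ?_⟩
    rw [eventually_nhdsWithin_iff] at h12
    filter_upwards [h12, h6] with s h13 h14 h15
    have hne : s ≠ 1 + τ * I := by
      intro h
      rw [h] at h15
      simp at h15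
    have h16 := h13 hne
    rw [zpow_zero, one_smul] at h16
    rw [← h16, h14 h15])
  refine h4.congr fun N => ?_
  congr 1
  funext v
  exact h2 v

/-- products of characters -/
theorem joint_chi' (hx : Law x μ) (hx' : Law x' μ') (hc : Continuous π) (hs : Schur π)
    (hc' : Continuous π')
    (hd : (∃ g, π g ≠ 1) → (∃ g, π' g ≠ 1) →
      Tendsto (mn fun v => chi π (x v) * chi π' (x' v)) atTop (𝓝 0)) :
    Tendsto (mn fun v => chi π (x v) * chi π' (x' v)) atTop
      (𝓝 ((∫ g, chi π g ∂μ) * ∫ g, chi π' g ∂μ')) := by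
  by_cases h1 : ∃ g, π g ≠ 1
  · by_cases h2 : ∃ g, π' g ≠ 1
    · rw [int_chi hc hs h1, zero_mul]
      exact hd h1 h2
    · push Not at h2
      have h3 := (law_c hx (cont_chi hc) (fun g h => chi_cls π g h)).const_mul (n' : ℂ)
      have h4 : ∫ g, chi π' g ∂μ' = n' := by
        simp only [chi_triv h2]
        simp
      rw [h4, mul_comm]
      refine h3.congr fun N => ?_
      rw [← mn_mul]
      congr 1
      funext v
      rw [chi_triv h2, mul_comm]
  · push Not at h1
    have h3 := (law_c hx' (cont_chi hc') (fun g h => chi_cls π' g h)).const_mul (n : ℂ)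
    have h4 : ∫ g, chi π g ∂μ = n := by
      simp only [chi_triv h1]
      simp
    rw [h4]
    refine h3.congr fun N => ?_
    rw [← mn_mul]
    congr 1
    funext v
    rw [chi_triv h1]

/-- **Joint equidistribution.** -/
theorem joint' [SecondCountableTopology G] [SecondCountableTopology G'] [T2Space G] [T2Space G']
    (hx : Law x μ) (hx' : Law x' μ')
    (hd : ∀ (m m' : ℕ) (ρ : G →* Matrix.unitaryGroup (Fin m) ℂ)
      (ρ' : G' →* Matrix.unitaryGroup (Fin m') ℂ), Continuous ρ → Schur ρ → (∃ g, ρ g ≠ 1) →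
      Continuous ρ' → Schur ρ' → (∃ g, ρ' g ≠ 1) →
      Tendsto (mn fun v => chi ρ (x v) * chi ρ' (x' v)) atTop (𝓝 0))
    {f : G × G' → ℂ} (hf : Continuous f)
    (hcl : ∀ g g' k k', f (k * g * k⁻¹, k' * g' * k'⁻¹) = f (g, g')) :
    Tendsto (mn fun v => f (x v, x' v)) atTop (𝓝 (∫ p, f p ∂(μ.prod μ'))) := by
  refine mn_unif fun ε hε => ?_
  obtain ⟨k, m, m', ρ, ρ', a, h1, h2, h4⟩ := class_dense2 hf hcl hε
  refine ⟨fun v => ∑ i, a i * (chi (ρ i) (x v) * chi (ρ' i) (x' v)),
    ∑ i, a i * ((∫ g, chi (ρ i) g ∂μ) * ∫ g, chi (ρ' i) g ∂μ'), fun v => h4 _ _, ?_, ?_⟩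
  · have hci : ∀ i, Continuous fun p : G × G' => a i * (chi (ρ i) p.1 * chi (ρ' i) p.2) :=
      fun i => continuous_const.mul (((cont_chi (h1 i).1).comp continuous_fst).mul
        ((cont_chi (h2 i).1).comp continuous_snd))
    have hFc : Continuous fun p : G × G' => ∑ i, a i * (chi (ρ i) p.1 * chi (ρ' i) p.2) :=
      continuous_finsetSum _ fun i _ => hci i
    have hI : ∀ F : G × G' → ℂ, Continuous F → Integrable F (μ.prod μ') := fun F hF =>
      hF.integrable_of_hasCompactSupport (HasCompactSupport.of_compactSpace F)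
    have h5 : ∫ p, (∑ i, a i * (chi (ρ i) p.1 * chi (ρ' i) p.2)) ∂(μ.prod μ') =
        ∑ i, a i * ((∫ g, chi (ρ i) g ∂μ) * ∫ g, chi (ρ' i) g ∂μ') := by
      rw [integral_finsetSum _ fun i _ => hI _ (hci i)]
      refine Finset.sum_congr rfl fun i _ => ?_
      rw [integral_const_mul, integral_prod_mul]
    rw [← h5, ← integral_sub (hI _ hFc) (hI _ hf)]
    refine (norm_integral_le_integral_norm _).trans ?_
    have h6 : ∫ p, ‖(∑ i, a i * (chi (ρ i) p.1 * chi (ρ' i) p.2)) - f p‖ ∂(μ.prod μ') ≤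
        ∫ _, ε ∂(μ.prod μ') := by
      refine integral_mono (hI _ hFc |>.sub (hI _ hf)).norm (integrable_const _) fun p => ?_
      simp only
      rw [norm_sub_rev]
      exact h4 p.1 p.2
    simpa using h6
  · have h5 : Tendsto (fun N => ∑ i, a i * mn (fun v => chi (ρ i) (x v) * chi (ρ' i) (x' v)) N)
        atTop (𝓝 (∑ i, a i * ((∫ g, chi (ρ i) g ∂μ) * ∫ g, chi (ρ' i) g ∂μ'))) :=
      tendsto_finsetSum _ fun i _ => (joint_chi' hx hx' (h1 i).1 (h1 i).2 (h2 i).1
        (fun p q => hd _ _ _ _ (h1 i).1 (h1 i).2 p (h2 i).1 (h2 i).2 q)).const_mul _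
    refine h5.congr fun N => ?_
    rw [mn_sum]
    exact Finset.sum_congr rfl fun i _ => (mn_mul _ _ _).symm

end

end Pool.Agent.X289
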