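import Pool.Agent.X289.DenseM
import Pool.Agent.X289.Two

set_option autoImplicit false
set_option linter.unusedSectionVars false

/-!
# Several families, each pair of which is jointly equidistributed
-/

namespace Pool.Agent.X289.Several

open Complex Filter Topology ComplexConjugate NumberField IsDedekindDomain MeasureTheory
  Pool.Agent.W540.BE Pool.Agent.TH553.RS Pool.Agent.TH553.ST Pool.Agent.X289.DenseM

open Pool.Agent.H341R2 hiding chi

/-! ### the tensor product of several matrices -/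

section

variable {κ : Type} [Fintype κ] {n : κ → ℕ}

/-- the tensor product -/
def tens (A : ∀ a, Matrix (Fin (n a)) (Fin (n a)) ℂ) :
    Matrix (∀ a, Fin (n a)) (∀ a, Fin (n a)) ℂ :=
  Matrix.of fun i j => ∏ a, A a (i a) (j a)

variable [DecidableEq κ]

theorem tens_mul (A B : ∀ a, Matrix (Fin (n a)) (Fin (n a)) ℂ) :
    tens A * tens B = tens fun a => A a * B a := by
  ext i j
  simp only [tens, Matrix.mul_apply, Matrix.of_apply]
  rw [Fintype.prod_sum]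
  exact Finset.sum_congr rfl fun l _ => Finset.prod_mul_distrib.symm

theorem tens_star (A : ∀ a, Matrix (Fin (n a)) (Fin (n a)) ℂ) :
    star (tens A) = tens fun a => star (A a) := by
  ext i j
  simp only [tens, Matrix.star_apply, Matrix.of_apply]
  rw [star_prod]

theorem tens_one : (tens fun a => (1 : Matrix (Fin (n a)) (Fin (n a)) ℂ)) = 1 := by
  ext i j
  simp only [tens, Matrix.of_apply, Matrix.one_apply]
  by_cases h : i = j
  · subst h
    simp
  · rw [if_neg h]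
    obtain ⟨a, ha⟩ := Function.ne_iff.1 h
    exact Finset.prod_eq_zero (Finset.mem_univ a) (if_neg ha)

theorem tens_mem {A : ∀ a, Matrix (Fin (n a)) (Fin (n a)) ℂ}
    (h : ∀ a, A a ∈ Matrix.unitaryGroup (Fin (n a)) ℂ) :
    tens A ∈ Matrix.unitaryGroup (∀ a, Fin (n a)) ℂ := by
  rw [Matrix.mem_unitaryGroup_iff, tens_star, tens_mul]
  have : (fun a => A a * star (A a)) = fun a => (1 : Matrix (Fin (n a)) (Fin (n a)) ℂ) :=
    funext fun a => Matrix.mem_unitaryGroup_iff.1 (h a)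
  rw [this, tens_one]

theorem tens_trace (A : ∀ a, Matrix (Fin (n a)) (Fin (n a)) ℂ) :
    (tens A).trace = ∏ a, (A a).trace := by
  simp only [tens, Matrix.trace, Matrix.diag, Matrix.of_apply]
  rw [Fintype.prod_sum]

end

/-! ### the `L`-function -/

section

variable {K : Type} [Field K] [NumberField K]
  {κ : Type} [Fintype κ] [DecidableEq κ] {G : κ → Type} [∀ i, Group (G i)] {n : κ → ℕ}

/-- the `L`-function -/
noncomputable def LT (π : ∀ a, G a →* Matrix.unitaryGroup (Fin (n a)) ℂ)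
    (y : ∀ a, HeightOneSpectrum (𝓞 K) → G a) (s : ℂ) : ℂ :=
  ∏' v, (Matrix.det (1 - (((nm K v : ℕ) : ℂ) ^ (-s)) •
    tens fun a => (π a (y a v) : Matrix (Fin (n a)) (Fin (n a)) ℂ)))⁻¹

theorem exists_alT (π : ∀ a, G a →* Matrix.unitaryGroup (Fin (n a)) ℂ)
    (y : ∀ a, HeightOneSpectrum (𝓞 K) → G a) :
    ∃ α : HeightOneSpectrum (𝓞 K) → Fin (Fintype.card (∀ a, Fin (n a))) → ℂ,
      (∀ v j, ‖α v j‖ = 1) ∧ (∀ v, ∑ j, α v j = ∏ a, chi (π a) (y a v)) ∧
      ∀ v (c : ℂ), Matrix.det (1 - c •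
        tens fun a => (π a (y a v) : Matrix (Fin (n a)) (Fin (n a)) ℂ)) =
        ∏ j, (1 - α v j * c) := by
  have h : ∀ v, (tens fun a => (π a (y a v) : Matrix (Fin (n a)) (Fin (n a)) ℂ)) ∈
      Matrix.unitaryGroup (∀ a, Fin (n a)) ℂ := fun v => tens_mem fun a => (π a (y a v)).2
  choose α h1 h2 h3 using fun v => exists_eig (h v)
  refine ⟨α, h1, fun v => ?_, h3⟩
  rw [h2, tens_trace]
  rfl

theorem norm_pchi (π : ∀ a, G a →* Matrix.unitaryGroup (Fin (n a)) ℂ) (g : ∀ a, G a) :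
    ‖∏ a, chi (π a) (g a)‖ ≤ ∏ a, (n a : ℝ) := by
  rw [norm_prod]
  exact Finset.prod_le_prod (fun a _ => norm_nonneg _) fun a _ => norm_chi (π a) _

/-- size and correlation -/
theorem size_LT (π : ∀ a, G a →* Matrix.unitaryGroup (Fin (n a)) ℂ)
    (y : ∀ a, HeightOneSpectrum (𝓞 K) → G a) (τ : ℝ) :
    (∀ᶠ ε : ℝ in 𝓝[>] 0, LT π y (1 + τ * I + ε) ≠ 0) ∧
    Tendsto (fun ε : ℝ => qt (nm K) (fun v => ((∏ a, chi (π a) (y a v)) *
      ((nm K v : ℕ) : ℂ) ^ (-(τ * I : ℂ))).re) ε -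
      Real.log ‖LT π y (1 + τ * I + ε)‖ / Real.log (1 / ε)) (𝓝[>] 0) (𝓝 0) := by
  obtain ⟨α, h1, h2, h3⟩ := exists_alT π y
  set B : HeightOneSpectrum (𝓞 K) → Polynomial ℂ := fun v =>
    ∏ j, (1 - Polynomial.C (α v j) * Polynomial.X) with hB
  have hBe : ∀ v z, (B v).eval z = ∏ j, (1 - α v j * z) := by
    intro v z
    rw [hB]
    simp [Polynomial.eval_prod]
  exact size_unit (sysF K) α (Filter.Eventually.of_forall h1)
    (t := fun v => ∏ a, chi (π a) (y a v)) (C := ∏ a, (n a : ℝ))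
    (fun v => norm_pchi π _)
    (Filter.Eventually.of_forall h2) τ B (Filter.Eventually.of_forall hBe)
    (fun v => by
      rw [hBe, Finset.prod_ne_zero_iff]
      intro j _ h4
      have h5 : ‖α v j * ((nm K v : ℕ) : ℂ) ^ (-(1 + τ * I : ℂ))‖ = 1 := by
        have : α v j * ((nm K v : ℕ) : ℂ) ^ (-(1 + τ * I : ℂ)) = 1 := by linear_combination -h4
        rw [this, norm_one]
      rw [norm_mul, h1, one_mul] at h5
      have h6 := cpow_le_half normSys v (s := 1 + τ * I) (by simp)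
      linarith) (LT π y)
    (fun s _ => by
      unfold LT
      refine tprod_congr fun v => ?_
      rw [h3, hBe])

/-- averages from orders -/
theorem avg_of_orderT {π : ∀ a, G a →* Matrix.unitaryGroup (Fin (n a)) ℂ}
    {y : ∀ a, HeightOneSpectrum (𝓞 K) → G a}
    (hcont : ∀ τ : ℝ, ∃ Λ : ℂ → ℂ, MeromorphicAt Λ (1 + τ * I) ∧
      (∀ᶠ s in 𝓝 ((1 : ℂ) + τ * I), (1 : ℝ) < s.re → Λ s = LT π y s) ∧
      meromorphicOrderAt Λ (1 + τ * I) = ((0 : ℤ) : WithTop ℤ)) :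
    Tendsto (mn fun v => ∏ a, chi (π a) (y a v)) atTop (𝓝 0) := by
  obtain ⟨α, h1, h2, h3⟩ := exists_alT π y
  have h4 := taub h1 (L := LT π y) (fun s _ => by
    unfold LT
    exact tprod_congr fun v => by rw [h3]) (fun τ => by
    obtain ⟨Λ, h5, h6, h7⟩ := hcont τ
    obtain ⟨g, h10, h11, h12⟩ := (meromorphicOrderAt_eq_int_iff h5).1 h7
    refine ⟨g, h10, h11, ?_⟩
    rw [eventually_nhdsWithin_iff] at h12
    filter_upwards [h12, h6] with s h13 h14 h15
    have hne : s ≠ 1 + τ * I := by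
      intro h
      rw [h] at h15
      simp at h15
    have h16 := h13 hne
    rw [zpow_zero, one_smul] at h16
    rw [← h16, h14 h15])
  refine h4.congr fun N => ?_
  congr 1
  funext v
  exact h2 v

end

/-! ### the bound -/

section

variable {K : Type} [Field K] [NumberField K]

/-- the joint law of two families -/
def PLaw {G G' : Type} [Group G] [TopologicalSpace G] [MeasurableSpace G] [Group G']
    [TopologicalSpace G'] [MeasurableSpace G'] (x : HeightOneSpectrum (𝓞 K) → G)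
    (x' : HeightOneSpectrum (𝓞 K) → G') (μ : Measure G) (μ' : Measure G') : Prop :=
  ∀ (f : G → ℂ) (g : G' → ℂ), Continuous f → Continuous g →
    (∀ a b, f (b * a * b⁻¹) = f a) → (∀ a b, g (b * a * b⁻¹) = g a) →
    Tendsto (mn fun v => f (x v) * g (x' v)) atTop (𝓝 ((∫ a, f a ∂μ) * ∫ a, g a ∂μ'))

section

variable {G : Type} [Group G] [TopologicalSpace G] [IsTopologicalGroup G] [CompactSpace G]
  [MeasurableSpace G] [BorelSpace G] {μ : Measure G} [IsProbabilityMeasure μ] [μ.IsHaarMeasure]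
  {n : ℕ} {π : G →* Matrix.unitaryGroup (Fin n) ℂ}
variable {G' : Type} [Group G'] [TopologicalSpace G'] [IsTopologicalGroup G'] [CompactSpace G']
  [MeasurableSpace G'] [BorelSpace G'] {μ' : Measure G'} [IsProbabilityMeasure μ']
  [μ'.IsHaarMeasure]
  {x : HeightOneSpectrum (𝓞 K) → G} {x' : HeightOneSpectrum (𝓞 K) → G'}

theorem M_PLaw (h : PLaw x x' μ μ') {U : Ultrafilter ℝ} (hU : (U : Filter ℝ) ≤ 𝓝[>] 0)
    {f : G → ℝ} {g : G' → ℝ} (hf : Continuous f) (hg : Continuous g)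
    (hfc : ∀ a b, f (b * a * b⁻¹) = f a) (hgc : ∀ a b, g (b * a * b⁻¹) = g a) :
    (M (nm K) U fun v => f (x v) * g (x' v)) = (∫ a, f a ∂μ) * ∫ a, g a ∂μ' := by
  refine M_of_mn hU ((bd_cont hf x).mul (bd_cont hg x')) ?_
  have h1 := h (fun a => (f a : ℂ)) (fun a => (g a : ℂ)) (Complex.continuous_ofReal.comp hf)
    (Complex.continuous_ofReal.comp hg) (fun a b => by rw [hfc]) (fun a b => by rw [hgc])
  have e1 : ∫ g, (f g : ℂ) ∂μ = ((∫ g, f g ∂μ : ℝ) : ℂ) := integral_ofReal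
  have e2 : ∫ a, (g a : ℂ) ∂μ' = ((∫ a, g a ∂μ' : ℝ) : ℂ) := integral_ofReal
  rw [e1, e2, ← Complex.ofReal_mul] at h1
  have h2 := (Complex.continuous_re.tendsto _).comp h1
  rw [Complex.ofReal_re] at h2
  refine h2.congr fun N => ?_
  simp only [Function.comp]
  rw [re_mn]
  congr 1
  funext v
  rw [← Complex.ofReal_mul, Complex.ofReal_re]

/-- a representation whose character has a constant absolute value -/
theorem one_of_const (hc : Continuous π) (hs : Schur π) (hn : n ≠ 0)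
    (h : ∫ g, ((‖chi π g‖ ^ 2) ^ 2) ^ 2 ∂μ = (∫ g, (‖chi π g‖ ^ 2) ^ 2 ∂μ) ^ 2) : n = 1 := by
  set c : ℝ := ∫ g, (‖chi π g‖ ^ 2) ^ 2 ∂μ with hcdef
  have hw : Continuous fun g => (‖chi π g‖ ^ 2) ^ 2 := cont_sq hc 2
  have h1 : ∫ g, ((‖chi π g‖ ^ 2) ^ 2 - c) ^ 2 ∂μ = 0 := by
    have e : ∀ g, ((‖chi π g‖ ^ 2) ^ 2 - c) ^ 2 =
        (((‖chi π g‖ ^ 2) ^ 2) ^ 2 - 2 * c * (‖chi π g‖ ^ 2) ^ 2) + c ^ 2 := fun g => by ring
    simp only [e]
    have i0 : Integrable (fun g => ((‖chi π g‖ ^ 2) ^ 2) ^ 2) μ := intg (hw.pow 2)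
    have i1 : Integrable (fun g => 2 * c * (‖chi π g‖ ^ 2) ^ 2) μ := (intg hw).const_mul _
    have i2 : Integrable (fun g => ((‖chi π g‖ ^ 2) ^ 2) ^ 2 - 2 * c * (‖chi π g‖ ^ 2) ^ 2) μ :=
      i0.sub i1
    rw [integral_add i2 (integrable_const _), integral_sub i0 i1, integral_const_mul, h, ← hcdef]
    simp
    ring
  have hcont : Continuous fun g => ((‖chi π g‖ ^ 2) ^ 2 - c) ^ 2 := (hw.sub continuous_const).pow 2
  have h2 := (integral_eq_zero_iff_of_nonneg (μ := μ) (fun g => sq_nonneg _) (intg hcont)).1 h1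
  have h3 : (fun g => ((‖chi π g‖ ^ 2) ^ 2 - c) ^ 2) = fun _ => (0 : ℝ) :=
    (Continuous.ae_eq_iff_eq μ hcont continuous_const).1 h2
  have h4 : ∀ g, (‖chi π g‖ ^ 2) ^ 2 = c := by
    intro g
    have h5 := congrFun h3 g
    have h6 : (‖chi π g‖ ^ 2) ^ 2 - c = 0 := by
      rcases sq_eq_zero_iff.1 h5 with h
      exact h
    linarith
  have h5 : chi π 1 = n := by
    unfold chi
    rw [map_one]
    simp
  have h6 : ∀ g, ‖chi π g‖ ^ 2 = (n : ℝ) ^ 2 := by
    intro g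
    have h7 : (‖chi π g‖ ^ 2) ^ 2 = ((n : ℝ) ^ 2) ^ 2 := by
      rw [h4 g, ← h4 1, h5, Complex.norm_natCast]
    exact (pow_left_inj₀ (by positivity) (by positivity) two_ne_zero).1 h7
  have h7 := int_sq (μ := μ) hc hs hn
  simp only [h6] at h7
  have h8 : (n : ℝ) ^ 2 = 1 := by simpa using h7
  have h9 : (n : ℝ) = 1 := by
    have : (0 : ℝ) ≤ n := Nat.cast_nonneg n
    nlinarith
  exact_mod_cast h9

end

variable {k : ℕ} {G : Fin (k + 1) → Type} [∀ i, Group (G i)] [∀ i, TopologicalSpace (G i)]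
  [∀ i, IsTopologicalGroup (G i)] [∀ i, CompactSpace (G i)] [∀ i, MeasurableSpace (G i)]
  [∀ i, BorelSpace (G i)] {μ : ∀ i, Measure (G i)} [∀ i, IsProbabilityMeasure (μ i)]
  [∀ i, (μ i).IsHaarMeasure] {n : Fin (k + 1) → ℕ}
  {π : ∀ a, G a →* Matrix.unitaryGroup (Fin (n a)) ℂ}
  {y : ∀ a, HeightOneSpectrum (𝓞 K) → G a}

/-- the square of the absolute value of a character -/
noncomputable def us (π : ∀ a, G a →* Matrix.unitaryGroup (Fin (n a)) ℂ)
    (y : ∀ a, HeightOneSpectrum (𝓞 K) → G a) (a : Fin (k + 1)) (v : HeightOneSpectrum (𝓞 K)) : ℝ :=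
  ‖chi (π a) (y a v)‖ ^ 2

/-- the other factors -/
noncomputable def co (π : ∀ a, G a →* Matrix.unitaryGroup (Fin (n a)) ℂ)
    (y : ∀ a, HeightOneSpectrum (𝓞 K) → G a) (τ : ℝ) (a : Fin (k + 1))
    (v : HeightOneSpectrum (𝓞 K)) : ℂ :=
  (∏ b, chi (π (a.succAbove b)) (y (a.succAbove b) v)) * ((nm K v : ℕ) : ℂ) ^ (-(τ * I : ℂ))

theorem norm_co (τ : ℝ) (a : Fin (k + 1)) (v : HeightOneSpectrum (𝓞 K)) :
    ‖co π y τ a v‖ ^ 2 = ∏ b, us π y (a.succAbove b) v := by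
  unfold co us
  rw [norm_mul, norm_cpow_I (nm_pos v), mul_one, norm_prod, ← Finset.prod_pow]

theorem bc_co (τ : ℝ) (a : Fin (k + 1)) : Bc (co π y τ a) := by
  refine ⟨∏ b, (n (a.succAbove b) : ℝ), fun v => ?_⟩
  unfold co
  rw [norm_mul, norm_cpow_I (nm_pos v), mul_one, norm_prod]
  exact Finset.prod_le_prod (fun a _ => norm_nonneg _) fun a _ => norm_chi _ _

theorem bc_chi (a : Fin (k + 1)) : Bc fun v => chi (π a) (y a v) :=
  ⟨n a, fun v => norm_chi _ _⟩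

theorem bd_us (a : Fin (k + 1)) : Bd (us π y a) := (bc_chi a).norm.sq

theorem bd_usp (a : Fin (k + 1)) : Bd fun v => ∏ b, us π y (a.succAbove b) v := by
  have h := (bc_co (π := π) (y := y) 0 a).norm.sq
  have e : (fun v => ‖co π y 0 a v‖ ^ 2) = fun v => ∏ b, us π y (a.succAbove b) v :=
    funext fun v => norm_co 0 a v
  rwa [e] at h

theorem split (τ : ℝ) (a : Fin (k + 1)) (v : HeightOneSpectrum (𝓞 K)) :
    (∏ a, chi (π a) (y a v)) * ((nm K v : ℕ) : ℂ) ^ (-(τ * I : ℂ)) =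
      chi (π a) (y a v) * co π y τ a v := by
  rw [Fin.prod_univ_succAbove _ a]
  unfold co
  ring

/-- **The inequality.** -/
theorem le_one (hc : ∀ a, Continuous (π a)) (hs : ∀ a, Schur (π a))
    (hl : ∀ a, Law (y a) (μ a)) {U : Ultrafilter ℝ} (hU : (U : Filter ℝ) ≤ 𝓝[>] 0)
    (hM : ∀ a : Fin (k + 1), (M (nm K) U fun v => ∏ b, us π y (a.succAbove b) v) ≤ 1) (τ : ℝ) :
    (M (nm K) U fun v => ((∏ a, chi (π a) (y a v)) *
      ((nm K v : ℕ) : ℂ) ^ (-(τ * I : ℂ))).re) ^ 2 ≤ 1 := by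
  have h1 : (M (nm K) U fun v => ‖chi (π 0) (y 0 v)‖ ^ 2) ≤ 1 := by
    have := M_tc_sq (π := π 0) (hl 0) (hc 0) (hs 0) 0 hU
    simp only [norm_tc] at this
    exact this
  have h2 : (M (nm K) U fun v => ‖co π y τ 0 v‖ ^ 2) ≤ 1 := by
    simp only [norm_co]
    exact hM 0
  have h3 := edge_le (sysF K) hU (bc_chi 0) (bc_co τ 0) h1 h2
  simp only [split (π := π) (y := y) τ 0]
  exact h3

/-- the case of equality, first step -/
theorem eq_norm (hc : ∀ a, Continuous (π a)) (hs : ∀ a, Schur (π a))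
    (hl : ∀ a, Law (y a) (μ a)) {U : Ultrafilter ℝ} (hU : (U : Filter ℝ) ≤ 𝓝[>] 0)
    (hM : ∀ a : Fin (k + 1), (M (nm K) U fun v => ∏ b, us π y (a.succAbove b) v) ≤ 1) {τ : ℝ}
    (h : 1 ≤ (M (nm K) U fun v => ((∏ a, chi (π a) (y a v)) *
      ((nm K v : ℕ) : ℂ) ^ (-(τ * I : ℂ))).re) ^ 2) (a : Fin (k + 1)) :
    (M (nm K) U fun v => |us π y a v - ∏ b, us π y (a.succAbove b) v|) = 0 := by
  set r := M (nm K) U fun v => ((∏ a, chi (π a) (y a v)) *
      ((nm K v : ℕ) : ℂ) ^ (-(τ * I : ℂ))).re with hr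
  have h1 : (M (nm K) U fun v => ‖chi (π a) (y a v)‖ ^ 2) ≤ 1 := by
    have := M_tc_sq (π := π a) (hl a) (hc a) (hs a) 0 hU
    simp only [norm_tc] at this
    exact this
  have h2 : (M (nm K) U fun v => ‖co π y τ a v‖ ^ 2) ≤ 1 := by
    simp only [norm_co]
    exact hM a
  have h3 : (M (nm K) U fun v => (chi (π a) (y a v) * co π y τ a v).re) = r := by
    rw [hr]
    simp only [split (π := π) (y := y) τ a]
  have h4 := edge_eq (sysF K) hU (bc_chi a) (bc_co τ a) h1 h2 h3 h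
  have h5 := edge_le (sysF K) hU (bc_chi a) (bc_co τ a) h1 h2
  rw [h3] at h5
  have h6 : |r| = 1 := by
    have h7 : |r| ^ 2 = 1 := by rw [sq_abs]; exact le_antisymm h5 h
    exact (pow_eq_one_iff_of_nonneg (abs_nonneg _) two_ne_zero).1 h7
  have h7 := edge_norm (sysF K) hU (bc_chi a) (bc_co τ a) h6 h4
  simp only [norm_co] at h7
  exact h7

/-- the case of equality, second step -/
theorem eq_sq (hc : ∀ a, Continuous (π a)) (hs : ∀ a, Schur (π a))
    (hl : ∀ a, Law (y a) (μ a)) {U : Ultrafilter ℝ} (hU : (U : Filter ℝ) ≤ 𝓝[>] 0)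
    (hM : ∀ a : Fin (k + 1), (M (nm K) U fun v => ∏ b, us π y (a.succAbove b) v) ≤ 1) {τ : ℝ}
    (h : 1 ≤ (M (nm K) U fun v => ((∏ a, chi (π a) (y a v)) *
      ((nm K v : ℕ) : ℂ) ^ (-(τ * I : ℂ))).re) ^ 2) (a : Fin (k + 1)) :
    (M (nm K) U fun v => |us π y a v ^ 2 - ∏ b, us π y b v|) = 0 := by
  have h1 := eq_norm hc hs hl hU hM h a
  obtain ⟨C, hC⟩ := bd_us (π := π) (y := y) a
  have hb : Bd fun v => |us π y a v - ∏ b, us π y (a.succAbove b) v| :=
    ((bd_us a).sub (bd_usp a)).abs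
  have h2 : (M (nm K) U fun v => C * |us π y a v - ∏ b, us π y (a.succAbove b) v|) = 0 := by
    rw [M_const_mul (sysF K) hU hb, h1, mul_zero]
  have e : ∀ v, us π y a v ^ 2 - ∏ b, us π y b v =
      us π y a v * (us π y a v - ∏ b, us π y (a.succAbove b) v) := by
    intro v
    rw [Fin.prod_univ_succAbove (fun b => us π y b v) a]
    ring
  have hb2 : Bd fun v => |us π y a v ^ 2 - ∏ b, us π y b v| := by
    simp only [e]
    exact ((bd_us a).mul ((bd_us a).sub (bd_usp a))).abs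
  refine M_zero_of_le (sysF K) hU hb2 (hb.const_mul _) (fun v => abs_nonneg _) (fun v => ?_) h2
  rw [e, abs_mul]
  exact mul_le_mul_of_nonneg_right (hC v) (abs_nonneg _)

/-- **The case of equality.** -/
theorem all_one (hc : ∀ a, Continuous (π a)) (hs : ∀ a, Schur (π a)) (hn : ∀ a, n a ≠ 0)
    (hl : ∀ a, Law (y a) (μ a)) (hk : 1 ≤ k)
    (hp : ∀ a b, a ≠ b → PLaw (y a) (y b) (μ a) (μ b))
    {U : Ultrafilter ℝ} (hU : (U : Filter ℝ) ≤ 𝓝[>] 0)
    (hM : ∀ a : Fin (k + 1), (M (nm K) U fun v => ∏ b, us π y (a.succAbove b) v) ≤ 1) {τ : ℝ}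
    (h : 1 ≤ (M (nm K) U fun v => ((∏ a, chi (π a) (y a v)) *
      ((nm K v : ℕ) : ℂ) ^ (-(τ * I : ℂ))).re) ^ 2) (a : Fin (k + 1)) : n a = 1 := by
  obtain ⟨b, hab⟩ : ∃ b : Fin (k + 1), a ≠ b := by
    have : Nontrivial (Fin (k + 1)) := Fin.nontrivial_iff_two_le.2 (by omega)
    obtain ⟨b, hb⟩ := exists_ne a
    exact ⟨b, hb.symm⟩
  have hS := sysF K
  have ha := eq_sq hc hs hl hU hM h a
  have hb := eq_sq hc hs hl hU hM h b
  have hba : Bd fun v => us π y a v ^ 2 := (bd_us a).sq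
  have hbb : Bd fun v => us π y b v ^ 2 := (bd_us b).sq
  have hbp : Bd fun v => ∏ b, us π y b v := by
    have e : (fun v => ∏ b, us π y b v) = fun v =>
        us π y a v * ∏ b, us π y (a.succAbove b) v := by
      funext v
      rw [Fin.prod_univ_succAbove (fun b => us π y b v) a]
    rw [e]
    exact (bd_us a).mul (bd_usp a)
  have h1 : (M (nm K) U fun v => |us π y a v ^ 2 - us π y b v ^ 2|) = 0 := by
    refine M_zero_of_le hS hU (hba.sub hbb).abs ((hba.sub hbp).abs.add (hbb.sub hbp).abs)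
      (fun v => abs_nonneg _) (fun v => ?_) (by
        rw [M_add hS hU (hba.sub hbp).abs (hbb.sub hbp).abs, ha, hb, add_zero])
    have e : us π y a v ^ 2 - us π y b v ^ 2 =
        (us π y a v ^ 2 - ∏ b, us π y b v) - (us π y b v ^ 2 - ∏ b, us π y b v) := by ring
    rw [e]
    exact abs_sub _ _
  -- the means of the squares agree
  have hz : ∀ {φ : HeightOneSpectrum (𝓞 K) → ℝ}, Bd φ → (M (nm K) U fun v => |φ v|) = 0 →
      M (nm K) U φ = 0 := by
    intro φ hφ h0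
    have h2 := M_mono hS hU hφ hφ.abs fun v => le_abs_self (φ v)
    have h3 := M_mono hS hU hφ.neg hφ.abs fun v => neg_le_abs (φ v)
    rw [M_neg hS hU hφ] at h3
    rw [h0] at h2 h3
    linarith
  have h2 : (M (nm K) U fun v => us π y a v ^ 2) = M (nm K) U fun v => us π y b v ^ 2 := by
    have h3 := hz (hba.sub hbb) h1
    rw [M_sub hS hU hba hbb] at h3
    linarith
  have h3 : (M (nm K) U fun v => us π y a v ^ 2 * us π y b v ^ 2) =
      M (nm K) U fun v => (us π y a v ^ 2) ^ 2 := by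
    obtain ⟨C, hC⟩ := hba
    have hba : Bd fun v => us π y a v ^ 2 := ⟨C, hC⟩
    have h4 : (M (nm K) U fun v => C * |us π y a v ^ 2 - us π y b v ^ 2|) = 0 := by
      rw [M_const_mul hS hU (hba.sub hbb).abs, h1, mul_zero]
    have h5 : (M (nm K) U fun v => |us π y a v ^ 2 * us π y b v ^ 2 - (us π y a v ^ 2) ^ 2|) =
        0 := by
      refine M_zero_of_le hS hU ((hba.mul hbb).sub hba.sq).abs ((hba.sub hbb).abs.const_mul C)
        (fun v => abs_nonneg _) (fun v => ?_) h4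
      have e : us π y a v ^ 2 * us π y b v ^ 2 - (us π y a v ^ 2) ^ 2 =
          us π y a v ^ 2 * -(us π y a v ^ 2 - us π y b v ^ 2) := by ring
      rw [e, abs_mul, abs_neg]
      exact mul_le_mul_of_nonneg_right (hC v) (abs_nonneg _)
    have h6 := hz ((hba.mul hbb).sub hba.sq) h5
    rw [M_sub hS hU (hba.mul hbb) hba.sq] at h6
    linarith
  have e1 : (M (nm K) U fun v => us π y a v ^ 2) = ∫ g, (‖chi (π a) g‖ ^ 2) ^ 2 ∂(μ a) :=
    M_law (hl a) hU (f := fun g => (‖chi (π a) g‖ ^ 2) ^ 2) (cont_sq (hc a) 2)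
      fun g h => cls_sq 2 g h
  have e2 : (M (nm K) U fun v => us π y b v ^ 2) = ∫ g, (‖chi (π b) g‖ ^ 2) ^ 2 ∂(μ b) :=
    M_law (hl b) hU (f := fun g => (‖chi (π b) g‖ ^ 2) ^ 2) (cont_sq (hc b) 2)
      fun g h => cls_sq 2 g h
  have e3 : (M (nm K) U fun v => (us π y a v ^ 2) ^ 2) =
      ∫ g, ((‖chi (π a) g‖ ^ 2) ^ 2) ^ 2 ∂(μ a) :=
    M_law (hl a) hU (f := fun g => ((‖chi (π a) g‖ ^ 2) ^ 2) ^ 2) ((cont_sq (hc a) 2).pow 2)
      fun g h => by rw [chi_cls]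
  have e4 : (M (nm K) U fun v => us π y a v ^ 2 * us π y b v ^ 2) =
      (∫ g, (‖chi (π a) g‖ ^ 2) ^ 2 ∂(μ a)) * ∫ g, (‖chi (π b) g‖ ^ 2) ^ 2 ∂(μ b) :=
    M_PLaw (hp a b hab) hU (f := fun g => (‖chi (π a) g‖ ^ 2) ^ 2)
      (g := fun g => (‖chi (π b) g‖ ^ 2) ^ 2) (cont_sq (hc a) 2) (cont_sq (hc b) 2)
      (fun g h => cls_sq 2 g h) fun g h => cls_sq 2 g h
  refine one_of_const (μ := μ a) (hc a) (hs a) (hn a) ?_
  rw [← e3, ← h3, e4, ← e2, ← h2, e1]
  ring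

end

end Pool.Agent.X289.Several
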