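import Pool.Agent.X289.Several

set_option autoImplicit false
set_option linter.unusedSectionVars false

/-!
# Several families: the induction
-/

namespace Pool.Agent.X289.Several

open Complex Filter Topology ComplexConjugate NumberField IsDedekindDomain MeasureTheory
  Pool.Agent.W540.BE Pool.Agent.TH553.RS Pool.Agent.TH553.ST Pool.Agent.X289.DenseM

open Pool.Agent.H341R2 hiding chi

section

variable {K : Type} [Field K] [NumberField K]
  {κ : Type} [Fintype κ] {G : κ → Type} [∀ i, Group (G i)] [∀ i, TopologicalSpace (G i)]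
  [∀ i, IsTopologicalGroup (G i)] [∀ i, CompactSpace (G i)] [∀ i, MeasurableSpace (G i)]
  [∀ i, BorelSpace (G i)] {μ : ∀ i, Measure (G i)} [∀ i, IsProbabilityMeasure (μ i)]
  {y : ∀ a, HeightOneSpectrum (𝓞 K) → G a}

theorem joint_prod (h : Joint y μ) {f : ∀ a, G a → ℂ} (hf : ∀ a, Continuous (f a))
    (hcl : ∀ a g k, f a (k * g * k⁻¹) = f a g) :
    Tendsto (mn fun v => ∏ a, f a (y a v)) atTop (𝓝 (∏ a, ∫ g, f a g ∂(μ a))) := by
  have h1 := h (fun g => ∏ a, f a (g a))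
    (continuous_finsetProd _ fun a _ => (hf a).comp (continuous_apply a))
    (fun g k => Finset.prod_congr rfl fun a _ => hcl a _ _)
  rwa [integral_fintype_prod_eq_prod (f := f)] at h1

theorem bd_fprod {f : ∀ a, G a → ℝ} (hf : ∀ a, Continuous (f a)) :
    Bd fun v => ∏ a, f a (y a v) := by
  have hc : Continuous fun g : (∀ a, G a) => ∏ a, f a (g a) :=
    continuous_finsetProd _ fun a _ => (hf a).comp (continuous_apply a)
  obtain ⟨C, hC⟩ := (isCompact_univ (X := ∀ a, G a)).exists_bound_of_continuousOn hc.continuousOn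
  exact ⟨C, fun v => hC _ (Set.mem_univ _)⟩

theorem M_joint (h : Joint y μ) {U : Ultrafilter ℝ} (hU : (U : Filter ℝ) ≤ 𝓝[>] 0)
    {f : ∀ a, G a → ℝ} (hf : ∀ a, Continuous (f a))
    (hcl : ∀ a g k, f a (k * g * k⁻¹) = f a g) :
    (M (nm K) U fun v => ∏ a, f a (y a v)) = ∏ a, ∫ g, f a g ∂(μ a) := by
  refine M_of_mn hU (bd_fprod hf) ?_
  have h1 := joint_prod h (f := fun a g => (f a g : ℂ))
    (fun a => Complex.continuous_ofReal.comp (hf a)) (fun a g k => by simp only [hcl])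
  have e1 : ∀ a, ∫ g, (f a g : ℂ) ∂(μ a) = ((∫ g, f a g ∂(μ a) : ℝ) : ℂ) :=
    fun a => integral_ofReal
  simp only [e1] at h1
  rw [← Complex.ofReal_prod] at h1
  have h2 := (Complex.continuous_re.tendsto _).comp h1
  rw [Complex.ofReal_re] at h2
  refine h2.congr fun N => ?_
  simp only [Function.comp]
  rw [re_mn]
  congr 1
  funext v
  rw [← Complex.ofReal_prod, Complex.ofReal_re]

end

section

variable {K : Type} [Field K] [NumberField K] {ι : Type} {G : ι → Type} [∀ i, Group (G i)]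
  [∀ i, TopologicalSpace (G i)] [∀ i, IsTopologicalGroup (G i)] [∀ i, CompactSpace (G i)]
  [∀ i, MeasurableSpace (G i)] [∀ i, BorelSpace (G i)] {μ : ∀ i, Measure (G i)}
  [∀ i, IsProbabilityMeasure (μ i)] [∀ i, (μ i).IsHaarMeasure]
  {x : ∀ i, HeightOneSpectrum (𝓞 K) → G i}

/-- any `k` of the families are jointly equidistributed -/
def Wise (x : ∀ i, HeightOneSpectrum (𝓞 K) → G i) (μ : ∀ i, Measure (G i)) (k : ℕ) : Prop :=
  ∀ j : Fin k → ι, Function.Injective j → Joint (fun a => x (j a)) fun a => μ (j a)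

theorem mean_le {k : ℕ} (hw : Wise x μ k) {j : Fin (k + 1) → ι} (hj : Function.Injective j)
    {n : Fin (k + 1) → ℕ} {π : ∀ a, G (j a) →* Matrix.unitaryGroup (Fin (n a)) ℂ}
    (hc : ∀ a, Continuous (π a)) (hs : ∀ a, Schur (π a)) {U : Ultrafilter ℝ}
    (hU : (U : Filter ℝ) ≤ 𝓝[>] 0) (a : Fin (k + 1)) :
    (M (nm K) U fun v => ∏ b, us π (fun a => x (j a)) (a.succAbove b) v) ≤ 1 := by
  have h1 := M_joint (hw (fun b => j (a.succAbove b))
    (hj.comp (Fin.succAbove_right_injective (p := a)))) hU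
    (f := fun b g => ‖chi (π (a.succAbove b)) g‖ ^ 2) (fun b => (cont_chi (hc _)).norm.pow 2)
    (fun b g k => by rw [chi_cls])
  unfold us
  rw [h1]
  exact Finset.prod_le_one (fun b _ => integral_nonneg fun g => sq_nonneg _)
    fun b _ => int_sq_le (hc _) (hs _)

/-- the bound -/
theorem lt_one {k : ℕ} (hk : 1 ≤ k) (hl : ∀ i, Law (x i) (μ i))
    (hp : ∀ i i', i ≠ i' → PLaw (x i) (x i') (μ i) (μ i')) (hw : Wise x μ k)
    {j : Fin (k + 1) → ι} (hj : Function.Injective j)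
    {n : Fin (k + 1) → ℕ} {π : ∀ a, G (j a) →* Matrix.unitaryGroup (Fin (n a)) ℂ}
    (hc : ∀ a, Continuous (π a)) (hs : ∀ a, Schur (π a)) (hn : ∀ a, n a ≠ 0)
    (h1 : ¬ ∀ a, n a = 1) (τ : ℝ) {U : Ultrafilter ℝ} (hU : (U : Filter ℝ) ≤ 𝓝[>] 0) :
    |M (nm K) U fun v => ((∏ a, chi (π a) (x (j a) v)) *
      ((nm K v : ℕ) : ℂ) ^ (-(τ * I : ℂ))).re| < 1 := by
  by_contra hcon
  push Not at hcon
  refine h1 fun a => all_one (y := fun a => x (j a)) (μ := fun a => μ (j a)) hc hs hn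
    (fun a => hl (j a)) hk (fun a b hab => hp _ _ (hj.ne hab)) hU (mean_le hw hj hc hs hU)
    (τ := τ) ?_ a
  rw [← sq_abs]
  exact one_le_pow₀ hcon

/-- the order is the negative of the mean -/
theorem order_mean {k : ℕ} {G : Fin k → Type} [∀ i, Group (G i)] {n : Fin k → ℕ}
    {π : ∀ a, G a →* Matrix.unitaryGroup (Fin (n a)) ℂ}
    {y : ∀ a, HeightOneSpectrum (𝓞 K) → G a} {τ : ℝ} {m : ℝ} {U : Ultrafilter ℝ}
    (hU : (U : Filter ℝ) ≤ 𝓝[>] 0)
    (h : Tendsto (fun ε : ℝ => Real.log ‖LT π y (1 + τ * I + ε)‖ / Real.log (1 / ε)) U (𝓝 m)) :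
    (M (nm K) U fun v => ((∏ a, chi (π a) (y a v)) *
      ((nm K v : ℕ) : ℂ) ^ (-(τ * I : ℂ))).re) = m := by
  have hb : Bd fun v => ((∏ a, chi (π a) (y a v)) *
      ((nm K v : ℕ) : ℂ) ^ (-(τ * I : ℂ))).re := by
    refine ⟨∏ a, (n a : ℝ), fun v => (Complex.abs_re_le_norm _).trans ?_⟩
    rw [norm_mul, norm_cpow_I (nm_pos v), mul_one]
    exact norm_pchi π _
  have h1 := M_lim (sysF K) hU hb
  have h2 := ((size_LT π y τ).2.mono_left hU).add h
  rw [zero_add] at h2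
  refine tendsto_nhds_unique h1 (h2.congr fun ε => by ring)

theorem size_lim {k : ℕ} {G : Fin k → Type} [∀ i, Group (G i)] {n : Fin k → ℕ}
    (π : ∀ a, G a →* Matrix.unitaryGroup (Fin (n a)) ℂ)
    (y : ∀ a, HeightOneSpectrum (𝓞 K) → G a) (τ : ℝ) {U : Ultrafilter ℝ}
    (hU : (U : Filter ℝ) ≤ 𝓝[>] 0) :
    Tendsto (fun ε : ℝ => Real.log ‖LT π y (1 + τ * I + ε)‖ / Real.log (1 / ε)) U
      (𝓝 (M (nm K) U fun v => ((∏ a, chi (π a) (y a v)) *
      ((nm K v : ℕ) : ℂ) ^ (-(τ * I : ℂ))).re)) := by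
  have hb : Bd fun v => ((∏ a, chi (π a) (y a v)) *
      ((nm K v : ℕ) : ℂ) ^ (-(τ * I : ℂ))).re := by
    refine ⟨∏ a, (n a : ℝ), fun v => (Complex.abs_re_le_norm _).trans ?_⟩
    rw [norm_mul, norm_cpow_I (nm_pos v), mul_one]
    exact norm_pchi π _
  have h1 := M_lim (sysF K) hU hb
  have h2 := h1.sub ((size_LT π y τ).2.mono_left hU)
  rw [sub_zero] at h2
  exact h2.congr fun ε => by ring

theorem order_zero {k : ℕ} (hk : 1 ≤ k) (hl : ∀ i, Law (x i) (μ i))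
    (hp : ∀ i i', i ≠ i' → PLaw (x i) (x i') (μ i) (μ i')) (hw : Wise x μ k)
    {j : Fin (k + 1) → ι} (hj : Function.Injective j)
    {n : Fin (k + 1) → ℕ} {π : ∀ a, G (j a) →* Matrix.unitaryGroup (Fin (n a)) ℂ}
    (hc : ∀ a, Continuous (π a)) (hs : ∀ a, Schur (π a)) (hn : ∀ a, n a ≠ 0)
    (h1 : ¬ ∀ a, n a = 1) {τ : ℝ} {Λ : ℂ → ℂ} (h2 : MeromorphicAt Λ (1 + τ * I))
    (h3 : ∀ᶠ s in 𝓝 ((1 : ℂ) + τ * I), (1 : ℝ) < s.re → Λ s = LT π (fun a => x (j a)) s) :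
    meromorphicOrderAt Λ (1 + τ * I) = ((0 : ℤ) : WithTop ℤ) := by
  obtain ⟨m, h4, h5⟩ := order_unit (size_LT π (fun a => x (j a)) τ).1 h2 h3
  obtain ⟨U, hU⟩ := Ultrafilter.exists_le (𝓝[>] (0 : ℝ))
  have h6 := order_mean hU (h5.mono_left hU)
  have h7 := lt_one hk hl hp hw hj hc hs hn h1 τ hU
  rw [h6, abs_neg] at h7
  have h8 : |m| < 1 := by exact_mod_cast h7
  rw [h4, Int.abs_lt_one_iff.1 h8]

variable [∀ i, T2Space (G i)] [∀ i, SecondCountableTopology (G i)]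

/-- the induction step -/
theorem step {k : ℕ} (hk : 1 ≤ k) (hl : ∀ i, Law (x i) (μ i))
    (hp : ∀ i i', i ≠ i' → PLaw (x i) (x i') (μ i) (μ i')) (hw : Wise x μ k)
    (hL : ∀ (j : Fin (k + 1) → ι), Function.Injective j → ∀ (n : Fin (k + 1) → ℕ)
      (π : ∀ a, G (j a) →* Matrix.unitaryGroup (Fin (n a)) ℂ), (∀ a, Continuous (π a)) →
      (∀ a, Schur (π a)) → (∀ a, ∃ g, π a g ≠ 1) → ∀ τ : ℝ,
      ∃ Λ : ℂ → ℂ, MeromorphicAt Λ (1 + τ * I) ∧
        (∀ᶠ s in 𝓝 ((1 : ℂ) + τ * I), (1 : ℝ) < s.re → Λ s = LT π (fun a => x (j a)) s) ∧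
        ((∀ a, n a = 1) → meromorphicOrderAt Λ (1 + τ * I) = 0)) :
    Wise x μ (k + 1) := by
  intro j hj
  refine weylM fun n π hc hs => ?_
  by_cases h : ∀ a, ∃ g, π a g ≠ 1
  · have h0 : ∏ a, ∫ g, chi (π a) g ∂(μ (j a)) = 0 :=
      Finset.prod_eq_zero (Finset.mem_univ 0) (int_chi (hc 0) (hs 0) (h 0))
    rw [h0]
    have hn : ∀ a, n a ≠ 0 := by
      intro a ha
      obtain ⟨g, hg⟩ := h a
      apply hg
      apply Subtype.ext
      ext i
      exact absurd i.2 (by omega)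
    refine avg_of_orderT fun τ => ?_
    obtain ⟨Λ, h2, h3, h4⟩ := hL j hj n π hc hs h τ
    refine ⟨Λ, h2, h3, ?_⟩
    by_cases h1 : ∀ a, n a = 1
    · exact h4 h1
    · exact order_zero hk hl hp hw hj hc hs hn h1 h2 h3
  · push Not at h
    obtain ⟨a, ha⟩ := h
    have h1 := (joint_prod (hw (fun b => j (a.succAbove b))
      (hj.comp (Fin.succAbove_right_injective (p := a))))
      (f := fun b => chi (π (a.succAbove b))) (fun b => cont_chi (hc _))
      (fun b g k => chi_cls _ g k)).const_mul ((n a : ℕ) : ℂ)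
    have h2 : ∏ a, ∫ g, chi (π a) g ∂(μ (j a)) =
        (n a : ℂ) * ∏ b, ∫ g, chi (π (a.succAbove b)) g ∂(μ (j (a.succAbove b))) := by
      rw [Fin.prod_univ_succAbove _ a]
      congr 1
      simp only [chi_triv ha]
      simp
    rw [h2]
    refine h1.congr fun N => ?_
    rw [← mn_mul]
    congr 1
    funext v
    rw [Fin.prod_univ_succAbove (fun a => chi (π a) (x (j a) v)) a, chi_triv ha]

/-- **All families.** -/
theorem all_wise (hl : ∀ i, Law (x i) (μ i))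
    (hp : ∀ i i', i ≠ i' → PLaw (x i) (x i') (μ i) (μ i')) (hw : Wise x μ 2)
    (hL : ∀ k : ℕ, 2 ≤ k → ∀ (j : Fin (k + 1) → ι), Function.Injective j →
      ∀ (n : Fin (k + 1) → ℕ)
      (π : ∀ a, G (j a) →* Matrix.unitaryGroup (Fin (n a)) ℂ), (∀ a, Continuous (π a)) →
      (∀ a, Schur (π a)) → (∀ a, ∃ g, π a g ≠ 1) → ∀ τ : ℝ,
      ∃ Λ : ℂ → ℂ, MeromorphicAt Λ (1 + τ * I) ∧
        (∀ᶠ s in 𝓝 ((1 : ℂ) + τ * I), (1 : ℝ) < s.re → Λ s = LT π (fun a => x (j a)) s) ∧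
        ((∀ a, n a = 1) → meromorphicOrderAt Λ (1 + τ * I) = 0)) (k : ℕ) (hk : 2 ≤ k) :
    Wise x μ k := by
  induction k, hk using Nat.le_induction with
  | base => exact hw
  | succ k hk ih => exact step (by omega) hl hp ih (hL k hk)

end

end Pool.Agent.X289.Several
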