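import Pool.Agent.TH553.ST.Taub3
import Pool.Agent.TH553.ST.Law

set_option autoImplicit false
set_option linter.unusedSectionVars false

/-!
# Averages of real coefficients with a pole
-/

namespace Pool.Agent.X289.TaubR

open Complex Filter Topology ComplexConjugate NumberField IsDedekindDomain
  Pool.Agent.W540.BE Pool.Agent.TH553.RS Pool.Agent.TH553.ST H332.PIT

section

variable {K : Type} [Field K] [NumberField K]

/-- the real weighted mean value -/
theorem sum_re {t : HeightOneSpectrum (𝓞 K) → ℝ} {B c : ℝ} (hB0 : 0 ≤ B)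
    (ht : ∀ v, |t v| ≤ B)
    (hbd : ∀ s : ℂ, 1 ≤ s.re → ∃ y, Tendsto (fun z => S (fun v => (t v : ℂ)) z - c / (z - 1))
      (𝓝[{s : ℂ | 1 < s.re}] s) (𝓝 y)) :
    Tendsto (fun x : ℝ => (∑ k ∈ Finset.Icc 1 ⌊x⌋₊, (B * LamK K k +
      wt 1 (fun v => (t v : ℂ)) k)) / x) atTop (𝓝 (B + c)) := by
  have ht' : ∀ v, ‖((t v : ℝ) : ℂ)‖ ≤ B := fun v => by rw [Complex.norm_real]; exact ht v
  set f : ℂ → ℂ := fun s => B * (LL K s - 1 / (s - 1)) +
    (S (fun v => (t v : ℂ)) s - c / (s - 1)) with hf
  have hbd' : ∀ s : ℂ, 1 ≤ s.re → ∃ y, Tendsto f (𝓝[{s : ℂ | 1 < s.re}] s) (𝓝 y) := by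
    intro s hs
    obtain ⟨y0, h0⟩ := boundary (K := K) (Pool.Agent.H484R2.continuation K) hs
    obtain ⟨y1, h1⟩ := hbd s hs
    exact ⟨_, (h0.const_mul _).add h1⟩
  have hLam : ∀ n, 0 ≤ LamK K n := LamK_nonneg
  refine Pool.Agent.Helper923.PNT.wiener_ikehara
    (fun k => B * LamK K k + wt 1 (fun v => (t v : ℂ)) k) ?_
    (2 * B * ((Module.finrank ℚ K : ℝ) ^ 2 * (Real.log 4 + 4))) (B + c) ?_
    (extendFrom {s : ℂ | 1 < s.re} f) ?_ ?_
  · intro n
    have := (abs_le.1 (wt_le (ζ := 1) (by simp) hB0 ht' n)).1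
    linarith
  · intro n
    have h1 : ∑ k ∈ Finset.Icc 1 n, (B * LamK K k + wt 1 (fun v => (t v : ℂ)) k) ≤
        ∑ k ∈ Finset.Icc 1 n, (2 * B) * LamK K k := by
      refine Finset.sum_le_sum fun k _ => ?_
      have := (abs_le.1 (wt_le (ζ := 1) (by simp) hB0 ht' k)).2
      linarith
    have h2 : ∑ k ∈ Finset.Icc 1 n, LamK K k ≤
        (Module.finrank ℚ K : ℝ) ^ 2 * Chebyshev.psi n := by
      unfold Chebyshev.psi
      rw [Nat.floor_natCast, Finset.mul_sum]
      exact Finset.sum_le_sum fun k _ => LamK_le k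
    have h3 : (Module.finrank ℚ K : ℝ) ^ 2 * Chebyshev.psi n ≤
        (Module.finrank ℚ K : ℝ) ^ 2 * ((Real.log 4 + 4) * n) :=
      mul_le_mul_of_nonneg_left (Chebyshev.psi_le_const_mul_self (Nat.cast_nonneg n))
        (by positivity)
    rw [← Finset.mul_sum] at h1
    refine h1.trans ?_
    calc 2 * B * ∑ k ∈ Finset.Icc 1 n, LamK K k ≤
          2 * B * ((Module.finrank ℚ K : ℝ) ^ 2 * ((Real.log 4 + 4) * n)) :=
          mul_le_mul_of_nonneg_left (h2.trans h3) (by positivity)
      _ = _ := by ring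
  · refine continuousOn_extendFrom ?_ fun s hs => hbd' s hs
    intro s hs
    rw [Metric.mem_closure_iff]
    intro ε hε
    refine ⟨s + ((ε / 2 : ℝ) : ℂ), ?_, ?_⟩
    · have : (1 : ℝ) ≤ s.re := hs
      simp only [Set.mem_ofPred_eq, Complex.add_re, Complex.ofReal_re]
      linarith
    · rw [dist_eq_norm, sub_add_cancel_left, norm_neg, Complex.norm_real, Real.norm_eq_abs,
        abs_of_pos (by linarith)]
      linarith
  · intro s hs
    have h1 : ContinuousOn f {s : ℂ | 1 < s.re} := by
      intro z hz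
      have hz' : 1 < z.re := hz
      have hz1 : z - 1 ≠ 0 := by
        intro h1
        have : z = 1 := sub_eq_zero.mp h1
        rw [this] at hz'
        simp at hz'
      refine ContinuousAt.continuousWithinAt ?_
      exact (continuousAt_const.mul ((LL_analyticAt hz).continuousAt.sub
        (continuousAt_const.div (continuous_id.sub continuous_const).continuousAt hz1))).add
        ((an_S ht' hz').continuousAt.sub
          (continuousAt_const.div (continuous_id.sub continuous_const).continuousAt hz1))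
    rw [extendFrom_extends h1 s hs, hf]
    have hreal : ∀ n, ((wt 1 (fun v => (t v : ℂ)) n : ℝ) : ℂ) = lc (fun v => (t v : ℂ)) n := by
      intro n
      unfold wt
      rw [one_mul, lc_eq]
      have h3 : nf (fun v => (t v : ℂ)) n =
          ((∑ v ∈ (fiber_finite (F := K) n).toFinset, t v : ℝ) : ℂ) := by
        unfold nf
        push_cast
        rfl
      rw [h3, ← Complex.ofReal_mul, Complex.ofReal_re]
    have h2 : LSeries (fun n => ((B * LamK K n + wt 1 (fun v => (t v : ℂ)) n : ℝ) : ℂ)) s =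
        B * LL K s + S (fun v => (t v : ℂ)) s := by
      have e1 : (fun n : ℕ => ((B * LamK K n + wt 1 (fun v => (t v : ℂ)) n : ℝ) : ℂ)) =
          (B : ℂ) • (fun n : ℕ => (LamK K n : ℂ)) + lc (fun v => (t v : ℂ)) := by
        funext n
        simp only [Pi.add_apply, Pi.smul_apply, smul_eq_mul]
        rw [Complex.ofReal_add, hreal, Complex.ofReal_mul]
      have a0 : LSeriesSummable ((B : ℂ) • (fun n : ℕ => (LamK K n : ℂ))) s :=
        (LamK_summable (K := K) hs).smul _
      rw [e1, LSeries_add a0 (summ_lc ht' hs), LSeries_smul]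
      rfl
    rw [h2]
    simp only
    push_cast
    ring

/-- **The averages of real coefficients whose series has a pole at one.** -/
theorem mn_of_pole {t : HeightOneSpectrum (𝓞 K) → ℝ} {B c : ℝ} (hB0 : 0 ≤ B)
    (ht : ∀ v, |t v| ≤ B)
    (hbd : ∀ s : ℂ, 1 ≤ s.re → ∃ y, Tendsto (fun z => S (fun v => (t v : ℂ)) z - c / (z - 1))
      (𝓝[{s : ℂ | 1 < s.re}] s) (𝓝 y)) :
    Tendsto (mn t) atTop (𝓝 c) := by
  set T : ℕ → ℝ := fun N => ∑ k ∈ Finset.Icc 1 N, wt 1 (fun v => (t v : ℂ)) k with hT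
  have hT0 : Tendsto (fun N : ℕ => T N / (N : ℝ)) atTop (𝓝 c) := by
    have h1 := (sum_re (K := K) hB0 ht hbd).comp (tendsto_natCast_atTop_atTop (R := ℝ))
    have h2 := ((sum_LamK (K := K) (Pool.Agent.H484R2.continuation K)).comp
      (tendsto_natCast_atTop_atTop (R := ℝ))).const_mul B
    have h3 := h1.sub h2
    have e : B + c - B * 1 = c := by ring
    rw [e] at h3
    refine h3.congr fun N => ?_
    simp only [Function.comp, Nat.floor_natCast, hT]
    rw [Finset.sum_add_distrib, ← Finset.mul_sum]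
    ring
  have hTv : ∀ N, T N = ∑ v ∈ upto K N, Real.log (nm K v) * t v := by
    intro N
    have h1 : ((T N : ℝ) : ℂ) = ((∑ v ∈ upto K N, Real.log (nm K v) * t v : ℝ) : ℂ) := by
      push_cast
      rw [← sum_nf (fun v => (Complex.log (nm K v) : ℂ) * (t v : ℂ)) N, hT]
      push_cast
      refine Finset.sum_congr rfl fun k _ => ?_
      unfold wt
      rw [one_mul, lc_eq]
      have h3 : nf (fun v => (t v : ℂ)) k =
          ((∑ v ∈ (fiber_finite (F := K) k).toFinset, t v : ℝ) : ℂ) := by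
        unfold nf
        push_cast
        rfl
      rw [h3, ← Complex.ofReal_mul, Complex.ofReal_re]
      unfold nf
      push_cast
      rw [Finset.mul_sum]
      refine Finset.sum_congr rfl fun v hv => ?_
      rw [Set.Finite.mem_toFinset, Set.mem_ofPred_eq] at hv
      rw [← hv]
    exact_mod_cast h1
  set A : ℕ → ℝ := fun N => ∑ v ∈ upto K N, t v with hA
  have hdiff : ∀ N : ℕ, |A N * Real.log N - T N| ≤
      B * (((upto K N).card : ℝ) * Real.log N - WK K N) := by
    intro N
    have e1 : A N * Real.log N - T N =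
        ∑ v ∈ upto K N, (Real.log N - Real.log (nm K v)) * t v := by
      rw [hTv, hA]
      simp only
      rw [Finset.sum_mul, ← Finset.sum_sub_distrib]
      exact Finset.sum_congr rfl fun v _ => by ring
    have e2 : ((upto K N).card : ℝ) * Real.log N - WK K N =
        ∑ v ∈ upto K N, (Real.log N - Real.log (nm K v)) := by
      rw [Finset.sum_sub_distrib, Finset.sum_const, nsmul_eq_mul]
      rfl
    rw [e1, e2, Finset.mul_sum]
    refine (Finset.abs_sum_le_sum_abs _ _).trans (Finset.sum_le_sum fun v hv => ?_)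
    rw [abs_mul, abs_of_nonneg (log_le_log hv), mul_comm]
    exact mul_le_mul_of_nonneg_right (ht v) (log_le_log hv)
  have h0 : Tendsto (fun N : ℕ => B * ((((upto K N).card : ℝ) * Real.log N - WK K N) / N)) atTop
      (𝓝 0) := by
    have := (WK_tendsto (K := K)).const_mul B
    simpa using this
  have h1 : Tendsto (fun N : ℕ => A N * Real.log N / N - T N / N) atTop (𝓝 0) := by
    refine squeeze_zero_norm (fun N => ?_) h0
    rw [← sub_div, norm_div, ← mul_div_assoc, Real.norm_eq_abs, Real.norm_of_nonneg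
      (Nat.cast_nonneg N)]
    exact div_le_div_of_nonneg_right (hdiff N) (Nat.cast_nonneg _)
  have h2 : Tendsto (fun N : ℕ => A N * Real.log N / N) atTop (𝓝 c) := by
    have := h1.add hT0
    rw [zero_add] at this
    exact this.congr fun N => by ring
  have h3 := h2.div (card_log (K := K)) one_ne_zero
  rw [div_one] at h3
  refine h3.congr' ?_
  filter_upwards [eventually_ge_atTop 2, card_ev (K := K)] with N hN hc
  have hl : Real.log N ≠ 0 := (Real.log_pos (by exact_mod_cast hN)).ne'
  have hN0 : (N : ℝ) ≠ 0 := by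
    have : N ≠ 0 := by omega
    exact_mod_cast this
  simp only [Pi.div_apply]
  unfold mn
  rw [smul_eq_mul]
  field_simp
  rfl

variable {b : ℕ} {α : HeightOneSpectrum (𝓞 K) → Fin b → ℂ} (hα : ∀ v j, ‖α v j‖ = 1)

include hα

/-- **The averages from the orders of the continuations.** -/
theorem mn_of_orders {t : HeightOneSpectrum (𝓞 K) → ℝ} (ht : ∀ v, ∑ j, α v j = (t v : ℂ))
    {L : ℂ → ℂ} (hL : ∀ s : ℂ, 1 < s.re →
      L s = ∏' v, (∏ j, (1 - α v j * ((nm K v : ℕ) : ℂ) ^ (-s)))⁻¹) {c : ℤ}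
    (hc : ∀ τ : ℝ, ∃ Λ : ℂ → ℂ, MeromorphicAt Λ (1 + τ * I) ∧
      (∀ᶠ s in 𝓝 ((1 : ℂ) + τ * I), (1 : ℝ) < s.re → Λ s = L s) ∧
      meromorphicOrderAt Λ (1 + τ * I) = ((if τ = 0 then -c else 0 : ℤ) : WithTop ℤ)) :
    Tendsto (mn t) atTop (𝓝 (c : ℝ)) := by
  have htB : ∀ v, |t v| ≤ (b : ℝ) := by
    intro v
    have h1 := sum_le hα v
    rw [ht, Complex.norm_real] at h1
    exact h1
  have hS : ∀ z : ℂ, 1 < z.re → S (fun v => (t v : ℂ)) z = deriv (Rt α) z - deriv L z / L z := by
    intro z hz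
    have h1 := (S_eq hα hL hz).2
    have h2 : (fun v => ∑ j, α v j) = fun v => (t v : ℂ) := funext ht
    rw [h2] at h1
    exact h1
  refine mn_of_pole (Nat.cast_nonneg b) htB fun s hs => ?_
  have ht' : ∀ v, ‖((t v : ℝ) : ℂ)‖ ≤ b := fun v => by rw [Complex.norm_real]; exact htB v
  rcases hs.eq_or_lt with h | h
  · have hs' : s = 1 + (s.im : ℝ) * I := by
      apply Complex.ext <;> simp [← h]
    obtain ⟨Λ, h1, h2, h3⟩ := hc s.im
    rw [hs']
    set s0 : ℂ := 1 + (s.im : ℝ) * I with hs0
    obtain ⟨g, hg1, hg2, hg3⟩ := (meromorphicOrderAt_eq_int_iff h1).1 h3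
    have hmem : s0 ∈ Hp := by
      have : (3 / 4 : ℝ) < s0.re := by rw [hs0]; norm_num
      exact this
    have hR : AnalyticAt ℂ (Rt α) s0 := (diff_Rt hα).analyticAt (isOpen_Hp.mem_nhds hmem)
    rw [eventually_nhdsWithin_iff] at hg3
    -- the logarithmic derivative
    have key : ∀ᶠ z in 𝓝[{s : ℂ | 1 < s.re}] s0, S (fun v => (t v : ℂ)) z =
        deriv (Rt α) z - deriv g z / g z - (if s.im = 0 then -c else 0 : ℤ) / (z - s0) := by
      filter_upwards [h2.eventually_nhds.filter_mono nhdsWithin_le_nhds,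
        hg3.eventually_nhds.filter_mono nhdsWithin_le_nhds,
        (hg1.continuousAt.eventually_ne hg2).filter_mono nhdsWithin_le_nhds,
        hg1.eventually_analyticAt.filter_mono nhdsWithin_le_nhds, self_mem_nhdsWithin]
        with z hz hz2 hz3 hz4 hre
      have hre' : 1 < z.re := hre
      have hne : ∀ w : ℂ, 1 < w.re → w - s0 ≠ 0 := by
        intro w hw h5
        have h6 : w = s0 := sub_eq_zero.1 h5
        rw [h6, hs0] at hw
        simp at hw
      have h5 : L =ᶠ[𝓝 z] fun w => (w - s0) ^ (if s.im = 0 then -c else 0 : ℤ) * g w := by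
        filter_upwards [hz, hz2, isOpen_re.mem_nhds hre'] with w hw hw2 hw1
        rw [← hw hw1, hw2 (sub_ne_zero.1 (hne w hw1)), smul_eq_mul]
      have hz0 := hne z hre'
      have h6 : HasDerivAt (fun w => (w - s0) ^ (if s.im = 0 then -c else 0 : ℤ) * g w)
          (((if s.im = 0 then -c else 0 : ℤ) : ℂ) * (z - s0) ^ ((if s.im = 0 then -c else 0 : ℤ) - 1)
            * g z + (z - s0) ^ (if s.im = 0 then -c else 0 : ℤ) * deriv g z) z := by
        have h7 : HasDerivAt (fun w => w - s0) 1 z := (hasDerivAt_id z).sub_const s0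
        have h8 := (hasDerivAt_zpow (if s.im = 0 then -c else 0 : ℤ) (z - s0) (Or.inl hz0)).comp z h7
        rw [mul_one] at h8
        exact h8.mul hz4.differentiableAt.hasDerivAt
      rw [hS z hre', h5.deriv_eq, h6.deriv, h5.eq_of_nhds]
      have h9 : (z - s0) ^ (if s.im = 0 then -c else 0 : ℤ) ≠ 0 := zpow_ne_zero _ hz0
      rw [zpow_sub_one₀ hz0]
      field_simp
      ring
    have hlim : Tendsto (fun z => deriv (Rt α) z - deriv g z / g z)
        (𝓝[{s : ℂ | 1 < s.re}] s0) (𝓝 (deriv (Rt α) s0 - deriv g s0 / g s0)) :=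
      (hR.deriv.continuousAt.sub (hg1.deriv.continuousAt.div hg1.continuousAt hg2)).mono_left
        nhdsWithin_le_nhds
    by_cases him : s.im = 0
    · refine ⟨_, hlim.congr' ?_⟩
      filter_upwards [key] with z hz
      rw [hz, if_pos him]
      have : s0 = 1 := by rw [hs0, him]; simp
      rw [this]
      push_cast
      ring
    · have hs01 : s0 - 1 ≠ 0 := by
        rw [hs0]
        simp only [add_sub_cancel_left]
        exact mul_ne_zero (by exact_mod_cast him) I_ne_zero
      have h4 : Tendsto (fun z : ℂ => ((c : ℝ) : ℂ) / (z - 1)) (𝓝[{s : ℂ | 1 < s.re}] s0)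
          (𝓝 (((c : ℝ) : ℂ) / (s0 - 1))) := by
        have : ContinuousAt (fun z : ℂ => ((c : ℝ) : ℂ) / (z - 1)) s0 :=
          continuousAt_const.div (continuous_id.sub continuous_const).continuousAt hs01
        exact this.mono_left nhdsWithin_le_nhds
      refine ⟨_, (hlim.sub h4).congr' ?_⟩
      filter_upwards [key] with z hz
      rw [hz, if_neg him]
      simp
  · have hs1 : s - 1 ≠ 0 := by
      intro h1
      have h2 : s = 1 := sub_eq_zero.mp h1
      rw [h2] at h
      simp at h
    exact ⟨_, ((an_S ht' h).continuousAt.sub (continuousAt_const.div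
      (continuous_id.sub continuous_const).continuousAt hs1)).tendsto.mono_left
        nhdsWithin_le_nhds⟩

end

end Pool.Agent.X289.TaubR
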