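import Pool.Agent.X289.Bc
import Pool.Agent.X289.TaubR

set_option autoImplicit false
set_option linter.unusedSectionVars false

/-!
# Symmetric powers of angles
-/

namespace Pool.Agent.X289.SymM

open Complex Filter Topology ComplexConjugate NumberField IsDedekindDomain MeasureTheory
  Pool.Agent.W540.BE Pool.Agent.TH553.RS Pool.Agent.TH553.ST Pool.Agent.H341R2
open Pool.Agent.X289.Dens Pool.Agent.X289.Cls Pool.Agent.X289.Bc Pool.Agent.X289.TaubR

/-- the eigenvalues -/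
noncomputable def eg (m : ℕ) (t : ℝ) (j : Fin (m + 1)) : ℂ :=
  Complex.exp ((((m : ℝ) - 2 * ((j : ℕ) : ℝ)) * t : ℝ) * I)

theorem norm_eg (m : ℕ) (t : ℝ) (j : Fin (m + 1)) : ‖eg m t j‖ = 1 := by
  unfold eg
  exact Complex.norm_exp_ofReal_mul_I _

noncomputable def Ec (m : ℕ) (t : ℝ) : ℂ := ∑ j, eg m t j

theorem Ec_zero (t : ℝ) : Ec 0 t = 1 := by
  unfold Ec eg
  simp

theorem Ec_one (t : ℝ) : Ec 1 t = ((2 * Real.cos t : ℝ) : ℂ) := by
  unfold Ec eg
  rw [Fin.sum_univ_two]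
  push_cast
  rw [Complex.cos]
  simp only [Fin.val_zero, Fin.val_one]
  push_cast
  ring_nf

theorem Ec_add_two (m : ℕ) (t : ℝ) :
    Ec (m + 2) t = Ec m t + ((2 * Real.cos ((m + 2 : ℕ) * t) : ℝ) : ℂ) := by
  unfold Ec
  rw [Fin.sum_univ_succ, Fin.sum_univ_castSucc]
  have h1 : ∀ j : Fin (m + 1), eg (m + 2) t j.castSucc.succ = eg m t j := by
    intro j
    unfold eg
    congr 1
    simp only [Fin.val_succ, Fin.val_castSucc]
    push_cast
    ring
  simp only [h1]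
  have h2 : eg (m + 2) t 0 + eg (m + 2) t (Fin.last (m + 1)).succ =
      ((2 * Real.cos ((m + 2 : ℕ) * t) : ℝ) : ℂ) := by
    unfold eg
    push_cast
    rw [Complex.cos]
    simp only [Fin.val_zero, Fin.val_succ, Fin.val_last]
    push_cast
    rw [mul_div_cancel₀ _ (two_ne_zero)]
    congr 1 <;> congr 1 <;> ring
  rw [← h2]
  ring

/-- the character -/
noncomputable def ch (m : ℕ) (t : ℝ) : ℝ := (Ec m t).re

theorem Ec_real (m : ℕ) (t : ℝ) : Ec m t = (ch m t : ℂ) := by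
  have h : ∀ m, (Ec m t).im = 0 ∧ (Ec (m + 1) t).im = 0 := by
    intro m
    induction m with
    | zero => exact ⟨by rw [Ec_zero]; simp, by rw [Ec_one, Complex.ofReal_im]⟩
    | succ m ih =>
      refine ⟨ih.2, ?_⟩
      rw [Ec_add_two, Complex.add_im, Complex.ofReal_im, ih.1, add_zero]
  apply Complex.ext
  · rfl
  · rw [(h m).1, Complex.ofReal_im]

theorem ch_zero (t : ℝ) : ch 0 t = 1 := by unfold ch; rw [Ec_zero]; simp

theorem ch_one (t : ℝ) : ch 1 t = 2 * Real.cos t := by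
  unfold ch; rw [Ec_one, Complex.ofReal_re]

theorem ch_add_two (m : ℕ) (t : ℝ) : ch (m + 2) t = ch m t + 2 * Real.cos ((m + 2 : ℕ) * t) := by
  unfold ch; rw [Ec_add_two, Complex.add_re, Complex.ofReal_re]

theorem abs_ch (m : ℕ) (t : ℝ) : |ch m t| ≤ m + 1 := by
  unfold ch
  refine (Complex.abs_re_le_norm _).trans ?_
  unfold Ec
  refine (norm_sum_le _ _).trans ?_
  simp [norm_eg]

section

variable {F : Type} [Field F] [NumberField F] (φ : HeightOneSpectrum (𝓞 F) → ℝ)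

/-- the Euler product -/
noncomputable def LS (m : ℕ) (s : ℂ) : ℂ :=
  ∏' w, (∏ j, (1 - eg m (φ w) j * ((nm F w : ℕ) : ℂ) ^ (-s)))⁻¹

/-- the real part of a power of the norm -/
noncomputable def cw (F : Type) [Field F] [NumberField F] (τ : ℝ)
    (w : HeightOneSpectrum (𝓞 F)) : ℝ := (((nm F w : ℕ) : ℂ) ^ (-(τ * I : ℂ))).re

theorem norm_q (τ : ℝ) (w : HeightOneSpectrum (𝓞 F)) :
    ‖((nm F w : ℕ) : ℂ) ^ (-(τ * I : ℂ))‖ = 1 := norm_cpow_I (nm_pos w) τ

theorem abs_cw (τ : ℝ) (w : HeightOneSpectrum (𝓞 F)) : |cw F τ w| ≤ 1 := by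
  unfold cw
  refine (Complex.abs_re_le_norm _).trans ?_
  rw [norm_q]

theorem bd_cw (τ : ℝ) : Bd (cw F τ) := ⟨1, abs_cw τ⟩

theorem bd_ch (m : ℕ) : Bd fun w => ch m (φ w) := ⟨m + 1, fun _ => abs_ch m _⟩

theorem bd_cosn (l : ℕ) : Bd fun w => Real.cos (l * φ w) := ⟨1, fun _ => Real.abs_cos_le_one _⟩

theorem cw_zero : cw F 0 = fun _ => 1 := by
  funext w
  unfold cw
  simp

theorem cw_sq (τ : ℝ) (w : HeightOneSpectrum (𝓞 F)) :
    cw F τ w ^ 2 = 1 / 2 + 1 / 2 * cw F (2 * τ) w := by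
  have h1 : ((nm F w : ℕ) : ℂ) ^ (-(((2 * τ : ℝ) : ℂ) * I)) =
      (((nm F w : ℕ) : ℂ) ^ (-(τ * I : ℂ))) ^ 2 := by
    rw [← Complex.cpow_nat_mul]
    congr 1
    push_cast
    ring
  have h2 := norm_q τ w
  unfold cw
  rw [h1]
  set z := ((nm F w : ℕ) : ℂ) ^ (-(τ * I : ℂ)) with hz
  have h3 : z.re ^ 2 + z.im ^ 2 = 1 := by
    have := Complex.sq_norm z
    rw [h2, Complex.normSq_apply] at this
    nlinarith
  have h4 : (z ^ 2).re = z.re ^ 2 - z.im ^ 2 := by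
    rw [sq, Complex.mul_re]; ring
  rw [h4]
  linarith

variable {U : Ultrafilter ℝ} (hU : (U : Filter ℝ) ≤ 𝓝[>] 0)

include hU in
theorem M_cw {τ : ℝ} (hτ : τ ≠ 0) : M (nm F) U (cw F τ) = 0 := by
  have h1 : Tendsto (mn fun _ : HeightOneSpectrum (𝓞 F) => (1 : ℂ)) atTop (𝓝 ((1 : ℝ) : ℂ)) := by
    refine Tendsto.congr' ?_ tendsto_const_nhds
    filter_upwards [card_ev (K := F)] with N hN
    unfold mn
    rw [Finset.sum_const, nsmul_eq_mul, mul_one, Complex.real_smul]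
    have : ((upto F N).card : ℂ) ≠ 0 := by exact_mod_cast hN
    push_cast
    field_simp
  have h3 := mean_edge (g := fun _ : HeightOneSpectrum (𝓞 F) => (1 : ℂ)) (B := 1)
    (fun v => by simp) 1 (mn_tendsto h1) τ
  rw [if_neg hτ] at h3
  refine M_of_tendsto hU (h3.congr fun ε => ?_)
  unfold qt cw
  congr 2
  funext w
  rw [one_mul]

/-- the size of the Euler product -/
theorem size_LS (m : ℕ) (τ : ℝ) : (∀ᶠ ε : ℝ in 𝓝[>] 0, LS φ m (1 + τ * I + ε) ≠ 0) ∧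
    Tendsto (fun ε : ℝ => qt (nm F) (fun w => ch m (φ w) * cw F τ w) ε -
      Real.log ‖LS φ m (1 + τ * I + ε)‖ / Real.log (1 / ε)) (𝓝[>] 0) (𝓝 0) := by
  set B : HeightOneSpectrum (𝓞 F) → Polynomial ℂ := fun w =>
    ∏ j, (1 - Polynomial.C (eg m (φ w) j) * Polynomial.X) with hB
  have hBe : ∀ w z, (B w).eval z = ∏ j, (1 - eg m (φ w) j * z) := by
    intro w z
    rw [hB]
    simp [Polynomial.eval_prod]
  have h := size_unit (sysF F) (fun w => eg m (φ w))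
    (Filter.Eventually.of_forall fun w j => norm_eg m _ j)
    (t := fun w => (ch m (φ w) : ℂ)) (C := (m + 1 : ℝ)) (fun w => by
      rw [Complex.norm_real]
      exact abs_ch m _)
    (Filter.Eventually.of_forall fun w => Ec_real m (φ w)) τ B
    (Filter.Eventually.of_forall hBe)
    (fun w => by
      rw [hBe, Finset.prod_ne_zero_iff]
      intro j _ h4
      have h5 : ‖eg m (φ w) j * ((nm F w : ℕ) : ℂ) ^ (-(1 + τ * I : ℂ))‖ = 1 := by
        have : eg m (φ w) j * ((nm F w : ℕ) : ℂ) ^ (-(1 + τ * I : ℂ)) = 1 := by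
          linear_combination -h4
        rw [this, norm_one]
      rw [norm_mul, norm_eg, one_mul] at h5
      have h6 := cpow_le_half normSys w (s := 1 + τ * I) (by simp)
      linarith) (LS φ m)
    (fun s _ => by
      unfold LS
      refine tprod_congr fun w => ?_
      rw [hBe])
  refine ⟨h.1, h.2.congr fun ε => ?_⟩
  congr 2
  funext w
  rw [Complex.re_ofReal_mul]
  rfl

/-- a continuation -/
def IsC (m : ℕ) (τ : ℝ) (Λ : ℂ → ℂ) : Prop :=
  MeromorphicAt Λ (1 + τ * I) ∧ ∀ᶠ s in 𝓝 ((1 : ℂ) + τ * I), (1 : ℝ) < s.re → Λ s = LS φ m s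

/-- the order is a mean value -/
theorem exists_ord {m : ℕ} {τ : ℝ} {Λ : ℂ → ℂ} (h : IsC φ m τ Λ) : ∃ e : ℤ,
    meromorphicOrderAt Λ (1 + τ * I) = e ∧ ∀ U : Ultrafilter ℝ, (U : Filter ℝ) ≤ 𝓝[>] 0 →
      (M (nm F) U fun w => ch m (φ w) * cw F τ w) = -e := by
  obtain ⟨e, h1, h2⟩ := order_unit (size_LS φ m τ).1 h.1 h.2
  refine ⟨e, h1, fun U hU => M_of_tendsto hU ?_⟩
  have h3 := (size_LS φ m τ).2.add h2
  rw [zero_add] at h3
  exact h3.congr fun ε => by ring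

end

end Pool.Agent.X289.SymM
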