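import Pool.Agent.X289.MultiF

set_option autoImplicit false
set_option linter.unusedSectionVars false

/-!
# Three families: uncorrelated traces and sign patterns
-/

namespace Pool.Agent.X289.Three

open Complex Filter Topology ComplexConjugate NumberField IsDedekindDomain MeasureTheory
  Pool.Agent.W540.BE Pool.Agent.TH553.RS Pool.Agent.TH553.ST Pool.Agent.H341R2
open Pool.Agent.X289.Dens Pool.Agent.X289.Cls Pool.Agent.X289.Bc Pool.Agent.X289.SymM
  Pool.Agent.X289.Uch Pool.Agent.X289.Al Pool.Agent.X289.DensM Pool.Agent.X289.Main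
  Pool.Agent.X289.Multi

/-! ### the functions -/

/-- an approximation of the sign -/
noncomputable def sg (n : ℕ) (x : ℝ) : ℝ := x * ∑ k ∈ Finset.range n, (1 - |x|) ^ k

/-- a bump at zero -/
noncomputable def bt (n : ℕ) (x : ℝ) : ℝ := (1 - |x|) ^ n

/-- the potential -/
noncomputable def ef (x : ℝ) : ℝ := -9 / 16 + 3 * |x| - 2 * x ^ 2

theorem cont_sg (n : ℕ) : Continuous (sg n) := by
  unfold sg
  fun_prop

theorem cont_bt (n : ℕ) : Continuous (bt n) := by
  unfold bt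
  fun_prop

theorem cont_ef : Continuous ef := by
  unfold ef
  fun_prop

theorem sg_pos {x : ℝ} (h : 0 ≤ x) (n : ℕ) : sg n x = 1 - bt n x := by
  unfold sg bt
  have h1 := mul_geom_sum (1 - |x|) n
  rw [abs_of_nonneg h] at h1 ⊢
  linarith

theorem sg_odd (n : ℕ) (x : ℝ) : sg n (-x) = -sg n x := by
  unfold sg
  rw [abs_neg]
  ring

theorem bt_even (n : ℕ) (x : ℝ) : bt n (-x) = bt n x := by
  unfold bt
  rw [abs_neg]

theorem ef_even (x : ℝ) : ef (-x) = ef x := by
  unfold ef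
  rw [abs_neg]
  ring

theorem sg_neg {x : ℝ} (h : x ≤ 0) (n : ℕ) : sg n x = -(1 - bt n x) := by
  have h1 := sg_pos (neg_nonneg.2 h) n
  rw [sg_odd, bt_even] at h1
  linarith

theorem bt_mem {x : ℝ} (h : x ∈ Set.Icc (-1 : ℝ) 1) (n : ℕ) : 0 ≤ bt n x ∧ bt n x ≤ 1 := by
  have h1 : |x| ≤ 1 := abs_le.2 ⟨h.1, h.2⟩
  have h2 := abs_nonneg x
  unfold bt
  exact ⟨pow_nonneg (by linarith) n, pow_le_one₀ (by linarith) (by linarith)⟩

/-- **The inequality.** -/
theorem key {x y : ℝ} (hx : x ∈ Set.Icc (-1 : ℝ) 1) (hy : y ∈ Set.Icc (-1 : ℝ) 1) (n : ℕ) :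
    4 * (x * y) + (ef x + 39 / 16 * sg n x - 39 / 16 * bt n x) +
      (ef y + 39 / 16 * sg n y - 39 / 16 * bt n y) ≤ if 0 < x ∧ 0 < y then 39 / 4 else 0 := by
  obtain ⟨a1, a2⟩ := bt_mem hx n
  obtain ⟨b1, b2⟩ := bt_mem hy n
  obtain ⟨c1, c2⟩ := hx
  obtain ⟨d1, d2⟩ := hy
  rcases lt_or_ge 0 x with h1 | h1
  · rcases lt_or_ge 0 y with h2 | h2
    · rw [if_pos ⟨h1, h2⟩, sg_pos h1.le, sg_pos h2.le]
      unfold ef
      rw [abs_of_pos h1, abs_of_pos h2]
      nlinarith [sq_nonneg (x - y), sq_nonneg (x + y)]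
    · rw [if_neg (fun h => absurd h.2 (not_lt.2 h2)), sg_pos h1.le, sg_neg h2]
      unfold ef
      rw [abs_of_pos h1, abs_of_nonpos h2]
      nlinarith [sq_nonneg (x - y - 3 / 4)]
  · rw [if_neg (fun h => absurd h.1 (not_lt.2 h1)), sg_neg h1]
    rcases lt_or_ge 0 y with h2 | h2
    · rw [sg_pos h2.le]
      unfold ef
      rw [abs_of_nonpos h1, abs_of_pos h2]
      nlinarith [sq_nonneg (y - x - 3 / 4)]
    · rw [sg_neg h2]
      unfold ef
      rw [abs_of_nonpos h1, abs_of_nonpos h2]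
      nlinarith [sq_nonneg (x - y), sq_nonneg (x + y)]

/-! ### the integrals -/

theorem J_odd {f : ℝ → ℝ} (hf : ∀ x, f (-x) = -f x) : J (dk 1) f = 0 := by
  unfold J
  have h1 := intervalIntegral.integral_comp_sub_left
    (fun t : ℝ => f (Real.cos t) * dk 1 t) (a := 0) (b := Real.pi) Real.pi
  have h2 : ∀ t : ℝ, f (Real.cos (Real.pi - t)) * dk 1 (Real.pi - t) =
      -(f (Real.cos t) * dk 1 t) := by
    intro t
    rw [Real.cos_pi_sub, hf]
    unfold dk
    rw [Nat.cast_one, one_mul, one_mul, Real.sin_pi_sub]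
    ring
  simp only [h2, sub_self, sub_zero] at h1
  rw [intervalIntegral.integral_neg] at h1
  have h3 : ∫ t in (0 : ℝ)..Real.pi, f (Real.cos t) * dk 1 t = 0 := by linarith
  rw [h3, mul_zero]

theorem J_sq2 : J (dk 1) (fun x => x ^ 2) = 1 / 4 := by
  have h1 := J_sq_C 1
  have e : (fun x => Cf 1 x ^ 2) = fun x : ℝ => 4 * x ^ 2 := by
    funext x
    rw [Cf_one]
    ring
  rw [e, J_smul] at h1
  linarith

theorem J_abs : J (dk 1) (fun x => |x|) = 4 / (3 * Real.pi) := by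
  have hpi := Real.pi_pos
  unfold J
  have hc : Continuous fun t : ℝ => |Real.cos t| * dk 1 t := by
    unfold dk
    fun_prop
  have h0 : ∫ t in (0 : ℝ)..Real.pi, |Real.cos t| * dk 1 t =
      (∫ t in (0 : ℝ)..(Real.pi / 2), |Real.cos t| * dk 1 t) +
        ∫ t in (Real.pi / 2)..Real.pi, |Real.cos t| * dk 1 t :=
    (intervalIntegral.integral_add_adjacent_intervals (hc.intervalIntegrable _ _)
      (hc.intervalIntegrable _ _)).symm
  have hd : ∀ t : ℝ, HasDerivAt (fun t => 2 / 3 * Real.sin t ^ 3)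
      (Real.cos t * (2 * Real.sin t ^ 2)) t := by
    intro t
    have h := ((Real.hasDerivAt_sin t).pow 3).const_mul (2 / 3 : ℝ)
    refine h.congr_deriv ?_
    norm_num
    ring
  have hc2 : Continuous fun t : ℝ => Real.cos t * (2 * Real.sin t ^ 2) := by fun_prop
  have h1 : ∫ t in (0 : ℝ)..(Real.pi / 2), |Real.cos t| * dk 1 t = 2 / 3 := by
    have e : ∫ t in (0 : ℝ)..(Real.pi / 2), |Real.cos t| * dk 1 t =
        ∫ t in (0 : ℝ)..(Real.pi / 2), Real.cos t * (2 * Real.sin t ^ 2) := by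
      refine intervalIntegral.integral_congr fun t ht => ?_
      rw [Set.uIcc_of_le (by linarith)] at ht
      show |Real.cos t| * dk 1 t = _
      rw [abs_of_nonneg (Real.cos_nonneg_of_mem_Icc ⟨by linarith [ht.1], ht.2⟩)]
      unfold dk
      rw [Nat.cast_one, one_mul]
    rw [e, intervalIntegral.integral_eq_sub_of_hasDerivAt (fun t _ => hd t)
      (hc2.intervalIntegrable _ _)]
    simp
  have h2 : ∫ t in (Real.pi / 2)..Real.pi, |Real.cos t| * dk 1 t = 2 / 3 := by
    have e : ∫ t in (Real.pi / 2)..Real.pi, |Real.cos t| * dk 1 t =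
        ∫ t in (Real.pi / 2)..Real.pi, -(Real.cos t * (2 * Real.sin t ^ 2)) := by
      refine intervalIntegral.integral_congr fun t ht => ?_
      rw [Set.uIcc_of_le (by linarith)] at ht
      show |Real.cos t| * dk 1 t = _
      rw [abs_of_nonpos (Real.cos_nonpos_of_pi_div_two_le_of_le ht.1 (by linarith [ht.2]))]
      unfold dk
      rw [Nat.cast_one, one_mul]
      ring
    rw [e, intervalIntegral.integral_neg,
      intervalIntegral.integral_eq_sub_of_hasDerivAt (fun t _ => hd t)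
      (hc2.intervalIntegrable _ _)]
    simp
  rw [h0, h1, h2]
  field_simp
  norm_num

theorem cdk : Continuous (dk 1) := cont_dk 1

theorem J_ef : J (dk 1) ef = 4 / Real.pi - 17 / 16 := by
  have hpi := Real.pi_pos
  have e : ef = fun x => (3 * |x| + (-2) * x ^ 2) + (-9 / 16) * Cf 0 x := by
    funext x
    unfold ef
    rw [Cf_zero]
    ring
  have c1 : Continuous fun x : ℝ => 3 * |x| := by fun_prop
  have c2 : Continuous fun x : ℝ => (-2) * x ^ 2 := by fun_prop
  have c3 : Continuous fun x : ℝ => 3 * |x| + (-2) * x ^ 2 := c1.add c2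
  rw [e, J_add cdk c3 ((cont_Cf 0).const_mul _), J_add cdk c1 c2, J_smul, J_smul,
    J_smul, J_abs, J_sq2, J_C, if_pos rfl]
  field_simp
  norm_num
  ring

theorem J_bt : Tendsto (fun n => J (dk 1) (bt n)) atTop (𝓝 0) := by
  have hpi := Real.pi_pos
  unfold J
  have h1 : Tendsto (fun n => ∫ t in (0 : ℝ)..Real.pi, bt n (Real.cos t) * dk 1 t) atTop
      (𝓝 (∫ t in (0 : ℝ)..Real.pi, (0 : ℝ))) := by
    refine intervalIntegral.tendsto_integral_filter_of_dominated_convergence (fun _ => 2)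
      (Eventually.of_forall fun n => ?_) (Eventually.of_forall fun n => ?_)
      intervalIntegrable_const ?_
    · exact (((cont_bt n).comp Real.continuous_cos).mul cdk).aestronglyMeasurable
    · refine Eventually.of_forall fun t _ => ?_
      obtain ⟨h1, h2⟩ := bt_mem (Real.cos_mem_Icc t) n
      have h3 : 0 ≤ dk 1 t ∧ dk 1 t ≤ 2 := by
        unfold dk
        have := Real.sin_sq_le_one ((1 : ℕ) * t)
        constructor
        · positivity
        · linarith
      rw [Real.norm_eq_abs, abs_of_nonneg (mul_nonneg h1 h3.1)]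
      nlinarith [h3.1, h3.2]
    · have h2 : ∀ᵐ t : ℝ, t ≠ Real.pi / 2 :=
        (Set.countable_singleton _).ae_notMem volume
      filter_upwards [h2] with t ht hmem
      rw [Set.uIoc_of_le hpi.le] at hmem
      have h3 : Real.cos t ≠ 0 := by
        intro h
        rcases lt_or_gt_of_ne ht with h4 | h4
        · exact (Real.cos_pos_of_mem_Ioo ⟨by linarith [hmem.1], h4⟩).ne' h
        · exact (Real.cos_neg_of_pi_div_two_lt_of_lt h4 (by linarith [hmem.2])).ne h
      have h4 : |Real.cos t| ≤ 1 := Real.abs_cos_le_one t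
      have h5 : 0 < |Real.cos t| := abs_pos.2 h3
      have h6 : Tendsto (fun n : ℕ => (1 - |Real.cos t|) ^ n) atTop (𝓝 0) :=
        tendsto_pow_atTop_nhds_zero_of_lt_one (by linarith) (by linarith)
      have h7 := h6.mul_const (dk 1 t)
      rw [zero_mul] at h7
      exact h7
  have h2 := h1.const_mul (1 / Real.pi)
  simpa using h2

/-! ### the averages -/

variable {K : Type} [Field K] [NumberField K]

theorem mn_mono {f g : HeightOneSpectrum (𝓞 K) → ℝ} (h : ∀ v, f v ≤ g v) (N : ℕ) :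
    mn f N ≤ mn g N := by
  unfold mn
  rw [smul_eq_mul, smul_eq_mul]
  refine mul_le_mul_of_nonneg_left (Finset.sum_le_sum fun v _ => h v) ?_
  positivity

variable {x y z : HeightOneSpectrum (𝓞 K) → ℝ}

/-- the pair law for products -/
def PL (x y : HeightOneSpectrum (𝓞 K) → ℝ) : Prop :=
  ∀ f g : ℝ → ℝ, Continuous f → Continuous g →
    Tendsto (mn fun v => f (Real.cos (x v)) * g (Real.cos (y v))) atTop
      (𝓝 (J (dk 1) f * J (dk 1) g))

/-- uncorrelated given the first -/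
def UC (x y z : HeightOneSpectrum (𝓞 K) → ℝ) : Prop :=
  ∀ f : ℝ → ℝ, Continuous f →
    Tendsto (mn fun v => f (Real.cos (x v)) * (Real.cos (y v) * Real.cos (z v))) atTop (𝓝 0)

theorem uc_of (h : ∀ l : ℕ, Tendsto (mn fun v => Cf l (Real.cos (x v)) *
    (Real.cos (y v) * Real.cos (z v))) atTop (𝓝 0)) : UC x y z := by
  intro f hf
  refine densU (Q := fun f => Tendsto (mn fun v => f (Real.cos (x v)) *
    (Real.cos (y v) * Real.cos (z v))) atTop (𝓝 0)) ?_ ?_ h ?_ hf
  · intro f g _ _ h1 h2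
    have h3 := h1.add h2
    rw [add_zero] at h3
    refine h3.congr fun n => ?_
    rw [← mn_add]
    congr 1
    funext v
    ring
  · intro c f _ h1
    have h3 := h1.const_mul c
    rw [mul_zero] at h3
    refine h3.congr fun n => ?_
    rw [← mn_smul]
    congr 1
    funext v
    ring
  · intro f hf h1
    rw [Metric.tendsto_atTop]
    intro η hη
    obtain ⟨g, hg, hQ, hfg⟩ := h1 (η / 4) (by positivity)
    rw [Metric.tendsto_atTop] at hQ
    obtain ⟨n0, hn0⟩ := hQ (η / 4) (by positivity)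
    refine ⟨n0, fun n hn => ?_⟩
    have h2 := hn0 n hn
    rw [Real.dist_eq, sub_zero] at h2 ⊢
    have h3 : |mn (fun v => (f (Real.cos (x v)) - g (Real.cos (x v))) *
        (Real.cos (y v) * Real.cos (z v))) n| ≤ η / 4 := by
      refine mn_abs_le (by positivity) (fun v => ?_) n
      rw [abs_mul, abs_mul]
      have h4 := hfg _ (Real.cos_mem_Icc (x v))
      have h5 : |Real.cos (y v)| * |Real.cos (z v)| ≤ 1 :=
        mul_le_one₀ (Real.abs_cos_le_one _) (abs_nonneg _) (Real.abs_cos_le_one _)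
      calc _ ≤ η / 4 * 1 := mul_le_mul h4 h5 (by positivity) (by positivity)
        _ = _ := mul_one _
    have h5 : mn (fun v => f (Real.cos (x v)) * (Real.cos (y v) * Real.cos (z v))) n =
        mn (fun v => (f (Real.cos (x v)) - g (Real.cos (x v))) *
          (Real.cos (y v) * Real.cos (z v))) n +
        mn (fun v => g (Real.cos (x v)) * (Real.cos (y v) * Real.cos (z v))) n := by
      rw [← mn_add]
      congr 1
      funext v
      ring
    rw [h5]
    have h6 := abs_add_le (mn (fun v => (f (Real.cos (x v)) - g (Real.cos (x v))) *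
      (Real.cos (y v) * Real.cos (z v))) n)
      (mn (fun v => g (Real.cos (x v)) * (Real.cos (y v) * Real.cos (z v))) n)
    linarith

/-- the part of the test function in one variable -/
noncomputable def Gf (n : ℕ) (s : ℝ) (x : ℝ) : ℝ := ef x + 39 / 16 * (s * sg n x) -
  39 / 16 * bt n x

theorem cont_Gf (n : ℕ) (s : ℝ) : Continuous (Gf n s) :=
  (cont_ef.add (((cont_sg n).const_mul s).const_mul _)).sub ((cont_bt n).const_mul _)

theorem J_Gf (n : ℕ) (s : ℝ) : J (dk 1) (Gf n s) = J (dk 1) ef - 39 / 16 * J (dk 1) (bt n) := by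
  have c1 : Continuous fun x => 39 / 16 * (s * sg n x) := ((cont_sg n).const_mul s).const_mul _
  have c2 : Continuous fun x => 39 / 16 * bt n x := (cont_bt n).const_mul _
  have e : Gf n s = fun x => (ef x + 39 / 16 * (s * sg n x)) - 39 / 16 * bt n x := rfl
  have c3 : Continuous fun x => ef x + 39 / 16 * (s * sg n x) := cont_ef.add c1
  have h1 : J (dk 1) (fun x => 39 / 16 * (s * sg n x)) = 0 := by
    refine J_odd fun x => ?_
    rw [sg_odd]
    ring
  rw [e, J_sub cdk c3 c2, J_add cdk cont_ef c1, h1, J_smul, add_zero]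

theorem lim_P (h1 : PL x y) (h2 : PL x z) (h3 : UC x y z) {f : ℝ → ℝ} (hf : Continuous f)
    (s s' : ℝ) (n : ℕ) :
    Tendsto (mn fun v => f (Real.cos (x v)) * (4 * ((s * Real.cos (y v)) * (s' * Real.cos (z v))) +
      Gf n s (Real.cos (y v)) + Gf n s' (Real.cos (z v)))) atTop
      (𝓝 (J (dk 1) f * (2 * J (dk 1) ef - 39 / 8 * J (dk 1) (bt n)))) := by
  have a1 := (h3 f hf).const_mul (4 * s * s')
  have a2 := h1 f (Gf n s) hf (cont_Gf n s)
  have a3 := h2 f (Gf n s') hf (cont_Gf n s')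
  have a4 := (a1.add a2).add a3
  rw [mul_zero, zero_add, J_Gf, J_Gf] at a4
  have e : J (dk 1) f * (J (dk 1) ef - 39 / 16 * J (dk 1) (bt n)) +
      J (dk 1) f * (J (dk 1) ef - 39 / 16 * J (dk 1) (bt n)) =
      J (dk 1) f * (2 * J (dk 1) ef - 39 / 8 * J (dk 1) (bt n)) := by ring
  rw [e] at a4
  refine a4.congr fun N => ?_
  rw [← mn_smul, ← mn_add, ← mn_add]
  congr 1
  funext v
  ring

theorem key_s {s s' : ℝ} (hs : s = 1 ∨ s = -1) (hs' : s' = 1 ∨ s' = -1) {a b : ℝ}
    (ha : a ∈ Set.Icc (-1 : ℝ) 1) (hb : b ∈ Set.Icc (-1 : ℝ) 1) (n : ℕ) :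
    4 * ((s * a) * (s' * b)) + Gf n s a + Gf n s' b ≤
      if 0 < s * a ∧ 0 < s' * b then 39 / 4 else 0 := by
  have h1 : ∀ {s a : ℝ}, (s = 1 ∨ s = -1) → a ∈ Set.Icc (-1 : ℝ) 1 →
      s * a ∈ Set.Icc (-1 : ℝ) 1 ∧ Gf n s a = ef (s * a) + 39 / 16 * sg n (s * a) -
        39 / 16 * bt n (s * a) := by
    intro s a hs ha
    unfold Gf
    rcases hs with rfl | rfl
    · rw [one_mul, one_mul]
      exact ⟨ha, rfl⟩
    · rw [neg_one_mul, neg_one_mul, sg_odd, ef_even, bt_even]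
      exact ⟨⟨by linarith [ha.2], by linarith [ha.1]⟩, rfl⟩
  obtain ⟨m1, e1⟩ := h1 hs ha
  obtain ⟨m2, e2⟩ := h1 hs' hb
  rw [e1, e2]
  exact key m1 m2 n

/-- **Lower bounds for the sign patterns.** -/
theorem lower (h1 : PL x y) (h2 : PL x z) (h3 : UC x y z) {f : ℝ → ℝ} (hf : Continuous f)
    (hf0 : ∀ t ∈ Set.Icc (-1 : ℝ) 1, 0 ≤ f t) {s s' : ℝ} (hs : s = 1 ∨ s = -1)
    (hs' : s' = 1 ∨ s' = -1) {n : ℕ} {c : ℝ}
    (hc : c < 4 / 39 * (J (dk 1) f * (2 * J (dk 1) ef - 39 / 8 * J (dk 1) (bt n)))) :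
    ∀ᶠ N in atTop, c ≤ mn (fun v => if 0 < s * Real.cos (y v) ∧ 0 < s' * Real.cos (z v) then
      f (Real.cos (x v)) else 0) N := by
  have h4 := (lim_P h1 h2 h3 hf s s' n).const_mul (4 / 39)
  filter_upwards [h4.eventually (lt_mem_nhds hc)] with N hN
  refine hN.le.trans ?_
  rw [← mn_smul]
  refine mn_mono (fun v => ?_) N
  have h5 := key_s hs hs' (Real.cos_mem_Icc (y v)) (Real.cos_mem_Icc (z v)) n
  have h6 := hf0 _ (Real.cos_mem_Icc (x v))
  have h7 := mul_le_mul_of_nonneg_left h5 h6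
  split_ifs at h7 ⊢ with h8
  · linarith
  · linarith

theorem kappa : ∃ n : ℕ, J (dk 1) (bt n) < 1 / 1000 ∧ 0 ≤ J (dk 1) (bt n) ∧
    (0.0427 : ℝ) ≤ 4 / 39 * (2 * J (dk 1) ef - 39 / 8 * J (dk 1) (bt n)) := by
  have h1 := J_bt.eventually (gt_mem_nhds (by norm_num : (0 : ℝ) < 1 / 1000))
  obtain ⟨n, hn⟩ := h1.exists
  have hpi := Real.pi_pos
  have h0 : 0 ≤ J (dk 1) (bt n) := by
    unfold J
    refine mul_nonneg (by positivity) (intervalIntegral.integral_nonneg hpi.le fun t _ => ?_)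
    refine mul_nonneg (bt_mem (Real.cos_mem_Icc t) n).1 ?_
    unfold dk
    positivity
  refine ⟨n, hn, h0, ?_⟩
  rw [J_ef]
  have h2 : (4 : ℝ) / 3.1416 ≤ 4 / Real.pi := by
    have := Real.pi_lt_d4
    gcongr
  have h3 : (1.27323 : ℝ) ≤ 4 / 3.1416 := by norm_num
  linarith

/-- the half mass -/
noncomputable def hm (n : ℕ) (s : ℝ) (x : ℝ) : ℝ := (s * sg n x + (1 - bt n x)) / 2

theorem cont_hm (n : ℕ) (s : ℝ) : Continuous (hm n s) := by
  have h1 := cont_sg n
  have h2 := cont_bt n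
  unfold hm
  fun_prop

theorem J_hm (n : ℕ) (s : ℝ) : J (dk 1) (hm n s) = (1 - J (dk 1) (bt n)) / 2 := by
  have e : hm n s = fun x => ((s / 2) * sg n x + (1 / 2) * Cf 0 x) + (-1 / 2) * bt n x := by
    funext x
    unfold hm
    rw [Cf_zero]
    ring
  have c1 : Continuous fun x => (s / 2) * sg n x := (cont_sg n).const_mul _
  have c2 : Continuous fun x => (1 / 2) * Cf 0 x := (cont_Cf 0).const_mul _
  have c3 : Continuous fun x => (s / 2) * sg n x + (1 / 2) * Cf 0 x := c1.add c2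
  rw [e, J_add cdk c3 ((cont_bt n).const_mul _), J_add cdk c1 c2,
    J_smul, J_smul, J_smul, J_C, if_pos rfl, J_odd (sg_odd n)]
  ring

theorem hm_le {s : ℝ} (hs : s = 1 ∨ s = -1) {x : ℝ} (hx : x ∈ Set.Icc (-1 : ℝ) 1) (n : ℕ) :
    0 ≤ hm n s x ∧ hm n s x ≤ if 0 < s * x then 1 else 0 := by
  obtain ⟨h1, h2⟩ := bt_mem hx n
  unfold hm
  rcases hs with rfl | rfl
  · rcases lt_or_ge 0 x with h | h
    · rw [sg_pos h.le, if_pos (by linarith)]
      constructor <;> linarith
    · rw [sg_neg h, if_neg (by linarith)]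
      constructor <;> linarith
  · rcases lt_or_ge x 0 with h | h
    · rw [sg_neg h.le, if_pos (by linarith)]
      constructor <;> linarith
    · rw [sg_pos h, if_neg (by linarith)]
      constructor <;> linarith

/-- bounds with the constants -/
theorem lower24 (h1 : PL x y) (h2 : PL x z) (h3 : UC x y z) {f : ℝ → ℝ} (hf : Continuous f)
    (hf0 : ∀ t ∈ Set.Icc (-1 : ℝ) 1, 0 ≤ f t) {s s' : ℝ} (hs : s = 1 ∨ s = -1)
    (hs' : s' = 1 ∨ s' = -1) :
    ∀ᶠ N in atTop, 1 / 24 * J (dk 1) f ≤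
      mn (fun v => if 0 < s * Real.cos (y v) ∧ 0 < s' * Real.cos (z v) then
      f (Real.cos (x v)) else 0) N := by
  have hpi := Real.pi_pos
  obtain ⟨n, -, -, h4⟩ := kappa
  have h5 : 0 ≤ J (dk 1) f := by
    unfold J
    refine mul_nonneg (by positivity) (intervalIntegral.integral_nonneg hpi.le fun t _ => ?_)
    refine mul_nonneg (hf0 _ (Real.cos_mem_Icc t)) ?_
    unfold dk
    positivity
  rcases h5.eq_or_lt with h6 | h6
  · rw [← h6, mul_zero]
    refine Eventually.of_forall fun N => ?_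
    have h7 := mn_mono (f := fun _ => (0 : ℝ)) (g := fun v => if 0 < s * Real.cos (y v) ∧
      0 < s' * Real.cos (z v) then f (Real.cos (x v)) else 0) (fun v => by
        split_ifs
        · exact hf0 _ (Real.cos_mem_Icc _)
        · exact le_rfl) N
    have h8 : mn (fun _ : HeightOneSpectrum (𝓞 K) => (0 : ℝ)) N = 0 := by
      unfold mn
      simp
    rw [h8] at h7
    exact h7
  · refine lower h1 h2 h3 hf hf0 hs hs' (n := n) ?_
    have h7 := mul_le_mul_of_nonneg_left h4 h6.le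
    have e : 4 / 39 * (J (dk 1) f * (2 * J (dk 1) ef - 39 / 8 * J (dk 1) (bt n))) =
        J (dk 1) f * (4 / 39 * (2 * J (dk 1) ef - 39 / 8 * J (dk 1) (bt n))) := by ring
    rw [e]
    nlinarith

theorem lower48 (h1 : PL x y) (h2 : PL x z) (h3 : UC x y z) {s s' s'' : ℝ}
    (hs : s = 1 ∨ s = -1) (hs' : s' = 1 ∨ s' = -1) (hs'' : s'' = 1 ∨ s'' = -1) :
    ∀ᶠ N in atTop, 1 / 48 ≤ mn (fun v => if 0 < s'' * Real.cos (x v) ∧
      0 < s * Real.cos (y v) ∧ 0 < s' * Real.cos (z v) then (1 : ℝ) else 0) N := by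
  obtain ⟨n, a1, a2, a3⟩ := kappa
  have h4 : (1 / 48 : ℝ) < 4 / 39 * (J (dk 1) (hm n s'') *
      (2 * J (dk 1) ef - 39 / 8 * J (dk 1) (bt n))) := by
    rw [J_hm]
    have e : 4 / 39 * ((1 - J (dk 1) (bt n)) / 2 * (2 * J (dk 1) ef - 39 / 8 *
        J (dk 1) (bt n))) = (1 - J (dk 1) (bt n)) / 2 *
          (4 / 39 * (2 * J (dk 1) ef - 39 / 8 * J (dk 1) (bt n))) := by ring
    rw [e]
    have h5 : (0.4995 : ℝ) ≤ (1 - J (dk 1) (bt n)) / 2 := by linarith
    have h6 : (0.4995 : ℝ) * 0.0427 ≤ (1 - J (dk 1) (bt n)) / 2 *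
        (4 / 39 * (2 * J (dk 1) ef - 39 / 8 * J (dk 1) (bt n))) :=
      mul_le_mul h5 a3 (by norm_num) (by linarith)
    refine lt_of_lt_of_le ?_ h6
    norm_num
  filter_upwards [lower h1 h2 h3 (cont_hm n s'') (fun t ht => (hm_le hs'' ht n).1) hs hs' h4]
    with N hN
  refine hN.trans (mn_mono (fun v => ?_) N)
  have h5 := hm_le hs'' (Real.cos_mem_Icc (x v)) n
  by_cases h6 : 0 < s * Real.cos (y v) ∧ 0 < s' * Real.cos (z v)
  · rw [if_pos h6]
    refine h5.2.trans ?_
    by_cases h7 : 0 < s'' * Real.cos (x v)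
    · rw [if_pos h7, if_pos ⟨h7, h6⟩]
    · rw [if_neg h7, if_neg fun h => h7 h.1]
  · rw [if_neg h6, if_neg fun h => h6 h.2]

end Pool.Agent.X289.Three
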