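import Mathlib

set_option autoImplicit false

/-!
# Nonnegative trigonometric polynomials with integer coefficients
-/

namespace Pool.Agent.X289.Trig

open Finset

/-- the sums over the vertices of a regular polygon -/
theorem sum_cos {N : ℕ} (hN : 0 < N) (ψ : ℝ) (a : ℤ) :
    ∑ j ∈ range N, Real.cos (a * (ψ + 2 * Real.pi * j / N)) =
      if (N : ℤ) ∣ a then N * Real.cos (a * ψ) else 0 := by
  have hN' : (N : ℂ) ≠ 0 := by exact_mod_cast hN.ne'
  set ζ : ℂ := Complex.exp (2 * Real.pi * Complex.I * (a / N)) with hζ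
  have h1 : ∀ j : ℕ, Complex.exp ((a * (ψ + 2 * Real.pi * j / N) : ℝ) * Complex.I) =
      Complex.exp ((a * ψ : ℝ) * Complex.I) * ζ ^ j := by
    intro j
    rw [hζ, ← Complex.exp_nat_mul, ← Complex.exp_add]
    congr 1
    push_cast
    ring
  have h2 : ∑ j ∈ range N, Real.cos (a * (ψ + 2 * Real.pi * j / N)) =
      (∑ j ∈ range N, Complex.exp ((a * (ψ + 2 * Real.pi * j / N) : ℝ) * Complex.I)).re := by
    rw [Complex.re_sum]
    exact sum_congr rfl fun j _ => (Complex.exp_ofReal_mul_I_re _).symm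
  have h3 : ∑ j ∈ range N, Complex.exp ((a * (ψ + 2 * Real.pi * j / N) : ℝ) * Complex.I) =
      Complex.exp ((a * ψ : ℝ) * Complex.I) * ∑ j ∈ range N, ζ ^ j := by
    rw [mul_sum]
    exact sum_congr rfl fun j _ => h1 j
  have hζN : ζ ^ N = 1 := by
    rw [hζ, ← Complex.exp_nat_mul, Complex.exp_eq_one_iff]
    refine ⟨a, ?_⟩
    field_simp
  rw [h2, h3]
  split_ifs with hd
  · obtain ⟨b, rfl⟩ := hd
    have h4 : ζ = 1 := by
      rw [hζ, Complex.exp_eq_one_iff]
      refine ⟨b, ?_⟩
      push_cast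
      field_simp
    rw [h4]
    simp only [one_pow, sum_const, card_range, nsmul_eq_mul, mul_one]
    rw [mul_comm, Complex.mul_re, Complex.natCast_re, Complex.natCast_im, zero_mul, sub_zero,
      Complex.exp_ofReal_mul_I_re]
  · have h4 : ζ ≠ 1 := by
      intro h
      rw [hζ, Complex.exp_eq_one_iff] at h
      obtain ⟨n, hn⟩ := h
      apply hd
      refine ⟨n, ?_⟩
      have h5 : (a : ℂ) / N = n := by
        have h6 : (2 * Real.pi * Complex.I : ℂ) ≠ 0 := Complex.two_pi_I_ne_zero
        have h7 : (2 * Real.pi * Complex.I : ℂ) * ((a : ℂ) / N) = 2 * Real.pi * Complex.I * n := by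
          rw [hn]; ring
        exact mul_left_cancel₀ h6 h7
      rw [div_eq_iff hN'] at h5
      have h8 : (a : ℂ) = ((n * N : ℤ) : ℂ) := by rw [h5]; push_cast; ring
      have h9 : a = n * N := by exact_mod_cast h8
      rw [h9]; ring
    have h5 : ∑ j ∈ range N, ζ ^ j = 0 := by
      have := mul_geom_sum ζ N
      rw [hζN, sub_self] at this
      rcases mul_eq_zero.1 this with h | h
      · exact absurd (sub_eq_zero.1 h) h4
      · exact h
    rw [h5, mul_zero, Complex.zero_re]


/-- the sums for two cosines -/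
theorem sum_cos_cos {N : ℕ} (hN : 0 < N) {ψ ε : ℝ} (hε : Real.cos (N * ψ) = ε) {l a : ℕ}
    (hl : l ≤ N) (ha : 0 < a) (haN : a < N) :
    ∑ j ∈ range N, Real.cos (l * (ψ + 2 * Real.pi * j / N)) *
      Real.cos (a * (ψ + 2 * Real.pi * j / N)) =
      (N : ℝ) / 2 * ((if l = a then 1 else 0) + if l + a = N then ε else 0) := by
  have h1 : ∀ j : ℕ, Real.cos (l * (ψ + 2 * Real.pi * j / N)) *
      Real.cos (a * (ψ + 2 * Real.pi * j / N)) =
      1 / 2 * (Real.cos (((l - a : ℤ) : ℝ) * (ψ + 2 * Real.pi * j / N)) +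
        Real.cos (((l + a : ℤ) : ℝ) * (ψ + 2 * Real.pi * j / N))) := by
    intro j
    push_cast
    rw [sub_mul, add_mul, Real.cos_sub, Real.cos_add]
    ring
  simp only [h1]
  rw [← mul_sum, sum_add_distrib, sum_cos hN, sum_cos hN]
  have e1 : ((N : ℤ) ∣ (l - a : ℤ)) ↔ l = a := by
    constructor
    · rintro ⟨b, hb⟩
      have hb0 : b = 0 := by
        rcases lt_trichotomy b 0 with h | h | h
        · exfalso; nlinarith
        · exact h
        · exfalso; nlinarith
      rw [hb0] at hb
      omega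
    · rintro rfl
      simp
  have e2 : ((N : ℤ) ∣ (l + a : ℤ)) ↔ l + a = N := by
    constructor
    · rintro ⟨b, hb⟩
      have hb1 : b = 1 := by
        rcases lt_trichotomy b 1 with h | h | h
        · exfalso; nlinarith
        · exact h
        · exfalso; nlinarith
      rw [hb1] at hb
      omega
    · intro h
      exact ⟨1, by omega⟩
  have e3 : l = a → Real.cos (((l - a : ℤ) : ℝ) * ψ) = 1 := by
    rintro rfl
    simp
  have e4 : l + a = N → Real.cos (((l + a : ℤ) : ℝ) * ψ) = ε := by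
    intro h
    rw [← hε, ← h]
    push_cast
    rfl
  by_cases h5 : l = a <;> by_cases h6 : l + a = N
  · rw [if_pos (e1.2 h5), if_pos (e2.2 h6), if_pos h5, if_pos h6, e3 h5, e4 h6]
    ring
  · rw [if_pos (e1.2 h5), if_neg (fun h => h6 (e2.1 h)), if_pos h5, if_neg h6, e3 h5]
    ring
  · rw [if_neg (fun h => h5 (e1.1 h)), if_pos (e2.2 h6), if_neg h5, if_pos h6, e4 h6]
    ring
  · rw [if_neg (fun h => h5 (e1.1 h)), if_neg (fun h => h6 (e2.1 h)), if_neg h5, if_neg h6]
    ring

/-- the sums for two sines -/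
theorem sum_sin_sin {N : ℕ} (hN : 0 < N) {ψ ε : ℝ} (hε : Real.cos (N * ψ) = ε) {l a : ℕ}
    (hl : l ≤ N) (ha : 0 < a) (haN : a < N) :
    ∑ j ∈ range N, Real.sin (l * (ψ + 2 * Real.pi * j / N)) *
      Real.sin (a * (ψ + 2 * Real.pi * j / N)) =
      (N : ℝ) / 2 * ((if l = a then 1 else 0) - if l + a = N then ε else 0) := by
  have h1 : ∀ j : ℕ, Real.sin (l * (ψ + 2 * Real.pi * j / N)) *
      Real.sin (a * (ψ + 2 * Real.pi * j / N)) =
      1 / 2 * (Real.cos (((l - a : ℤ) : ℝ) * (ψ + 2 * Real.pi * j / N)) -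
        Real.cos (((l + a : ℤ) : ℝ) * (ψ + 2 * Real.pi * j / N))) := by
    intro j
    push_cast
    rw [sub_mul, add_mul, Real.cos_sub, Real.cos_add]
    ring
  simp only [h1]
  rw [← mul_sum, sum_sub_distrib, sum_cos hN, sum_cos hN]
  have e1 : ((N : ℤ) ∣ (l - a : ℤ)) ↔ l = a := by
    constructor
    · rintro ⟨b, hb⟩
      have hb0 : b = 0 := by
        rcases lt_trichotomy b 0 with h | h | h
        · exfalso; nlinarith
        · exact h
        · exfalso; nlinarith
      rw [hb0] at hb
      omega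
    · rintro rfl
      simp
  have e2 : ((N : ℤ) ∣ (l + a : ℤ)) ↔ l + a = N := by
    constructor
    · rintro ⟨b, hb⟩
      have hb1 : b = 1 := by
        rcases lt_trichotomy b 1 with h | h | h
        · exfalso; nlinarith
        · exact h
        · exfalso; nlinarith
      rw [hb1] at hb
      omega
    · intro h
      exact ⟨1, by omega⟩
  have e3 : l = a → Real.cos (((l - a : ℤ) : ℝ) * ψ) = 1 := by
    rintro rfl
    simp
  have e4 : l + a = N → Real.cos (((l + a : ℤ) : ℝ) * ψ) = ε := by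
    intro h
    rw [← hε, ← h]
    push_cast
    rfl
  by_cases h5 : l = a <;> by_cases h6 : l + a = N
  · rw [if_pos (e1.2 h5), if_pos (e2.2 h6), if_pos h5, if_pos h6, e3 h5, e4 h6]
    ring
  · rw [if_pos (e1.2 h5), if_neg (fun h => h6 (e2.1 h)), if_pos h5, if_neg h6, e3 h5]
    ring
  · rw [if_neg (fun h => h5 (e1.1 h)), if_pos (e2.2 h6), if_neg h5, if_pos h6, e4 h6]
    ring
  · rw [if_neg (fun h => h5 (e1.1 h)), if_neg (fun h => h6 (e2.1 h)), if_neg h5, if_neg h6]
    ring

/-- the trigonometric polynomial -/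
noncomputable def tp (c : ℕ → ℝ) (K : ℕ) (t : ℝ) : ℝ := ∑ l ∈ range (K + 1), c l * Real.cos (l * t)

theorem hasDerivAt_tp (c : ℕ → ℝ) (K : ℕ) (t : ℝ) :
    HasDerivAt (tp c K) (∑ l ∈ range (K + 1), c l * (-Real.sin (l * t) * l)) t := by
  unfold tp
  refine HasDerivAt.fun_sum fun l _ => ?_
  have h1 : HasDerivAt (fun t : ℝ => (l : ℝ) * t) (l : ℝ) t := by
    simpa using (hasDerivAt_id t).const_mul (l : ℝ)
  exact (h1.cos).const_mul (c l)

/-- **The classification.** A nonnegative cosine polynomial with constant term one and highest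
coefficient of absolute value at least one is `1 ± cos (K t)`. -/
theorem classify {c : ℕ → ℝ} {K : ℕ} (hK : 0 < K) (h0 : c 0 = 1) (hcK : 1 ≤ |c K|)
    (hp : ∀ t, 0 ≤ tp c K t) : |c K| = 1 ∧ ∀ a, 0 < a → a < K → c a = 0 := by
  have hKr : (K : ℝ) ≠ 0 := by exact_mod_cast hK.ne'
  -- the polygon
  obtain ⟨ψ, ε, hε, hε2, hεc⟩ : ∃ ψ ε : ℝ, Real.cos (K * ψ) = ε ∧ (ε = 1 ∨ ε = -1) ∧
      c K * ε = -|c K| := by
    rcases le_total 0 (c K) with h | h
    · refine ⟨Real.pi / K, -1, ?_, Or.inr rfl, ?_⟩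
      · rw [mul_div_cancel₀ _ hKr, Real.cos_pi]
      · rw [abs_of_nonneg h]; ring
    · refine ⟨0, 1, by simp, Or.inl rfl, ?_⟩
      rw [abs_of_nonpos h]; ring
  set θ : ℕ → ℝ := fun j => ψ + 2 * Real.pi * j / K with hθ
  have hsum : ∑ j ∈ range K, tp c K (θ j) = K * (1 - |c K|) := by
    unfold tp
    rw [sum_comm]
    have h1 : ∀ l ∈ range (K + 1), ∑ j ∈ range K, c l * Real.cos (l * θ j) =
        (if l = 0 then (K : ℝ) * c 0 else 0) + if l = K then (K : ℝ) * (c K * ε) else 0 := by
      intro l hl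
      rw [← mul_sum]
      have h2 := sum_cos hK ψ (l : ℤ)
      simp only [Int.cast_natCast] at h2
      rw [hθ]
      simp only
      rw [h2]
      rw [mem_range] at hl
      by_cases hl0 : l = 0
      · subst hl0
        rw [if_pos (by simp), if_pos rfl, if_neg hK.ne]
        simp
        ring
      · by_cases hlK : l = K
        · subst hlK
          rw [if_pos (dvd_refl _), if_neg hl0, if_pos rfl, hε]
          ring
        · rw [if_neg, if_neg hl0, if_neg hlK]
          · ring
          · intro hd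
            have h3 : K ∣ l := by exact_mod_cast hd
            have := Nat.le_of_dvd (Nat.pos_of_ne_zero hl0) h3
            omega
    rw [sum_congr rfl h1, sum_add_distrib, sum_ite_eq', sum_ite_eq', if_pos (by simp),
      if_pos (by simp), h0, hεc]
    ring
  have habs : |c K| = 1 := by
    refine le_antisymm ?_ hcK
    have h1 : 0 ≤ ∑ j ∈ range K, tp c K (θ j) := sum_nonneg fun j _ => hp _
    rw [hsum] at h1
    have h2 : (0 : ℝ) < K := by exact_mod_cast hK
    by_contra hlt
    push Not at hlt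
    nlinarith
  refine ⟨habs, ?_⟩
  have hz : ∀ j ∈ range K, tp c K (θ j) = 0 := by
    rw [← sum_eq_zero_iff_of_nonneg (fun j _ => hp _), hsum, habs]
    ring
  have hz' : ∀ j ∈ range K, ∑ l ∈ range (K + 1), c l * (-Real.sin (l * θ j) * l) = 0 := by
    intro j hj
    refine IsLocalMin.hasDerivAt_eq_zero (f := tp c K) (a := θ j) ?_ (hasDerivAt_tp c K _)
    exact Filter.Eventually.of_forall fun t => by rw [hz j hj]; exact hp t
  intro a ha haK
  have k1 : ∑ j ∈ range K, tp c K (θ j) * Real.cos (a * θ j) = 0 :=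
    sum_eq_zero fun j hj => by rw [hz j hj, zero_mul]
  have k2 : ∑ j ∈ range K, (∑ l ∈ range (K + 1), c l * (-Real.sin (l * θ j) * l)) *
      Real.sin (a * θ j) = 0 := sum_eq_zero fun j hj => by rw [hz' j hj, zero_mul]
  have k3 : ∑ j ∈ range K, tp c K (θ j) * Real.cos (a * θ j) =
      K / 2 * (c a + ε * c (K - a)) := by
    unfold tp
    simp only [sum_mul]
    rw [sum_comm]
    have h1 : ∀ l ∈ range (K + 1), ∑ j ∈ range K, c l * Real.cos (l * θ j) * Real.cos (a * θ j) =
        (if l = a then (K : ℝ) / 2 * c a else 0) +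
          if l = K - a then (K : ℝ) / 2 * (ε * c (K - a)) else 0 := by
      intro l hl
      rw [mem_range] at hl
      have h2 := sum_cos_cos hK hε (l := l) (a := a) (by omega) ha haK
      simp only [mul_assoc]
      rw [← mul_sum]
      rw [hθ]
      simp only
      rw [h2]
      have h3 : l + a = K ↔ l = K - a := by omega
      by_cases h4 : l = a <;> by_cases h5 : l = K - a
      · rw [if_pos h4, if_pos (h3.2 h5), if_pos h4, if_pos h5, ← h5, ← h4]
        ring
      · rw [if_pos h4, if_neg (fun h => h5 (h3.1 h)), if_pos h4, if_neg h5, h4]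
        ring
      · rw [if_neg h4, if_pos (h3.2 h5), if_neg h4, if_pos h5, h5]
        ring
      · rw [if_neg h4, if_neg (fun h => h5 (h3.1 h)), if_neg h4, if_neg h5]
        ring
    rw [sum_congr rfl h1, sum_add_distrib, sum_ite_eq', sum_ite_eq',
      if_pos (by rw [mem_range]; omega), if_pos (by rw [mem_range]; omega)]
    ring
  have k4 : ∑ j ∈ range K, (∑ l ∈ range (K + 1), c l * (-Real.sin (l * θ j) * l)) *
      Real.sin (a * θ j) = -(K / 2 * (a * c a - ε * ((K - a : ℕ) : ℝ) * c (K - a))) := by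
    simp only [sum_mul]
    rw [sum_comm]
    have h1 : ∀ l ∈ range (K + 1), ∑ j ∈ range K, c l * (-Real.sin (l * θ j) * l) *
        Real.sin (a * θ j) =
        (if l = a then -((K : ℝ) / 2 * (a * c a)) else 0) +
          if l = K - a then (K : ℝ) / 2 * (ε * ((K - a : ℕ) : ℝ) * c (K - a)) else 0 := by
      intro l hl
      rw [mem_range] at hl
      have h2 := sum_sin_sin hK hε (l := l) (a := a) (by omega) ha haK
      have h6 : ∀ j ∈ range K, c l * (-Real.sin (l * θ j) * l) * Real.sin (a * θ j) =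
          (-(c l * l)) * (Real.sin (l * θ j) * Real.sin (a * θ j)) := fun j _ => by ring
      rw [sum_congr rfl h6, ← mul_sum]
      rw [hθ]
      simp only
      rw [h2]
      have h3 : l + a = K ↔ l = K - a := by omega
      by_cases h4 : l = a <;> by_cases h5 : l = K - a
      · rw [if_pos h4, if_pos (h3.2 h5), if_pos h4, if_pos h5, ← h5, ← h4]
        ring
      · rw [if_pos h4, if_neg (fun h => h5 (h3.1 h)), if_pos h4, if_neg h5, h4]
        ring
      · rw [if_neg h4, if_pos (h3.2 h5), if_neg h4, if_pos h5, h5]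
        ring
      · rw [if_neg h4, if_neg (fun h => h5 (h3.1 h)), if_neg h4, if_neg h5]
        ring
    rw [sum_congr rfl h1, sum_add_distrib, sum_ite_eq', sum_ite_eq',
      if_pos (by rw [mem_range]; omega), if_pos (by rw [mem_range]; omega)]
    ring
  rw [k1] at k3
  rw [k2] at k4
  have hcast : ((K - a : ℕ) : ℝ) = K - a := by
    rw [Nat.cast_sub haK.le]
  rw [hcast] at k4
  have e1 : c a + ε * c (K - a) = 0 := by
    rcases mul_eq_zero.1 k3.symm with h | h
    · exact absurd h (by positivity)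
    · exact h
  have e2 : (a : ℝ) * c a - ε * (K - a) * c (K - a) = 0 := by
    have h := neg_eq_zero.1 k4.symm
    rcases mul_eq_zero.1 h with h | h
    · exact absurd h (by positivity)
    · exact h
  have e3 : (K : ℝ) * c a = 0 := by linear_combination e2 + (K - a : ℝ) * e1
  exact (mul_eq_zero.1 e3).resolve_left hKr

end Pool.Agent.X289.Trig
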