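import Pool.Agent.X289.Al

set_option autoImplicit false
set_option linter.unusedSectionVars false

/-!
# The characters of SU(2) as functions of the cosine
-/

namespace Pool.Agent.X289.Uch

open Finset Filter Topology MeasureTheory
open Pool.Agent.X289.Dens Pool.Agent.X289.Cls Pool.Agent.X289.SymM

/-- the Chebyshev polynomials of the second kind as functions -/
noncomputable def Cf (l : ℕ) (x : ℝ) : ℝ := (Polynomial.Chebyshev.U ℝ (l : ℤ)).eval x

theorem cont_Cf (l : ℕ) : Continuous (Cf l) := (Polynomial.Chebyshev.U ℝ (l : ℤ)).continuous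

theorem Cf_zero (x : ℝ) : Cf 0 x = 1 := by simp [Cf]

theorem Cf_one (x : ℝ) : Cf 1 x = 2 * x := by simp [Cf]

theorem Cf_add_two (l : ℕ) (x : ℝ) : Cf (l + 2) x = 2 * x * Cf (l + 1) x - Cf l x := by
  unfold Cf
  push_cast
  rw [Polynomial.Chebyshev.U_add_two]
  simp

theorem Cf_sub (l : ℕ) (x : ℝ) : Cf (l + 2) x = Cf l x + 2 * Tf (l + 2) x := by
  have h : ∀ l, Cf (l + 1) x - x * Cf l x = Tf (l + 1) x ∧
      Cf (l + 2) x - x * Cf (l + 1) x = Tf (l + 2) x := by
    intro l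
    induction l with
    | zero =>
      have h1 := mul_Tf 0 x
      rw [Tf_one, Tf_zero] at h1
      rw [Cf_add_two, Cf_one, Cf_zero, Tf_one]
      constructor <;> linarith
    | succ l ih =>
      refine ⟨ih.2, ?_⟩
      have h1 := mul_Tf (l + 1) x
      have h2 := Cf_add_two (l + 1) x
      have h3 := Cf_add_two l x
      have e : l + 1 + 2 = l + 2 + 1 := by ring
      have h4 := ih.1
      have h5 := ih.2
      change Cf (l + 1 + 2) x - x * Cf (l + 2) x = Tf (l + 1 + 2) x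
      have h6 : Tf (l + 1 + 2) x = 2 * (x * Tf (l + 1 + 1) x) - Tf (l + 1) x := by linarith
      rw [h6, h2, ← h4]
      have e2 : Tf (l + 1 + 1) x = Tf (l + 2) x := rfl
      have e3 : Cf (l + 1 + 1) x = Cf (l + 2) x := rfl
      rw [e2, ← h5, e3]
      rw [h3]
      ring
  have h1 := (h l).2
  have h2 := Cf_add_two l x
  have h3 : 2 * (x * Cf (l + 1) x) = Cf (l + 2) x + Cf l x := by linarith
  linarith

theorem ch_eq (m : ℕ) (t : ℝ) : ch m t = Cf m (Real.cos t) := by
  have h : ∀ m, ch m t = Cf m (Real.cos t) ∧ ch (m + 1) t = Cf (m + 1) (Real.cos t) := by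
    intro m
    induction m with
    | zero =>
      exact ⟨by rw [ch_zero, Cf_zero], by rw [ch_one, Cf_one]⟩
    | succ m ih =>
      refine ⟨ih.2, ?_⟩
      change ch (m + 2) t = Cf (m + 2) (Real.cos t)
      rw [ch_add_two, Cf_sub, Tf_cos, ih.1]
  exact (h m).1

/-- the squares -/
theorem Cf_double (x : ℝ) (n : ℕ) : Cf (2 * n + 2) x = Cf (n + 1) x ^ 2 - Cf n x ^ 2 ∧
    Cf (2 * n + 3) x = Cf (n + 1) x * (Cf (n + 2) x - Cf n x) := by
  induction n with
  | zero =>
    have h0 := Cf_zero x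
    have h1 := Cf_one x
    have h2 := Cf_add_two 0 x
    have h3 := Cf_add_two 1 x
    simp only [zero_add, mul_zero] at *
    constructor
    · rw [h2, h1, h0]; ring
    · change Cf (1 + 2) x = _
      rw [h3]
      change 2 * x * Cf 2 x - Cf 1 x = _
      rw [h2, h1, h0]; ring
  | succ n ih =>
    obtain ⟨ih1, ih2⟩ := ih
    have a1 : Cf (2 * (n + 1) + 2) x = 2 * x * Cf (2 * n + 3) x - Cf (2 * n + 2) x :=
      Cf_add_two (2 * n + 2) x
    have a2 : Cf (2 * (n + 1) + 3) x = 2 * x * Cf (2 * (n + 1) + 2) x - Cf (2 * n + 3) x :=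
      Cf_add_two (2 * n + 3) x
    have a3 : Cf (n + 2) x = 2 * x * Cf (n + 1) x - Cf n x := Cf_add_two n x
    have a4 : Cf (n + 3) x = 2 * x * Cf (n + 2) x - Cf (n + 1) x := Cf_add_two (n + 1) x
    have b1 : Cf (2 * (n + 1) + 2) x = Cf (n + 2) x ^ 2 - Cf (n + 1) x ^ 2 := by
      rw [a1, ih2, ih1, a3]; ring
    refine ⟨b1, ?_⟩
    change Cf (2 * (n + 1) + 3) x = Cf (n + 2) x * (Cf (n + 3) x - Cf (n + 1) x)
    rw [a2, b1, ih2, a4, a3]
    ring

/-- the Clebsch-Gordan formula for squares -/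
theorem Cf_sq (x : ℝ) (n : ℕ) : Cf n x ^ 2 = ∑ j ∈ range (n + 1), Cf (2 * j) x := by
  induction n with
  | zero => simp [Cf_zero]
  | succ n ih =>
    rw [sum_range_succ, ← ih]
    have h := (Cf_double x n).1
    have e : 2 * (n + 1) = 2 * n + 2 := by ring
    rw [e, h]
    ring

/-- orthogonality -/
theorem J_CC (a b : ℕ) : J (dk 1) (fun x => Cf a x * Cf b x) = if a = b then 1 else 0 := by
  have hpi := Real.pi_pos
  unfold J
  have h1 : ∀ t : ℝ, Cf a (Real.cos t) * Cf b (Real.cos t) * dk 1 t =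
      Real.cos (((a - b : ℤ) : ℝ) * t) - Real.cos (((a + b + 2 : ℤ) : ℝ) * t) := by
    intro t
    have ha := Polynomial.Chebyshev.U_real_cos t (a : ℤ)
    have hb := Polynomial.Chebyshev.U_real_cos t (b : ℤ)
    unfold dk Cf
    have e1 : Real.sin ((1 : ℕ) * t) = Real.sin t := by simp
    rw [e1]
    have e2 : (Polynomial.Chebyshev.U ℝ (a : ℤ)).eval (Real.cos t) *
        (Polynomial.Chebyshev.U ℝ (b : ℤ)).eval (Real.cos t) * (2 * Real.sin t ^ 2) =
        2 * (((Polynomial.Chebyshev.U ℝ (a : ℤ)).eval (Real.cos t) * Real.sin t) *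
          ((Polynomial.Chebyshev.U ℝ (b : ℤ)).eval (Real.cos t) * Real.sin t)) := by ring
    rw [e2, ha, hb]
    have e3 : (((a - b : ℤ) : ℝ) * t) = (((a : ℤ) : ℝ) + 1) * t - (((b : ℤ) : ℝ) + 1) * t := by
      push_cast; ring
    have e4 : (((a + b + 2 : ℤ) : ℝ) * t) = (((a : ℤ) : ℝ) + 1) * t + (((b : ℤ) : ℝ) + 1) * t := by
      push_cast; ring
    rw [e3, e4, Real.cos_sub, Real.cos_add]
    ring
  simp only [h1]
  rw [intervalIntegral.integral_sub (ci_cos _) (ci_cos _), int_cos, int_cos]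
  have e1 : ((a - b : ℤ) = 0) ↔ a = b := by omega
  have e2 : ¬ ((a + b + 2 : ℤ) = 0) := by omega
  rw [if_neg e2, sub_zero]
  simp only [e1]
  split_ifs
  · field_simp
  · simp

theorem J_sum (s : Finset ℕ) (f : ℕ → ℝ → ℝ) (hf : ∀ i, Continuous (f i)) :
    J (dk 1) (fun x => ∑ i ∈ s, f i x) = ∑ i ∈ s, J (dk 1) (f i) := by
  classical
  induction s using Finset.induction_on with
  | empty => simp [J]
  | insert b s hb ih =>
    simp only [sum_insert hb]
    rw [J_add (cont_dk 1) (hf b) (continuous_finsetSum _ fun i _ => hf i), ih]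

theorem J_C (a : ℕ) : J (dk 1) (Cf a) = if a = 0 then 1 else 0 := by
  have h := J_CC a 0
  simp only [Cf_zero, mul_one] at h
  exact h

theorem J_sq_C (a : ℕ) : J (dk 1) (fun x => Cf a x ^ 2) = 1 := by
  have h := J_CC a a
  rw [if_pos rfl] at h
  rw [← h]
  congr 1
  funext x
  ring

theorem J_four (a : ℕ) : J (dk 1) (fun x => Cf a x ^ 4) = a + 1 := by
  have e : (fun x => Cf a x ^ 4) = fun x => ∑ i ∈ range (a + 1), ∑ j ∈ range (a + 1),
      Cf (2 * i) x * Cf (2 * j) x := by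
    funext x
    have : Cf a x ^ 4 = Cf a x ^ 2 * Cf a x ^ 2 := by ring
    rw [this, Cf_sq, sum_mul_sum]
  rw [e, J_sum (range (a + 1)) (fun i x => ∑ j ∈ range (a + 1), Cf (2 * i) x * Cf (2 * j) x)
    fun i => continuous_finsetSum _ fun j _ => (cont_Cf _).mul (cont_Cf _)]
  have h1 : ∀ i ∈ range (a + 1), J (dk 1) (fun x => ∑ j ∈ range (a + 1),
      Cf (2 * i) x * Cf (2 * j) x) = 1 := by
    intro i hi
    rw [J_sum (range (a + 1)) (fun j x => Cf (2 * i) x * Cf (2 * j) x)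
      fun j => (cont_Cf _).mul (cont_Cf _)]
    simp only [J_CC]
    rw [sum_eq_single i]
    · rw [if_pos rfl]
    · intro j _ hj
      rw [if_neg (by omega)]
    · intro h
      exact absurd hi h
  rw [sum_congr rfl h1]
  simp

theorem J_sq_two {a : ℕ} (ha : 1 ≤ a) : J (dk 1) (fun x => Cf a x ^ 2 * Cf 2 x) = 1 := by
  have e : (fun x => Cf a x ^ 2 * Cf 2 x) = fun x => ∑ i ∈ range (a + 1),
      Cf (2 * i) x * Cf 2 x := by
    funext x
    rw [Cf_sq, sum_mul]
  rw [e, J_sum (range (a + 1)) (fun i x => Cf (2 * i) x * Cf 2 x)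
    fun i => (cont_Cf _).mul (cont_Cf _)]
  simp only [J_CC]
  rw [sum_eq_single 1]
  · rw [if_pos (by norm_num)]
  · intro j _ hj
    rw [if_neg (by omega)]
  · intro h
    exact absurd (mem_range.2 (by omega)) h

/-- density of the characters -/
theorem densU {Q : (ℝ → ℝ) → Prop}
    (hadd : ∀ f g, Continuous f → Continuous g → Q f → Q g → Q fun x => f x + g x)
    (hsmul : ∀ (c : ℝ) f, Continuous f → Q f → Q fun x => c * f x)
    (hU : ∀ l : ℕ, Q (Cf l))
    (hcl : ∀ f, Continuous f → (∀ ε > 0, ∃ g, Continuous g ∧ Q g ∧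
      ∀ x ∈ Set.Icc (-1 : ℝ) 1, |f x - g x| ≤ ε) → Q f) {f : ℝ → ℝ} (hf : Continuous f) : Q f := by
  refine dens hadd hsmul (fun l => ?_) hcl hf
  rcases l with _ | _ | l
  · have e : Tf 0 = Cf 0 := by funext x; rw [Tf_zero, Cf_zero]
    rw [e]
    exact hU 0
  · have e : Tf (0 + 1) = fun x => 1 / 2 * Cf 1 x := by
      funext x
      rw [Cf_one]
      change Tf 1 x = _
      rw [Tf_one]
      ring
    rw [e]
    exact hsmul _ _ (cont_Cf 1) (hU 1)
  · have e : Tf (l + 1 + 1) = fun x => 1 / 2 * Cf (l + 2) x + (-(1 / 2)) * Cf l x := by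
      funext x
      rw [Cf_sub]
      change Tf (l + 2) x = _
      ring
    rw [e]
    exact hadd _ _ ((cont_Cf _).const_mul _) ((cont_Cf _).const_mul _)
      (hsmul _ _ (cont_Cf _) (hU _)) (hsmul _ _ (cont_Cf _) (hU _))

end Pool.Agent.X289.Uch
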